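import Pool.Agent.Work.MP_a81742_lc_or.Member

/-!
# The language of the maximum is in `P^{ONP^A}`
-/

namespace ORDist

open PTime

open Classical in
/-- is there a string in `A` of the length of `u` which is not smaller than `u` -/
noncomputable def geLang (A : Str → Bool) (u : Str) : Bool :=
  decide (∃ w : Str, w.length = u.length ∧ A w = true ∧ val u ≤ val w)

theorem geLang_iff {A : Str → Bool} {u : Str} :
    geLang A u = true ↔ ∃ w : Str, w.length = u.length ∧ A w = true ∧ val u ≤ val w := by
  simp [geLang]

/-- this language is in oblivious NP: the maximum is a witness for all inputs of its length -/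
theorem geLang_inONPO (A : Str → Bool) : InONPO A (geLang A) := by
  have hu : PT (fun s : Str × Str => unpairS s.1) := (PT.unpairS PT.id).comp PT.fst
  refine ⟨fun z => decide (z.2.length = z.1.length) && (A z.2 && leS z.1 z.2), Polynomial.X,
    polyTimeO_list (qs := fun s => [(unpairS s).2]) (out := fun t =>
      [decide ((unpairS t.1).2.length = (unpairS t.1).1.length) &&
        (t.2.headD false && leS (unpairS t.1).1 (unpairS t.1).2)])
      ((PT.unpairS PT.id).snd'.cons (PT.const [])) ?_ ?_, fun n => ?_⟩
  · exact ((PT.natEq hu.snd'.length hu.fst'.length).and
      ((PT.snd.headD (PT.const false)).and (pt_leS hu.fst' hu.snd'))).cons (PT.const [])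
  · rintro ⟨u, w⟩
    simp only [unpairS_pairStr, List.map_cons, List.map_nil, List.headD_cons]
  · rw [Polynomial.eval_X]
    have hback : ∀ u : Str, u.length = n → (∃ w' : Str, w'.length ≤ n ∧
        (decide (w'.length = u.length) && (A w' && leS u w')) = true) → geLang A u = true := by
      rintro u hu ⟨w', _, h⟩
      simp only [Bool.and_eq_true, decide_eq_true_eq] at h
      exact geLang_iff.2 ⟨w', h.1, h.2.1, (leS_iff h.1.symm).1 h.2.2⟩
    by_cases h : ∃ w : Str, w.length = n ∧ A w = true
    · obtain ⟨w, hw, hA, hmax⟩ := exists_max h
      refine ⟨w, hw.le, fun u hu => ⟨fun h1 => ?_, hback u hu⟩⟩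
      obtain ⟨w', h2, h3, h4⟩ := geLang_iff.1 h1
      simp only [Bool.and_eq_true, decide_eq_true_eq]
      exact ⟨hw.trans hu.symm, hA, (leS_iff (hu.trans hw.symm)).2
        (h4.trans (hmax w' (h2.trans hu) h3))⟩
    · refine ⟨[], Nat.zero_le _, fun u hu => ⟨fun h1 => ?_, hback u hu⟩⟩
      obtain ⟨w', h2, h3, h4⟩ := geLang_iff.1 h1
      exact absurd ⟨w', h2.trans hu, h3⟩ h

/-- the queries of the binary search -/
def probe (N : ℕ) (a : Str) : Str :=
  bif a.isEmpty then List.replicate N false
  else a.tail ++ true :: List.replicate (N - a.length) false

theorem pt_replB {α : Type} [Code α] {n : α → ℕ} (hn : PT n) (b : Bool) :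
    PT (fun a => List.replicate (n a) b) := by
  refine (PT.map (g := fun _ : α × Unit => b) hn.replicate (PT.const b)).congr fun a => ?_
  rw [List.map_replicate]

theorem val_zero : ∀ n : ℕ, val (List.replicate n false) = 0
  | 0 => rfl
  | n + 1 => by rw [List.replicate_succ, val, cond_false, val_zero]

/-- a probe is at most the maximum if and only if the next bit of the maximum is `1` -/
theorem probe_le : ∀ (w : Str) (i : ℕ), i < w.length →
    (val (w.take i ++ true :: List.replicate (w.length - (i + 1)) false) ≤ val w ↔
      w.getD i false = true)
  | [], i, h => by simp at h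
  | b :: w, 0, _ => by
    have h1 := val_lt w
    rw [List.take_zero, List.nil_append, val, val, val_zero, List.length_replicate, cond_true,
      List.length_cons, zero_add, Nat.add_sub_cancel, add_zero, List.getD_cons_zero]
    cases b
    · simp only [cond_false, zero_add, Bool.false_eq_true, iff_false]; omega
    · simp only [cond_true, iff_true]; omega
  | b :: w, i + 1, h => by
    have h1 : i < w.length := by simpa using h
    have ih := probe_le w i h1
    have h2 : (w.take i ++ true :: List.replicate (w.length - (i + 1)) false).length = w.length := by
      rw [List.length_append, List.length_cons, List.length_replicate, List.length_take]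
      omega
    have h3 : (b :: w).length - (i + 1 + 1) = w.length - (i + 1) := by
      rw [List.length_cons]; omega
    rw [List.take_succ_cons, List.cons_append, h3, val, val, h2, List.getD_cons_succ]
    rw [← ih]
    omega

/-- the procedure of the binary search -/
def MB (l : ℕ → ℕ) : OProc := fun z =>
  bif decide (z.2.length ≤ l z.1.length) then (true, true :: probe (l z.1.length) z.2)
  else (false, [tallyB z.1 && (z.2.headD false && z.2.tail.getLastD false)])

theorem pt_MB {l : ℕ → ℕ} (hl : PT l) : PT (MB l) := by
  have hN : PT (fun z : Str × Str => l z.1.length) := hl.comp PT.fst.length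
  have hp : PT (fun z : Str × Str => probe (l z.1.length) z.2) :=
    PT.cond PT.snd.isEmpty (pt_replB hN false)
      (PT.snd.tail.append ((PT.const true).cons (pt_replB (hN.sub PT.snd.length) false)))
  exact PT.cond (PT.le PT.snd.length hN) ((PT.const true).pair ((PT.const true).cons hp))
    ((PT.const false).pair (((pt_tallyB PT.fst).and ((PT.snd.headD (PT.const false)).and
      (pt_last PT.snd.tail))).cons (PT.const [])))

variable {A : Str → Bool} {l : ℕ → ℕ}

theorem answers_MB_succ {x : Str} {j : ℕ} (hj : j ≤ l x.length) :
    answers (join A (geLang A)) (MB l) x (j + 1) = answers (join A (geLang A)) (MB l) x j ++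
      [geLang A (probe (l x.length) (answers (join A (geLang A)) (MB l) x j))] := by
  rw [answers]
  congr 2
  have h : (MB l (x, answers (join A (geLang A)) (MB l) x j)).2 =
      true :: probe (l x.length) (answers (join A (geLang A)) (MB l) x j) := by
    unfold MB
    simp only [length_answers]
    rw [decide_eq_true hj, cond_true]
  rw [h]
  rfl

/-- the answers in the binary search, if there is a maximum -/
theorem answers_MB {x w : Str} (hw : w.length = l x.length) (hA : A w = true)
    (hmax : ∀ w' : Str, w'.length = l x.length → A w' = true → val w' ≤ val w) :
    ∀ j ≤ l x.length, answers (join A (geLang A)) (MB l) x (j + 1) = true :: w.take j := by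
  have hge : ∀ u : Str, u.length = l x.length → (geLang A u = true ↔ val u ≤ val w) := by
    intro u hu
    rw [geLang_iff]
    constructor
    · rintro ⟨w', h1, h2, h3⟩
      exact h3.trans (hmax w' (h1.trans hu) h2)
    · intro h
      exact ⟨w, hw.trans hu.symm, hA, h⟩
  intro j
  induction j with
  | zero =>
    intro _
    rw [answers_MB_succ (Nat.zero_le _), answers, List.nil_append, List.take_zero]
    congr 1
    unfold probe
    rw [List.isEmpty_nil, cond_true, hge _ List.length_replicate, val_zero]
    exact Nat.zero_le _
  | succ j ih =>
    intro hj
    rw [answers_MB_succ (by omega), ih (by omega)]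
    have h1 : probe (l x.length) (true :: w.take j) =
        w.take j ++ true :: List.replicate (w.length - (j + 1)) false := by
      unfold probe
      rw [List.isEmpty_cons, cond_false, List.tail_cons, List.length_cons, List.length_take,
        Nat.min_eq_left (by omega), hw]
    have h2 : (w.take j ++ true :: List.replicate (w.length - (j + 1)) false).length =
        l x.length := by
      rw [List.length_append, List.length_cons, List.length_replicate, List.length_take]
      omega
    have h3 := hge _ h2
    rw [probe_le w j (by omega)] at h3
    have h4 : geLang A (w.take j ++ true :: List.replicate (w.length - (j + 1)) false) =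
        w.getD j false := Bool.eq_iff_iff.2 h3
    rw [h1, h4, List.cons_append, List.getD_eq_getElem _ _ (by omega), List.take_append_getElem]

/-- the language of the maximum is in `P^{ONP^A}` -/
theorem maxLang_inPONPO (A : Str → Bool) {l : ℕ → ℕ} (hl : PT l) :
    InPONPO A (maxLang A l) := by
  classical
  obtain ⟨q, hq⟩ := hl.size
  refine ⟨geLang A, geLang_inONPO A, fun x => decide (x ∈ maxLang A l),
    ⟨MB l, polyTime_of_pt (pt_MB hl), q.comp (2 * Polynomial.X + 1) + 1, fun x =>
      ⟨l x.length + 1, ?_, ?_, ?_⟩⟩, fun x => by simp⟩
  · have h1 := hq x.length
    rw [sz_nat, sz_nat] at h1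
    simp only [Polynomial.eval_add, Polynomial.eval_mul, Polynomial.eval_X,
      Polynomial.eval_ofNat, Polynomial.eval_comp, Polynomial.eval_one]
    omega
  · intro j hj
    unfold MB
    simp only [length_answers]
    rw [decide_eq_true (by omega), cond_true]
  · have h0 : MB l (x, answers (join A (geLang A)) (MB l) x (l x.length + 1)) =
        (false, [tallyB x && ((answers (join A (geLang A)) (MB l) x (l x.length + 1)).headD false &&
          (answers (join A (geLang A)) (MB l) x (l x.length + 1)).tail.getLastD false)]) := by
      unfold MB
      simp only [length_answers]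
      rw [decide_eq_false (by omega), cond_false]
    rw [h0]
    congr 2
    rw [Bool.eq_iff_iff, decide_eq_true_eq, Bool.and_eq_true, tallyB_iff]
    refine and_congr_right fun _ => ?_
    by_cases h : ∃ w : Str, w.length = l x.length ∧ A w = true
    · obtain ⟨w, hw, hA, hmax⟩ := exists_max h
      rw [answers_MB hw hA hmax _ le_rfl, List.headD_cons, List.tail_cons, Bool.true_and,
        maxOdd_iff hw hA hmax, ← hw, List.take_length]
    · have hN : ∀ u : Str, u.length = l x.length → geLang A u = false := by
        intro u hu
        rw [← Bool.not_eq_true, geLang_iff]
        rintro ⟨w, h1, h2, _⟩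
        exact h ⟨w, h1.trans hu, h2⟩
      have h1 : (answers (join A (geLang A)) (MB l) x (l x.length + 1)).headD false = false := by
        have : ∀ j ≤ l x.length, (answers (join A (geLang A)) (MB l) x (j + 1)).headD false =
            false := by
          intro j
          induction j with
          | zero =>
            intro _
            rw [answers_MB_succ (Nat.zero_le _), answers, List.nil_append, List.headD_cons]
            unfold probe
            rw [List.isEmpty_nil, cond_true]
            exact hN _ List.length_replicate
          | succ j ih =>
            intro hj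
            rw [answers_MB_succ (by omega)]
            have h2 := ih (by omega)
            have h3 := length_answers (join A (geLang A)) (MB l) x (j + 1)
            cases h4 : answers (join A (geLang A)) (MB l) x (j + 1) with
            | nil => rw [h4] at h3; simp at h3
            | cons b t =>
              rw [h4, List.headD_cons] at h2
              rw [List.cons_append, List.headD_cons, h2]
        exact this _ le_rfl
      rw [h1, Bool.false_and]
      constructor
      · intro h2
        exact absurd h2 (by simp)
      · rintro ⟨w, hw, hA, _⟩
        exact absurd ⟨w, hw, hA⟩ h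

end ORDist
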