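import Pool.Agent.Work.MP_a81742_lc_or.TwoDefs
import Pool.Agent.Work.MP_a81742_lc_or.MemberONP
import Pool.Agent.Work.MP_609cce_lc.OrcHard

/-!
# Relative to the oracle `B = A0 join T`, oblivious symmetric alternation collapses to `P`
-/

namespace ORTwo

open ORDist PTime

theorem pt_natPair {α : Type} [Code α] {f g : α → ℕ} (hf : PT f) (hg : PT g) :
    PT (fun a => Nat.pair (f a) (g a)) := by
  refine (PT.ite (P := fun a => f a < g a) (PT.lt hf hg) ((hg.mul hg).add hf)
    (((hf.mul hf).add hf).add hg)).congr fun a => ?_
  rfl

theorem pt_cod {α : Type} [Code α] {e m t n i : α → ℕ} (he : PT e) (hm : PT m) (ht : PT t)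
    (hn : PT n) (hi : PT i) : PT (fun a => cod (e a) (m a) (t a) (n a) (i a)) :=
  pt_natPair he (pt_natPair hm (pt_natPair ht (pt_natPair hn hi)))

theorem pt_tripStr {α : Type} [Code α] {f g h : α → Str} (hf : PT f) (hg : PT g) (hh : PT h) :
    PT (fun a => tripStr (f a, g a, h a)) :=
  pt_pairStr_comp hf (pt_pairStr_comp hg hh)

/-- first read the certificates from the oracle, then run `M` -/
def MO (M : OProc) (e : ℕ) (m t : ℕ → ℕ) : OProc := fun z =>
  bif decide (z.2.length < 2 * m z.1.length) then
    (true, true :: List.replicate (cod e (m z.1.length) (t z.1.length) z.1.length z.2.length) true)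
  else M (tripStr (z.1, z.2.take (m z.1.length), (z.2.drop (m z.1.length)).take (m z.1.length)),
    z.2.drop (2 * m z.1.length))

theorem pt_MO {M : OProc} (hM : PT M) (e : ℕ) {m t : ℕ → ℕ} (hm : PT m) (ht : PT t) :
    PT (MO M e m t) := by
  have h1 : PT (fun z : Str × Str => z.1.length) := PT.fst.length
  have h2 : PT (fun z : Str × Str => z.2.length) := PT.snd.length
  have hm' : PT (fun z : Str × Str => m z.1.length) := hm.comp h1
  have ht' : PT (fun z : Str × Str => t z.1.length) := ht.comp h1
  have h2m : PT (fun z : Str × Str => 2 * m z.1.length) := (PT.const 2).mul hm'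
  exact PT.cond (PT.lt h2 h2m) ((PT.const true).pair ((PT.const true).cons
    (pt_replB (pt_cod (PT.const e) hm' ht' h1 h2) true)))
    (hM.comp ((pt_tripStr PT.fst (PT.snd.take hm') ((PT.snd.drop hm').take hm')).pair
      (PT.snd.drop h2m)))

section

variable {Mach : ℕ → OProc} {A0 : Str → Bool} {M : OProc} {e : ℕ} {m t : ℕ → ℕ}

theorem answers_MO1 {x bits : Str}
    (hb : bitsG (orB Mach A0) (Mach e) (m x.length) (t x.length) x.length = bits)
    (hl : bits.length = 2 * m x.length) :
    ∀ j ≤ 2 * m x.length, answers (orB Mach A0) (MO M e m t) x j = bits.take j := by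
  intro j
  induction j with
  | zero => intro _; simp [answers]
  | succ j ih =>
    intro hj
    have h1 : (MO M e m t (x, bits.take j)).2 = true :: List.replicate
        (cod e (m x.length) (t x.length) x.length j) true := by
      unfold MO
      simp only [List.length_take]
      rw [Nat.min_eq_left (by omega), decide_eq_true (by omega), cond_true]
    rw [answers, ih (by omega), h1, orB_cod, hb, List.getD_eq_getElem _ _ (by omega),
      List.take_append_getElem]

theorem answers_MO2 {x y z : Str}
    (hb : bitsG (orB Mach A0) (Mach e) (m x.length) (t x.length) x.length = y ++ z)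
    (hy : y.length = m x.length) (hz : z.length = m x.length) :
    ∀ j, answers (orB Mach A0) (MO M e m t) x (2 * m x.length + j) =
      y ++ z ++ answers (orB Mach A0) M (tripStr (x, y, z)) j := by
  intro j
  have hl : (y ++ z).length = 2 * m x.length := by rw [List.length_append]; omega
  induction j with
  | zero =>
    rw [add_zero, answers_MO1 hb hl _ le_rfl, ← hl, List.take_length, answers, List.append_nil]
  | succ j ih =>
    rw [← add_assoc, answers, ih]
    have h1 : MO M e m t (x, y ++ z ++ answers (orB Mach A0) M (tripStr (x, y, z)) j) =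
        M (tripStr (x, y, z), answers (orB Mach A0) M (tripStr (x, y, z)) j) := by
      unfold MO
      simp only [List.length_append]
      rw [decide_eq_false (by omega), cond_false]
      have e1 : (y ++ z ++ answers (orB Mach A0) M (tripStr (x, y, z)) j).take (m x.length) = y := by
        rw [List.append_assoc, ← hy, List.take_left]
      have e2 : ((y ++ z ++ answers (orB Mach A0) M (tripStr (x, y, z)) j).drop
          (m x.length)).take (m x.length) = z := by
        rw [List.append_assoc, ← hy, List.drop_left, hy, ← hz, List.take_left]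
      have e3 : (y ++ z ++ answers (orB Mach A0) M (tripStr (x, y, z)) j).drop
          (2 * m x.length) = answers (orB Mach A0) M (tripStr (x, y, z)) j := by
        rw [← hl, List.drop_left]
      rw [e1, e2, e3]
    rw [h1, answers]
    simp only [List.append_assoc]

end

theorem tripStr_length (x y z : Str) :
    (tripStr (x, y, z)).length = 2 * x.length + 1 + (2 * y.length + 1 + z.length) := by
  unfold tripStr
  simp only [length_pairStr]

/-- **`O_2^{p,B} ⊆ P^B`** -/
theorem o2_sub_p {Mach : ℕ → OProc} (hMach : ∀ M : OProc, PolyTime pairStr actStr M → ∃ e, Mach e = M)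
    (A0 : Str → Bool) {m : Polynomial ℕ} {L : Set Str}
    (hL : InO2O (orB Mach A0) (fun n => m.eval n) L) : InPO (orB Mach A0) L := by
  obtain ⟨-, V, ⟨M, hM, p2, hp2⟩, hV⟩ := hL
  obtain ⟨e, he⟩ := hMach M hM
  obtain ⟨s, hs⟩ := exists_act_bound (pt_of_polyTime hM)
  set B := orB Mach A0 with hB
  let N0 : Polynomial ℕ := 2 * Polynomial.X + 3 * m + 2
  let tP : Polynomial ℕ := p2.comp N0 * s.comp (N0 + p2.comp N0)
  -- the clocked simulation computes the verifier
  have key : ∀ x y z : Str, y.length = m.eval x.length → z.length = m.eval x.length →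
      sim B (Mach e) (tripStr (x, y, z)) (tP.eval x.length) [] = V (x, y, z) := by
    intro x y z hy hz
    obtain ⟨k, hk, h1, h2⟩ := hp2 (x, y, z)
    have hN : (tripStr (x, y, z)).length ≤ N0.eval x.length := by
      rw [tripStr_length]
      simp only [N0, Polynomial.eval_add, Polynomial.eval_mul, Polynomial.eval_X,
        Polynomial.eval_ofNat]
      omega
    have hk2 : k ≤ p2.eval (N0.eval x.length) := hk.trans (eval_mono p2 hN)
    have hBd : ∀ j < k, (M (tripStr (x, y, z), answers B M (tripStr (x, y, z)) j)).2.length + 1 ≤
        s.eval (N0.eval x.length + p2.eval (N0.eval x.length)) := by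
      intro j hj
      refine (hs _ _).trans (eval_mono s ?_)
      rw [length_answers]
      omega
    have h3 := sim_of_run h1 h2 hBd k 0 (by omega) (tP.eval x.length) (by
      simp only [tP, Polynomial.eval_mul, Polynomial.eval_comp, Polynomial.eval_add]
      exact Nat.mul_le_mul_right _ hk2)
    rw [he]
    refine h3.trans ?_
    cases hv : V (x, y, z) <;> simp [hv]
  -- good pairs
  have hgood : ∀ n : ℕ, ∃ p, Good B (Mach e) (m.eval n) (tP.eval n) n p := by
    intro n
    obtain ⟨y, z, hy, hz, h⟩ := hV n
    refine ⟨(y, z), hy, hz, fun x y' z' hx hy' hz' => ?_⟩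
    subst hx
    simp only
    rw [key x y z' hy hz', key x y' z hy' hz]
    by_cases hxL : x ∈ L
    · exact Or.inl ((h x rfl).1 hxL z' hz')
    · exact Or.inr ((h x rfl).2 hxL y' hy')
  let P : ℕ → Str × Str := fun n => pick (Good B (Mach e) (m.eval n) (tP.eval n) n)
  have hP : ∀ n, Good B (Mach e) (m.eval n) (tP.eval n) n (P n) := fun n => pick_spec (hgood n)
  refine ⟨fun x => V (x, P x.length), ⟨MO M e (fun n => m.eval n) (fun n => tP.eval n),
    polyTime_of_pt (pt_MO (pt_of_polyTime hM) e (PT.polyEval m PT.id) (PT.polyEval tP PT.id)),
    2 * m + p2.comp N0, fun x => ?_⟩, fun x => ?_⟩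
  · obtain ⟨k, hk, h1, h2⟩ := hp2 (x, P x.length)
    obtain ⟨hg1, hg2, -⟩ := hP x.length
    have hb : bitsG B (Mach e) (m.eval x.length) (tP.eval x.length) x.length =
        (P x.length).1 ++ (P x.length).2 := rfl
    have hN : (tripStr (x, P x.length)).length ≤ N0.eval x.length := by
      have := tripStr_length x (P x.length).1 (P x.length).2
      simp only [Prod.mk.eta] at this
      rw [this]
      simp only [N0, Polynomial.eval_add, Polynomial.eval_mul, Polynomial.eval_X,
        Polynomial.eval_ofNat]
      omega
    have hk2 : k ≤ p2.eval (N0.eval x.length) := hk.trans (eval_mono p2 hN)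
    have hrun : ∀ j, MO M e (fun n => m.eval n) (fun n => tP.eval n)
        (x, answers B (MO M e (fun n => m.eval n) (fun n => tP.eval n)) x
          (2 * m.eval x.length + j)) =
        M (tripStr (x, P x.length), answers B M (tripStr (x, P x.length)) j) := by
      intro j
      rw [answers_MO2 (m := fun n => m.eval n) (t := fun n => tP.eval n) hb hg1 hg2 j]
      unfold MO
      simp only [List.length_append]
      rw [decide_eq_false (by omega), cond_false]
      have hl : ((P x.length).1 ++ (P x.length).2).length = 2 * m.eval x.length := by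
        rw [List.length_append]; omega
      have e1 : ((P x.length).1 ++ (P x.length).2 ++ answers B M (tripStr (x, (P x.length).1,
          (P x.length).2)) j).take (m.eval x.length) = (P x.length).1 := by
        rw [List.append_assoc, ← hg1, List.take_left]
      have e2 : (((P x.length).1 ++ (P x.length).2 ++ answers B M (tripStr (x, (P x.length).1,
          (P x.length).2)) j).drop (m.eval x.length)).take (m.eval x.length) =
          (P x.length).2 := by
        rw [List.append_assoc, ← hg1, List.drop_left, hg1, ← hg2, List.take_left]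
      have e3 : ((P x.length).1 ++ (P x.length).2 ++ answers B M (tripStr (x, (P x.length).1,
          (P x.length).2)) j).drop (2 * m.eval x.length) =
          answers B M (tripStr (x, (P x.length).1, (P x.length).2)) j := by
        rw [← hl, List.drop_left]
      rw [e1, e2, e3]
    refine ⟨2 * m.eval x.length + k, ?_, ?_, ?_⟩
    · simp only [Polynomial.eval_add, Polynomial.eval_mul, Polynomial.eval_ofNat,
        Polynomial.eval_comp]
      omega
    · intro j hj
      by_cases hj2 : j < 2 * m.eval x.length
      · unfold MO
        simp only [length_answers]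
        rw [decide_eq_true hj2, cond_true]
      · obtain ⟨i, rfl⟩ : ∃ i, j = 2 * m.eval x.length + i := ⟨j - 2 * m.eval x.length, by omega⟩
        rw [hrun]
        exact h1 i (by omega)
    · rw [hrun]
      exact h2
  · obtain ⟨hg1, hg2, hg3⟩ := hP x.length
    obtain ⟨y, z, hy, hz, h⟩ := hV x.length
    constructor
    · intro hx
      rcases hg3 x y (P x.length).2 rfl hy hg2 with h1 | h1
      · rw [key _ _ _ hg1 hg2] at h1
        exact h1
      · rw [key _ _ _ hy hg2, (h x rfl).1 hx _ hg2] at h1
        exact absurd h1 (by simp)
    · intro hx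
      by_contra hxL
      rcases hg3 x (P x.length).1 z rfl hg1 hz with h1 | h1
      · rw [key _ _ _ hg1 hz, (h x rfl).2 hxL _ hg1] at h1
        exact absurd h1 (by simp)
      · rw [key _ _ _ hg1 hg2] at h1
        have hx' : V (x, (P x.length).1, (P x.length).2) = true := hx
        rw [hx'] at h1
        exact absurd h1 (by simp)

end ORTwo
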