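import Pool.Agent.Work.MP_a81742_lc_or.TwoStage
import Pool.Agent.Work.MP_a81742_lc_or.TwoO2

/-!
# An oracle with `O_2^{p,B} = P^B` and `NP^B` not in `P^B / poly`
-/

namespace ORDist

/-- `P^B / poly`: polynomial time with the oracle `B` and advice of polynomial length -/
def InPPolyO (B : List Bool → Bool) (L : Set (List Bool)) : Prop :=
  ∃ (V : List Bool × List Bool → Bool) (adv : ℕ → List Bool) (r : Polynomial ℕ),
    PolyTimeO B pairStr (fun z => [V z]) ∧ (∀ n, (adv n).length ≤ r.eval n) ∧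
    ∀ x : List Bool, x ∈ L ↔ V (x, adv x.length) = true

end ORDist

namespace ORTwo

open ORDist PTime

/-- the test language -/
def testL (A : Str → Bool) : Set Str := {x | ∃ w : Str, w.length = x.length ∧ A (x ++ w) = true}

theorem testL_inNPO (Mach : ℕ → OProc) (A : Str → Bool) : InNPO (orB Mach A) (testL A) := by
  have hg : PT (fun z : Str × Str => decide (z.2.length = z.1.length)) :=
    PT.natEq PT.snd.length PT.fst.length
  have hf : PT (fun z : Str × Str => false :: (z.1 ++ z.2)) :=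
    (PT.const false).cons (PT.fst.append PT.snd)
  refine ⟨fun z => decide (z.2.length = z.1.length) && orB Mach A (false :: (z.1 ++ z.2)),
    Polynomial.X, polyTimeO_one hg hf, fun x => ?_⟩
  rw [Polynomial.eval_X]
  have e : ∀ u : Str, orB Mach A (false :: u) = A u := fun _ => rfl
  simp only [e, testL, Set.mem_ofPred_eq, Bool.and_eq_true, decide_eq_true_eq]
  constructor
  · rintro ⟨w, h1, h2⟩
    exact ⟨w, h1.le, h1, h2⟩
  · rintro ⟨w, _, h1, h2⟩
    exact ⟨w, h1, h2⟩

theorem testL_not_inPPolyO {Mach : ℕ → OProc} {A : Str → Bool}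
    (h : ∀ M : OProc, PT M → ∀ p r : Polynomial ℕ, ∃ n, ¬ WorksN (orB Mach A) A M (p.eval n)
      (r.eval n) n) : ¬ InPPolyO (orB Mach A) (testL A) := by
  rintro ⟨V, adv, r, ⟨M, hM, p, hp⟩, hadv, hV⟩
  obtain ⟨n, hn⟩ := h M (pt_of_polyTime hM) (p.comp (2 * Polynomial.X + 1 + r)) r
  refine hn ⟨adv n, hadv n, fun x hx => ?_⟩
  obtain ⟨k, hk, h1, h2⟩ := hp (x, adv n)
  have h3 : (pairStr (x, adv n)).length ≤ 2 * n + 1 + r.eval n := by
    rw [pairStr_length', hx]
    have := hadv n
    omega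
  have h4 : k ≤ (p.comp (2 * Polynomial.X + 1 + r)).eval n := by
    have h5 := eval_mono p h3
    simp only [Polynomial.eval_comp, Polynomial.eval_add, Polynomial.eval_mul,
      Polynomial.eval_X, Polynomial.eval_ofNat, Polynomial.eval_one] at h5 ⊢
    omega
  rw [outO_eq h4 h1 h2]
  have h6 := hV x
  rw [hx] at h6
  rw [← h6]
  show x ∈ testL A ↔ _
  rw [testL, Set.mem_ofPred_eq, hx]

/-- **Second half of the barrier.** Relative to the oracle `B`, oblivious symmetric alternation
collapses to `P` (so `O_2^{p,B} ⊆ PP^B`), although `NP^B` is not contained in `P^B / poly` -/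
theorem exists_collapse : ∃ B : Str → Bool,
    (∀ (m : Polynomial ℕ) (L : Set Str), InO2O B (fun n => m.eval n) L → InPO B L) ∧
    ∃ L : Set Str, InNPO B L ∧ ¬ InPPolyO B L := by
  obtain ⟨Mach, hMach⟩ := exists_enum
  have hc1 : Countable {M : OProc // PT M} :=
    (countable_PT (α := Str × Str) (β := Bool × Str)).to_subtype
  have hc2 := countable_poly
  obtain ⟨A, hA⟩ := ORD.exists_oracle (ι := {M : OProc // PT M} × Polynomial ℕ × Polynomial ℕ)
    (fun e A => ∃ n, ¬ WorksN (orB Mach A) A e.1.1 (e.2.1.eval n) (e.2.2.eval n) n)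
    (fun e A0 b hb => stageN Mach e.1.2 e.2.1 e.2.2 A0 b hb)
  exact ⟨orB Mach A, fun m L hL => o2_sub_p hMach A hL, testL A, testL_inNPO Mach A,
    testL_not_inPPolyO fun M hM p r => hA (⟨M, hM⟩, p, r)⟩

end ORTwo
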