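import Pool.Agent.Work.MP_a81742_lc_or.Defs
import Pool.Agent.Work.MP_609cce_lc.OrcPT
import Pool.Agent.Work.MP_609cce_lc.OPrefix
import Pool.Agent.Work.MP_2f1fa1_lc.PDiv

/-!
# The language of the maximum is in `O_2^{p,A}` and in `P^{ONP^A}`
-/

namespace ORDist

open PTime

/-! ### values of strings -/

/-- the value of a string in binary, the first bit being the leading one -/
def val : Str → ℕ
  | [] => 0
  | b :: w => (bif b then 2 ^ w.length else 0) + val w

theorem val_lt : ∀ w : Str, val w < 2 ^ w.length
  | [] => by simp [val]
  | b :: w => by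
    have := val_lt w
    rw [val, List.length_cons, pow_succ]
    cases b
    · rw [cond_false]; omega
    · rw [cond_true]; omega

/-- the string of length `N` with the value `p` -/
def bstr : ℕ → ℕ → Str
  | 0, _ => []
  | N + 1, p => decide (2 ^ N ≤ p) :: bstr N (p % 2 ^ N)

theorem bstr_length : ∀ N p : ℕ, (bstr N p).length = N
  | 0, _ => rfl
  | N + 1, p => by rw [bstr, List.length_cons, bstr_length]

theorem val_bstr : ∀ {N p : ℕ}, p < 2 ^ N → val (bstr N p) = p
  | 0, p, h => by
    simp only [pow_zero] at h
    have : p = 0 := by omega
    subst this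
    rfl
  | N + 1, p, h => by
    have h0 : 0 < 2 ^ N := by positivity
    have h1 := val_bstr (N := N) (p := p % 2 ^ N) (Nat.mod_lt _ h0)
    rw [bstr, val, bstr_length, h1]
    rw [pow_succ] at h
    by_cases h2 : 2 ^ N ≤ p
    · rw [decide_eq_true h2, cond_true]
      rw [Nat.mod_eq_sub_mod h2, Nat.mod_eq_of_lt (by omega)]
      omega
    · rw [decide_eq_false h2, cond_false, Nat.mod_eq_of_lt (by omega)]
      omega

theorem bstr_val : ∀ w : Str, bstr w.length (val w) = w
  | [] => rfl
  | b :: w => by
    have h1 := val_lt w
    have h2 := bstr_val w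
    rw [List.length_cons, bstr, val]
    cases b
    · rw [cond_false, zero_add, Nat.mod_eq_of_lt h1, h2, decide_eq_false (by omega)]
    · rw [cond_true, Nat.add_mod_left, Nat.mod_eq_of_lt h1, h2, decide_eq_true (by omega)]

theorem val_inj {u w : Str} (h : u.length = w.length) (hv : val u = val w) : u = w := by
  rw [← bstr_val u, ← bstr_val w, h, hv]

/-- the last bit is the parity of the value -/
theorem getLastD_eq : ∀ w : Str, w.getLastD false = decide (val w % 2 = 1)
  | [] => rfl
  | [b] => by cases b <;> rfl
  | b :: c :: w => by
    have h := getLastD_eq (c :: w)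
    have h1 : (b :: c :: w).getLastD false = (c :: w).getLastD false := by
      simp [List.getLastD]
    rw [h1, h]
    have h2 : (2 ^ (c :: w).length) % 2 = 0 := by
      rw [List.length_cons, pow_succ]
      omega
    have h3 : val (b :: c :: w) = (bif b then 2 ^ (c :: w).length else 0) + val (c :: w) := rfl
    rw [h3]
    cases b
    · rw [cond_false, zero_add]
    · rw [cond_true, Nat.add_mod, h2, zero_add, Nat.mod_mod]

/-! ### comparison -/

/-- comparison of strings of equal length -/
def leS (u w : Str) : Bool :=
  (List.range u.length).all fun i => !decide (u.take i = w.take i) || (!u.getD i false ||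
    w.getD i false)

theorem leS_cons (a b : Bool) (u w : Str) :
    leS (a :: u) (b :: w) = ((!a || b) && (!decide (a = b) || leS u w)) := by
  unfold leS
  rw [List.length_cons, List.range_succ_eq_map, List.all_cons, List.all_map]
  simp only [List.take_zero, decide_true, Bool.not_true, Bool.false_or, List.getD_cons_zero]
  congr 1
  by_cases hab : a = b
  · subst hab
    simp [Function.comp_def]
  · simp [hab, Function.comp_def]

theorem leS_iff : ∀ {u w : Str}, u.length = w.length → (leS u w = true ↔ val u ≤ val w)
  | [], [], _ => by simp [leS, val]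
  | [], b :: w, h => by simp at h
  | a :: u, [], h => by simp at h
  | a :: u, b :: w, h => by
    have h' : u.length = w.length := by simpa using h
    have ih := leS_iff h'
    have h1 := val_lt u
    have h2 := val_lt w
    rw [h'] at h1
    rw [leS_cons, val, val, h']
    cases a <;> cases b
    · simpa using ih
    · simp only [Bool.not_false, Bool.true_or, Bool.true_and, cond_false, cond_true, zero_add]
      simp only [Bool.false_eq_true, decide_false, Bool.not_false, Bool.true_or, true_iff]
      omega
    · simp only [Bool.not_true, Bool.or_self, Bool.false_and, Bool.false_eq_true, false_iff,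
        cond_true, cond_false]
      omega
    · simp only [Bool.or_true, Bool.true_and, decide_true, Bool.not_true, Bool.false_or,
        cond_true, add_le_add_iff_left]
      exact ih

theorem pt_leS {α : Type} [Code α] {f g : α → Str} (hf : PT f) (hg : PT g) :
    PT (fun a => leS (f a) (g a)) := by
  have hf' : PT (fun x : α × ℕ => f x.1) := hf.comp PT.fst
  have hg' : PT (fun x : α × ℕ => g x.1) := hg.comp PT.fst
  exact PT.all (p := fun x : α × ℕ => !decide ((f x.1).take x.2 = (g x.1).take x.2) ||
    (!(f x.1).getD x.2 false || (g x.1).getD x.2 false)) hf.length.range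
    ((PT.eq (hf'.take PT.snd) (hg'.take PT.snd)).not.or
      ((hf'.getD PT.snd (PT.const false)).not.or (hg'.getD PT.snd (PT.const false))))

/-! ### computations with a list of queries -/

theorem length_answers (B : Str → Bool) (M : OProc) (x : Str) :
    ∀ j, (answers B M x j).length = j
  | 0 => rfl
  | j + 1 => by rw [answers, List.length_append, length_answers]; rfl

/-- functions computed with a list of queries -/
theorem polyTimeO_list {A : Str → Bool} {α : Type} {ea : α → Str} {f : α → Str}
    {qs : Str → List Str} {out : Str × Str → Str} (hq : PT qs) (ho : PT out)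
    (h : ∀ a, f a = out (ea a, (qs (ea a)).map A)) : PolyTimeO A ea f := by
  obtain ⟨r, hr⟩ := hq.size
  have hq' : PT (fun z : Str × Str => qs z.1) := hq.comp PT.fst
  refine ⟨fun z => bif decide (z.2.length < (qs z.1).length) then
    (true, (qs z.1).getD z.2.length []) else (false, out z), polyTime_of_pt ?_,
    r.comp (4 * Polynomial.X + 1), fun a => ⟨(qs (ea a)).length, ?_, ?_⟩⟩
  · exact PT.cond (PT.lt PT.snd.length hq'.length) ((PT.const true).pair
      (hq'.getD PT.snd.length (PT.const []))) ((PT.const false).pair ho)
  · have h1 := length_le_sz (qs (ea a))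
    have h2 := hr (ea a)
    have h3 : sz (ea a) ≤ 4 * (ea a).length + 1 := by
      have := sz_list_le (l := ea a) (B := 3) fun b _ => sz_bool b
      omega
    have h4 := eval_mono r h3
    simp only [Polynomial.eval_add, Polynomial.eval_mul, Polynomial.eval_X,
      Polynomial.eval_ofNat, Polynomial.eval_comp, Polynomial.eval_one] at h4 ⊢
    omega
  · set M : OProc := fun z => bif decide (z.2.length < (qs z.1).length) then
      (true, (qs z.1).getD z.2.length []) else (false, out z) with hM
    have key : ∀ j ≤ (qs (ea a)).length, answers A M (ea a) j = ((qs (ea a)).take j).map A := by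
      intro j
      induction j with
      | zero => intro _; simp [answers]
      | succ j ih =>
        intro hj
        rw [answers, ih (by omega)]
        have h1 : (M (ea a, ((qs (ea a)).take j).map A)).2 = (qs (ea a)).getD j [] := by
          simp only [hM]
          rw [List.length_map, List.length_take, Nat.min_eq_left (by omega),
            decide_eq_true (by omega), cond_true]
        rw [h1, List.getD_eq_getElem _ _ (by omega), ← List.take_append_getElem (by omega),
          List.map_append, List.map_cons, List.map_nil]
    refine ⟨fun j hj => ?_, ?_⟩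
    · simp only [hM, length_answers]
      rw [decide_eq_true hj, cond_true]
    · simp only [hM, length_answers]
      rw [decide_eq_false (lt_irrefl _), cond_false, ← hM, key _ le_rfl, List.take_length, h a]

/-! ### the language of the maximum -/

/-- the maximal string of length `N` in `A` exists and ends in `1` -/
def MaxOdd (A : Str → Bool) (N : ℕ) : Prop :=
  ∃ w : Str, w.length = N ∧ A w = true ∧ w.getLastD false = true ∧
    ∀ w' : Str, w'.length = N → A w' = true → val w' ≤ val w

/-- the tally language of the maximum -/
def maxLang (A : Str → Bool) (l : ℕ → ℕ) : Set Str :=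
  {x | (∀ b ∈ x, b = false) ∧ MaxOdd A (l x.length)}

/-- the maximum is attained -/
theorem exists_max {A : Str → Bool} {N : ℕ} (h : ∃ w : Str, w.length = N ∧ A w = true) :
    ∃ w : Str, w.length = N ∧ A w = true ∧ ∀ w' : Str, w'.length = N → A w' = true →
      val w' ≤ val w := by
  classical
  let S : Finset ℕ := (Finset.range (2 ^ N)).filter fun p => A (bstr N p) = true
  have hS : S.Nonempty := by
    obtain ⟨w, hw, hA⟩ := h
    refine ⟨val w, Finset.mem_filter.2 ⟨Finset.mem_range.2 (hw ▸ val_lt w), ?_⟩⟩
    rw [← hw, bstr_val]
    exact hA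
  obtain ⟨p, hp, hmax⟩ := S.exists_max_image id hS
  obtain ⟨hp1, hp2⟩ := Finset.mem_filter.1 hp
  rw [Finset.mem_range] at hp1
  refine ⟨bstr N p, bstr_length N p, hp2, fun w' hw' hA' => ?_⟩
  rw [val_bstr hp1]
  refine hmax (val w') (Finset.mem_filter.2 ⟨Finset.mem_range.2 (hw' ▸ val_lt w'), ?_⟩)
  rw [← hw', bstr_val]
  exact hA'

theorem maxOdd_iff {A : Str → Bool} {N : ℕ} {w : Str} (hw : w.length = N) (hA : A w = true)
    (hmax : ∀ w' : Str, w'.length = N → A w' = true → val w' ≤ val w) :
    MaxOdd A N ↔ w.getLastD false = true := by
  constructor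
  · rintro ⟨u, hu, hA', hu2, hmax'⟩
    have h1 := hmax u hu hA'
    have h2 := hmax' w hw hA
    rw [val_inj (hw.trans hu.symm) (le_antisymm h2 h1)]
    exact hu2
  · intro h
    exact ⟨w, hw, hA, h, hmax⟩

/-- is the string a string of zeros -/
def tallyB (x : Str) : Bool := x.all fun b => !b

theorem tallyB_iff {x : Str} : tallyB x = true ↔ ∀ b ∈ x, b = false := by
  simp [tallyB]

theorem pt_tallyB {α : Type} [Code α] {f : α → Str} (hf : PT f) : PT (fun a => tallyB (f a)) :=
  PT.all (p := fun x : α × Bool => !x.2) hf PT.snd.not

/-- the last bit -/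
theorem pt_last {α : Type} [Code α] {f : α → Str} (hf : PT f) :
    PT (fun a => (f a).getLastD false) := by
  refine (hf.reverse.headD (PT.const false)).congr fun a => ?_
  cases h : (f a).reverse with
  | nil =>
    rw [List.reverse_eq_nil_iff.1 h]
    rfl
  | cons b l =>
    have h1 : f a = l.reverse ++ [b] := by
      rw [← List.reverse_reverse (f a), h, List.reverse_cons]
    rw [h1]
    simp

/-- the verifier of the symmetric alternation -/
def VO (A : Str → Bool) (z : Str × Str × Str) : Bool :=
  tallyB z.1 && bif A z.2.1 && (!A z.2.2 || leS z.2.2 z.2.1) then z.2.1.getLastD false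
    else A z.2.2 && z.2.2.getLastD false

theorem polyTimeO_VO (A : Str → Bool) : PolyTimeO A tripStr (fun z => [VO A z]) := by
  let y : Str → Str := fun s => (unpairS (unpairS s).2).1
  let z : Str → Str := fun s => (unpairS (unpairS s).2).2
  have hu : PT (fun s : Str => unpairS s) := PT.unpairS PT.id
  have hy : PT y := (PT.unpairS hu.snd').fst'
  have hz : PT z := (PT.unpairS hu.snd').snd'
  have hy' : PT (fun t : Str × Str => y t.1) := hy.comp PT.fst
  have hz' : PT (fun t : Str × Str => z t.1) := hz.comp PT.fst
  have ha : PT (fun t : Str × Str => t.2.headD false) := PT.snd.headD (PT.const false)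
  have hb : PT (fun t : Str × Str => t.2.tail.headD false) := PT.snd.tail.headD (PT.const false)
  refine polyTimeO_list (qs := fun s => [y s, z s]) (out := fun t =>
    [tallyB (unpairS t.1).1 && bif t.2.headD false && (!t.2.tail.headD false || leS (z t.1) (y t.1))
      then (y t.1).getLastD false else t.2.tail.headD false && (z t.1).getLastD false])
    (hy.cons (hz.cons (PT.const []))) ?_ ?_
  · exact ((pt_tallyB (hu.comp PT.fst).fst').and (PT.cond (ha.and (hb.not.or (pt_leS hz' hy')))
      (pt_last hy') (hb.and (pt_last hz')))).cons (PT.const [])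
  · rintro ⟨x, y', z'⟩
    simp only [VO, y, z, tripStr, unpairS_pairStr, List.map_cons, List.map_nil, List.headD_cons,
      List.tail_cons]

/-- the language of the maximum is in `O_2^{p,A}` -/
theorem maxLang_inO2O (A : Str → Bool) {l : ℕ → ℕ} (hl : ∃ m : Polynomial ℕ, ∀ n, l n ≤ m.eval n) :
    InO2O A l (maxLang A l) := by
  refine ⟨hl, VO A, polyTimeO_VO A, fun n => ?_⟩
  by_cases h : ∃ w : Str, w.length = l n ∧ A w = true
  · obtain ⟨w, hw, hA, hmax⟩ := exists_max h
    refine ⟨w, w, hw, hw, fun x hx => ⟨fun h1 z hz => ?_, fun h1 y hy => ?_⟩⟩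
    · obtain ⟨h2, h3⟩ := h1
      rw [hx, maxOdd_iff hw hA hmax] at h3
      unfold VO
      simp only [tallyB_iff.2 h2, Bool.true_and, hA]
      by_cases hz2 : A z = true
      · rw [(leS_iff (hz.trans hw.symm)).2 (hmax z hz hz2), Bool.or_true, cond_true, h3]
      · rw [Bool.not_eq_true] at hz2
        rw [hz2, Bool.not_false, Bool.true_or, cond_true, h3]
    · have h3 : (tallyB x && w.getLastD false) = false := by
        by_contra h4
        rw [Bool.not_eq_false, Bool.and_eq_true, tallyB_iff] at h4
        exact h1 ⟨h4.1, by rw [hx]; exact (maxOdd_iff hw hA hmax).2 h4.2⟩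
      unfold VO
      simp only [hA, Bool.not_true, Bool.false_or, Bool.true_and]
      by_cases h5 : (A y && leS w y) = true
      · rw [h5, cond_true]
        rw [Bool.and_eq_true] at h5
        have h6 := (leS_iff (hw.trans hy.symm)).1 h5.2
        have h7 := hmax y hy h5.1
        rw [val_inj (hy.trans hw.symm) (le_antisymm h7 h6)]
        exact h3
      · rw [Bool.not_eq_true] at h5
        rw [h5, cond_false, h3]
  · have hN : ∀ w : Str, w.length = l n → A w = false := fun w hw => by
      by_contra hc
      exact h ⟨w, hw, by simpa using hc⟩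
    refine ⟨List.replicate (l n) false, List.replicate (l n) false, List.length_replicate,
      List.length_replicate, fun x hx => ⟨fun h1 => ?_, fun _ y hy => ?_⟩⟩
    · obtain ⟨_, w, hw, hA, _⟩ := h1
      rw [hx] at hw
      rw [hN w hw] at hA
      exact absurd hA (by simp)
    · unfold VO
      simp only [hN y hy, hN _ List.length_replicate, Bool.false_and, cond_false, Bool.and_false]

end ORDist
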