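import Pool.Agent.Work.MP_a81742_lc_or.AdvMember
import Pool.Agent.Work.MP_a81742_lc_or.MemberONP

/-!
# The language of the maxima of blocks is in `P^{ONP^A}`
-/

namespace ORDist

open PTime

/-! ### the lengths of the components of a pair -/

theorem up_length (l : List Bool) : ∀ s : (Bool × Bool) × List Bool × List Bool,
    (l.foldl upStep s).2.1.length ≤ s.2.1.length + l.length := by
  induction l with
  | nil => intro s; simp
  | cons b l ih =>
    intro s
    rw [List.foldl_cons, List.length_cons]
    have h1 := ih (upStep s b)
    have h2 : (upStep s b).2.1.length ≤ s.2.1.length + 1 := by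
      obtain ⟨⟨m, d⟩, X, Y⟩ := s
      cases m <;> cases d <;> cases b <;> simp [upStep]
    omega

theorem unpairS_fst_length (s : Str) : (unpairS s).1.length ≤ s.length := by
  unfold unpairS
  rw [List.length_reverse]
  have := up_length s ((false, false), [], [])
  simpa using this

/-! ### the oblivious language -/

open Classical in
/-- is there a string `w` in the block of `x` which is not smaller than `u` (the input is the pair
of `x` and `u`) -/
noncomputable def geBlk (A : Str → Bool) (k l : ℕ → ℕ) (s : Str) : Bool :=
  decide (val (unpairS s).1 < k (unpairS s).1.length ∧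
    (unpairS s).2.length = l (unpairS s).1.length ∧
    ∃ w : Str, w.length = (unpairS s).2.length ∧ A ((unpairS s).1 ++ w) = true ∧
      val (unpairS s).2 ≤ val w)

theorem geBlk_iff {A : Str → Bool} {k l : ℕ → ℕ} {s : Str} : geBlk A k l s = true ↔
    val (unpairS s).1 < k (unpairS s).1.length ∧ (unpairS s).2.length = l (unpairS s).1.length ∧
      ∃ w : Str, w.length = (unpairS s).2.length ∧ A ((unpairS s).1 ++ w) = true ∧
        val (unpairS s).2 ≤ val w := by
  simp [geBlk]

/-- the substring of `W` at `i` of length `n` -/
def sub (W : Str) (n i : ℕ) : Str := (W.drop i).take n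

/-- the checks which do not use the oracle -/
def chk0 (k l : ℕ → ℕ) (s : Str) : Bool :=
  decide (val (unpairS s).1 < k (unpairS s).1.length) &&
    decide ((unpairS s).2.length = l (unpairS s).1.length)

/-- the verifier -/
def chkB (A : Str → Bool) (k l : ℕ → ℕ) (z : Str × Str) : Bool :=
  chk0 k l z.1 && (List.range (z.2.length + 1)).any fun i =>
    (decide ((sub z.2 (unpairS z.1).2.length i).length = (unpairS z.1).2.length) &&
      leS (unpairS z.1).2 (sub z.2 (unpairS z.1).2.length i)) &&
      A ((unpairS z.1).1 ++ sub z.2 (unpairS z.1).2.length i)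

theorem polyTimeO_chkB (A : Str → Bool) {k l : ℕ → ℕ} (hk : PT k) (hl : PT l) :
    PolyTimeO A pairStr (fun z => [chkB A k l z]) := by
  have hu : PT (fun t : Str => unpairS t) := PT.unpairS PT.id
  have hs : PT (fun t : Str => (unpairS t).1) := hu.fst'
  have hW : PT (fun t : Str => (unpairS t).2) := hu.snd'
  have hx : PT (fun t : Str => (unpairS (unpairS t).1).1) := (PT.unpairS hs).fst'
  have hv : PT (fun t : Str => (unpairS (unpairS t).1).2) := (PT.unpairS hs).snd'
  have hsub : PT (fun t : Str × ℕ => sub (unpairS t.1).2 (unpairS (unpairS t.1).1).2.length t.2) :=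
    ((hW.comp PT.fst).drop PT.snd).take (hv.comp PT.fst).length
  have hchk0 : PT (fun t : Str => chk0 k l (unpairS t).1) :=
    (pt_valLt hx (hk.comp hx.length)).and (hv.length.natEq (hl.comp hx.length))
  refine polyTimeO_list (qs := fun t => (List.range ((unpairS t).2.length + 1)).map fun i =>
      (unpairS (unpairS t).1).1 ++ sub (unpairS t).2 (unpairS (unpairS t).1).2.length i)
    (out := fun t => [chk0 k l (unpairS t.1).1 && (List.range ((unpairS t.1).2.length + 1)).any
      fun i => (decide ((sub (unpairS t.1).2 (unpairS (unpairS t.1).1).2.length i).length =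
        (unpairS (unpairS t.1).1).2.length) && leS (unpairS (unpairS t.1).1).2
        (sub (unpairS t.1).2 (unpairS (unpairS t.1).1).2.length i)) && t.2.getD i false])
    ?_ ?_ ?_
  · exact PT.map (g := fun t : Str × ℕ => (unpairS (unpairS t.1).1).1 ++
      sub (unpairS t.1).2 (unpairS (unpairS t.1).1).2.length t.2) hW.length.succ.range
      ((hx.comp PT.fst).append hsub)
  · refine ((hchk0.comp PT.fst).and (PT.any (p := fun t : (Str × Str) × ℕ =>
      (decide ((sub (unpairS t.1.1).2 (unpairS (unpairS t.1.1).1).2.length t.2).length =
        (unpairS (unpairS t.1.1).1).2.length) && leS (unpairS (unpairS t.1.1).1).2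
        (sub (unpairS t.1.1).2 (unpairS (unpairS t.1.1).1).2.length t.2)) && t.1.2.getD t.2 false)
      (hW.comp PT.fst).length.succ.range ?_)).cons (PT.const [])
    have h1 : PT (fun t : (Str × Str) × ℕ => (t.1.1, t.2)) := PT.fst.fst'.pair PT.snd
    have h2 := hsub.comp h1
    have h3 : PT (fun t : (Str × Str) × ℕ => (unpairS (unpairS t.1.1).1).2) :=
      hv.comp PT.fst.fst'
    exact (((h2.length).natEq h3.length).and (pt_leS h3 h2)).and
      (PT.fst.snd'.getD PT.snd (PT.const false))
  · rintro ⟨s, W⟩
    simp only [chkB, unpairS_pairStr, List.map_map]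
    congr 2
    rw [Bool.eq_iff_iff, List.any_eq_true, List.any_eq_true]
    refine exists_congr fun i => and_congr_right fun hi => ?_
    rw [List.mem_range] at hi
    have h1 : ((List.range (W.length + 1)).map (A ∘ fun i => (unpairS s).1 ++
        sub W (unpairS s).2.length i)).getD i false =
        A ((unpairS s).1 ++ sub W (unpairS s).2.length i) := by
      rw [List.getD_eq_getElem _ _ (by simpa using hi)]
      simp
    rw [h1]

open Classical in
/-- the maximum of the block of `x`, if there is one -/
noncomputable def wmax (A : Str → Bool) (x : Str) (N : ℕ) : Str :=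
  if h : ∃ w : Str, w.length = N ∧ (fun w => A (x ++ w)) w = true then (exists_max h).choose else []

theorem wmax_length_le (A : Str → Bool) (x : Str) (N : ℕ) : (wmax A x N).length ≤ N := by
  unfold wmax
  split_ifs with h
  · exact (exists_max h).choose_spec.1.le
  · simp

theorem wmax_spec {A : Str → Bool} {x : Str} {N : ℕ} {w : Str} (hw : w.length = N)
    (hA : A (x ++ w) = true) : (wmax A x N).length = N ∧ A (x ++ wmax A x N) = true ∧
      val w ≤ val (wmax A x N) := by
  have h : ∃ w : Str, w.length = N ∧ (fun w => A (x ++ w)) w = true := ⟨w, hw, hA⟩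
  unfold wmax
  rw [dif_pos h]
  have h1 := (exists_max h).choose_spec
  exact ⟨h1.1, h1.2.1, h1.2.2 w hw hA⟩

theorem infix_flatMap {α β : Type} {f : α → List β} {a : α} : ∀ {l : List α}, a ∈ l →
    f a <:+: l.flatMap f
  | [], h => by simp at h
  | b :: l, h => by
    rw [List.flatMap_cons]
    rcases List.mem_cons.1 h with h | h
    · subst h
      exact (List.prefix_append _ _).isInfix
    · exact (infix_flatMap h).trans (List.suffix_append _ _).isInfix

/-- this language is in oblivious NP -/
theorem geBlk_inONPO (A : Str → Bool) {k l : ℕ → ℕ} (hk : PT k) (hl : PT l) :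
    InONPO A (geBlk A k l) := by
  obtain ⟨qk, hqk⟩ := hk.size
  obtain ⟨ql, hql⟩ := hl.size
  set pk : Polynomial ℕ := qk.comp (2 * Polynomial.X + 1) with hpk
  set pl : Polynomial ℕ := ql.comp (2 * Polynomial.X + 1) with hpl
  have hkb : ∀ n, k n ≤ pk.eval n := by
    intro n
    have h1 := hqk n
    rw [sz_nat, sz_nat] at h1
    simp only [hpk, Polynomial.eval_add, Polynomial.eval_mul, Polynomial.eval_X,
      Polynomial.eval_ofNat, Polynomial.eval_comp, Polynomial.eval_one]
    omega
  have hlb : ∀ n, l n ≤ pl.eval n := by
    intro n
    have h1 := hql n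
    rw [sz_nat, sz_nat] at h1
    simp only [hpl, Polynomial.eval_add, Polynomial.eval_mul, Polynomial.eval_X,
      Polynomial.eval_ofNat, Polynomial.eval_comp, Polynomial.eval_one]
    omega
  refine ⟨chkB A k l, (Polynomial.X + 1) * (pk * pl), polyTimeO_chkB A hk hl, fun N => ?_⟩
  have hback : ∀ (s w' : Str), chkB A k l (s, w') = true → geBlk A k l s = true := by
    intro s w' h
    unfold chkB chk0 at h
    simp only [Bool.and_eq_true, decide_eq_true_eq, List.any_eq_true] at h
    obtain ⟨⟨h1, h2⟩, i, _, ⟨h3, h4⟩, h5⟩ := h
    exact geBlk_iff.2 ⟨h1, h2, _, h3, h5, (leS_iff h3.symm).1 h4⟩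
  refine ⟨(List.range (N + 1)).flatMap fun n => (List.range (k n)).flatMap fun p =>
    wmax A (bstr n p) (l n), ?_, fun s hs => ⟨fun h => ?_, fun ⟨w', _, h⟩ => hback s w' h⟩⟩
  · rw [List.length_flatMap]
    have h1 : ∀ n ≤ N, ((List.range (k n)).flatMap fun p => wmax A (bstr n p) (l n)).length ≤
        pk.eval N * pl.eval N := by
      intro n hn
      rw [List.length_flatMap]
      have h2 : ((List.range (k n)).map fun p => (wmax A (bstr n p) (l n)).length).sum ≤
          k n * l n := by
        have := List.sum_le_card_nsmul ((List.range (k n)).map fun p =>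
          (wmax A (bstr n p) (l n)).length) (l n) (by
            intro y hy
            obtain ⟨p, _, rfl⟩ := List.mem_map.1 hy
            exact wmax_length_le _ _ _)
        simpa using this
      exact h2.trans (Nat.mul_le_mul ((hkb n).trans (eval_mono pk hn))
        ((hlb n).trans (eval_mono pl hn)))
    have h3 := List.sum_le_card_nsmul ((List.range (N + 1)).map fun n =>
      ((List.range (k n)).flatMap fun p => wmax A (bstr n p) (l n)).length)
      (pk.eval N * pl.eval N) (by
        intro y hy
        obtain ⟨n, hn, rfl⟩ := List.mem_map.1 hy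
        exact h1 n (by rw [List.mem_range] at hn; omega))
    simp only [List.length_map, List.length_range, smul_eq_mul] at h3
    simpa only [Polynomial.eval_mul, Polynomial.eval_add, Polynomial.eval_X, Polynomial.eval_one]
      using h3
  · obtain ⟨h1, h2, w, h3, h4, h5⟩ := geBlk_iff.1 h
    set x : Str := (unpairS s).1 with hx
    set u : Str := (unpairS s).2 with hu
    set W : Str := (List.range (N + 1)).flatMap fun n => (List.range (k n)).flatMap fun p =>
      wmax A (bstr n p) (l n) with hW
    obtain ⟨h6, h7, h8⟩ := wmax_spec (h3.trans h2) h4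
    have hxN : x.length ≤ N := hs ▸ unpairS_fst_length s
    have hinf : wmax A x (l x.length) <:+: W := by
      have e1 : wmax A x (l x.length) = wmax A (bstr x.length (val x)) (l x.length) := by
        rw [bstr_val]
      rw [e1]
      refine (infix_flatMap (f := fun p => wmax A (bstr x.length p) (l x.length))
        (List.mem_range.2 h1)).trans ?_
      exact infix_flatMap (f := fun n => (List.range (k n)).flatMap fun p =>
        wmax A (bstr n p) (l n)) (List.mem_range.2 (by omega))
    obtain ⟨s1, s2, hss⟩ := hinf
    have hlen : s1.length ≤ W.length := by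
      rw [← hss, List.append_assoc, List.length_append]
      omega
    have hsub : sub W u.length s1.length = wmax A x (l x.length) := by
      unfold sub
      rw [← hss, List.append_assoc, List.drop_left]
      exact List.take_left' (h6.trans h2.symm)
    unfold chkB chk0
    simp only [Bool.and_eq_true, decide_eq_true_eq, List.any_eq_true]
    refine ⟨⟨h1, h2⟩, s1.length, List.mem_range.2 (by omega), ?_⟩
    rw [← hu, ← hx, hsub]
    exact ⟨⟨h6.trans h2.symm, (leS_iff (h2.trans h6.symm)).2 (h5.trans h8)⟩, h7⟩

/-! ### the binary search in a block -/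

/-- the procedure of the binary search -/
def MBk (k l : ℕ → ℕ) : OProc := fun z =>
  bif decide (val z.1 < k z.1.length) then
    (bif decide (z.2.length ≤ l z.1.length) then
      (true, true :: pairStr (z.1, probe (l z.1.length) z.2))
    else (false, [z.2.headD false && z.2.tail.getLastD false]))
  else (false, [false])

theorem pt_MBk {k l : ℕ → ℕ} (hk : PT k) (hl : PT l) : PT (MBk k l) := by
  have hN : PT (fun z : Str × Str => l z.1.length) := hl.comp PT.fst.length
  have hp : PT (fun z : Str × Str => probe (l z.1.length) z.2) :=
    PT.cond PT.snd.isEmpty (pt_replB hN false)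
      (PT.snd.tail.append ((PT.const true).cons (pt_replB (hN.sub PT.snd.length) false)))
  refine PT.cond (pt_valLt PT.fst (hk.comp PT.fst.length)) (PT.cond (PT.le PT.snd.length hN)
    ((PT.const true).pair ((PT.const true).cons (pt_pairStr_comp PT.fst hp)))
    ((PT.const false).pair (((PT.snd.headD (PT.const false)).and
      (pt_last PT.snd.tail)).cons (PT.const [])))) (PT.const _)

variable {A : Str → Bool} {k l : ℕ → ℕ}

theorem probe_length (N : ℕ) (a : Str) (ha : a.length ≤ N) : (probe N a).length = N := by
  unfold probe
  cases a with
  | nil => simp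
  | cons b a =>
    rw [List.isEmpty_cons, cond_false, List.tail_cons, List.length_append, List.length_cons,
      List.length_replicate]
    rw [List.length_cons] at ha ⊢
    omega

/-- the answers are those of the binary search in the oracle of the block -/
theorem answers_MBk {x : Str} (hx : val x < k x.length) : ∀ j ≤ l x.length + 1,
    answers (join A (geBlk A k l)) (MBk k l) x j =
      answers (join (fun w => A (x ++ w)) (geLang fun w => A (x ++ w))) (MB l) x j := by
  intro j
  induction j with
  | zero => intro _; rfl
  | succ j ih =>
    intro hj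
    have ih := ih (by omega)
    rw [answers_MB_succ (by omega), answers, ih]
    congr 2
    have hlen := length_answers (join (fun w => A (x ++ w)) (geLang fun w => A (x ++ w))) (MB l) x j
    set a := answers (join (fun w => A (x ++ w)) (geLang fun w => A (x ++ w))) (MB l) x j with ha
    have h1 : (MBk k l (x, a)).2 = true :: pairStr (x, probe (l x.length) a) := by
      unfold MBk
      simp only []
      rw [decide_eq_true hx, cond_true, decide_eq_true (by omega), cond_true]
    rw [h1]
    show geBlk A k l (pairStr (x, probe (l x.length) a)) = _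
    rw [Bool.eq_iff_iff, geBlk_iff, geLang_iff, unpairS_pairStr]
    have h2 := probe_length (l x.length) a (by omega)
    constructor
    · rintro ⟨_, _, h⟩
      exact h
    · intro h
      exact ⟨hx, h2, h⟩

/-- if there is no maximum, then the first answer is no -/
theorem answers_MB_none {x : Str} (h : ¬ ∃ w : Str, w.length = l x.length ∧ A w = true) :
    ∀ j ≤ l x.length, (answers (join A (geLang A)) (MB l) x (j + 1)).headD false = false := by
  have hN : ∀ u : Str, u.length = l x.length → geLang A u = false := by
    intro u hu
    rw [← Bool.not_eq_true, geLang_iff]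
    rintro ⟨w, h1, h2, _⟩
    exact h ⟨w, h1.trans hu, h2⟩
  intro j
  induction j with
  | zero =>
    intro _
    rw [answers_MB_succ (Nat.zero_le _), answers, List.nil_append, List.headD_cons]
    unfold probe
    rw [List.isEmpty_nil, cond_true]
    exact hN _ List.length_replicate
  | succ j ih =>
    intro hj
    rw [answers_MB_succ (by omega)]
    have h2 := ih (by omega)
    have h3 := length_answers (join A (geLang A)) (MB l) x (j + 1)
    cases h4 : answers (join A (geLang A)) (MB l) x (j + 1) with
    | nil => rw [h4] at h3; simp at h3
    | cons b t =>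
      rw [h4, List.headD_cons] at h2
      rw [List.cons_append, List.headD_cons, h2]

/-- the language of the maxima of the blocks is in `P^{ONP^A}` -/
theorem blockLang_inPONPO (A : Str → Bool) {k l : ℕ → ℕ} (hk : PT k) (hl : PT l) :
    InPONPO A (blockLang A k l) := by
  classical
  obtain ⟨q, hq⟩ := hl.size
  refine ⟨geBlk A k l, geBlk_inONPO A hk hl, fun x => decide (x ∈ blockLang A k l),
    ⟨MBk k l, polyTime_of_pt (pt_MBk hk hl), q.comp (2 * Polynomial.X + 1) + 1, fun x => ?_⟩,
    fun x => by simp⟩
  by_cases hx : val x < k x.length
  · refine ⟨l x.length + 1, ?_, ?_, ?_⟩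
    · have h1 := hq x.length
      rw [sz_nat, sz_nat] at h1
      simp only [Polynomial.eval_add, Polynomial.eval_mul, Polynomial.eval_X,
        Polynomial.eval_ofNat, Polynomial.eval_comp, Polynomial.eval_one]
      omega
    · intro j hj
      unfold MBk
      simp only [length_answers]
      rw [decide_eq_true hx, cond_true, decide_eq_true (by omega), cond_true]
    · rw [answers_MBk hx _ le_rfl]
      set A' : Str → Bool := fun w => A (x ++ w) with hA'
      have h0 : MBk k l (x, answers (join A' (geLang A')) (MB l) x (l x.length + 1)) =
          (false, [(answers (join A' (geLang A')) (MB l) x (l x.length + 1)).headD false &&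
            (answers (join A' (geLang A')) (MB l) x (l x.length + 1)).tail.getLastD false]) := by
        unfold MBk
        simp only [length_answers]
        rw [decide_eq_true hx, cond_true, decide_eq_false (by omega), cond_false]
      rw [h0]
      congr 2
      rw [Bool.eq_iff_iff, decide_eq_true_eq]
      have hmem : x ∈ blockLang A k l ↔ MaxOdd A' (l x.length) :=
        ⟨fun h => h.2, fun h => ⟨hx, h⟩⟩
      rw [hmem]
      by_cases h : ∃ w : Str, w.length = l x.length ∧ A' w = true
      · obtain ⟨w, hw, hA, hmax⟩ := exists_max h
        rw [answers_MB hw hA hmax _ le_rfl, List.headD_cons, List.tail_cons, Bool.true_and,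
          maxOdd_iff hw hA hmax, ← hw, List.take_length]
      · rw [answers_MB_none h _ le_rfl, Bool.false_and]
        constructor
        · intro h2
          exact absurd h2 (by simp)
        · rintro ⟨w, hw, hA, _⟩
          exact absurd ⟨w, hw, hA⟩ h
  · refine ⟨0, Nat.zero_le _, fun j hj => absurd hj (Nat.not_lt_zero j), ?_⟩
    unfold MBk
    simp only []
    rw [decide_eq_false hx, cond_false]
    congr 2
    exact (decide_eq_false fun h => hx h.1).symm

end ORDist
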