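import Pool.Agent.Work.MP_a81742_lc_or.Defs
import Pool.Agent.Work.MP_a81742_lc.Adv

/-!
# Oracle computations as integer polynomials of low degree in the bits of the oracle
-/

namespace ORDist

/-- the output bit of the oracle procedure `M` on the input `x` after the answers `a`, with at
most `t` further queries (`false` if there is no output) -/
def outO (A : List Bool → Bool) (M : OProc) (x : List Bool) : ℕ → List Bool → Bool
  | 0, a => !(M (x, a)).1 && (M (x, a)).2.headD false
  | t + 1, a => bif (M (x, a)).1 then outO A M x t (a ++ [A (M (x, a)).2])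
      else (M (x, a)).2.headD false

theorem outO_answers {A : List Bool → Bool} {M : OProc} {x : List Bool} {v : Bool} {k : ℕ}
    (h1 : ∀ j < k, (M (x, answers A M x j)).1 = true)
    (h2 : M (x, answers A M x k) = (false, [v])) :
    ∀ (d j t : ℕ), j + d = k → d ≤ t → outO A M x t (answers A M x j) = v := by
  intro d
  induction d with
  | zero =>
    intro j t hj _
    have hj' : j = k := by omega
    subst hj'
    cases t with
    | zero => simp [outO, h2]
    | succ t => simp [outO, h2]
  | succ d ih =>
    intro j t hj ht
    obtain ⟨t, rfl⟩ : ∃ t', t = t' + 1 := ⟨t - 1, by omega⟩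
    have h3 := h1 j (by omega)
    rw [outO, h3, cond_true]
    exact ih (j + 1) t (by omega) (by omega)

/-- a proper run gives the output -/
theorem outO_eq {A : List Bool → Bool} {M : OProc} {x : List Bool} {v : Bool} {k t : ℕ}
    (hk : k ≤ t) (h1 : ∀ j < k, (M (x, answers A M x j)).1 = true)
    (h2 : M (x, answers A M x k) = (false, [v])) : outO A M x t [] = v :=
  outO_answers h1 h2 k 0 t (by omega) hk

open O2PP

theorem mdeg_bit {ι : Type} {d : ℕ} {f : (ι → Bool) → ℤ} (i : ι) (hf : MDeg d f) :
    MDeg (d + 1) (fun s => if s i = true then f s else 0) := by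
  have h := (MDeg.coord le_rfl i).mul hf
  rw [Nat.add_comm] at h
  refine (congrArg (MDeg (d + 1)) ?_).mp h
  funext s
  by_cases h : s i = true
  · simp only [h, if_true, one_mul]
  · simp only [h]; simp

/-- a decision on one coordinate -/
theorem mdeg_ite {ι : Type} {d : ℕ} {f g : (ι → Bool) → ℤ} (hf : MDeg d f) (hg : MDeg d g)
    (i : ι) : MDeg (d + 1) (fun s => if s i = true then f s else g s) := by
  have h := (mdeg_bit i (hf.sub hg)).add (MDeg.mono_le (Nat.le_succ d) hg)
  refine (congrArg (MDeg (d + 1)) ?_).mp h
  funext s
  by_cases h : s i = true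
  · simp only [h, if_true]; ring
  · simp only [h]; simp

/-- an oracle which depends on the bits `s i` in the simplest way: every query is answered by a
constant or by one of the bits -/
def BitFam {ι : Type} (AA : (ι → Bool) → List Bool → Bool) : Prop :=
  ∀ q : List Bool, (∃ b : Bool, ∀ s, AA s q = b) ∨ ∃ i : ι, ∀ s, AA s q = s i

theorem mdeg_outO {ι : Type} {AA : (ι → Bool) → List Bool → Bool} (hAA : BitFam AA) (M : OProc)
    (x : List Bool) : ∀ (t : ℕ) (a : List Bool),
      MDeg t (fun s => if outO (AA s) M x t a = true then (1 : ℤ) else 0) := by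
  intro t
  induction t with
  | zero =>
    intro a
    simp only [outO]
    exact MDeg.const (if (!(M (x, a)).1 && (M (x, a)).2.headD false) = true then 1 else 0)
  | succ t ih =>
    intro a
    cases hM : (M (x, a)).1 with
    | false =>
      simp only [outO, hM, cond_false]
      exact MDeg.const (if (M (x, a)).2.headD false = true then 1 else 0)
    | true =>
      simp only [outO, hM, cond_true]
      rcases hAA (M (x, a)).2 with ⟨b, hb⟩ | ⟨i, hi⟩
      · simp only [hb]
        exact MDeg.mono_le (Nat.le_succ t) (ih _)
      · simp only [hi]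
        have h := mdeg_ite (ih (a ++ [true])) (ih (a ++ [false])) i
        refine (congrArg (MDeg (t + 1)) ?_).mp h
        funext s
        cases s i <;> simp

/-- the number of accepting coin tosses (`m` coins, at most `t` queries) -/
def accO (A : List Bool → Bool) (M : OProc) (t m : ℕ) (x : List Bool) : ℤ :=
  ∑ r : Fin m → Bool, if outO A M (pairStr (x, List.ofFn r)) t [] = true then 1 else 0

/-- the gap, doubled and shifted: it is positive if and only if more than half of the coin tosses
accept, and never `0` -/
def gapO (A : List Bool → Bool) (M : OProc) (t m : ℕ) (x : List Bool) : ℤ :=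
  2 * (2 * accO A M t m x - 2 ^ m) - 1

theorem mdeg_gapO {ι : Type} {AA : (ι → Bool) → List Bool → Bool} (hAA : BitFam AA) (M : OProc)
    (t m : ℕ) (x : List Bool) : MDeg t (fun s => gapO (AA s) M t m x) := by
  have h1 : MDeg t (fun s => accO (AA s) M t m x) :=
    MDeg.sum Finset.univ fun r _ => mdeg_outO hAA M (pairStr (x, List.ofFn r)) t []
  have h2 := (MDeg.smul 4 h1).add (MDeg.const (d := t) (-(2 * 2 ^ m) - 1))
  refine (congrArg (MDeg t) ?_).mp h2
  funext s
  unfold gapO
  ring

theorem gapO_ne_zero (A : List Bool → Bool) (M : OProc) (t m : ℕ) (x : List Bool) :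
    gapO A M t m x ≠ 0 := by
  unfold gapO
  omega

theorem accO_nonneg (A : List Bool → Bool) (M : OProc) (t m : ℕ) (x : List Bool) :
    0 ≤ accO A M t m x :=
  Finset.sum_nonneg fun r _ => by split_ifs <;> simp

theorem accO_le (A : List Bool → Bool) (M : OProc) (t m : ℕ) (x : List Bool) :
    accO A M t m x ≤ 2 ^ m := by
  have h : accO A M t m x ≤ ∑ _r : Fin m → Bool, (1 : ℤ) :=
    Finset.sum_le_sum fun r _ => by split_ifs <;> simp
  refine h.trans ?_
  simp

theorem abs_gapO_le (A : List Bool → Bool) (M : OProc) (t m : ℕ) (x : List Bool) :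
    |gapO A M t m x| ≤ 2 ^ (m + 2) := by
  have h1 := accO_nonneg A M t m x
  have h2 := accO_le A M t m x
  have h3 : (1 : ℤ) ≤ 2 ^ m := one_le_pow₀ (by norm_num)
  have h4 : (2 : ℤ) ^ (m + 2) = 4 * 2 ^ m := by ring
  rw [abs_le]
  unfold gapO
  constructor
  · rw [h4]; linarith
  · rw [h4]; linarith

/-- the gap is positive iff more than half of the coin tosses accept -/
theorem gapO_pos_iff {A : List Bool → Bool} {M : OProc} {t m : ℕ} {x : List Bool}
    {V : List Bool × List Bool → Bool}
    (hV : ∀ r : Fin m → Bool, outO A M (pairStr (x, List.ofFn r)) t [] = V (x, List.ofFn r)) :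
    0 < gapO A M t m x ↔ 2 ^ m < 2 * Fintype.card {r : Fin m → Bool // V (x, List.ofFn r) = true} := by
  have h1 : accO A M t m x =
      (Fintype.card {r : Fin m → Bool // V (x, List.ofFn r) = true} : ℤ) := by
    unfold accO
    rw [Fintype.card_subtype, ← Finset.sum_boole]
    exact Finset.sum_congr rfl fun r _ => by rw [hV r]
  unfold gapO
  rw [h1]
  have h2 : ((2 ^ m : ℕ) : ℤ) = 2 ^ m := by push_cast; ring
  constructor
  · intro h
    have : ((2 ^ m : ℕ) : ℤ) <
        ((2 * Fintype.card {r : Fin m → Bool // V (x, List.ofFn r) = true} : ℕ) : ℤ) := by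
      rw [h2]; push_cast; omega
    exact_mod_cast this
  · intro h
    have : ((2 ^ m : ℕ) : ℤ) <
        ((2 * Fintype.card {r : Fin m → Bool // V (x, List.ofFn r) = true} : ℕ) : ℤ) := by
      exact_mod_cast h
    rw [h2] at this
    push_cast at this
    omega

theorem pairStr_ofFn_length (x : List Bool) {m : ℕ} (r : Fin m → Bool) :
    (pairStr (x, List.ofFn r)).length = 2 * x.length + 1 + m := by
  simp only [pairStr, List.length_append, List.length_flatMap, List.length_cons,
    List.length_nil, List.length_ofFn, List.map_const', List.sum_replicate, smul_eq_mul]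
  omega

/-- the data of a PP machine: procedure, bound for the number of queries, number of coins -/
theorem exists_gap_of_inPPO {A K : List Bool → Bool} (h : InPPO A K) :
    ∃ (M : OProc) (t m : Polynomial ℕ), PolyTime pairStr actStr M ∧
      ∀ x : List Bool, K x = true ↔
        0 < gapO A M (t.eval x.length) (m.eval x.length) x := by
  obtain ⟨V, m, ⟨M, hM, p, hp⟩, hK⟩ := h
  refine ⟨M, p.comp (2 * Polynomial.X + 1 + m), m, hM, fun x => ?_⟩
  rw [hK x, gapO_pos_iff (V := V)]
  intro r
  obtain ⟨k, hk, h1, h2⟩ := hp (x, List.ofFn r)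
  refine outO_eq (hk.trans ?_) h1 h2
  rw [pairStr_ofFn_length]
  simp only [Polynomial.eval_comp, Polynomial.eval_add, Polynomial.eval_mul,
    Polynomial.eval_ofNat, Polynomial.eval_X, Polynomial.eval_one]
  exact le_rfl

/-- the acceptance of a PP machine is a threshold predicate of low degree -/
theorem thr_gapO {AA : (ℕ → Bool) → List Bool → Bool} (hAA : BitFam AA) (M : OProc)
    (t m : ℕ) (x : List Bool) : Thr t (m + 2) (fun s => 0 < gapO (AA s) M t m x) :=
  ⟨fun s => gapO (AA s) M t m x, mdeg_gapO hAA M t m x, fun _ => gapO_ne_zero _ M t m x,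
    fun _ => abs_gapO_le _ M t m x, fun _ => Iff.rfl⟩

/-- the output depends only on the answers to the possible queries -/
theorem outO_congr {A A' : List Bool → Bool} {M : OProc} {x : List Bool} {L : ℕ}
    (h : ∀ a : List Bool, a.length < L → (M (x, a)).1 = true → A (M (x, a)).2 = A' (M (x, a)).2) :
    ∀ (t : ℕ) (a : List Bool), a.length + t ≤ L → outO A M x t a = outO A' M x t a := by
  intro t
  induction t with
  | zero => intro a _; rfl
  | succ t ih =>
    intro a ha
    rw [outO, outO]
    cases hM : (M (x, a)).1 with
    | false => rfl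
    | true =>
      rw [cond_true, cond_true, h a (by omega) hM]
      exact ih _ (by rw [List.length_append, List.length_singleton]; omega)

/-- the gap depends only on the answers to the possible queries, for example to those of length
less than `b` -/
theorem gapO_congr {A A' : List Bool → Bool} {M : OProc} {t m b : ℕ} {x : List Bool}
    (hA : ∀ q : List Bool, q.length < b → A q = A' q)
    (h : ∀ (z a : List Bool), z.length = 2 * x.length + 1 + m → a.length < t →
      (M (z, a)).2.length < b) : gapO A M t m x = gapO A' M t m x := by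
  unfold gapO accO
  have h1 : ∀ r : Fin m → Bool, outO A M (pairStr (x, List.ofFn r)) t [] =
      outO A' M (pairStr (x, List.ofFn r)) t [] := fun r =>
    outO_congr (L := t) (fun a ha _ => hA _ (h _ a (pairStr_ofFn_length x r) ha)) t [] (by simp)
  simp only [h1]

end ORDist
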