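import Mathlib

/-!
# The limit of finite stages

Requirements are met one after the other by finite oracles; the limit oracle meets all of them.
-/

namespace ORD

/-- if each of countably many requirements can be forced, over every finite condition, by a finite
condition, then one oracle meets all of them -/
theorem exists_oracle {ι : Type} [Countable ι] (R : ι → (List Bool → Bool) → Prop)
    (h : ∀ (e : ι) (A₀ : List Bool → Bool) (b : ℕ), (∀ w, b ≤ w.length → A₀ w = false) →
      ∃ (A₁ : List Bool → Bool) (b₁ : ℕ), b ≤ b₁ ∧ (∀ w, w.length < b → A₁ w = A₀ w) ∧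
        (∀ w, b₁ ≤ w.length → A₁ w = false) ∧
        ∀ A : List Bool → Bool, (∀ w, w.length < b₁ → A w = A₁ w) → R e A) :
    ∃ A : List Bool → Bool, ∀ e, R e A := by
  classical
  rcases isEmpty_or_nonempty ι with hι | hι
  · exact ⟨fun _ => false, fun e => (hι.false e).elim⟩
  obtain ⟨g, hg⟩ := exists_surjective_nat ι
  -- conditions
  let C : Type := {c : (List Bool → Bool) × ℕ // ∀ w, c.2 ≤ w.length → c.1 w = false}
  have step : ∀ (e : ι) (c : C), ∃ c' : C, c.1.2 ≤ c'.1.2 ∧
      (∀ w, w.length < c.1.2 → c'.1.1 w = c.1.1 w) ∧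
      ∀ A : List Bool → Bool, (∀ w, w.length < c'.1.2 → A w = c'.1.1 w) → R e A := by
    intro e c
    obtain ⟨A₁, b₁, h1, h2, h3, h4⟩ := h e c.1.1 c.1.2 c.2
    exact ⟨⟨(A₁, b₁), h3⟩, h1, h2, h4⟩
  choose next hn1 hn2 hn3 using step
  let c₀ : C := ⟨(fun _ => false, 0), fun _ _ => rfl⟩
  let seq : ℕ → C := fun k => Nat.rec c₀ (fun i c => next (g i) c) k
  have hseq : ∀ k, seq (k + 1) = next (g k) (seq k) := fun _ => rfl
  have hmono : ∀ k m, k ≤ m → (seq k).1.2 ≤ (seq m).1.2 ∧
      ∀ w, w.length < (seq k).1.2 → (seq m).1.1 w = (seq k).1.1 w := by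
    intro k m hkm
    induction m, hkm using Nat.le_induction with
    | base => exact ⟨le_rfl, fun _ _ => rfl⟩
    | succ m _ ih =>
      rw [hseq]
      refine ⟨ih.1.trans (hn1 _ _), fun w hw => ?_⟩
      rw [hn2 (g m) (seq m) w (hw.trans_le ih.1)]
      exact ih.2 w hw
  let A : List Bool → Bool := fun w =>
    if hw : ∃ k, w.length < (seq k).1.2 then (seq (Nat.find hw)).1.1 w else false
  have hA : ∀ k w, w.length < (seq k).1.2 → A w = (seq k).1.1 w := by
    intro k w hw
    have hex : ∃ k, w.length < (seq k).1.2 := ⟨k, hw⟩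
    have h1 : A w = (seq (Nat.find hex)).1.1 w := by
      simp only [A]
      rw [dif_pos hex]
    rw [h1]
    have h2 : Nat.find hex ≤ k := Nat.find_min' hex hw
    exact ((hmono _ _ h2).2 w (Nat.find_spec hex)).symm
  refine ⟨A, fun e => ?_⟩
  obtain ⟨k, rfl⟩ := hg e
  refine hn3 (g k) (seq k) A fun w hw => ?_
  have h1 := hA (k + 1) w (by rw [hseq]; exact hw)
  rw [h1, hseq]

end ORD
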