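import Mathlib

/-!
# A counting lemma for decision trees

Hidden strings `w x` and bits `c x`; the query `(x, w')` is answered by `c x && (w x = w')`. A
decision tree of depth `d` can output all the bits `c` only for at most `(N + d) ^ K` of the
`(2 N) ^ K` choices.
-/

namespace ORTwo

open Finset

/-- decision trees with queries in `Q` and outputs in `α` -/
inductive DT (Q α : Type) : Type
  | ret (a : α) : DT Q α
  | ask (q : Q) (t0 t1 : DT Q α) : DT Q α

namespace DT

variable {Q α β : Type}

/-- the result of the tree for the oracle `B` -/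
def eval (B : Q → Bool) : DT Q α → α
  | ret a => a
  | ask q t0 t1 => bif B q then t1.eval B else t0.eval B

/-- the depth -/
def depth : DT Q α → ℕ
  | ret _ => 0
  | ask _ t0 t1 => max t0.depth t1.depth + 1

/-- continue with `k a` at the leaves with value `a` -/
def bind (t : DT Q α) (k : α → DT Q β) : DT Q β :=
  match t with
  | ret a => k a
  | ask q t0 t1 => ask q (t0.bind k) (t1.bind k)

theorem eval_bind (B : Q → Bool) (t : DT Q α) (k : α → DT Q β) :
    (t.bind k).eval B = (k (t.eval B)).eval B := by
  induction t with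
  | ret a => rfl
  | ask q t0 t1 ih0 ih1 =>
    simp only [bind, eval]
    cases B q with
    | false => simpa using ih0
    | true => simpa using ih1

theorem depth_bind (t : DT Q α) (k : α → DT Q β) {m : ℕ} (h : ∀ a, (k a).depth ≤ m) :
    (t.bind k).depth ≤ t.depth + m := by
  induction t with
  | ret a =>
    show (k a).depth ≤ 0 + m
    have := h a
    omega
  | ask q t0 t1 ih0 ih1 =>
    simp only [bind, depth]
    omega

/-- run a sequence of trees -/
def seqT : {k : ℕ} → (Fin k → DT Q Bool) → DT Q (Fin k → Bool)
  | 0, _ => ret Fin.elim0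
  | _ + 1, T => (T 0).bind fun b => (seqT fun i => T i.succ).bind fun g => ret (Fin.cons b g)

theorem eval_seqT (B : Q → Bool) : ∀ {k : ℕ} (T : Fin k → DT Q Bool),
    (seqT T).eval B = fun i => (T i).eval B
  | 0, _ => funext fun i => i.elim0
  | k + 1, T => by
    rw [seqT, eval_bind, eval_bind, eval_seqT B]
    funext i
    refine Fin.cases ?_ (fun i => ?_) i
    · rfl
    · rfl

theorem depth_seqT {t : ℕ} : ∀ {k : ℕ} (T : Fin k → DT Q Bool), (∀ i, (T i).depth ≤ t) →
    (seqT T).depth ≤ k * t
  | 0, _, _ => Nat.zero_le _
  | k + 1, T, h => by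
    have h1 := depth_seqT (fun i => T i.succ) fun i => h i.succ
    have h2 := h 0
    rw [seqT]
    refine (depth_bind _ _ (m := k * t) fun b => ?_).trans ?_
    · exact (depth_bind _ _ (m := 0) fun g => le_rfl).trans h1
    · rw [Nat.succ_mul]
      omega

end DT

section count

variable {X W : Type} [Fintype X] [DecidableEq X] [Fintype W] [DecidableEq W]

/-- the oracle of the hidden strings and bits -/
def hid (p : (X → W) × (X → Bool)) (q : X × W) : Bool := p.2 q.1 && decide (p.1 q.1 = q.2)

theorem count_aux (D : DT (X × W) (X → Bool)) : ∀ (d : ℕ), D.depth ≤ d →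
    ∀ (Y : Finset X) (R : X → W),
    (univ.filter fun p : (X → W) × (X → Bool) =>
      (∀ x, x ∉ Y → p.2 x = true ∧ p.1 x = R x) ∧ D.eval (hid p) = p.2).card ≤
      (Fintype.card W + d) ^ Y.card := by
  induction D with
  | ret g =>
    intro d _ Y R
    have h : (univ.filter fun p : (X → W) × (X → Bool) =>
        (∀ x, x ∉ Y → p.2 x = true ∧ p.1 x = R x) ∧ (DT.ret g : DT (X × W) (X → Bool)).eval (hid p)
          = p.2).card ≤ (univ : Finset (Y → W)).card := by
      refine card_le_card_of_injOn (fun p y => p.1 y) (fun p _ => mem_univ _) ?_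
      intro p hp p' hp' hpp
      obtain ⟨h1, h2⟩ := (mem_filter.1 hp).2
      obtain ⟨h3, h4⟩ := (mem_filter.1 hp').2
      refine Prod.ext ?_ (h2.symm.trans h4)
      funext x
      by_cases hx : x ∈ Y
      · exact congrFun hpp ⟨x, hx⟩
      · rw [(h1 x hx).2, (h3 x hx).2]
    refine h.trans ?_
    rw [card_univ, Fintype.card_fun, Fintype.card_coe]
    exact Nat.pow_le_pow_left (Nat.le_add_right _ _) _
  | ask q t0 t1 ih0 ih1 =>
    intro d hd Y R
    obtain ⟨x', w'⟩ := q
    obtain _ | d := d
    · simp [DT.depth] at hd
    have hd0 : t0.depth ≤ d := by simp only [DT.depth] at hd; omega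
    have hd1 : t1.depth ≤ d := by simp only [DT.depth] at hd; omega
    by_cases hx : x' ∈ Y
    · have hsub : (univ.filter fun p : (X → W) × (X → Bool) =>
          (∀ x, x ∉ Y → p.2 x = true ∧ p.1 x = R x) ∧
            (DT.ask (x', w') t0 t1).eval (hid p) = p.2) ⊆
          (univ.filter fun p : (X → W) × (X → Bool) =>
            (∀ x, x ∉ Y → p.2 x = true ∧ p.1 x = R x) ∧ t0.eval (hid p) = p.2) ∪
          (univ.filter fun p : (X → W) × (X → Bool) =>
            (∀ x, x ∉ Y.erase x' → p.2 x = true ∧ p.1 x = Function.update R x' w' x) ∧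
              t1.eval (hid p) = p.2) := by
        intro p hp
        obtain ⟨h1, h2⟩ := (mem_filter.1 hp).2
        rw [mem_union, mem_filter, mem_filter]
        rcases hq : hid p (x', w') with _ | _
        · left
          refine ⟨mem_univ _, h1, ?_⟩
          rw [DT.eval, hq, cond_false] at h2
          exact h2
        · right
          refine ⟨mem_univ _, fun x hx2 => ?_, ?_⟩
          · by_cases hxx : x = x'
            · subst hxx
              rw [Function.update_self]
              simpa [hid] using hq
            · rw [Function.update_of_ne hxx]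
              exact h1 x fun h => hx2 (mem_erase.2 ⟨hxx, h⟩)
          · rw [DT.eval, hq, cond_true] at h2
            exact h2
      refine (card_le_card hsub).trans ((card_union_le _ _).trans ?_)
      have h0 := ih0 d hd0 Y R
      have h1 := ih1 d hd1 (Y.erase x') (Function.update R x' w')
      rw [card_erase_of_mem hx] at h1
      refine (Nat.add_le_add h0 h1).trans ?_
      obtain ⟨k, hk⟩ : ∃ k, Y.card = k + 1 := ⟨Y.card - 1, by
        have : 0 < Y.card := card_pos.2 ⟨x', hx⟩
        omega⟩
      rw [hk, Nat.add_sub_cancel]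
      have h2 : (Fintype.card W + d) ^ k ≤ (Fintype.card W + (d + 1)) ^ k :=
        Nat.pow_le_pow_left (by omega) _
      have h3 : (Fintype.card W + d) ^ (k + 1) + (Fintype.card W + d) ^ k =
          (Fintype.card W + d) ^ k * (Fintype.card W + (d + 1)) := by ring
      rw [h3, pow_succ]
      exact Nat.mul_le_mul_right _ h2
    · have hcase : ∀ (t : DT (X × W) (X → Bool)), (∀ p : (X → W) × (X → Bool),
          (∀ x, x ∉ Y → p.2 x = true ∧ p.1 x = R x) →
            (DT.ask (x', w') t0 t1).eval (hid p) = t.eval (hid p)) →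
          (univ.filter fun p : (X → W) × (X → Bool) =>
            (∀ x, x ∉ Y → p.2 x = true ∧ p.1 x = R x) ∧ t.eval (hid p) = p.2).card ≤
            (Fintype.card W + d) ^ Y.card →
          (univ.filter fun p : (X → W) × (X → Bool) =>
            (∀ x, x ∉ Y → p.2 x = true ∧ p.1 x = R x) ∧
              (DT.ask (x', w') t0 t1).eval (hid p) = p.2).card ≤
            (Fintype.card W + (d + 1)) ^ Y.card := by
        intro t ht hc
        refine (card_le_card ?_).trans (hc.trans (Nat.pow_le_pow_left (by omega) _))
        intro p hp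
        obtain ⟨h1, h2⟩ := (mem_filter.1 hp).2
        exact mem_filter.2 ⟨mem_univ _, h1, by rw [← ht p h1]; exact h2⟩
      by_cases hR : R x' = w'
      · refine hcase t1 (fun p hp => ?_) (ih1 d hd1 Y R)
        obtain ⟨h1, h2⟩ := hp x' hx
        rw [DT.eval]
        have : hid p (x', w') = true := by simp [hid, h1, h2, hR]
        rw [this, cond_true]
      · refine hcase t0 (fun p hp => ?_) (ih0 d hd0 Y R)
        obtain ⟨h1, h2⟩ := hp x' hx
        rw [DT.eval]
        have : hid p (x', w') = false := by simp [hid, h1, h2, hR]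
        rw [this, cond_false]

/-- there are hidden strings and bits for which all trees of the family fail -/
theorem exists_hidden {τ : Type} [Fintype τ] {K t : ℕ} [Nonempty W]
    (T : τ → Fin K → DT (Fin K × W) Bool) (hT : ∀ a i, (T a i).depth ≤ t)
    (h : Fintype.card τ * (Fintype.card W + K * t) ^ K < (2 * Fintype.card W) ^ K) :
    ∃ (w : Fin K → W) (c : Fin K → Bool), ∀ a : τ, ∃ i : Fin K,
      (T a i).eval (hid (w, c)) ≠ c i := by
  classical
  by_contra hcon
  push Not at hcon
  have hcov : (univ : Finset ((Fin K → W) × (Fin K → Bool))) ⊆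
      univ.biUnion fun a : τ => univ.filter fun p : (Fin K → W) × (Fin K → Bool) =>
        (∀ x, x ∉ (univ : Finset (Fin K)) → p.2 x = true ∧
          p.1 x = (fun _ => Classical.arbitrary W) x) ∧
          (DT.seqT (T a)).eval (hid p) = p.2 := by
    intro p _
    obtain ⟨a, ha⟩ := hcon p.1 p.2
    refine mem_biUnion.2 ⟨a, mem_univ _, mem_filter.2 ⟨mem_univ _, fun x hx =>
      absurd (mem_univ x) hx, ?_⟩⟩
    rw [DT.eval_seqT]
    funext i
    exact ha i
  have h1 := (card_le_card hcov).trans card_biUnion_le
  have h2 : ∀ a : τ, (univ.filter fun p : (Fin K → W) × (Fin K → Bool) =>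
        (∀ x, x ∉ (univ : Finset (Fin K)) → p.2 x = true ∧
          p.1 x = (fun _ => Classical.arbitrary W) x) ∧
          (DT.seqT (T a)).eval (hid p) = p.2).card ≤ (Fintype.card W + K * t) ^ K := by
    intro a
    have := count_aux (DT.seqT (T a)) (K * t) (DT.depth_seqT (T a) (hT a)) univ
      (fun _ => Classical.arbitrary W)
    rw [card_univ, Fintype.card_fin] at this
    convert this
  have h3 := h1.trans (sum_le_card_nsmul univ _ _ fun a _ => h2 a)
  rw [card_univ, card_univ, Fintype.card_prod, Fintype.card_fun, Fintype.card_fun,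
    Fintype.card_fin, Fintype.card_bool, smul_eq_mul, ← mul_pow, mul_comm (Fintype.card W) 2] at h3
  omega

end count

end ORTwo
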