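import Pool.Agent.Work.MP_a81742_lc_or.TwoDefs
import Pool.Agent.Work.MP_a81742_lc_or.TwoCount
import Pool.Agent.Work.MP_a81742_lc_or.Gap
import Pool.Agent.Work.MP_a81742_lc_or.Member
import Pool.Agent.Work.MP_a81742_lc_or.Limit
import Pool.Agent.Work.MP_609cce_lc.OrcLimit

/-!
# The plain part: no polynomial time machine with polynomial advice decides the test language
-/

namespace ORTwo

open ORDist PTime

/-- answer of a classified query -/
def rd {Q : Type} (o : Q → Bool) : Bool ⊕ Q → Bool
  | .inl b => b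
  | .inr q => o q

/-- the clocked run as a decision tree -/
def mt {Q : Type} (cl : Str → Bool ⊕ Q) (M : OProc) (inp : Str) : ℕ → Str → DT Q Bool
  | 0, a => .ret (!(M (inp, a)).1 && (M (inp, a)).2.headD false)
  | f + 1, a => bif (M (inp, a)).1 then
      (match cl (M (inp, a)).2 with
        | .inl b => mt cl M inp f (a ++ [b])
        | .inr q => .ask q (mt cl M inp f (a ++ [false])) (mt cl M inp f (a ++ [true])))
    else .ret ((M (inp, a)).2.headD false)

theorem mt_depth {Q : Type} (cl : Str → Bool ⊕ Q) (M : OProc) (inp : Str) :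
    ∀ (f : ℕ) (a : Str), (mt cl M inp f a).depth ≤ f := by
  intro f
  induction f with
  | zero => intro a; exact le_rfl
  | succ f ih =>
    intro a
    rw [mt]
    cases (M (inp, a)).1 with
    | false => rw [cond_false]; exact Nat.zero_le _
    | true =>
      rw [cond_true]
      cases cl (M (inp, a)).2 with
      | inl b => exact (ih _).trans (Nat.le_succ _)
      | inr q =>
        have h0 := ih (a ++ [false])
        have h1 := ih (a ++ [true])
        show max _ _ + 1 ≤ f + 1
        omega

theorem mt_eval {Q : Type} {cl : Str → Bool ⊕ Q} {M : OProc} {inp : Str} {B : Str → Bool}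
    {o : Q → Bool} {N : ℕ}
    (h : ∀ a s : Str, a.length < N → M (inp, a) = (true, s) → B s = rd o (cl s)) :
    ∀ (f : ℕ) (a : Str), a.length + f ≤ N → (mt cl M inp f a).eval o = outO B M inp f a := by
  intro f
  induction f with
  | zero => intro a _; rfl
  | succ f ih =>
    intro a ha
    rw [mt, outO]
    cases hM : (M (inp, a)).1 with
    | false => rw [cond_false, cond_false]; rfl
    | true =>
      rw [cond_true, cond_true]
      have h1 := h a (M (inp, a)).2 (by omega) (Prod.ext hM rfl)
      have h2 : ∀ b : Bool, (mt cl M inp f (a ++ [b])).eval o = outO B M inp f (a ++ [b]) :=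
        fun b => ih _ (by rw [List.length_append, List.length_singleton]; omega)
      cases hc : cl (M (inp, a)).2 with
      | inl b =>
        rw [hc] at h1
        rw [h1]
        exact h2 b
      | inr q =>
        rw [hc] at h1
        rw [h1]
        show (bif o q then _ else _) = outO B M inp f (a ++ [o q])
        cases o q with
        | false => exact h2 false
        | true => exact h2 true

/-! ### the hidden strings at the length `2 n` -/

/-- classification of the plain queries -/
def clP (A0 : Str → Bool) (n K : ℕ) (u : Str) : Bool ⊕ (Fin K × Fin (2 ^ n)) :=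
  if u.length = 2 * n then
    if h : val (u.take n) < K then
      .inr (⟨val (u.take n), h⟩, ⟨val (u.drop n) % 2 ^ n, Nat.mod_lt _ (by positivity)⟩)
    else .inl false
  else .inl (A0 u)

/-- classification of all queries, the tally part being given by the table `tab` -/
def clB (A0 : Str → Bool) (n K N : ℕ) (tab : Fin N → Bool) : Str → Bool ⊕ (Fin K × Fin (2 ^ n))
  | [] => .inl false
  | false :: u => clP A0 n K u
  | true :: r => .inl (decide (r = List.replicate r.length true) &&
      if h : r.length < N then tab ⟨r.length, h⟩ else false)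

/-- the new plain part -/
def newA (A0 : Str → Bool) (n K : ℕ) (p : (Fin K → Fin (2 ^ n)) × (Fin K → Bool)) (u : Str) : Bool :=
  rd (hid p) (clP A0 n K u)

theorem newA_of_ne {A0 : Str → Bool} {n K : ℕ} {p : (Fin K → Fin (2 ^ n)) × (Fin K → Bool)}
    {u : Str} (h : u.length ≠ 2 * n) : newA A0 n K p u = A0 u := by
  unfold newA clP
  rw [if_neg h]
  rfl

theorem newA_test {A0 : Str → Bool} {n K : ℕ} {p : (Fin K → Fin (2 ^ n)) × (Fin K → Bool)}
    (hK : K ≤ 2 ^ n) (i : Fin K) :
    (∃ w : Str, w.length = n ∧ newA A0 n K p (bstr n i ++ w) = true) ↔ p.2 i = true := by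
  have key : ∀ w : Str, w.length = n → newA A0 n K p (bstr n i ++ w) =
      (p.2 i && decide (p.1 i = ⟨val w % 2 ^ n, Nat.mod_lt _ (by positivity)⟩)) := by
    intro w hw
    have h1 : (bstr n i ++ w).length = 2 * n := by
      rw [List.length_append, bstr_length, hw]; omega
    have h2 : (bstr n i ++ w).take n = bstr n i := List.take_left' (bstr_length n i)
    have h3 : (bstr n i ++ w).drop n = w := List.drop_left' (bstr_length n i)
    have h4 : val (bstr n i) = i := val_bstr (lt_of_lt_of_le i.2 hK)
    unfold newA clP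
    rw [if_pos h1]
    simp only [h2, h3, h4, i.2, dif_pos, rd, hid, Fin.eta]
  constructor
  · rintro ⟨w, hw, h⟩
    rw [key w hw, Bool.and_eq_true] at h
    exact h.1
  · intro h
    refine ⟨bstr n (p.1 i), bstr_length _ _, ?_⟩
    rw [key _ (bstr_length _ _), h, Bool.true_and, decide_eq_true_eq]
    have h5 : val (bstr n (p.1 i)) = (p.1 i : ℕ) := val_bstr (p.1 i).2
    ext
    show (p.1 i : ℕ) = val (bstr n (p.1 i)) % 2 ^ n
    rw [h5, Nat.mod_eq_of_lt (p.1 i).2]

theorem orB_cl {Mach : ℕ → OProc} {A A0 : Str → Bool} {n K N b1 : ℕ}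
    {p : (Fin K → Fin (2 ^ n)) × (Fin K → Bool)}
    (hA : ∀ u : Str, u.length < b1 → A u = newA A0 n K p u) (hN : N ≤ b1) (s : Str)
    (hs : s.length < N) :
    orB Mach A s = rd (hid p) (clB A0 n K N (fun k => tT Mach A k) s) := by
  match s with
  | [] => rfl
  | false :: u =>
    rw [List.length_cons] at hs
    exact hA u (by omega)
  | true :: r =>
    rw [List.length_cons] at hs
    show (decide (r = List.replicate r.length true) && tT Mach A r.length) =
      (decide (r = List.replicate r.length true) &&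
        if h : r.length < N then tT Mach A r.length else false)
    rw [dif_pos (by omega)]

/-- with advice of length at most `r` and at most `p` queries, `M` decides the test language at the
length `n` -/
def WorksN (B A : Str → Bool) (M : OProc) (p r n : ℕ) : Prop :=
  ∃ adv : Str, adv.length ≤ r ∧ ∀ x : Str, x.length = n →
    (outO B M (pairStr (x, adv)) p [] = true ↔ ∃ w : Str, w.length = n ∧ A (x ++ w) = true)

theorem growth {P K p n τ : ℕ} (hP : 1 ≤ P) (hK : K = 3 * P) (hn : 2 * (K * p) ≤ 2 ^ n)
    (hτ : τ ≤ 2 ^ P) : τ * (2 ^ n + K * p) ^ K < (2 * 2 ^ n) ^ K := by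
  have h1 : (2 * (2 ^ n + K * p)) ^ K ≤ (3 * 2 ^ n) ^ K := Nat.pow_le_pow_left (by omega) _
  have h2 : 2 ^ P * 3 ^ K < 4 ^ K := by
    rw [hK, pow_mul, pow_mul, ← mul_pow]
    exact Nat.pow_lt_pow_left (by norm_num) (by omega)
  rw [mul_pow, mul_pow 3] at h1
  have h3 : 0 < (2 ^ n) ^ K := by positivity
  have h4 : 2 ^ K * (τ * (2 ^ n + K * p) ^ K) < 2 ^ K * (2 * 2 ^ n) ^ K := by
    calc 2 ^ K * (τ * (2 ^ n + K * p) ^ K) = τ * (2 ^ K * (2 ^ n + K * p) ^ K) := by ring
      _ ≤ 2 ^ P * (3 ^ K * (2 ^ n) ^ K) := Nat.mul_le_mul hτ h1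
      _ = (2 ^ P * 3 ^ K) * (2 ^ n) ^ K := by ring
      _ < 4 ^ K * (2 ^ n) ^ K := Nat.mul_lt_mul_of_pos_right h2 h3
      _ = 2 ^ K * (2 * 2 ^ n) ^ K := by
        have h5 : (4 : ℕ) ^ K = 2 ^ K * 2 ^ K := by
          rw [← mul_pow]; norm_num
        rw [h5, mul_pow]
        ring
  exact Nat.lt_of_mul_lt_mul_left h4

/-- one stage -/
theorem stageN (Mach : ℕ → OProc) {M : OProc} (hM : PT M) (p r : Polynomial ℕ) (A0 : Str → Bool)
    (b : ℕ) (hA0 : ∀ w, b ≤ w.length → A0 w = false) :
    ∃ (A1 : Str → Bool) (b1 : ℕ), b ≤ b1 ∧ (∀ w, w.length < b → A1 w = A0 w) ∧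
      (∀ w, b1 ≤ w.length → A1 w = false) ∧
      ∀ A : Str → Bool, (∀ w, w.length < b1 → A w = A1 w) →
        ∃ n, ¬ WorksN (orB Mach A) A M (p.eval n) (r.eval n) n := by
  classical
  obtain ⟨s, hs⟩ := exists_act_bound hM
  let NP : Polynomial ℕ := s.comp (2 * Polynomial.X + 1 + r + p)
  let KP : Polynomial ℕ := 3 * (2 * r + NP + 1)
  obtain ⟨n, hn, hn2⟩ := poly_lt_two_pow (2 * (KP * p) + KP) b
  set N := NP.eval n with hN
  set K := KP.eval n with hK
  have hNe : N = s.eval (2 * n + 1 + r.eval n + p.eval n) := by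
    simp only [hN, NP, Polynomial.eval_comp, Polynomial.eval_add, Polynomial.eval_mul,
      Polynomial.eval_X, Polynomial.eval_ofNat, Polynomial.eval_one]
  have hKe : K = 3 * (2 * r.eval n + N + 1) := by
    simp only [hK, KP, Polynomial.eval_add, Polynomial.eval_mul, Polynomial.eval_ofNat,
      Polynomial.eval_one, hN]
  have hn3 : 2 * (K * p.eval n) + K < 2 ^ n := by
    simp only [Polynomial.eval_add, Polynomial.eval_mul, Polynomial.eval_ofNat] at hn2
    exact hn2
  -- the family of advices
  let adv : Fin (r.eval n + 1) × (Fin (r.eval n) → Bool) → Str := fun a =>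
    (List.ofFn a.2).take a.1
  let T : (Fin (r.eval n + 1) × (Fin (r.eval n) → Bool)) × (Fin N → Bool) → Fin K →
      DT (Fin K × Fin (2 ^ n)) Bool := fun a i =>
    mt (clB A0 n K N a.2) M (pairStr (bstr n i, adv a.1)) (p.eval n) []
  have hne : Nonempty (Fin (2 ^ n)) := ⟨⟨0, by positivity⟩⟩
  have hcard : Fintype.card ((Fin (r.eval n + 1) × (Fin (r.eval n) → Bool)) × (Fin N → Bool)) ≤
      2 ^ (2 * r.eval n + N + 1) := by
    rw [Fintype.card_prod, Fintype.card_prod, Fintype.card_fun, Fintype.card_fun,
      Fintype.card_fin, Fintype.card_fin, Fintype.card_fin, Fintype.card_bool]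
    have h1 : r.eval n + 1 ≤ 2 ^ r.eval n := Nat.lt_two_pow_self
    calc (r.eval n + 1) * 2 ^ r.eval n * 2 ^ N ≤ 2 ^ r.eval n * 2 ^ r.eval n * 2 ^ N :=
          Nat.mul_le_mul_right _ (Nat.mul_le_mul_right _ h1)
      _ = 2 ^ (2 * r.eval n + N) := by rw [← pow_add, ← pow_add]; congr 1; omega
      _ ≤ 2 ^ (2 * r.eval n + N + 1) := Nat.pow_le_pow_right (by norm_num) (by omega)
  obtain ⟨w, c, hwc⟩ := exists_hidden T (fun a i => mt_depth _ _ _ _ _) (by
    rw [Fintype.card_fin]
    exact growth (P := 2 * r.eval n + N + 1) (by omega) hKe (by omega) hcard)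
  refine ⟨newA A0 n K (w, c), 2 * n + N + 1, by omega, fun u hu => ?_, fun u hu => ?_,
    fun A hA => ⟨n, ?_⟩⟩
  · exact newA_of_ne (by omega)
  · rw [newA_of_ne (by omega)]
    exact hA0 u (by omega)
  · rintro ⟨ad, had, hwork⟩
    -- the advice as a member of the family
    obtain ⟨a1, ha1⟩ : ∃ a1 : Fin (r.eval n + 1) × (Fin (r.eval n) → Bool), adv a1 = ad := by
      refine ⟨(⟨ad.length, by omega⟩, fun i => ad.getD i false), ?_⟩
      apply List.ext_getElem
      · simp only [adv, List.length_take, List.length_ofFn]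
        omega
      · intro i h1 h2
        simp only [adv, List.getElem_take, List.getElem_ofFn]
        rw [List.getD_eq_getElem _ _ h2]
    obtain ⟨i, hi⟩ := hwc (a1, fun k => tT Mach A k)
    have hKn : K ≤ 2 ^ n := by omega
    have h1 := hwork (bstr n i) (bstr_length _ _)
    have h2 : (∃ w' : Str, w'.length = n ∧ A (bstr n i ++ w') = true) ↔ c i = true := by
      rw [← newA_test (A0 := A0) (p := (w, c)) hKn i]
      refine exists_congr fun w' => and_congr_right fun hw' => ?_
      rw [hA _ (by rw [List.length_append, bstr_length, hw']; omega)]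
    have h3 : (T (a1, fun k => tT Mach A k) i).eval (hid (w, c)) =
        outO (orB Mach A) M (pairStr (bstr n i, ad)) (p.eval n) [] := by
      show (mt _ M (pairStr (bstr n i, adv a1)) _ _).eval _ = _
      rw [ha1]
      refine mt_eval (N := p.eval n) (fun a q ha hq => ?_) _ _ (by simp)
      refine orB_cl (b1 := 2 * n + N + 1) hA (by omega) q ?_
      have h4 := hs (pairStr (bstr n i, ad)) a
      rw [hq] at h4
      have h4' : q.length + 1 ≤ s.eval ((pairStr (bstr n i, ad)).length + a.length) := h4
      have h5 : (pairStr (bstr n i, ad)).length + a.length ≤ 2 * n + 1 + r.eval n + p.eval n := by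
        rw [pairStr_length', bstr_length]
        omega
      have h6 := eval_mono s h5
      simp only at h6
      omega
    apply hi
    rw [h3]
    exact Bool.eq_iff_iff.2 (h1.trans h2)

end ORTwo
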