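import Pool.Agent.Work.MP_a81742_lc_or.TwoMain

/-!
# `P^B ⊆ PP^B`
-/

namespace ORTwo

open ORDist PTime

theorem inPPO_of_inPO {B : Str → Bool} {L : Set Str} (h : InPO B L) :
    ∃ K : Str → Bool, InPPO B K ∧ L = {x | K x = true} := by
  obtain ⟨V, ⟨M, hM, p, hp⟩, hV⟩ := h
  refine ⟨V, ⟨fun z => V z.1, 0, ⟨fun z => M ((unpairS z.1).1, z.2), polyTime_of_pt ?_, p,
    fun z => ?_⟩, fun x => ?_⟩, Set.ext fun x => by rw [Set.mem_ofPred_eq]; exact hV x⟩
  · exact (pt_of_polyTime hM).comp ((PT.unpairS PT.fst).fst'.pair PT.snd)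
  · obtain ⟨x, r⟩ := z
    have e : ∀ j, answers B (fun z => M ((unpairS z.1).1, z.2)) (pairStr (x, r)) j =
        answers B M x j := by
      intro j
      induction j with
      | zero => rfl
      | succ j ih => rw [answers, answers, ih]; simp only [unpairS_pairStr]
    obtain ⟨k, hk, h1, h2⟩ := hp x
    refine ⟨k, hk.trans (eval_mono p ?_), fun j hj => ?_, ?_⟩
    · show x.length ≤ (pairStr (x, r)).length
      rw [pairStr_length']; omega
    · rw [e]
      simp only [unpairS_pairStr]
      exact h1 j hj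
    · rw [e]
      simp only [unpairS_pairStr]
      exact h2
  · simp only [Polynomial.eval_zero, pow_zero]
    by_cases hx : V x = true
    · simp [hx]
    · simp [hx]

/-- **Second half of the barrier.** Relative to the oracle `B` every language in `O_2^{p,B}` is in
`P^B` and in `PP^B`, although `NP^B` is not contained in `P^B / poly` -/
theorem exists_collapse_PP : ∃ B : Str → Bool,
    (∀ (m : Polynomial ℕ) (L : Set Str), InO2O B (fun n => m.eval n) L →
      InPO B L ∧ ∃ K : Str → Bool, InPPO B K ∧ L = {x | K x = true}) ∧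
    ∃ L : Set Str, InNPO B L ∧ ¬ InPPolyO B L := by
  obtain ⟨B, h1, h2⟩ := exists_collapse
  exact ⟨B, fun m L hL => ⟨h1 m L hL, inPPO_of_inPO (h1 m L hL)⟩, h2⟩

end ORTwo
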