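import Pool.Agent.Work.MP_a81742_lc_or.AdvFam

/-!
# The adversary argument with columns over all rows

The columns are the residue classes modulo `H`; every position belongs to a column.
-/

namespace O2PP

open Finset

/-- the columns from `lo` to `hi`, over all rows -/
def colsA (H lo hi : ℕ) : Set ℕ := {p | lo ≤ p % H ∧ p % H < hi}

section

variable {ι : Type} [Fintype ι] {d w τ q m H : ℕ}

theorem roundsA {T : ι → ℕ → QTree} (hT : ∀ a, ∀ i < m, Fits d w τ q (T a i)) {lo₀ hi₀ : ℕ}
    (x₀ : ℕ → Bool)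
    (hlen : lo₀ + 2 * cost d w τ q m (Fintype.card ι) ^ m ≤ hi₀)
    (hask : ∀ a, ∀ i < m, ∀ p ∈ (T a i).asked x₀, p ∉ colsA H lo₀ hi₀) :
    ∀ i ≤ m, ∃ (f : ℕ → Bool) (x : ℕ → Bool) (lo : ℕ), lo₀ ≤ lo ∧
      lo + 2 * cost d w τ q m (Fintype.card ι) ^ (m - i) ≤ hi₀ ∧
      (∀ p, p ∉ colsA H lo₀ lo → x p = x₀ p) ∧
      ∀ x' : ℕ → Bool,
        (∀ p, p ∉ colsA H lo (lo + 2 * cost d w τ q m (Fintype.card ι) ^ (m - i)) →
          x' p = x p) →
        2 ^ i * (good T f i x').card ≤ Fintype.card ι := by
  classical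
  set K := Fintype.card ι with hK
  set co := cost d w τ q m K with hco
  intro i
  induction i with
  | zero =>
    intro _
    refine ⟨fun _ => false, x₀, lo₀, le_rfl, by simpa using hlen, fun p _ => rfl,
      fun x' _ => ?_⟩
    rw [pow_zero, one_mul]
    exact Finset.card_le_univ _
  | succ i ih =>
    intro hi
    obtain ⟨f, x, lo, h1, h2, h3, h4⟩ := ih (by omega)
    set L := 2 * co ^ (m - (i + 1)) with hL
    have hcL : 2 * co ^ (m - i) = co * L := by
      rw [hL, show m - i = (m - (i + 1)) + 1 by omega, pow_succ]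
      ring
    rw [hcL] at h2 h4
    have hgood : ∀ a, IGood d w (m * q) (chain d w x₀ (T a) f i 0) := fun a =>
      (chain_good x₀ f (hT a) i 0 (by omega)).mono (Nat.mul_le_mul_right q (by omega))
    obtain ⟨p, hp, hne, hw, hPp⟩ := thr_sum (fun a => chain d w x₀ (T a) f i 0) hgood
    rw [← hK] at hp hw
    let B : ℕ → Set ℕ := fun j => colsA H (lo + j * L) (lo + (j + 1) * L)
    have hB : ∀ j < co, ∀ j' < co, j ≠ j' → Disjoint (B j) (B j') := by
      intro j hj j' hj' hne
      refine Set.disjoint_left.2 ?_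
      rintro p ⟨hc1, hc2⟩ ⟨hc1', hc2'⟩
      rcases lt_or_gt_of_ne hne with h | h
      · have : (j + 1) * L ≤ j' * L := Nat.mul_le_mul_right L h
        omega
      · have : (j' + 1) * L ≤ j * L := Nat.mul_le_mul_right L h
        omega
    obtain ⟨j, hj, x1, hx1, hsgn⟩ := key_lemma hp hne hw (le_of_eq hco.symm) B hB x
    have hj1 : (j + 1) * L = j * L + L := by ring
    have hjm : (j + 1) * L ≤ co * L := Nat.mul_le_mul_right L hj
    set b : Bool := decide (¬ 0 < p x1) with hb
    refine ⟨Function.update f i b, x1, lo + j * L, by omega, by omega, ?_, ?_⟩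
    · intro p' hp'
      rw [hx1 p' ?_]
      · exact h3 p' fun h => hp' ⟨h.1, by have := h.2; omega⟩
      · rintro k hk ⟨hc1, hc2⟩
        have : (k + 1) * L ≤ j * L := Nat.mul_le_mul_right L hk
        exact hp' ⟨by omega, by omega⟩
    · intro x' hx'
      -- `x'` is in the old cylinder
      have hold : ∀ p', p' ∉ colsA H lo (lo + co * L) → x' p' = x p' := by
        intro p' hp'
        rw [hx' p' ?_, hx1 p' ?_]
        · rintro k hk ⟨hc1, hc2⟩
          have : (k + 1) * L ≤ co * L := Nat.mul_le_mul_right L (by omega)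
          exact hp' ⟨by omega, by omega⟩
        · rintro ⟨hc1, hc2⟩
          exact hp' ⟨by omega, by omega⟩
      have hbase : ∀ a, ∀ i' < m, ∀ p' ∈ (T a i').asked x₀, x' p' = x₀ p' := by
        intro a i' hi' p' hp'
        have h5 := hask a i' hi' p' hp'
        rw [hold p' ?_, h3 p' ?_]
        · rintro ⟨hc1, hc2⟩
          exact h5 ⟨by omega, by omega⟩
        · rintro ⟨hc1, hc2⟩
          exact h5 ⟨by omega, by omega⟩
      have hsg : (0 < p x' ↔ 0 < p x1) := by
        refine hsgn x' fun p' hp' => hx' p' fun h => hp' ?_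
        have e : lo + (j + 1) * L = lo + j * L + L := by omega
        show p' ∈ colsA H (lo + j * L) (lo + (j + 1) * L)
        rw [e]
        exact h
      have hbb : b = true ↔ ¬ 0 ≤ ∑ a, (chain d w x₀ (T a) f i 0).eval x' := by
        rw [hb, decide_eq_true_eq, ← hsg, ← hPp x']
      have h6 := sum_chain x₀ f hT hbase (i := i) (by omega) b hbb
      have h7 := h4 x' hold
      calc 2 ^ (i + 1) * (good T (Function.update f i b) (i + 1) x').card
          = 2 ^ i * (2 * (good T (Function.update f i b) (i + 1) x').card) := by ring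
        _ ≤ 2 ^ i * (good T f i x').card := Nat.mul_le_mul_left _ h6
        _ ≤ K := h7

/-- **The adversary argument for families, columns over all rows.** Fewer than `2 ^ m` families of
`m` trees: there are two neighbouring columns and bits `f`, such that for every content of these
two columns none of the families computes `f`. -/
theorem adversary_rows (hm : Fintype.card ι < 2 ^ m) {T : ι → ℕ → QTree}
    (hT : ∀ a, ∀ i < m, Fits d w τ q (T a i))
    (hH : needF d w τ q m (Fintype.card ι) ≤ H) (x₀ : ℕ → Bool) :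
    ∃ (x : ℕ → Bool) (f : ℕ → Bool) (lo : ℕ), lo + 2 ≤ H ∧
      (∀ p, lo ≤ p % H → x p = x₀ p) ∧
      ∀ x' : ℕ → Bool, (∀ p, p % H ≠ lo → p % H ≠ lo + 1 → x' p = x p) →
        ∀ a, ∃ i < m, (T a i).eval x' ≠ f i := by
  classical
  set K := Fintype.card ι with hK
  set co := cost d w τ q m K with hco
  -- the asked columns
  let U : Finset ℕ := (Finset.univ : Finset ι).biUnion fun a =>
    (Finset.range m).biUnion fun i => ((T a i).asked x₀).image fun p => p % H
  have hU : U.card ≤ K * m * (2 ^ q * τ) := by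
    refine Finset.card_biUnion_le.trans ?_
    calc ∑ a : ι, ((Finset.range m).biUnion fun i =>
          ((T a i).asked x₀).image fun p => p % H).card
        ≤ ∑ _a : ι, m * (2 ^ q * τ) := by
          refine Finset.sum_le_sum fun a _ => ?_
          refine Finset.card_biUnion_le.trans ?_
          calc ∑ i ∈ Finset.range m, (((T a i).asked x₀).image fun p => p % H).card
              ≤ ∑ _i ∈ Finset.range m, 2 ^ q * τ := by
                refine Finset.sum_le_sum fun i hi => ?_
                exact Finset.card_image_le.trans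
                  (card_asked (hT a i (Finset.mem_range.1 hi)) x₀)
            _ = m * (2 ^ q * τ) := by rw [Finset.sum_const, Finset.card_range, smul_eq_mul]
      _ = K * m * (2 ^ q * τ) := by
          rw [Finset.sum_const, Finset.card_univ, smul_eq_mul, ← hK, mul_assoc]
  obtain ⟨s, hs, hfree⟩ := exists_free U hU 0 (2 * co ^ m)
  set lo₀ := 0 + s * (2 * co ^ m) with hlo₀
  have hhi : 0 + (s + 1) * (2 * co ^ m) = lo₀ + 2 * co ^ m := by rw [hlo₀]; ring
  rw [hhi] at hfree
  have hHle : lo₀ + 2 * co ^ m ≤ H := by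
    have h1 : (s + 1) * (2 * co ^ m) ≤ (K * m * (2 ^ q * τ) + 1) * (2 * co ^ m) :=
      Nat.mul_le_mul_right _ (by omega)
    unfold needF at hH
    rw [← hco] at hH
    omega
  have hask : ∀ a, ∀ i < m, ∀ p ∈ (T a i).asked x₀, p ∉ colsA H lo₀ (lo₀ + 2 * co ^ m) := by
    rintro a i hi p hp ⟨hc1, hc2⟩
    refine hfree (p % H) hc1 hc2 ?_
    exact Finset.mem_biUnion.2 ⟨a, Finset.mem_univ a, Finset.mem_biUnion.2
      ⟨i, Finset.mem_range.2 hi, Finset.mem_image.2 ⟨p, hp, rfl⟩⟩⟩
  obtain ⟨f, x, lo, h1, h2, h3, h4⟩ := roundsA hT x₀ le_rfl hask m le_rfl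
  rw [Nat.sub_self, pow_zero, mul_one] at h2 h4
  have h2' : lo + 2 ≤ lo₀ + 2 * co ^ m := h2
  refine ⟨x, f, lo, by omega, fun p hp => h3 p fun h => ?_, fun x' hx' a => ?_⟩
  · have := h.2
    omega
  · have h5 := h4 x' fun p hp => hx' p (fun h => hp ⟨by omega, by omega⟩)
      (fun h => hp ⟨by omega, by omega⟩)
    have h6 : (good T f m x').card = 0 := by
      by_contra h7
      have h8 : 1 ≤ (good T f m x').card := Nat.one_le_iff_ne_zero.2 h7
      have h9 : 2 ^ m * 1 ≤ 2 ^ m * (good T f m x').card := Nat.mul_le_mul_left _ h8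
      omega
    have h7 : a ∉ good T f m x' := by
      rw [Finset.card_eq_zero.1 h6]
      exact Finset.notMem_empty a
    rw [mem_good] at h7
    push Not at h7
    exact h7

end

end O2PP
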