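import Pool.Agent.Work.MP_a81742_lc_or.Member

/-!
# Polynomial time with few queries to PP and with advice; the block language
-/

namespace ORDist

/-- `P^{PP^A[f]}/g`: the language `L` is decided in polynomial time with the oracle `A`, with an
advice string of length at most `g n` for the inputs of length `n` and with at most `f n` (adaptive)
queries to a language `K` of `PP^A` -/
def InPPPOAdv (A : List Bool → Bool) (f g : ℕ → ℕ) (L : Set (List Bool)) : Prop :=
  ∃ (K : List Bool → Bool) (M : OProc) (p : Polynomial ℕ) (adv : ℕ → List Bool),
    InPPO A K ∧ PolyTime pairStr actStr M ∧ (∀ n, (adv n).length ≤ g n) ∧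
    ∀ x : List Bool, ∃ k ≤ p.eval (pairStr (x, adv x.length)).length,
      (∀ j < k, (M (pairStr (x, adv x.length),
        answers (join A K) M (pairStr (x, adv x.length)) j)).1 = true) ∧
      nTrue (join A K) M (pairStr (x, adv x.length)) k ≤ f x.length ∧
      ∃ v : Bool, M (pairStr (x, adv x.length),
        answers (join A K) M (pairStr (x, adv x.length)) k) = (false, [v]) ∧ (x ∈ L ↔ v = true)

/-- among the strings `w` of length `N` with `x ++ w` in `A` there is a maximal one, and it ends in
`1` -/
def MaxOddAt (A : Str → Bool) (x : Str) (N : ℕ) : Prop := MaxOdd (fun w => A (x ++ w)) N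

/-- the block language: `x` belongs to it if its value is less than `k (|x|)` and the maximal string
`w` of length `l (|x|)` with `x ++ w` in `A` exists and ends in `1` -/
def blockLang (A : Str → Bool) (k l : ℕ → ℕ) : Set Str :=
  {x | val x < k x.length ∧ MaxOddAt A x (l x.length)}

end ORDist
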