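import Pool.Agent.Work.MP_a81742_lc_or.ITree

/-!
# The adversary argument for a family of decision trees

Many decision trees try to guess the parities of the maxima of `m` blocks; if there are fewer than
`2 ^ m` of them, then all of them fail on one oracle.
-/

namespace O2PP

open Finset

/-! ### removing the bit queries -/

/-- the positions which are read by the bit queries if these are answered by `x` -/
noncomputable def QTree.asked : QTree → (ℕ → Bool) → Finset ℕ
  | .leaf _, _ => ∅
  | .bit i t0 t1, x => insert i (if x i = true then t1.asked x else t0.asked x)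
  | .thr _ t0 t1, x => t0.asked x ∪ t1.asked x

theorem card_asked {d w τ q : ℕ} {T : QTree} (hT : Fits d w τ q T) (x : ℕ → Bool) :
    (T.asked x).card ≤ 2 ^ q * τ := by
  induction hT with
  | leaf b => simp [QTree.asked]
  | @bit τ q i t0 t1 h0 h1 ih0 ih1 =>
    rw [QTree.asked]
    refine (card_insert_le _ _).trans ?_
    have h2 : (if x i = true then t1.asked x else t0.asked x).card ≤ 2 ^ q * τ := by
      split_ifs
      · exact ih1
      · exact ih0
    have h3 : 1 ≤ 2 ^ q := Nat.one_le_two_pow
    rw [Nat.mul_succ]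
    omega
  | @thr τ q P t0 t1 hP h0 h1 ih0 ih1 =>
    rw [QTree.asked]
    refine (card_union_le _ _).trans ?_
    have h2 : 2 ^ (q + 1) * τ = 2 ^ q * τ + 2 ^ q * τ := by ring
    omega

open Classical in
/-- a polynomial of the threshold predicate `P` -/
noncomputable def thrPoly (d w : ℕ) (P : (ℕ → Bool) → Prop) : (ℕ → Bool) → ℤ :=
  if h : Thr d w P then h.choose else fun _ => 1

/-- the tree without the bit queries, continued by `k` at its leaves -/
noncomputable def QTree.toI (d w : ℕ) (x : ℕ → Bool) : QTree → (Bool → ITree) → ITree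
  | .leaf b, k => k b
  | .bit i t0 t1, k => if x i = true then t1.toI d w x k else t0.toI d w x k
  | .thr P t0 t1, k => .node (thrPoly d w P) (t0.toI d w x k) (t1.toI d w x k)

theorem toI_eval {d w τ q : ℕ} {T : QTree} (hT : Fits d w τ q T) (x : ℕ → Bool)
    (k : Bool → ITree) (x' : ℕ → Bool) (hx' : ∀ i ∈ T.asked x, x' i = x i) :
    (T.toI d w x k).eval x' = (k (T.eval x')).eval x' := by
  induction hT with
  | leaf b => rfl
  | @bit τ q i t0 t1 h0 h1 ih0 ih1 =>
    rw [QTree.asked] at hx'
    have hi := hx' i (mem_insert_self _ _)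
    rw [QTree.toI, QTree.eval, hi]
    by_cases h : x i = true
    · rw [if_pos h, if_pos h]
      refine ih1 fun j hj => hx' j (mem_insert_of_mem ?_)
      rw [if_pos h]
      exact hj
    · rw [if_neg h, if_neg h]
      refine ih0 fun j hj => hx' j (mem_insert_of_mem ?_)
      rw [if_neg h]
      exact hj
  | @thr τ q P t0 t1 hP h0 h1 ih0 ih1 =>
    rw [QTree.asked] at hx'
    have h2 : (0 < thrPoly d w P x') ↔ P x' := by
      unfold thrPoly
      rw [dif_pos hP]
      exact (hP.choose_spec.2.2.2 x').symm
    rw [QTree.toI, ITree.eval, QTree.eval]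
    by_cases h : P x'
    · rw [if_pos (h2.2 h), if_pos h]
      exact ih1 fun j hj => hx' j (mem_union_right _ hj)
    · rw [if_neg (fun h' => h (h2.1 h')), if_neg h]
      exact ih0 fun j hj => hx' j (mem_union_left _ hj)

theorem toI_good {d w τ q : ℕ} {T : QTree} (hT : Fits d w τ q T) (x : ℕ → Bool)
    {k : Bool → ITree} {Q : ℕ} (hk : ∀ b, IGood d w Q (k b)) :
    IGood d w (q + Q) (T.toI d w x k) := by
  induction hT with
  | leaf b => exact (hk b).mono (by omega)
  | @bit τ q i t0 t1 h0 h1 ih0 ih1 =>
    rw [QTree.toI]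
    split_ifs
    · exact ih1
    · exact ih0
  | @thr τ q P t0 t1 hP h0 h1 ih0 ih1 =>
    rw [QTree.toI]
    have h2 : thrPoly d w P = hP.choose := by
      unfold thrPoly
      rw [dif_pos hP]
    have h3 := hP.choose_spec
    rw [h2, show q + 1 + Q = (q + Q) + 1 by omega]
    exact .node h3.1 h3.2.1 h3.2.2.1 ih0 ih1

/-! ### several trees after each other -/

/-- the trees `T r, …, T (r + n - 1)` have to give the values of `f`; then `T (r + n)` gives
`± 1` -/
noncomputable def chain (d w : ℕ) (x : ℕ → Bool) (T : ℕ → QTree) (f : ℕ → Bool) :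
    ℕ → ℕ → ITree
  | 0, r => (T r).toI d w x fun b => .leaf (if b = true then 1 else -1)
  | n + 1, r => (T r).toI d w x fun b => if b = f r then chain d w x T f n (r + 1) else .leaf 0

theorem chain_good {d w τ q m : ℕ} (x : ℕ → Bool) {T : ℕ → QTree} (f : ℕ → Bool)
    (hT : ∀ i < m, Fits d w τ q (T i)) : ∀ n r : ℕ, r + n < m →
      IGood d w ((n + 1) * q) (chain d w x T f n r) := by
  intro n
  induction n with
  | zero =>
    intro r hr
    rw [chain, show (0 + 1) * q = q + 0 by ring]
    refine toI_good (hT r (by omega)) x fun b => .leaf _ ?_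
    cases b <;> simp
  | succ n ih =>
    intro r hr
    rw [chain, show (n + 1 + 1) * q = q + (n + 1) * q by ring]
    refine toI_good (hT r (by omega)) x fun b => ?_
    split_ifs
    · exact ih (r + 1) (by omega)
    · exact .leaf _ (by simp)

theorem chain_eval {d w τ q m : ℕ} (x : ℕ → Bool) {T : ℕ → QTree} (f : ℕ → Bool)
    (hT : ∀ i < m, Fits d w τ q (T i)) {x' : ℕ → Bool}
    (hx' : ∀ i < m, ∀ p ∈ (T i).asked x, x' p = x p) : ∀ n r : ℕ, r + n < m →
      ((∀ s, r ≤ s → s < r + n → (T s).eval x' = f s) →
        (chain d w x T f n r).eval x' = if (T (r + n)).eval x' = true then 1 else -1) ∧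
      (¬ (∀ s, r ≤ s → s < r + n → (T s).eval x' = f s) →
        (chain d w x T f n r).eval x' = 0) := by
  intro n
  induction n with
  | zero =>
    intro r hr
    constructor
    · intro _
      rw [chain, toI_eval (hT r (by omega)) x _ x' (hx' r (by omega)), ITree.eval]
      rfl
    · intro h
      exact absurd (fun s h1 h2 => by omega) h
  | succ n ih =>
    intro r hr
    rw [chain, toI_eval (hT r (by omega)) x _ x' (hx' r (by omega))]
    obtain ⟨ih1, ih2⟩ := ih (r + 1) (by omega)
    constructor
    · intro h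
      rw [if_pos (h r le_rfl (by omega))]
      rw [ih1 fun s h1 h2 => h s (by omega) (by omega), show r + 1 + n = r + (n + 1) by ring]
    · intro h
      by_cases h1 : (T r).eval x' = f r
      · rw [if_pos h1]
        refine ih2 fun h2 => h fun s h3 h4 => ?_
        rcases Nat.eq_or_lt_of_le h3 with h5 | h5
        · rw [← h5]; exact h1
        · exact h2 s (by omega) (by omega)
      · rw [if_neg h1, ITree.eval]

/-! ### columns -/

/-- the columns from `lo` to `hi` of the first `m` blocks of length `H` -/
def cols (H m lo hi : ℕ) : Set ℕ := {p | ∃ i < m, ∃ c, lo ≤ c ∧ c < hi ∧ p = i * H + c}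

/-- the price of one round -/
def cost (d w τ q m K : ℕ) : ℕ :=
  (16 * dMaj d w (m * q) K ^ 2 + 1) * (wMaj w (m * q) K + 1)

/-- the length of the blocks which is needed -/
def needF (d w τ q m K : ℕ) : ℕ :=
  (K * m * (2 ^ q * τ) + 1) * (2 * cost d w τ q m K ^ m)

/-- the parity of the maximum of the block `i` -/
def OddMaxAt (H i : ℕ) (x : ℕ → Bool) : Prop := OddMax H fun c => x (i * H + c)

section

variable {ι : Type} [Fintype ι] {d w τ q m H : ℕ}

open Classical in
/-- the trees which are right on the first `i` blocks -/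
noncomputable def good (T : ι → ℕ → QTree) (f : ℕ → Bool) (i : ℕ) (x : ℕ → Bool) : Finset ι :=
  Finset.univ.filter fun a => ∀ r < i, (T a r).eval x = f r

theorem mem_good {T : ι → ℕ → QTree} {f : ℕ → Bool} {i : ℕ} {x : ℕ → Bool} {a : ι} :
    a ∈ good T f i x ↔ ∀ r < i, (T a r).eval x = f r := by
  classical
  simp [good]

theorem good_congr {T : ι → ℕ → QTree} {f f' : ℕ → Bool} {i : ℕ} {x : ℕ → Bool}
    (h : ∀ r < i, f r = f' r) : good T f i x = good T f' i x := by
  ext a
  rw [mem_good, mem_good]
  exact forall_congr' fun r => forall_congr' fun hr => by rw [h r hr]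

/-- halving: the sum over the chains compares the two possible predictions -/
theorem sum_chain (x : ℕ → Bool) {T : ι → ℕ → QTree} (f : ℕ → Bool)
    (hT : ∀ a, ∀ i < m, Fits d w τ q (T a i)) {x' : ℕ → Bool}
    (hx' : ∀ a, ∀ i < m, ∀ p ∈ (T a i).asked x, x' p = x p) {i : ℕ} (hi : i < m) (b : Bool)
    (hb : b = true ↔ ¬ 0 ≤ ∑ a, (chain d w x (T a) f i 0).eval x') :
    2 * (good T (Function.update f i b) (i + 1) x').card ≤ (good T f i x').card := by
  classical
  set C := good T f i x' with hC
  set C1 := C.filter fun a => (T a i).eval x' = true with hC1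
  set C0 := C.filter fun a => ¬ (T a i).eval x' = true with hC0
  have hcard : C1.card + C0.card = C.card := Finset.card_filter_add_card_filter_not _
  have hsum : ∑ a, (chain d w x (T a) f i 0).eval x' = (C1.card : ℤ) - C0.card := by
    have h1 : ∀ a, (chain d w x (T a) f i 0).eval x' =
        (if a ∈ C1 then 1 else 0) - (if a ∈ C0 then 1 else 0) := by
      intro a
      obtain ⟨h2, h3⟩ := chain_eval x f (hT a) (hx' a) i 0 (by omega)
      by_cases ha : a ∈ C
      · have h4 := mem_good.1 (hC ▸ ha)
        rw [h2 fun s _ hs => h4 s (by omega), zero_add]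
        by_cases h5 : (T a i).eval x' = true
        · have h6 : a ∈ C1 := mem_filter.2 ⟨ha, h5⟩
          have h7 : a ∉ C0 := fun h => (mem_filter.1 h).2 h5
          rw [if_pos h5, if_pos h6, if_neg h7, sub_zero]
        · have h6 : a ∉ C1 := fun h => h5 (mem_filter.1 h).2
          have h7 : a ∈ C0 := mem_filter.2 ⟨ha, h5⟩
          rw [if_neg h5, if_neg h6, if_pos h7, zero_sub]
      · have h4 : ¬ ∀ s, 0 ≤ s → s < 0 + i → (T a s).eval x' = f s := fun h =>
          ha (hC ▸ mem_good.2 fun r hr => h r (Nat.zero_le _) (by omega))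
        rw [h3 h4, if_neg fun h => ha (mem_filter.1 h).1, if_neg fun h => ha (mem_filter.1 h).1,
          sub_zero]
    rw [Finset.sum_congr rfl fun a _ => h1 a, Finset.sum_sub_distrib]
    simp
  rw [hsum] at hb
  cases b with
  | true =>
    have h1 := hb.1 rfl
    have h2 : good T (Function.update f i true) (i + 1) x' ⊆ C1 := by
      intro a ha
      rw [mem_good] at ha
      refine mem_filter.2 ⟨hC ▸ mem_good.2 fun r hr => ?_, ?_⟩
      · rw [ha r (by omega), Function.update_of_ne (by omega)]
      · rw [ha i (by omega), Function.update_self]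
    have h3 := Finset.card_le_card h2
    omega
  | false =>
    have h1 : ¬ ¬ 0 ≤ (C1.card : ℤ) - C0.card := fun h => absurd (hb.2 h) (by simp)
    rw [not_not] at h1
    have h2 : good T (Function.update f i false) (i + 1) x' ⊆ C0 := by
      intro a ha
      rw [mem_good] at ha
      refine mem_filter.2 ⟨hC ▸ mem_good.2 fun r hr => ?_, ?_⟩
      · rw [ha r (by omega), Function.update_of_ne (by omega)]
      · rw [ha i (by omega), Function.update_self]
        simp
    have h3 := Finset.card_le_card h2
    omega

theorem rounds {T : ι → ℕ → QTree} (hT : ∀ a, ∀ i < m, Fits d w τ q (T a i)) {lo₀ hi₀ : ℕ}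
    (hiH : hi₀ ≤ H) (x₀ : ℕ → Bool)
    (hlen : lo₀ + 2 * cost d w τ q m (Fintype.card ι) ^ m ≤ hi₀)
    (hask : ∀ a, ∀ i < m, ∀ p ∈ (T a i).asked x₀, p ∉ cols H m lo₀ hi₀) :
    ∀ i ≤ m, ∃ (f : ℕ → Bool) (x : ℕ → Bool) (lo : ℕ), lo₀ ≤ lo ∧
      lo + 2 * cost d w τ q m (Fintype.card ι) ^ (m - i) ≤ hi₀ ∧
      (∀ p, p ∉ cols H m lo₀ lo → x p = x₀ p) ∧
      ∀ x' : ℕ → Bool,
        (∀ p, p ∉ cols H m lo (lo + 2 * cost d w τ q m (Fintype.card ι) ^ (m - i)) →
          x' p = x p) →
        2 ^ i * (good T f i x').card ≤ Fintype.card ι := by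
  classical
  set K := Fintype.card ι with hK
  set co := cost d w τ q m K with hco
  intro i
  induction i with
  | zero =>
    intro _
    refine ⟨fun _ => false, x₀, lo₀, le_rfl, by simpa using hlen, fun p _ => rfl,
      fun x' _ => ?_⟩
    rw [pow_zero, one_mul]
    exact Finset.card_le_univ _
  | succ i ih =>
    intro hi
    obtain ⟨f, x, lo, h1, h2, h3, h4⟩ := ih (by omega)
    set L := 2 * co ^ (m - (i + 1)) with hL
    have hcL : 2 * co ^ (m - i) = co * L := by
      rw [hL, show m - i = (m - (i + 1)) + 1 by omega, pow_succ]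
      ring
    rw [hcL] at h2 h4
    have hgood : ∀ a, IGood d w (m * q) (chain d w x₀ (T a) f i 0) := fun a =>
      (chain_good x₀ f (hT a) i 0 (by omega)).mono (Nat.mul_le_mul_right q (by omega))
    obtain ⟨p, hp, hne, hw, hPp⟩ := thr_sum (fun a => chain d w x₀ (T a) f i 0) hgood
    rw [← hK] at hp hw
    let B : ℕ → Set ℕ := fun j => cols H m (lo + j * L) (lo + (j + 1) * L)
    have hbound : ∀ j < co, lo + (j + 1) * L ≤ H := by
      intro j hj
      have : (j + 1) * L ≤ co * L := Nat.mul_le_mul_right L hj
      omega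
    have hB : ∀ j < co, ∀ j' < co, j ≠ j' → Disjoint (B j) (B j') := by
      intro j hj j' hj' hne
      refine Set.disjoint_left.2 ?_
      rintro p ⟨r, hr, c, hc1, hc2, hc⟩ ⟨r', hr', c', hc1', hc2', hc'⟩
      have hb1 := hbound j hj
      have hb2 := hbound j' hj'
      have hcc : c = c' := by
        have e1 : p % H = c := by
          rw [hc, Nat.mul_comm, Nat.mul_add_mod, Nat.mod_eq_of_lt (by omega)]
        have e2 : p % H = c' := by
          rw [hc', Nat.mul_comm, Nat.mul_add_mod, Nat.mod_eq_of_lt (by omega)]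
        rw [← e1, e2]
      rcases lt_or_gt_of_ne hne with h | h
      · have : (j + 1) * L ≤ j' * L := Nat.mul_le_mul_right L h
        omega
      · have : (j' + 1) * L ≤ j * L := Nat.mul_le_mul_right L h
        omega
    obtain ⟨j, hj, x1, hx1, hsgn⟩ := key_lemma hp hne hw (le_of_eq hco.symm) B hB x
    have hj1 : (j + 1) * L = j * L + L := by ring
    have hjm : (j + 1) * L ≤ co * L := Nat.mul_le_mul_right L hj
    set b : Bool := decide (¬ 0 < p x1) with hb
    refine ⟨Function.update f i b, x1, lo + j * L, by omega, by omega, ?_, ?_⟩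
    · intro p' hp'
      rw [hx1 p' ?_]
      · refine h3 p' fun h => hp' ?_
        obtain ⟨r, hr, c, hc1, hc2, hc⟩ := h
        exact ⟨r, hr, c, hc1, by omega, hc⟩
      · rintro k hk ⟨r, hr, c, hc1, hc2, hc⟩
        refine hp' ⟨r, hr, c, by omega, ?_, hc⟩
        have : (k + 1) * L ≤ j * L := Nat.mul_le_mul_right L hk
        omega
    · intro x' hx'
      -- `x'` is in the old cylinder
      have hold : ∀ p', p' ∉ cols H m lo (lo + co * L) → x' p' = x p' := by
        intro p' hp'
        rw [hx' p' ?_, hx1 p' ?_]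
        · rintro k hk ⟨r, hr, c, hc1, hc2, hc⟩
          refine hp' ⟨r, hr, c, by omega, ?_, hc⟩
          have : (k + 1) * L ≤ co * L := Nat.mul_le_mul_right L (by omega)
          omega
        · rintro ⟨r, hr, c, hc1, hc2, hc⟩
          exact hp' ⟨r, hr, c, by omega, by omega, hc⟩
      have hbase : ∀ a, ∀ i' < m, ∀ p' ∈ (T a i').asked x₀, x' p' = x₀ p' := by
        intro a i' hi' p' hp'
        have h5 := hask a i' hi' p' hp'
        rw [hold p' ?_, h3 p' ?_]
        · rintro ⟨r, hr, c, hc1, hc2, hc⟩
          exact h5 ⟨r, hr, c, by omega, by omega, hc⟩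
        · rintro ⟨r, hr, c, hc1, hc2, hc⟩
          exact h5 ⟨r, hr, c, by omega, by omega, hc⟩
      have hsg : (0 < p x' ↔ 0 < p x1) := by
        refine hsgn x' fun p' hp' => hx' p' fun h => hp' ?_
        have e : lo + (j + 1) * L = lo + j * L + L := by omega
        show p' ∈ cols H m (lo + j * L) (lo + (j + 1) * L)
        rw [e]
        exact h
      have hbb : b = true ↔ ¬ 0 ≤ ∑ a, (chain d w x₀ (T a) f i 0).eval x' := by
        rw [hb, decide_eq_true_eq, ← hsg, ← hPp x']
      have h6 := sum_chain x₀ f hT hbase (i := i) (by omega) b hbb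
      have h7 := h4 x' hold
      calc 2 ^ (i + 1) * (good T (Function.update f i b) (i + 1) x').card
          = 2 ^ i * (2 * (good T (Function.update f i b) (i + 1) x').card) := by ring
        _ ≤ 2 ^ i * (good T f i x').card := Nat.mul_le_mul_left _ h6
        _ ≤ K := h7

/-- **The adversary argument for families.** Fewer than `2 ^ m` trees try to compute the parities
of the maxima of `m` blocks: there is an oracle on which every one of them is wrong at some block. -/
theorem adversary_fam (hm : Fintype.card ι < 2 ^ m) {T : ι → ℕ → QTree}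
    (hT : ∀ a, ∀ i < m, Fits d w τ q (T a i)) (hH : needF d w τ q m (Fintype.card ι) ≤ H)
    (x₀ : ℕ → Bool) (hx₀ : ∀ i < m, ∀ c < H, x₀ (i * H + c) = false) :
    ∃ x : ℕ → Bool, (∀ p, m * H ≤ p → x p = x₀ p) ∧
      ∀ a, ∃ i < m, ((T a i).eval x = true ↔ ¬ OddMaxAt H i x) := by
  classical
  set K := Fintype.card ι with hK
  set co := cost d w τ q m K with hco
  -- the asked positions
  let U : Finset ℕ := (Finset.univ : Finset ι).biUnion fun a =>
    (Finset.range m).biUnion fun i => ((T a i).asked x₀).image fun p => p % H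
  have hU : U.card ≤ K * m * (2 ^ q * τ) := by
    refine Finset.card_biUnion_le.trans ?_
    calc ∑ a : ι, ((Finset.range m).biUnion fun i =>
          ((T a i).asked x₀).image fun p => p % H).card
        ≤ ∑ _a : ι, m * (2 ^ q * τ) := by
          refine Finset.sum_le_sum fun a _ => ?_
          refine Finset.card_biUnion_le.trans ?_
          calc ∑ i ∈ Finset.range m, (((T a i).asked x₀).image fun p => p % H).card
              ≤ ∑ _i ∈ Finset.range m, 2 ^ q * τ := by
                refine Finset.sum_le_sum fun i hi => ?_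
                exact Finset.card_image_le.trans
                  (card_asked (hT a i (Finset.mem_range.1 hi)) x₀)
            _ = m * (2 ^ q * τ) := by rw [Finset.sum_const, Finset.card_range, smul_eq_mul]
      _ = K * m * (2 ^ q * τ) := by
          rw [Finset.sum_const, Finset.card_univ, smul_eq_mul, ← hK, mul_assoc]
  obtain ⟨s, hs, hfree⟩ := exists_free U hU 0 (2 * co ^ m)
  set lo₀ := 0 + s * (2 * co ^ m) with hlo₀
  have hhi : 0 + (s + 1) * (2 * co ^ m) = lo₀ + 2 * co ^ m := by rw [hlo₀]; ring
  rw [hhi] at hfree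
  have hHle : lo₀ + 2 * co ^ m ≤ H := by
    have h1 : (s + 1) * (2 * co ^ m) ≤ (K * m * (2 ^ q * τ) + 1) * (2 * co ^ m) :=
      Nat.mul_le_mul_right _ (by omega)
    unfold needF at hH
    rw [← hco] at hH
    omega
  have hask : ∀ a, ∀ i < m, ∀ p ∈ (T a i).asked x₀, p ∉ cols H m lo₀ (lo₀ + 2 * co ^ m) := by
    rintro a i hi p hp ⟨r, hr, c, hc1, hc2, hc⟩
    refine hfree c hc1 hc2 ?_
    refine Finset.mem_biUnion.2 ⟨a, Finset.mem_univ a, Finset.mem_biUnion.2
      ⟨i, Finset.mem_range.2 hi, Finset.mem_image.2 ⟨p, hp, ?_⟩⟩⟩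
    rw [hc, Nat.mul_comm, Nat.mul_add_mod, Nat.mod_eq_of_lt (by omega)]
  obtain ⟨f, x, lo, h1, h2, h3, h4⟩ := rounds hT hHle x₀ le_rfl hask m le_rfl
  rw [Nat.sub_self, pow_zero, mul_one] at h2 h4
  -- the column of the maximum of the block `r`
  let col : ℕ → ℕ := fun r => if (decide (lo % 2 = 1)) = f r then lo else lo + 1
  have hcol : ∀ r, (col r = lo ∨ col r = lo + 1) ∧ (col r % 2 = 1 ↔ f r = true) := by
    intro r
    rcases Nat.mod_two_eq_zero_or_one lo with h | h
    · cases hf : f r
      · have : col r = lo := by simp [col, h, hf]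
        rw [this]
        exact ⟨Or.inl rfl, by simp [h]⟩
      · have : col r = lo + 1 := by simp [col, h, hf]
        rw [this]
        exact ⟨Or.inr rfl, by simp; omega⟩
    · cases hf : f r
      · have : col r = lo + 1 := by simp [col, h, hf]
        rw [this]
        exact ⟨Or.inr rfl, by simp; omega⟩
      · have : col r = lo := by simp [col, h, hf]
        rw [this]
        exact ⟨Or.inl rfl, by simp [h]⟩
  have hHpos : 0 < H := by omega
  let x' : ℕ → Bool := fun p =>
    if p ∈ cols H m lo (lo + 2) then decide (p % H = col (p / H)) else x p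
  have hx'x : ∀ p, p ∉ cols H m lo (lo + 2) → x' p = x p := fun p hp => by
    simp only [x', if_neg hp]
  have hdm : ∀ r c, c < H → (r * H + c) % H = c ∧ (r * H + c) / H = r := by
    intro r c hc
    constructor
    · rw [Nat.mul_comm, Nat.mul_add_mod, Nat.mod_eq_of_lt hc]
    · rw [Nat.mul_comm, Nat.mul_add_div hHpos, Nat.div_eq_of_lt hc, add_zero]
  refine ⟨x', fun p hp => ?_, fun a => ?_⟩
  · rw [hx'x p, h3 p]
    · rintro ⟨r, hr, c, hc1, hc2, hc⟩
      have : (r + 1) * H ≤ m * H := Nat.mul_le_mul_right H hr
      have h5 : (r + 1) * H = r * H + H := by ring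
      omega
    · rintro ⟨r, hr, c, hc1, hc2, hc⟩
      have : (r + 1) * H ≤ m * H := Nat.mul_le_mul_right H hr
      have h5 : (r + 1) * H = r * H + H := by ring
      omega
  · have h5 := h4 x' fun p hp => hx'x p hp
    have h6 : (good T f m x').card = 0 := by
      by_contra h7
      have h8 : 1 ≤ (good T f m x').card := Nat.one_le_iff_ne_zero.2 h7
      have h9 : 2 ^ m * 1 ≤ 2 ^ m * (good T f m x').card := Nat.mul_le_mul_left _ h8
      omega
    have h7 : a ∉ good T f m x' := by
      rw [Finset.card_eq_zero.1 h6]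
      exact Finset.notMem_empty a
    rw [mem_good] at h7
    push Not at h7
    obtain ⟨r, hr, h8⟩ := h7
    refine ⟨r, hr, ?_⟩
    -- the maximum of the block `r`
    have hval : ∀ c < H, x' (r * H + c) = if lo ≤ c ∧ c < lo + 2 then decide (c = col r)
        else x (r * H + c) := by
      intro c hc
      obtain ⟨e1, e2⟩ := hdm r c hc
      by_cases hcc : lo ≤ c ∧ c < lo + 2
      · have hmem : r * H + c ∈ cols H m lo (lo + 2) := ⟨r, hr, c, hcc.1, hcc.2, rfl⟩
        simp only [x', if_pos hmem, if_pos hcc, e1, e2]
      · have hmem : r * H + c ∉ cols H m lo (lo + 2) := by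
          rintro ⟨r', hr', c', hc1, hc2, hc'⟩
          have e3 := (hdm r' c' (by omega)).1
          rw [← hc', e1] at e3
          exact hcc ⟨by omega, by omega⟩
        simp only [x', if_neg hmem, if_neg hcc]
    have hzero : ∀ c, lo + 2 ≤ c → c < H → x' (r * H + c) = false := by
      intro c hc1 hc2
      rw [hval c hc2, if_neg (by omega), h3 _ ?_]
      · exact hx₀ r hr c hc2
      · rintro ⟨r', hr', c', hc1', hc2', hc'⟩
        have e1 := (hdm r c hc2).1
        have e3 := (hdm r' c' (by omega)).1
        rw [← hc', e1] at e3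
        omega
    have hodd : OddMaxAt H r x' ↔ f r = true := by
      obtain ⟨hc1, hc2⟩ := hcol r
      have hcH : col r < H := by omega
      have hone : x' (r * H + col r) = true := by
        rw [hval _ hcH, if_pos (by omega)]
        simp
      have habove : ∀ c, col r < c → c < H → x' (r * H + c) = false := by
        intro c h9 h10
        by_cases h11 : c < lo + 2
        · rw [hval c h10, if_pos (by omega)]
          simp only [decide_eq_false_iff_not]
          omega
        · exact hzero c (by omega) h10
      constructor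
      · rintro ⟨c, hcH', hodd, hc, hmax⟩
        rw [← hc2]
        have : c = col r := by
          rcases lt_trichotomy c (col r) with h | h | h
          · have := hmax (col r) h hcH
            simp only at this
            rw [hone] at this
            exact absurd this (by simp)
          · exact h
          · simp only at hc
            rw [habove c h hcH'] at hc
            exact absurd hc (by simp)
        rw [← this]
        exact hodd
      · intro h
        exact ⟨col r, hcH, hc2.2 h, hone, fun c h9 h10 => habove c h9 h10⟩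
    rw [hodd]
    cases h9 : (T a r).eval x' <;> cases h10 : f r <;> simp_all

end

end O2PP
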