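import Pool.Agent.Work.MP_a81742_lc_or.AdvDefs

/-!
# The block language is in `O_2^{p,A}`
-/

namespace ORDist

open PTime

/-! ### the value of a string, cut off at a bound -/

theorem foldl_min (k : ℕ) : ∀ (x : Str) (s : ℕ), s ≤ k →
    x.foldl (fun s b => min (2 * s + bif b then 1 else 0) k) s = min (s * 2 ^ x.length + val x) k
  | [], s, hs => by simp [val, hs]
  | b :: x, s, hs => by
    rw [List.foldl_cons, foldl_min k x _ (min_le_right _ _), val, List.length_cons, pow_succ]
    have hpos : 0 < 2 ^ x.length := by positivity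
    rcases le_total (2 * s + bif b then 1 else 0) k with h | h
    · rw [min_eq_left h]
      congr 1
      cases b
      · simp only [cond_false, add_zero, zero_add]; ring
      · simp only [cond_true]; ring
    · rw [min_eq_right h, min_eq_right, min_eq_right]
      · cases b
        · simp only [cond_false, add_zero, zero_add] at h ⊢
          nlinarith
        · simp only [cond_true] at h ⊢
          nlinarith
      · nlinarith

theorem pt_valLt {α : Type} [Code α] {f : α → Str} {k : α → ℕ} (hf : PT f) (hk : PT k) :
    PT (fun a => decide (val (f a) < k a)) := by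
  obtain ⟨r, hr⟩ := hk.size
  have h1 : PT (fun a => (f a).foldl (fun s b => min (2 * s + bif b then 1 else 0) (k a)) 0) := by
    refine PT.foldl (g := fun y : α × ℕ × Bool => min (2 * y.2.1 + bif y.2.2 then 1 else 0) (k y.1))
      hf (PT.const 0) ?_ r ?_
    · have hk' : PT (fun y : α × ℕ × Bool => k y.1) := hk.comp PT.fst
      have hs : PT (fun y : α × ℕ × Bool => 2 * y.2.1 + bif y.2.2 then 1 else 0) :=
        ((PT.const 2).mul PT.snd.fst').add (PT.cond PT.snd.snd' (PT.const 1) (PT.const 0))
      refine (PT.ite (P := fun y : α × ℕ × Bool => 2 * y.2.1 + (bif y.2.2 then 1 else 0) ≤ k y.1)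
        (PT.le hs hk') hs hk').congr fun y => ?_
      by_cases h : 2 * y.2.1 + (bif y.2.2 then 1 else 0) ≤ k y.1
      · rw [if_pos h, min_eq_left h]
      · rw [if_neg h, min_eq_right (by omega)]
    · intro a l' _
      have h2 := foldl_min (k a) l' 0 (Nat.zero_le _)
      have h3 : l'.foldl (fun s b => min (2 * s + bif b then 1 else 0) (k a)) 0 ≤ k a := by
        rw [h2]; exact min_le_right _ _
      have h4 := hr a
      rw [sz_nat] at h4
      have h6 : 2 * (l'.foldl (fun s b => min (2 * s + bif b then 1 else 0) (k a)) 0) + 1 ≤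
          r.eval (sz a) := by omega
      rw [sz_nat]
      exact h6
  refine (PT.lt h1 hk).congr fun a => ?_
  rw [foldl_min (k a) (f a) 0 (Nat.zero_le _), zero_mul, zero_add]
  by_cases h : val (f a) < k a
  · rw [min_eq_left h.le]
  · rw [min_eq_right (by omega), decide_eq_false (lt_irrefl _), decide_eq_false h]

/-! ### substrings of a given length -/

/-- the substrings of `y` of length `l` -/
def subs (l : ℕ) (y : Str) : List Str :=
  ((List.range (y.length + 1)).map fun j => (y.drop j).take l).filter fun w =>
    decide (w.length = l)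

theorem pt_subs {α : Type} [Code α] {l : α → ℕ} {y : α → Str} (hl : PT l) (hy : PT y) :
    PT (fun a => subs (l a) (y a)) := by
  have h1 : PT (fun z : α × ℕ => ((y z.1).drop z.2).take (l z.1)) :=
    (PT.drop (hy.comp PT.fst) PT.snd).take (hl.comp PT.fst)
  have h2 : PT (fun z : α × Str => decide (z.2.length = l z.1)) :=
    PT.natEq PT.snd.length (hl.comp PT.fst)
  exact PT.filter (p := fun z : α × Str => decide (z.2.length = l z.1))
    (PT.map (g := fun z : α × ℕ => ((y z.1).drop z.2).take (l z.1)) hy.length.succ.range h1) h2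

theorem length_of_mem_subs {l : ℕ} {y w : Str} (h : w ∈ subs l y) : w.length = l := by
  unfold subs at h
  rw [List.mem_filter] at h
  exact of_decide_eq_true h.2

theorem mem_subs_of_drop {l j : ℕ} {y w : Str} (hj : j ≤ y.length) (hw : (y.drop j).take l = w)
    (hl : w.length = l) : w ∈ subs l y := by
  unfold subs
  rw [List.mem_filter, List.mem_map]
  exact ⟨⟨j, List.mem_range.2 (by omega), hw⟩, decide_eq_true hl⟩

/-- blocks of equal length -/
theorem drop_take_flatten {l : ℕ} : ∀ (L : List Str), (∀ w ∈ L, w.length = l) → ∀ (i : ℕ)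
    (hi : i < L.length), (L.flatten.drop (i * l)).take l = L[i]
  | [], _, i, hi => by simp at hi
  | w :: L, h, 0, _ => by
    have hw : w.length = l := h w List.mem_cons_self
    simp [← hw]
  | w :: L, h, i + 1, hi => by
    have hw : w.length = l := h w List.mem_cons_self
    have ih := drop_take_flatten L (fun w' hw' => h w' (List.mem_cons_of_mem _ hw')) i
      (by simpa using hi)
    have h1 : (i + 1) * l = w.length + i * l := by rw [hw]; ring
    rw [List.flatten_cons, h1, List.drop_append, List.getElem_cons_succ]
    have h2 : w.drop (w.length + i * l) = [] := List.drop_eq_nil_of_le (by omega)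
    rw [h2, List.nil_append, Nat.add_sub_cancel_left]
    exact ih

theorem length_flatten_eq {l : ℕ} : ∀ (L : List Str), (∀ w ∈ L, w.length = l) →
    L.flatten.length = L.length * l
  | [], _ => by simp
  | w :: L, h => by
    rw [List.flatten_cons, List.length_append, h w List.mem_cons_self,
      length_flatten_eq L fun w' hw' => h w' (List.mem_cons_of_mem _ hw'), List.length_cons]
    ring

/-! ### the verifier -/

/-- the candidates -/
def cands (l : ℕ → ℕ) (z : Str × Str × Str) : List Str :=
  subs (l z.1.length) z.2.1 ++ subs (l z.1.length) z.2.2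

/-- the decision from the candidates `c` and the answers `r` -/
def decL (c : List Str) (r : Str) : Bool :=
  (List.range c.length).any fun j => (r.getD j false && (c.getD j []).getLastD false) &&
    (List.range c.length).all fun j' => !r.getD j' false || leS (c.getD j' []) (c.getD j [])

theorem pt_decL {α : Type} [Code α] {c : α → List Str} {r : α → Str} (hc : PT c) (hr : PT r) :
    PT (fun a => decL (c a) (r a)) := by
  have hc1 : PT (fun z : α × ℕ => c z.1) := hc.comp PT.fst
  have hr1 : PT (fun z : α × ℕ => r z.1) := hr.comp PT.fst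
  have hc2 : PT (fun z : (α × ℕ) × ℕ => c z.1.1) := hc1.comp PT.fst
  have hr2 : PT (fun z : (α × ℕ) × ℕ => r z.1.1) := hr1.comp PT.fst
  have hj : PT (fun z : (α × ℕ) × ℕ => z.1.2) := PT.snd.comp PT.fst
  have hall : PT (fun z : α × ℕ => (List.range (c z.1).length).all fun j' =>
      !(r z.1).getD j' false || leS ((c z.1).getD j' []) ((c z.1).getD z.2 [])) :=
    PT.all (p := fun z : (α × ℕ) × ℕ => !(r z.1.1).getD z.2 false ||
      leS ((c z.1.1).getD z.2 []) ((c z.1.1).getD z.1.2 [])) hc1.length.range
      ((hr2.getD PT.snd (PT.const false)).not.or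
        (pt_leS (hc2.getD PT.snd (PT.const [])) (hc2.getD hj (PT.const []))))
  exact PT.any (p := fun z : α × ℕ => ((r z.1).getD z.2 false &&
      ((c z.1).getD z.2 []).getLastD false) &&
    (List.range (c z.1).length).all fun j' =>
      !(r z.1).getD j' false || leS ((c z.1).getD j' []) ((c z.1).getD z.2 [])) hc.length.range
    (((hr1.getD PT.snd (PT.const false)).and
      (pt_last (hc1.getD PT.snd (PT.const [])))).and hall)

theorem decL_iff {B : Str → Bool} {N : ℕ} {c : List Str} (hc : ∀ w ∈ c, w.length = N) :
    decL c (c.map B) = true ↔ ∃ w ∈ c, B w = true ∧ w.getLastD false = true ∧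
      ∀ w' ∈ c, B w' = true → val w' ≤ val w := by
  have hget : ∀ j < c.length, (c.map B).getD j false = B (c.getD j []) := by
    intro j hj
    rw [List.getD_eq_getElem _ _ (by rw [List.length_map]; exact hj), List.getElem_map,
      List.getD_eq_getElem _ _ hj]
  have hmem : ∀ j < c.length, c.getD j [] ∈ c := by
    intro j hj
    rw [List.getD_eq_getElem _ _ hj]
    exact List.getElem_mem hj
  unfold decL
  rw [List.any_eq_true]
  constructor
  · rintro ⟨j, hj, h⟩
    have hj' := List.mem_range.1 hj
    rw [Bool.and_eq_true, Bool.and_eq_true, hget j hj', List.all_eq_true] at h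
    refine ⟨c.getD j [], hmem j hj', h.1.1, h.1.2, fun w' hw' hB => ?_⟩
    obtain ⟨j', hj1, hj2⟩ := List.getElem_of_mem hw'
    have h2 := h.2 j' (List.mem_range.2 hj1)
    have h3 : c.getD j' [] = w' := by rw [List.getD_eq_getElem _ _ hj1, hj2]
    rw [hget j' hj1, h3, hB, Bool.not_true, Bool.false_or,
      leS_iff ((hc w' hw').trans (hc _ (hmem j hj')).symm)] at h2
    exact h2
  · rintro ⟨w, hw, hB, hlast, hmax⟩
    obtain ⟨j, hj1, hj2⟩ := List.getElem_of_mem hw
    have h3 : c.getD j [] = w := by rw [List.getD_eq_getElem _ _ hj1, hj2]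
    refine ⟨j, List.mem_range.2 hj1, ?_⟩
    rw [Bool.and_eq_true, Bool.and_eq_true, hget j hj1, h3, List.all_eq_true]
    refine ⟨⟨hB, hlast⟩, fun j' hj' => ?_⟩
    have hj'' := List.mem_range.1 hj'
    rw [hget j' hj'']
    rcases hB' : B (c.getD j' []) with _ | _
    · rfl
    · rw [Bool.not_true, Bool.false_or, leS_iff ((hc _ (hmem j' hj'')).trans (hc w hw).symm)]
      exact hmax _ (hmem j' hj'') hB'

/-- the verifier -/
def VB (A : Str → Bool) (k l : ℕ → ℕ) (z : Str × Str × Str) : Bool :=
  decide (val z.1 < k z.1.length) && decL (cands l z) ((cands l z).map fun w => A (z.1 ++ w))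

theorem polyTimeO_VB (A : Str → Bool) {k l : ℕ → ℕ} (hk : PT k) (hl : PT l) :
    PolyTimeO A tripStr (fun z => [VB A k l z]) := by
  let x : Str → Str := fun s => (unpairS s).1
  let y : Str → Str := fun s => (unpairS (unpairS s).2).1
  let z : Str → Str := fun s => (unpairS (unpairS s).2).2
  have hu : PT (fun s : Str => unpairS s) := PT.unpairS PT.id
  have hx : PT x := hu.fst'
  have hy : PT y := (PT.unpairS hu.snd').fst'
  have hz : PT z := (PT.unpairS hu.snd').snd'
  have hlx : PT (fun s : Str => l (x s).length) := hl.comp hx.length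
  have hkx : PT (fun s : Str => k (x s).length) := hk.comp hx.length
  have hc : PT (fun s : Str => cands l (x s, y s, z s)) :=
    (pt_subs hlx hy).append (pt_subs hlx hz)
  have hq : PT (fun s : Str => (cands l (x s, y s, z s)).map fun w => x s ++ w) :=
    PT.map (g := fun t : Str × Str => x t.1 ++ t.2) hc ((hx.comp PT.fst).append PT.snd)
  refine polyTimeO_list (qs := fun s => (cands l (x s, y s, z s)).map fun w => x s ++ w)
    (out := fun t => [decide (val (x t.1) < k (x t.1).length) &&
      decL (cands l (x t.1, y t.1, z t.1)) t.2]) hq ?_ ?_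
  · exact ((pt_valLt (hx.comp PT.fst) (hkx.comp PT.fst)).and
      (pt_decL (hc.comp PT.fst) PT.snd)).cons (PT.const [])
  · rintro ⟨x', y', z'⟩
    simp only [VB, x, y, z, tripStr, unpairS_pairStr, List.map_map]
    rfl

/-- the block language is in `O_2^{p,A}` -/
theorem blockLang_inO2O (A : Str → Bool) {k l : ℕ → ℕ} (hk : PT k) (hl : PT l) :
    InO2O A (fun n => k n * l n) (blockLang A k l) := by
  classical
  refine ⟨?_, VB A k l, polyTimeO_VB A hk hl, fun n => ?_⟩
  · obtain ⟨r, hr⟩ := (hk.mul hl).size
    refine ⟨r.comp (2 * Polynomial.X + 1), fun n => ?_⟩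
    have h1 := hr n
    rw [sz_nat, sz_nat] at h1
    simp only [Polynomial.eval_comp, Polynomial.eval_add, Polynomial.eval_mul,
      Polynomial.eval_ofNat, Polynomial.eval_X, Polynomial.eval_one]
    omega
  · -- the maxima
    have hch : ∀ x : Str, ∃ w : Str, w.length = l n ∧
        ((∃ u : Str, u.length = l n ∧ A (x ++ u) = true) → A (x ++ w) = true ∧
          ∀ w' : Str, w'.length = l n → A (x ++ w') = true → val w' ≤ val w) := by
      intro x
      by_cases h : ∃ u : Str, u.length = l n ∧ A (x ++ u) = true
      · obtain ⟨w, h1, h2, h3⟩ := exists_max (A := fun u => A (x ++ u)) h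
        exact ⟨w, h1, fun _ => ⟨h2, h3⟩⟩
      · exact ⟨List.replicate (l n) false, List.length_replicate, fun h' => absurd h' h⟩
    choose mx hmx1 hmx2 using hch
    set Y : List Str := (List.range (k n)).map fun i => mx (bstr n i) with hY
    have hYlen : ∀ w ∈ Y, w.length = l n := by
      intro w hw
      obtain ⟨i, _, rfl⟩ := List.mem_map.1 hw
      exact hmx1 _
    have hYl : Y.flatten.length = k n * l n := by
      rw [length_flatten_eq Y hYlen, hY, List.length_map, List.length_range]
    have hYmem : ∀ x : Str, x.length = n → val x < k n → mx x ∈ subs (l n) Y.flatten := by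
      intro x hx hv
      have hi : val x < Y.length := by rw [hY, List.length_map, List.length_range]; exact hv
      have h1 := drop_take_flatten Y hYlen (val x) hi
      have h2 : Y[val x] = mx x := by
        simp only [hY, List.getElem_map, List.getElem_range]
        rw [← hx, bstr_val]
      rw [h2] at h1
      refine mem_subs_of_drop (j := val x * l n) ?_ h1 (hmx1 x)
      rw [hYl]
      exact Nat.mul_le_mul_right _ hv.le
    refine ⟨Y.flatten, Y.flatten, hYl, hYl, fun x hx => ?_⟩
    -- the decision is right as soon as the list of candidates contains the maximum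
    have key : ∀ z : Str × Str × Str, z.1 = x → (val x < k n → mx x ∈ cands l z) →
        (VB A k l z = true ↔ x ∈ blockLang A k l) := by
      rintro ⟨x1, y1, z1⟩ hx1 hmem
      simp only at hx1
      subst hx1
      have hclen : ∀ w ∈ cands l (x1, y1, z1), w.length = l n := by
        intro w hw
        rcases List.mem_append.1 hw with h | h
        · rw [length_of_mem_subs h]; simp only [hx]
        · rw [length_of_mem_subs h]; simp only [hx]
      unfold VB
      rw [Bool.and_eq_true, decL_iff (B := fun w => A (x1 ++ w)) hclen, decide_eq_true_eq]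
      simp only [blockLang, Set.mem_ofPred_eq, hx, MaxOddAt]
      constructor
      · rintro ⟨h1, w, h2, h3, h4, h5⟩
        refine ⟨h1, w, hclen w h2, h3, h4, fun w' hw' hA' => ?_⟩
        have h6 := hmx2 x1 ⟨w', hw', hA'⟩
        exact (h6.2 w' hw' hA').trans (h5 _ (hmem h1) h6.1)
      · rintro ⟨h1, w, h2, h3, h4, h5⟩
        have h6 := hmx2 x1 ⟨w, h2, h3⟩
        have h7 : mx x1 = w := val_inj ((hmx1 x1).trans h2.symm)
          (le_antisymm (h5 _ (hmx1 x1) h6.1) (h6.2 w h2 h3))
        refine ⟨h1, w, h7 ▸ hmem h1, h3, h4, fun w' hw' hA' => h5 w' (hclen w' hw') hA'⟩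
    constructor
    · intro hxL z' _
      refine (key (x, Y.flatten, z') rfl fun hv => ?_).2 hxL
      refine List.mem_append_left _ ?_
      simp only [hx]
      exact hYmem x hx hv
    · intro hxL y' _
      have h := key (x, y', Y.flatten) rfl fun hv => by
        refine List.mem_append_right _ ?_
        simp only [hx]
        exact hYmem x hx hv
      rcases hV : VB A k l (x, y', Y.flatten) with _ | _
      · rfl
      · exact absurd (h.1 hV) hxL

end ORDist
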