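import Pool.Agent.Work.MP_a81742_lc_or.Lev

/-!
# One requirement, over a valid oracle
-/

namespace ORD

open ORDist O2PP PTime

/-- the machine can be made wrong by a change of a valid oracle at long strings, for all `a` at
once -/
theorem stageG {M MV : OProc} (hM : PT M) (hMV : PT MV) (pV m : Polynomial ℕ) :
    ∃ D W : Polynomial ℕ, ∀ {ι : Type} [Fintype ι] {F : (Str → Bool) → ℕ → Str → Bool},
      Loc F → ∀ (A₀ : Str → Bool), ValidF F A₀ → ∀ (n l q P lam K K' : ℕ) (inp : ι → ℕ → Str),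
      K < 2 ^ n → (∀ a, ∀ i < K, (inp a i).length ≤ lam) →
      Fintype.card ι < 2 ^ K → Fintype.card ι ≤ K' →
      needF (D.eval (lam + P)) (W.eval (lam + P)) P q K K' ≤ 2 ^ l →
      ∃ (A₁ : Str → Bool) (b₁ : ℕ), ValidF F A₁ ∧ n + l < b₁ ∧
        (∀ s : Str, s.length ≤ n + l → A₁ s = A₀ s) ∧
        ∀ A : Str → Bool, (∀ s : Str, s.length < b₁ → A s = A₁ s) → ∀ a, ∃ i < K, ∀ v : Bool,
          Outputs A M MV pV m (inp a i) P q v →
            ¬ (MaxOdd (fun w => A (false :: (bstr n i ++ w))) l ↔ v = true) := by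
  obtain ⟨sM, hsM⟩ := exists_act_bound hM
  obtain ⟨sV, hsV⟩ := exists_act_bound hMV
  refine ⟨pV.comp sM, m.comp sM + 2,
    fun {ι} _ {F} hF A₀ hA₀ n l q P lam K K' inp hKn hlam hcard hcard' hneed => ?_⟩
  set s : ℕ := sM.eval (lam + P) with hs
  have hquery : ∀ a : ι, ∀ i < K, ∀ t : Str, t.length < P → (M (inp a i, t)).2.length + 1 ≤ s := by
    intro a i hi t ht
    refine (hsM _ t).trans ?_
    rw [hs]
    have := hlam a i hi
    exact eval_mono sM (by omega)
  have hBBbit : ∀ t : Str, t.headD false = false →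
      (∃ b, ∀ u : ℕ → Bool, join (fam A₀ n l u) (KB (fam A₀ n l u) MV pV m) t = b) ∨
        ∃ i, ∀ u : ℕ → Bool, join (fam A₀ n l u) (KB (fam A₀ n l u) MV pV m) t = u i := by
    intro t ht
    match t, ht with
    | [], _ => exact Or.inl ⟨false, fun u => rfl⟩
    | false :: t, _ => exact fam_cases A₀ n l t
    | true :: t, ht => exact absurd ht (by simp)
  have hK : ∀ a : ι, ∀ i < K, ∀ r t : Str, r.length < P → M (inp a i, r) = (true, t) →
      t.headD false = true → Thr ((pV.comp sM).eval (lam + P)) ((m.comp sM + 2).eval (lam + P))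
        fun u => join (fam A₀ n l u) (KB (fam A₀ n l u) MV pV m) t = true := by
    intro a i hi r t hr hMt ht
    have h1 := hquery a i hi r hr
    rw [hMt] at h1
    match t, ht, h1 with
    | [], ht, _ => exact absurd ht (by simp)
    | false :: t, ht, _ => exact absurd ht (by simp)
    | true :: t, _, h1 =>
      simp only [List.length_cons] at h1
      have h2 : pV.eval t.length ≤ (pV.comp sM).eval (lam + P) := by
        rw [Polynomial.eval_comp]
        exact eval_mono pV (by omega)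
      have h3 : m.eval t.length + 2 ≤ (m.comp sM + 2).eval (lam + P) := by
        rw [Polynomial.eval_add, Polynomial.eval_comp, Polynomial.eval_ofNat]
        exact Nat.add_le_add_right (eval_mono m (by omega)) 2
      refine thr_mono h2 h3 ?_
      have h4 := thr_gapO (AA := fam A₀ n l) (fam_cases A₀ n l) MV (pV.eval t.length)
        (m.eval t.length) t
      refine (congrArg (Thr _ _) ?_).mp h4
      funext u
      simp only [join, KB, decide_eq_true_eq]
  have hfits : ∀ a : ι, ∀ i < K, Fits ((pV.comp sM).eval (lam + P))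
      ((m.comp sM + 2).eval (lam + P)) P q
      (mtree (fun u => join (fam A₀ n l u) (KB (fam A₀ n l u) MV pV m)) M (inp a i) P q []) :=
    fun a i hi => mtree_fits (fun u => join (fam A₀ n l u) (KB (fam A₀ n l u) MV pV m)) M
      (inp a i) P (fun r t hr hMt ht => hK a i hi r t hr hMt ht) P q [] (by simp)
  obtain ⟨x, f, lo, hlo, hx0, hx⟩ := adversary_rows hcard hfits
    (le_trans (needF_mono hcard') hneed) (fun _ => false)
  -- the new oracle
  obtain ⟨x', hx'1, hx'2⟩ := newO_fam hF (A₀ := A₀) (n := n) (l := l) (m := K) (lo := lo)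
    (f := f) (x := x)
  have hbad := hx x' hx'1
  set A₁ : Str → Bool := newO F A₀ n l K lo f x with hA₁
  -- the bound for all queries
  set sv : ℕ := sV.eval (2 * s + 1 + m.eval s + pV.eval s) with hsv
  refine ⟨A₁, n + l + 2 + s + sv, newO_valid hF hA₀ hlo hx0, by omega,
    fun t ht => newO_short hF ht, fun A hA a => ?_⟩
  obtain ⟨i, hi, hui⟩ := hbad a
  rw [mtree_eval hBBbit, hx'2] at hui
  refine ⟨i, hi, fun v hout hiff => hui ?_⟩
  obtain ⟨k, hk, hask, hq, hstop⟩ := hout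
  have h1 := cl_eq hk hask hq hstop
  have h2 : cl (join A (KB A MV pV m)) M (inp a i) P q [] =
      cl (join A₁ (KB A₁ MV pV m)) M (inp a i) P q [] := by
    refine cl_congr (N := P) (fun r t hr hMt => ?_) P q [] (by simp)
    have h3 := hquery a i hi r hr
    rw [hMt] at h3
    match t, h3 with
    | [], _ => rfl
    | false :: t, h3 =>
      simp only [List.length_cons] at h3
      exact hA t (by omega)
    | true :: t, h3 =>
      simp only [List.length_cons] at h3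
      simp only [join, KB]
      rw [gapO_congr (b := n + l + 2 + s + sv) hA]
      intro z a' hz ha'
      have h4 := hsV z a'
      have h5 : m.eval t.length ≤ m.eval s := eval_mono m (by omega)
      have h6 : pV.eval t.length ≤ pV.eval s := eval_mono pV (by omega)
      have h7 : sV.eval (z.length + a'.length) ≤ sv := by
        rw [hsv]
        exact eval_mono sV (by omega)
      omega
  have h3 : MaxOdd (fun w => A (false :: (bstr n i ++ w))) l ↔ f i = true := by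
    rw [← newO_maxOdd hF hKn hlo hx0 hi (A₀ := A₀)]
    refine maxOdd_congr fun w hw => hA _ ?_
    rw [List.length_cons, List.length_append, bstr_length, hw]
    omega
  rw [← h2, h1]
  rw [h3] at hiff
  exact (Bool.eq_iff_iff.2 hiff).symm

/-- the requirement for the language of the blocks, over a valid oracle -/
theorem stage_blockG {M MV : OProc} (hM : PT M) (hMV : PT MV) (pM pV m : Polynomial ℕ)
    {F : (Str → Bool) → ℕ → Str → Bool} (hF : Loc F) :
    ∃ c : ℕ, ∀ (l g : ℕ → ℕ), Dom l g (fun _ => 0) → (∃ n₁, ∀ n ≥ n₁, g n + 1 < 2 ^ n) →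
      ∀ (j : ℕ) (A₀ : Str → Bool) (b : ℕ), ValidF F A₀ →
      ∃ (A₁ : Str → Bool) (b₁ : ℕ), ValidF F A₁ ∧ b ≤ b₁ ∧
        (∀ w : Str, w.length < b → A₁ w = A₀ w) ∧
        ∀ A : Str → Bool, ValidF F A → (∀ w : Str, w.length < b₁ → A w = A₁ w) →
          ∃ n ≥ j, g n + 1 ≤ 2 ^ n ∧
          ∀ q : ℕ, c * (g n + 1) * ((g n + 1) * (q + 1) + Nat.log 2 n + 1) ≤ l n →
          ∀ a : Str, a.length ≤ g n → ∃ i < g n + 1, ∀ v : Bool,
          Outputs A M MV pV m (pairStr (bstr n i, a)) (pM.eval (2 * (n + g n) + 1)) q v →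
            ¬ (MaxOdd (fun w => A (false :: (bstr n i ++ w))) (l n) ↔ v = true) := by
  obtain ⟨D, W, hDW⟩ := stageG hM hMV pV m
  set R : Polynomial ℕ := 2 * Polynomial.X + 1 + pM.comp (2 * Polynomial.X + 1) with hR
  obtain ⟨c, hc⟩ := needF_le (D.comp R) (W.comp R) (pM.comp (2 * Polynomial.X + 1))
  refine ⟨c + 1, fun l g hl hg j A₀ b hA₀ => ?_⟩
  obtain ⟨n₁, hn₁⟩ := hl (c + 1)
  obtain ⟨n₂, hn₂⟩ := hl b
  obtain ⟨n₃, hn₃⟩ := hg
  set n : ℕ := n₁ + n₂ + n₃ + j with hn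
  have h1 := hn₁ n (by omega)
  have h2 := hn₂ n (by omega)
  have hg2 := hn₃ n (by omega)
  have hbN : b ≤ n + l n := by
    refine le_trans (le_trans ?_ h2) (Nat.le_add_left _ _)
    rw [mul_assoc]
    exact Nat.le_mul_of_pos_right b (by positivity)
  classical
  let Q : ℕ → Prop := fun q =>
    (c + 1) * (g n + 1) * ((g n + 1) * (q + 1) + Nat.log 2 n + 1) ≤ l n
  set Fq : ℕ := Nat.findGreatest Q (l n) with hFq
  have hQF : Q Fq := Nat.findGreatest_spec (P := Q) (Nat.zero_le _) h1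
  have hFmax : ∀ q, Q q → q ≤ Fq := by
    intro q hq
    refine Nat.le_findGreatest ?_ hq
    refine le_trans ?_ hq
    calc q ≤ 1 * (q + 1) := by omega
      _ ≤ (g n + 1) * (q + 1) := Nat.mul_le_mul_right _ (by omega)
      _ ≤ (g n + 1) * (q + 1) + Nat.log 2 n + 1 := by omega
      _ ≤ (c + 1) * (g n + 1) * ((g n + 1) * (q + 1) + Nat.log 2 n + 1) :=
        Nat.le_mul_of_pos_left _ (by positivity)
  set P : ℕ := pM.eval (2 * (n + g n) + 1) with hP
  have hneed : needF (D.eval (2 * (n + g n) + 1 + P)) (W.eval (2 * (n + g n) + 1 + P)) P Fq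
      (g n + 1) (2 ^ (g n + 1)) ≤ 2 ^ l n := by
    have h3 := hc n (g n) Fq (l n) (le_trans (by gcongr; omega) hQF)
    simpa only [hR, hP, Polynomial.eval_comp, Polynomial.eval_add, Polynomial.eval_mul,
      Polynomial.eval_ofNat, Polynomial.eval_one, Polynomial.eval_X] using h3
  obtain ⟨dec, hdec1, hdec2⟩ := exists_dec (g n)
  have hpow : 0 < 2 ^ (g n + 1) := by positivity
  obtain ⟨A₁, b₁, h3, h4, h5, h6⟩ := hDW (ι := Fin (2 ^ (g n + 1) - 1)) hF A₀ hA₀ n (l n) Fq P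
    (2 * (n + g n) + 1) (g n + 1) (2 ^ (g n + 1))
    (fun k i => pairStr (bstr n i, dec k)) hg2
    (fun k i _ => by
      have h7 := hdec1 k
      rw [pairStr_len, bstr_length]
      omega)
    (by rw [Fintype.card_fin]; omega) (by rw [Fintype.card_fin]; omega) hneed
  refine ⟨A₁, b₁, h3, by omega, fun w hw => h5 w (by omega),
    fun A _ hA => ⟨n, by omega, hg2.le, fun q hq a ha => ?_⟩⟩
  obtain ⟨k, rfl⟩ := hdec2 a ha
  obtain ⟨i, hi, h7⟩ := h6 A hA k
  exact ⟨i, hi, fun v hout => h7 v (outputs_mono le_rfl (hFmax q hq) hout)⟩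

/-- **Separation on a valid oracle.** One valid oracle for a countable family of certificate lengths
and advice lengths, and for all (even uncountably many) bounds for the number of the PP queries -/
theorem exists_valid_sep {F : (Str → Bool) → ℕ → Str → Bool} (hF : Loc F) {𝓛 : Set (ℕ → ℕ)}
    (h𝓛 : 𝓛.Countable) :
    ∃ A : Str → Bool, ValidF F A ∧
      ∀ l ∈ 𝓛, ∀ g ∈ 𝓛, (∃ n₁, ∀ n ≥ n₁, g n + 1 < 2 ^ n) → ∀ f : ℕ → ℕ, Dom l g f →
        ¬ InPPPOAdv A f g (blockLang (fun w => A (false :: w)) (fun n => g n + 1) l) := by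
  have hs2 := fun (M MV : {M : OProc // PT M}) (pM pV m : Polynomial ℕ) =>
    stage_blockG M.2 MV.2 pM pV m hF
  choose d hd using hs2
  have hcM : Countable {M : OProc // PT M} :=
    (countable_PT (α := Str × Str) (β := Bool × Str)).to_subtype
  have hcp := countable_poly
  have hcl : Countable 𝓛 := h𝓛.to_subtype
  let R2 : ({M : OProc // PT M} × {M : OProc // PT M} × Polynomial ℕ × Polynomial ℕ ×
      Polynomial ℕ × 𝓛 × 𝓛 × ℕ) → (Str → Bool) → Prop := fun e A =>
    Dom e.2.2.2.2.2.1.1 e.2.2.2.2.2.2.1.1 (fun _ => 0) →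
      (∃ n₁, ∀ n ≥ n₁, e.2.2.2.2.2.2.1.1 n + 1 < 2 ^ n) →
      ∃ n ≥ e.2.2.2.2.2.2.2, e.2.2.2.2.2.2.1.1 n + 1 ≤ 2 ^ n ∧ ∀ q : ℕ,
      d e.1 e.2.1 e.2.2.1 e.2.2.2.1 e.2.2.2.2.1 * (e.2.2.2.2.2.2.1.1 n + 1) *
        ((e.2.2.2.2.2.2.1.1 n + 1) * (q + 1) + Nat.log 2 n + 1) ≤ e.2.2.2.2.2.1.1 n →
      ∀ a : Str, a.length ≤ e.2.2.2.2.2.2.1.1 n → ∃ i < e.2.2.2.2.2.2.1.1 n + 1, ∀ v : Bool,
        Outputs A e.1.1 e.2.1.1 e.2.2.2.1 e.2.2.2.2.1 (pairStr (bstr n i, a))
          (e.2.2.1.eval (2 * (n + e.2.2.2.2.2.2.1.1 n) + 1)) q v →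
          ¬ (MaxOdd (fun w => A (false :: (bstr n i ++ w))) (e.2.2.2.2.2.1.1 n) ↔ v = true)
  obtain ⟨A, hAv, hA⟩ := exists_oracle_closed (ValidF F) (exists_validF hF) (validF_closed hF) R2
    (by
      rintro ⟨M, MV, pM, pV, m, l, g, j⟩ A₀ b hA₀
      by_cases hl : Dom l.1 g.1 (fun _ => 0)
      · by_cases hg : ∃ n₁, ∀ n ≥ n₁, g.1 n + 1 < 2 ^ n
        · obtain ⟨A₁, b₁, h1, h2, h3, h4⟩ := hd M MV pM pV m l.1 g.1 hl hg j A₀ b hA₀
          exact ⟨A₁, b₁, h1, h2, h3, fun A hAv hA _ _ => h4 A hAv hA⟩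
        · exact ⟨A₀, b, hA₀, le_rfl, fun _ _ => rfl, fun A _ _ _ h => absurd h hg⟩
      · exact ⟨A₀, b, hA₀, le_rfl, fun _ _ => rfl, fun A _ _ h => absurd h hl⟩)
  refine ⟨A, hAv, fun l hl g hg hgn f hlf hin => ?_⟩
  obtain ⟨K, M, p, adv, hK, hM, hadv, hrun⟩ := hin
  obtain ⟨MV, pV, m, hMV, hKgap⟩ := exists_gap_of_inPPO hK
  have hKB := kb_of_gap hKgap
  obtain ⟨nf, hnf⟩ := hlf (d ⟨M, pt_of_polyTime hM⟩ ⟨MV, pt_of_polyTime hMV⟩ p pV m)
  obtain ⟨n, hn, hgn2, hbad⟩ := hA (⟨M, pt_of_polyTime hM⟩, ⟨MV, pt_of_polyTime hMV⟩,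
    p, pV, m, ⟨l, hl⟩, ⟨g, hg⟩, nf) hlf.zero hgn
  obtain ⟨i, hi, h0⟩ := hbad (f n) (hnf n hn) (adv n) (hadv n)
  obtain ⟨k, hk, h1, h2, v, h3, h4⟩ := hrun (bstr n i)
  rw [bstr_length] at hk h1 h2 h3
  rw [hKB] at h1 h2 h3
  have h5 : k ≤ p.eval (2 * (n + g n) + 1) := by
    refine hk.trans (eval_mono p ?_)
    rw [pairStr_len, bstr_length]
    have := hadv n
    omega
  refine h0 v ⟨k, h5, h1, h2, h3⟩ ?_
  rw [← h4]
  have h6 : val (bstr n i) = i := val_bstr (lt_of_lt_of_le hi hgn2)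
  constructor
  · intro h
    refine ⟨?_, ?_⟩
    · rw [bstr_length, h6]
      exact hi
    · rw [bstr_length]
      exact h
  · rintro ⟨_, h⟩
    rw [bstr_length] at h
    exact h

end ORD
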