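import Pool.Agent.Work.MP_a81742_lc_or.Defs

/-!
# PSPACE relative to an oracle, as alternating polynomial time
-/

namespace ORDist

/-- the quantified formula `Q₁ c₁ ... Q_k c_k, P (b ++ [c₁, ..., c_k])`; the bit at an even
position is quantified existentially, the bit at an odd position universally -/
def AltQ (P : List Bool → Prop) : ℕ → List Bool → Prop
  | 0, b => P b
  | k + 1, b => if b.length % 2 = 0 then ∃ c : Bool, AltQ P k (b ++ [c])
      else ∀ c : Bool, AltQ P k (b ++ [c])

/-- `PSPACE^A`, as alternating polynomial time relative to `A`: the input `x` is in the language if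
and only if `∃ b₀ ∀ b₁ ∃ b₂ ..., V (x, b) = true`, where `b` has `m (|x|)` bits and `V` is computed
in polynomial time with the oracle `A` -/
def InPSPACEO (A : List Bool → Bool) (L : Set (List Bool)) : Prop :=
  ∃ (V : List Bool × List Bool → Bool) (m : Polynomial ℕ),
    PolyTimeO A pairStr (fun z => [V z]) ∧
    ∀ x : List Bool, x ∈ L ↔ AltQ (fun b => V (x, b) = true) (m.eval x.length) []

end ORDist
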