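import Pool.Agent.Work.MP_a81742_lc_or.LevDefs
import Pool.Agent.Work.MP_a81742_lc_or.PspDefs
import Pool.Agent.Work.MP_a81742_lc_or.TwoO2

/-!
# The functional of a complete language of PSPACE
-/

namespace ORD

open ORDist O2PP PTime

theorem altQ_congr {P P' : Str → Prop} {n : ℕ} : ∀ (k : ℕ) (b : Str), b.length + k = n →
    (∀ b : Str, b.length = n → (P b ↔ P' b)) → (AltQ P k b ↔ AltQ P' k b)
  | 0, b, hb, h => h b (by omega)
  | k + 1, b, hb, h => by
    have ih : ∀ c : Bool, AltQ P k (b ++ [c]) ↔ AltQ P' k (b ++ [c]) := fun c =>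
      altQ_congr k (b ++ [c]) (by rw [List.length_append, List.length_singleton]; omega) h
    unfold AltQ
    split_ifs
    · exact exists_congr ih
    · exact forall_congr' ih

open Classical in
/-- the functional: the value of the quantified computation coded by `y`, with the budget `M` -/
noncomputable def FP (Mach : ℕ → OProc) (B : Str → Bool) (M : ℕ) (y : Str) : Bool :=
  decide (AltQ (fun b => sim B (Mach (unpairS y).1.length)
    (pairStr ((unpairS (unpairS y).2).1, b)) M [] = true) (unpairS (unpairS y).2).2.length [])

theorem loc_FP (Mach : ℕ → OProc) : Loc (FP Mach) := by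
  intro B B' M y h
  have e : (fun b : Str => sim B (Mach (unpairS y).1.length)
      (pairStr ((unpairS (unpairS y).2).1, b)) M [] = true) = fun b : Str =>
      sim B' (Mach (unpairS y).1.length)
      (pairStr ((unpairS (unpairS y).2).1, b)) M [] = true :=
    funext fun b => by rw [sim_congr _ _ M [] h]
  unfold FP
  rw [e]

/-- **The reduction.** -/
theorem pspace_red {Mach : ℕ → OProc}
    (hMach : ∀ M : OProc, PolyTime pairStr actStr M → ∃ e, Mach e = M)
    {A : Str → Bool} {L : Set Str} (hL : InPSPACEO A L) :
    ∃ (t : Polynomial ℕ) (y : Str → Str), PT y ∧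
      ∀ x, x ∈ L ↔ FP Mach A (t.eval x.length) (y x) = true := by
  obtain ⟨V, m, ⟨M, hM, p2, hp2⟩, hV⟩ := hL
  obtain ⟨e, he⟩ := hMach M hM
  obtain ⟨s, hs⟩ := exists_act_bound (pt_of_polyTime hM)
  let N0 : Polynomial ℕ := 2 * Polynomial.X + 1 + m
  let tP : Polynomial ℕ := p2.comp N0 * s.comp (N0 + p2.comp N0)
  -- the clocked simulation computes the matrix
  have key : ∀ x b : Str, b.length = m.eval x.length →
      sim A (Mach e) (pairStr (x, b)) (tP.eval x.length) [] = V (x, b) := by
    intro x b hb
    obtain ⟨k, hk, h1, h2⟩ := hp2 (x, b)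
    have hN : (pairStr (x, b)).length ≤ N0.eval x.length := by
      rw [pairStr_len]
      simp only [N0, Polynomial.eval_add, Polynomial.eval_mul, Polynomial.eval_X,
        Polynomial.eval_ofNat, Polynomial.eval_one]
      omega
    have hk2 : k ≤ p2.eval (N0.eval x.length) := hk.trans (eval_mono p2 hN)
    have hBd : ∀ j < k, (M (pairStr (x, b), answers A M (pairStr (x, b)) j)).2.length + 1 ≤
        s.eval (N0.eval x.length + p2.eval (N0.eval x.length)) := by
      intro j hj
      refine (hs _ _).trans (eval_mono s ?_)
      rw [length_answers]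
      omega
    have h3 := sim_of_run h1 h2 hBd k 0 (by omega) (tP.eval x.length) (by
      simp only [tP, Polynomial.eval_mul, Polynomial.eval_comp, Polynomial.eval_add]
      exact Nat.mul_le_mul_right _ hk2)
    rw [he]
    refine h3.trans ?_
    cases hv : V (x, b) <;> simp [hv]
  refine ⟨tP, fun x => pairStr (List.replicate e true,
    pairStr (x, List.replicate (m.eval x.length) true)), ?_, fun x => ?_⟩
  · exact pt_pairStr_comp (PT.const _)
      (pt_pairStr_comp PT.id (pt_replB (PT.polyEval m PT.id.length) true))
  · unfold FP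
    simp only [unpairS_pairStr, List.length_replicate, decide_eq_true_eq]
    rw [hV x]
    refine altQ_congr (n := m.eval x.length) _ _ (by simp) fun b hb => ?_
    rw [key x b hb]

end ORD
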