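import Pool.Agent.Work.MP_609cce_lc.OrcDefs
import Pool.Agent.Work.MP_2f1fa1_lc.PPT
import Pool.Agent.Work.MP_a81742_lc.Adv

/-!
# The growth inequality
-/

namespace ORD

open O2PP PTime

/-- polynomials at powers of two -/
theorem eval_two_pow_le (P : Polynomial ℕ) : ∃ c : ℕ, ∀ k ≥ 1, P.eval (2 ^ k) ≤ 2 ^ (c * k) := by
  induction P using Polynomial.induction_on' with
  | add p q hp hq =>
    obtain ⟨c, hc⟩ := hp
    obtain ⟨d, hd⟩ := hq
    refine ⟨c + d + 1, fun k hk => ?_⟩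
    rw [Polynomial.eval_add]
    have h1 : 2 ^ (c * k) ≤ 2 ^ ((c + d) * k) :=
      Nat.pow_le_pow_right (by norm_num) (Nat.mul_le_mul_right k (by omega))
    have h2 : 2 ^ (d * k) ≤ 2 ^ ((c + d) * k) :=
      Nat.pow_le_pow_right (by norm_num) (Nat.mul_le_mul_right k (by omega))
    have h3 : 2 ^ ((c + d) * k + 1) ≤ 2 ^ ((c + d + 1) * k) := by
      refine Nat.pow_le_pow_right (by norm_num) ?_
      rw [add_mul _ 1 k, one_mul]
      omega
    have h4 : 2 ^ ((c + d) * k + 1) = 2 ^ ((c + d) * k) + 2 ^ ((c + d) * k) := by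
      rw [pow_succ]; ring
    have := hc k hk
    have := hd k hk
    omega
  | monomial m a =>
    refine ⟨a + m, fun k hk => ?_⟩
    rw [Polynomial.eval_monomial, ← pow_mul, add_mul, pow_add, mul_comm k m]
    refine Nat.mul_le_mul_right _ ?_
    exact Nat.lt_two_pow_self.le.trans (Nat.pow_le_pow_right (by norm_num)
      (Nat.le_mul_of_pos_right a hk))

/-- polynomials and the binary logarithm -/
theorem eval_le_two_pow (P : Polynomial ℕ) : ∃ c : ℕ, ∀ n : ℕ,
    P.eval n ≤ 2 ^ (c * (Nat.log 2 n + 1)) := by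
  obtain ⟨c, hc⟩ := eval_two_pow_le P
  refine ⟨c, fun n => (eval_mono P ?_).trans (hc (Nat.log 2 n + 1) (by omega))⟩
  exact (Nat.lt_pow_succ_log_self (by norm_num) n).le

/-- the alive interval is long enough -/
theorem need_le (D W T : Polynomial ℕ) : ∃ c n₀ : ℕ, ∀ n ≥ n₀, ∀ F L : ℕ,
    c * (F + 1) * (Nat.log 2 n + 1) ≤ L → need (D.eval n) (W.eval n) (T.eval n) F ≤ 2 ^ L := by
  obtain ⟨c, hc⟩ := eval_le_two_pow (2 * (T + 1) * ((16 * D ^ 2 + 1) * (W + 1)))
  refine ⟨c, 0, fun n _ F L hL => ?_⟩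
  set P : ℕ := 2 ^ (c * (Nat.log 2 n + 1)) with hP
  have h1 := hc n
  simp only [Polynomial.eval_mul, Polynomial.eval_add, Polynomial.eval_pow, Polynomial.eval_ofNat,
    Polynomial.eval_one] at h1
  have hX : 0 < (16 * D.eval n ^ 2 + 1) * (W.eval n + 1) := by positivity
  have h2 : 2 * (T.eval n + 1) ≤ P := (Nat.le_mul_of_pos_right _ hX).trans h1
  have h3 : (T.eval n + 1) * ((16 * D.eval n ^ 2 + 1) * (W.eval n + 1)) ≤ P := by
    refine le_trans ?_ h1
    exact Nat.mul_le_mul_right _ (by omega)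
  unfold need
  calc 2 * (T.eval n + 1) * ((T.eval n + 1) * ((16 * D.eval n ^ 2 + 1) * (W.eval n + 1))) ^ F
      ≤ P * P ^ F := Nat.mul_le_mul h2 (Nat.pow_le_pow_left h3 F)
    _ = P ^ (F + 1) := by rw [pow_succ, mul_comm]
    _ = 2 ^ (c * (Nat.log 2 n + 1) * (F + 1)) := by rw [hP, ← pow_mul]
    _ ≤ 2 ^ L := by
      refine Nat.pow_le_pow_right (by norm_num) (le_trans (le_of_eq ?_) hL)
      ring

end ORD
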