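import Pool.Agent.Work.MP_a81742_lc.Adv
import Pool.Agent.Work.MP_a81742_lc_or.Member

/-!
# Changing an oracle at one length
-/

namespace ORD

open ORDist O2PP PTime

/-- the oracle `A₀` changed at the length `N`: the bits `u` are the new values, the string of value
`i` gets the bit `u i` -/
def patch (A₀ : Str → Bool) (N : ℕ) (u : ℕ → Bool) (w : Str) : Bool :=
  if w.length = N then u (val w) else A₀ w

theorem patch_of_length {A₀ : Str → Bool} {N : ℕ} {u : ℕ → Bool} {w : Str} (h : w.length = N) :
    patch A₀ N u w = u (val w) := if_pos h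

theorem patch_of_ne {A₀ : Str → Bool} {N : ℕ} {u : ℕ → Bool} {w : Str} (h : w.length ≠ N) :
    patch A₀ N u w = A₀ w := if_neg h

/-- every query is constant or one coordinate -/
theorem patch_cases (A₀ : Str → Bool) (N : ℕ) (w : Str) :
    (∃ b, ∀ u, patch A₀ N u w = b) ∨ (∃ i, ∀ u, patch A₀ N u w = u i) := by
  by_cases h : w.length = N
  · exact Or.inr ⟨val w, fun u => patch_of_length h⟩
  · exact Or.inl ⟨A₀ w, fun u => patch_of_ne h⟩

theorem maxOdd_patch (A₀ : Str → Bool) (N : ℕ) (u : ℕ → Bool) :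
    MaxOdd (patch A₀ N u) N ↔ OddMax (2 ^ N) u := by
  constructor
  · rintro ⟨w, hw, hA, hl, hmax⟩
    rw [patch_of_length hw] at hA
    rw [getLastD_eq, decide_eq_true_eq] at hl
    refine ⟨val w, hw ▸ val_lt w, hl, hA, fun j hj hjN => ?_⟩
    by_contra hc
    rw [Bool.not_eq_false] at hc
    have h1 := hmax (bstr N j) (bstr_length N j) (by
      rw [patch_of_length (bstr_length N j), val_bstr hjN, hc])
    rw [val_bstr hjN] at h1
    omega
  · rintro ⟨i, hi, hodd, hu, hmax⟩
    refine ⟨bstr N i, bstr_length N i, ?_, ?_, fun w' hw' hA' => ?_⟩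
    · rw [patch_of_length (bstr_length N i), val_bstr hi, hu]
    · rw [getLastD_eq, val_bstr hi, decide_eq_true_eq]
      exact hodd
    · rw [patch_of_length hw'] at hA'
      rw [val_bstr hi]
      by_contra hc
      have h1 := hmax (val w') (by omega) (hw' ▸ val_lt w')
      rw [h1] at hA'
      exact absurd hA' (by simp)

/-- `MaxOdd` depends only on the strings of the given length -/
theorem maxOdd_congr {A A' : Str → Bool} {N : ℕ} (h : ∀ w : Str, w.length = N → A w = A' w) :
    MaxOdd A N ↔ MaxOdd A' N := by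
  constructor
  · rintro ⟨w, hw, hA, hl, hmax⟩
    exact ⟨w, hw, by rw [← h w hw, hA], hl, fun w' hw' hA' => hmax w' hw' (by rw [h w' hw', hA'])⟩
  · rintro ⟨w, hw, hA, hl, hmax⟩
    exact ⟨w, hw, by rw [h w hw, hA], hl, fun w' hw' hA' => hmax w' hw' (by rw [← h w' hw', hA'])⟩

end ORD
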