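import Pool.Agent.Work.MP_609cce_lc.OrcDefs

/-!
# Oracle classes: PP, polynomial time with few queries to PP, oblivious NP, oblivious symmetric
alternation

Everything is relative to an oracle `A : List Bool → Bool`; `PolyTimeO A`, `OProc`, `answers` are
those of `OrcDefs`.
-/

namespace ORDist

/-- the join of two oracles: the queries `false :: q` go to `A`, the queries `true :: q` to `K` -/
def join (A K : List Bool → Bool) : List Bool → Bool
  | [] => false
  | false :: q => A q
  | true :: q => K q

/-- the class PP relative to the oracle `A` (for the language with the indicator `K`): a polynomial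
time machine with the oracle `A` tosses `m (|x|)` coins; the input `x` is in the language if and
only if the acceptance probability is more than `1/2` -/
def InPPO (A K : List Bool → Bool) : Prop :=
  ∃ (V : List Bool × List Bool → Bool) (m : Polynomial ℕ),
    PolyTimeO A pairStr (fun z => [V z]) ∧
    ∀ x : List Bool, K x = true ↔
      2 ^ m.eval x.length < 2 * Fintype.card {r : Fin (m.eval x.length) → Bool //
        V (x, List.ofFn r) = true}

/-- the number of the queries of `M` on the input `x` with the oracle `B` among the first `k`
queries which begin with the bit `1` -/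
def nTrue (B : List Bool → Bool) (M : OProc) (x : List Bool) (k : ℕ) : ℕ :=
  (List.range k).countP fun j => (M (x, answers B M x j)).2.headD false

/-- `P^{PP^A[f]}`: the language `L` is decided in polynomial time with the oracle `A` and, on inputs
of length `n`, at most `f n` (adaptive) queries to a language `K` of `PP^A` -/
def InPPPO (A : List Bool → Bool) (f : ℕ → ℕ) (L : Set (List Bool)) : Prop :=
  ∃ (K : List Bool → Bool) (M : OProc) (p : Polynomial ℕ), InPPO A K ∧
    PolyTime pairStr actStr M ∧ ∀ x : List Bool, ∃ k ≤ p.eval x.length,
      (∀ j < k, (M (x, answers (join A K) M x j)).1 = true) ∧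
      nTrue (join A K) M x k ≤ f x.length ∧
      ∃ v : Bool, M (x, answers (join A K) M x k) = (false, [v]) ∧ (x ∈ L ↔ v = true)

/-- coding of triples -/
def tripStr (z : List Bool × List Bool × List Bool) : List Bool := pairStr (z.1, pairStr z.2)

/-- `O_2^{p,A}` with certificates of length `l n` on inputs of length `n` -/
def InO2O (A : List Bool → Bool) (l : ℕ → ℕ) (L : Set (List Bool)) : Prop :=
  (∃ m : Polynomial ℕ, ∀ n, l n ≤ m.eval n) ∧
  ∃ V : List Bool × List Bool × List Bool → Bool, PolyTimeO A tripStr (fun z => [V z]) ∧
    ∀ n : ℕ, ∃ y z : List Bool, y.length = l n ∧ z.length = l n ∧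
      ∀ x : List Bool, x.length = n →
        (x ∈ L → ∀ z' : List Bool, z'.length = l n → V (x, y, z') = true) ∧
        (x ∉ L → ∀ y' : List Bool, y'.length = l n → V (x, y', z) = false)

/-- oblivious NP relative to `A`: for every length there is one string which is a witness for all
members of this length -/
def InONPO (A K : List Bool → Bool) : Prop :=
  ∃ (V : List Bool × List Bool → Bool) (m : Polynomial ℕ),
    PolyTimeO A pairStr (fun z => [V z]) ∧
    ∀ n : ℕ, ∃ w : List Bool, w.length ≤ m.eval n ∧ ∀ x : List Bool, x.length = n →
      (K x = true → V (x, w) = true) ∧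
      ((∃ w' : List Bool, w'.length ≤ m.eval n ∧ V (x, w') = true) → K x = true)

/-- `P^{ONP^A}` -/
def InPONPO (A : List Bool → Bool) (L : Set (List Bool)) : Prop :=
  ∃ K : List Bool → Bool, InONPO A K ∧ InPO (join A K) L

end ORDist
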