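import Pool.Agent.Work.MP_a81742_lc.Adv
import Pool.Agent.Work.MP_a81742_lc_or.Defs

/-!
# From machines with two oracles to decision trees
-/

namespace ORDist

open O2PP

/-- the clocked run of `M` on the input `x` with the oracle `B` after the transcript `a`: at most
`n` further queries, at most `q` of them beginning with the bit `1` -/
def cl (B : List Bool → Bool) (M : OProc) (x : List Bool) : ℕ → ℕ → List Bool → Bool
  | 0, _, a => if (M (x, a)).1 = true then false else (M (x, a)).2.headD false
  | n + 1, q, a =>
    if (M (x, a)).1 = true then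
      if (M (x, a)).2.headD false = true then
        if q = 0 then false else cl B M x n (q - 1) (a ++ [B (M (x, a)).2])
      else cl B M x n q (a ++ [B (M (x, a)).2])
    else (M (x, a)).2.headD false

open Classical in
/-- the decision tree of the clocked run; `BB u` is the oracle which belongs to the bits `u` -/
noncomputable def mtree (BB : (ℕ → Bool) → List Bool → Bool) (M : OProc) (x : List Bool) :
    ℕ → ℕ → List Bool → QTree
  | 0, _, a => .leaf (if (M (x, a)).1 = true then false else (M (x, a)).2.headD false)
  | n + 1, q, a =>
    if (M (x, a)).1 = true then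
      if (M (x, a)).2.headD false = true then
        if q = 0 then .leaf false
        else .thr (fun u => BB u (M (x, a)).2 = true) (mtree BB M x n (q - 1) (a ++ [false]))
          (mtree BB M x n (q - 1) (a ++ [true]))
      else
        if h : ∃ i, ∀ u, BB u (M (x, a)).2 = u i then
          .bit h.choose (mtree BB M x n q (a ++ [false])) (mtree BB M x n q (a ++ [true]))
        else mtree BB M x n q (a ++ [BB (fun _ => false) (M (x, a)).2])
    else .leaf ((M (x, a)).2.headD false)

theorem mtree_eval {BB : (ℕ → Bool) → List Bool → Bool}
    (hBB : ∀ s : List Bool, s.headD false = false →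
      (∃ b, ∀ u, BB u s = b) ∨ ∃ i, ∀ u, BB u s = u i) (M : OProc) (x : List Bool)
    (u : ℕ → Bool) : ∀ (n q : ℕ) (a : List Bool),
      (mtree BB M x n q a).eval u = cl (BB u) M x n q a := by
  intro n
  induction n with
  | zero => intro q a; rfl
  | succ n ih =>
    intro q a
    rw [mtree, cl]
    by_cases h1 : (M (x, a)).1 = true
    · rw [if_pos h1, if_pos h1]
      by_cases h2 : (M (x, a)).2.headD false = true
      · rw [if_pos h2, if_pos h2]
        by_cases h3 : q = 0
        · rw [if_pos h3, if_pos h3]; rfl
        · rw [if_neg h3, if_neg h3, QTree.eval, ih, ih]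
          rcases BB u (M (x, a)).2 with _ | _ <;> simp
      · rw [if_neg h2, if_neg h2]
        split_ifs with h
        · rw [QTree.eval, ih, ih, h.choose_spec u]
          rcases u h.choose with _ | _ <;> simp
        · rw [ih]
          rcases hBB _ (Bool.not_eq_true _ ▸ h2) with ⟨b, hb⟩ | h'
          · rw [hb, hb]
          · exact absurd h' h
    · rw [if_neg h1, if_neg h1]; rfl

theorem _root_.O2PP.Fits.mono_left {d w : ℕ} {τ q : ℕ} {T : QTree} (h : Fits d w τ q T) :
    ∀ {τ' : ℕ}, τ ≤ τ' → Fits d w τ' q T := by
  induction h with
  | leaf b => intro τ' _; exact .leaf b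
  | bit i h0 h1 ih0 ih1 =>
    intro τ' hτ
    obtain ⟨σ, rfl⟩ : ∃ σ, τ' = σ + 1 := ⟨τ' - 1, by omega⟩
    exact .bit i (ih0 (by omega)) (ih1 (by omega))
  | thr hP h0 h1 ih0 ih1 =>
    intro τ' hτ
    exact .thr hP (ih0 hτ) (ih1 hτ)

theorem mtree_fits {d w : ℕ} (BB : (ℕ → Bool) → List Bool → Bool) (M : OProc)
    (x : List Bool) (N : ℕ)
    (hK : ∀ a s : List Bool, a.length < N → M (x, a) = (true, s) → s.headD false = true →
      Thr d w fun u => BB u s = true) :
    ∀ (n q : ℕ) (a : List Bool), a.length + n ≤ N → Fits d w n q (mtree BB M x n q a) := by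
  intro n
  induction n with
  | zero => intro q a _; exact .leaf _
  | succ n ih =>
    intro q a ha
    have hrec : ∀ (q : ℕ) (b : Bool), Fits d w n q (mtree BB M x n q (a ++ [b])) := by
      intro q b
      refine ih q _ ?_
      rw [List.length_append, List.length_singleton]
      omega
    rw [mtree]
    by_cases h1 : (M (x, a)).1 = true
    · rw [if_pos h1]
      by_cases h2 : (M (x, a)).2.headD false = true
      · rw [if_pos h2]
        by_cases h3 : q = 0
        · rw [if_pos h3]; exact .leaf _
        · rw [if_neg h3]
          obtain ⟨q, rfl⟩ : ∃ q', q = q' + 1 := ⟨q - 1, by omega⟩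
          exact .thr (hK a _ (by omega) (Prod.ext h1 rfl) h2)
            ((hrec q _).mono_left (Nat.le_succ n)) ((hrec q _).mono_left (Nat.le_succ n))
      · rw [if_neg h2]
        split_ifs with h
        · exact .bit _ (hrec q _) (hrec q _)
        · exact (hrec q _).mono_left (Nat.le_succ n)
    · rw [if_neg h1]; exact .leaf _

theorem nTrue_succ (B : List Bool → Bool) (M : OProc) (x : List Bool) (k : ℕ) :
    nTrue B M x (k + 1) = nTrue B M x k +
      (if (M (x, answers B M x k)).2.headD false = true then 1 else 0) := by
  unfold nTrue
  rw [List.range_succ, List.countP_append, List.countP_singleton]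

theorem nTrue_mono (B : List Bool → Bool) (M : OProc) (x : List Bool) {j k : ℕ} (h : j ≤ k) :
    nTrue B M x j ≤ nTrue B M x k := by
  induction k, h using Nat.le_induction with
  | base => exact le_rfl
  | succ k _ ih =>
    rw [nTrue_succ]
    omega

/-- a run which obeys the bounds is the clocked run -/
theorem cl_eq {B : List Bool → Bool} {M : OProc} {x : List Bool} {n q k : ℕ} {v : Bool}
    (hk : k ≤ n) (hask : ∀ j < k, (M (x, answers B M x j)).1 = true)
    (hq : nTrue B M x k ≤ q)
    (hstop : M (x, answers B M x k) = (false, [v])) : cl B M x n q [] = v := by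
  have key : ∀ i j n' q' : ℕ, j + i = k → i ≤ n' →
      nTrue B M x k ≤ q' + nTrue B M x j → cl B M x n' q' (answers B M x j) = v := by
    intro i
    induction i with
    | zero =>
      intro j n' q' hj _ _
      have hj' : j = k := by omega
      subst hj'
      rcases n' with _ | n'
      · rw [cl, hstop]; rfl
      · rw [cl, hstop]; rfl
    | succ i ih =>
      intro j n' q' hj hi hq'
      obtain ⟨n'', rfl⟩ : ∃ n'', n' = n'' + 1 := ⟨n' - 1, by omega⟩
      have h1 := hask j (by omega)
      have hans : answers B M x j ++ [B (M (x, answers B M x j)).2] = answers B M x (j + 1) := rfl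
      have hmono := nTrue_mono B M x (show j + 1 ≤ k by omega)
      have hsucc := nTrue_succ B M x j
      rw [cl, if_pos h1, hans]
      by_cases h2 : (M (x, answers B M x j)).2.headD false = true
      · rw [if_pos h2] at hsucc ⊢
        rw [if_neg (by omega)]
        exact ih (j + 1) n'' (q' - 1) (by omega) (by omega) (by omega)
      · rw [if_neg h2] at hsucc ⊢
        exact ih (j + 1) n'' q' (by omega) (by omega) (by omega)
  exact key k 0 n q (by omega) hk (by omega)

/-- the clocked run depends only on the answers to the queries which can be asked -/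
theorem cl_congr {B B' : List Bool → Bool} {M : OProc} {x : List Bool} {N : ℕ}
    (hB : ∀ a s : List Bool, a.length < N → M (x, a) = (true, s) → B s = B' s) :
    ∀ (n q : ℕ) (a : List Bool), a.length + n ≤ N → cl B M x n q a = cl B' M x n q a := by
  intro n
  induction n with
  | zero => intro q a _; rfl
  | succ n ih =>
    intro q a ha
    have hrec : ∀ (q : ℕ) (b : Bool), cl B M x n q (a ++ [b]) = cl B' M x n q (a ++ [b]) := by
      intro q b
      refine ih q _ ?_
      rw [List.length_append, List.length_singleton]
      omega
    rw [cl, cl]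
    by_cases h1 : (M (x, a)).1 = true
    · rw [if_pos h1, if_pos h1, hB a _ (by omega) (Prod.ext h1 rfl), hrec, hrec]
    · rw [if_neg h1, if_neg h1]

end ORDist
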