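import Pool.Agent.Work.MP_609cce_lc.OrcEnum
import Pool.Agent.Work.MP_a81742_lc_or.Bridge
import Pool.Agent.Work.MP_a81742_lc_or.Gap
import Pool.Agent.Work.MP_a81742_lc_or.Mach2Tree

/-!
# One requirement, over a finite oracle
-/

namespace ORD

open ORDist O2PP PTime

/-- the language of the PP machine with the procedure `MV`, at most `pV` queries and `m` coins -/
def KB (A : Str → Bool) (MV : OProc) (pV m : Polynomial ℕ) (w : Str) : Bool :=
  decide (0 < gapO A MV (pV.eval w.length) (m.eval w.length) w)

/-- on the input `0ⁿ` the machine `M` with the oracle `A` and at most `q` queries to the PP machine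
finds out whether the maximum of `A` at the length `N` ends in `1` -/
def Good (A : Str → Bool) (M MV : OProc) (pM pV m : Polynomial ℕ) (n N q : ℕ) : Prop :=
  ∃ k ≤ pM.eval n, (∀ j < k, (M (List.replicate n false,
      answers (join A (KB A MV pV m)) M (List.replicate n false) j)).1 = true) ∧
    nTrue (join A (KB A MV pV m)) M (List.replicate n false) k ≤ q ∧
    ∃ v : Bool, M (List.replicate n false,
      answers (join A (KB A MV pV m)) M (List.replicate n false) k) = (false, [v]) ∧
      (MaxOdd A N ↔ v = true)

theorem thr_mono {d d' w w' : ℕ} {P : (ℕ → Bool) → Prop} (hd : d ≤ d') (hw : w ≤ w')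
    (h : Thr d w P) : Thr d' w' P := by
  obtain ⟨p, h1, h2, h3, h4⟩ := h
  exact ⟨p, MDeg.mono_le hd h1, h2,
    fun x => (h3 x).trans (pow_le_pow_right₀ (by norm_num) hw), h4⟩

/-- the machine can be made wrong over every finite oracle, provided the interval of the strings
of length `N` is long enough -/
theorem stage {M MV : OProc} (hM : PT M) (hMV : PT MV) (pM pV m : Polynomial ℕ) :
    ∃ D W : Polynomial ℕ, ∀ (A₀ : Str → Bool) (b n N q : ℕ),
      (∀ w, b ≤ w.length → A₀ w = false) → b ≤ N →
      need (D.eval n) (W.eval n) (pM.eval n) q ≤ 2 ^ N →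
      ∃ (A₁ : Str → Bool) (b₁ : ℕ), b ≤ b₁ ∧ (∀ w, w.length < b → A₁ w = A₀ w) ∧
        (∀ w, b₁ ≤ w.length → A₁ w = false) ∧
        ∀ A : Str → Bool, (∀ w, w.length < b₁ → A w = A₁ w) → ¬ Good A M MV pM pV m n N q := by
  obtain ⟨sM, hsM⟩ := exists_act_bound hM
  obtain ⟨sV, hsV⟩ := exists_act_bound hMV
  set S : Polynomial ℕ := sM.comp (Polynomial.X + pM) with hS
  refine ⟨pV.comp S, m.comp S + 2, fun A₀ b n N q hA₀ hbN hneed => ?_⟩
  set x : Str := List.replicate n false with hx
  have hxl : x.length = n := List.length_replicate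
  set τ : ℕ := pM.eval n with hτ
  set s : ℕ := S.eval n with hs
  have hquery : ∀ a : Str, a.length < τ → (M (x, a)).2.length + 1 ≤ s := by
    intro a ha
    refine (hsM x a).trans ?_
    rw [hs, hS, Polynomial.eval_comp]
    refine eval_mono sM ?_
    rw [hxl]
    simp only [Polynomial.eval_add, Polynomial.eval_X]
    omega
  have hBBbit : ∀ t : Str, t.headD false = false →
      (∃ b, ∀ u : ℕ → Bool, join (patch A₀ N u) (KB (patch A₀ N u) MV pV m) t = b) ∨
        ∃ i, ∀ u : ℕ → Bool, join (patch A₀ N u) (KB (patch A₀ N u) MV pV m) t = u i := by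
    intro t ht
    match t, ht with
    | [], _ => exact Or.inl ⟨false, fun u => rfl⟩
    | false :: t, _ => exact patch_cases A₀ N t
    | true :: t, ht => exact absurd ht (by simp)
  have hK : ∀ a t : Str, a.length < τ → M (x, a) = (true, t) → t.headD false = true →
      Thr ((pV.comp S).eval n) ((m.comp S + 2).eval n)
        fun u => join (patch A₀ N u) (KB (patch A₀ N u) MV pV m) t = true := by
    intro a t ha hMt ht
    have h1 := hquery a ha
    rw [hMt] at h1
    match t, ht, h1 with
    | [], ht, _ => exact absurd ht (by simp)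
    | false :: t, ht, _ => exact absurd ht (by simp)
    | true :: t, _, h1 =>
      simp only [List.length_cons] at h1
      have h2 : pV.eval t.length ≤ (pV.comp S).eval n := by
        rw [Polynomial.eval_comp]
        exact eval_mono pV (by omega)
      have h3 : m.eval t.length + 2 ≤ (m.comp S + 2).eval n := by
        rw [Polynomial.eval_add, Polynomial.eval_comp, Polynomial.eval_ofNat]
        exact Nat.add_le_add_right (eval_mono m (by omega)) 2
      refine thr_mono h2 h3 ?_
      have h4 := thr_gapO (AA := patch A₀ N) (patch_cases A₀ N) MV (pV.eval t.length)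
        (m.eval t.length) t
      refine (congrArg (Thr _ _) ?_).mp h4
      funext u
      simp only [join, KB, decide_eq_true_eq]
  have hfits := mtree_fits (fun u => join (patch A₀ N u) (KB (patch A₀ N u) MV pV m)) M x τ hK
    τ q [] (by simp)
  obtain ⟨u, _, hu⟩ := adversary hfits hneed (fun _ => false) (fun _ _ => rfl)
  rw [mtree_eval hBBbit] at hu
  -- the bound for all queries
  set sv : ℕ := sV.eval (2 * s + 1 + m.eval s + pV.eval s) with hsv
  refine ⟨patch A₀ N u, N + 1 + s + sv, by omega, fun w hw => patch_of_ne (by omega),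
    fun w hw => ?_, fun A hA hgood => ?_⟩
  · rw [patch_of_ne (by omega)]
    exact hA₀ w (by omega)
  · obtain ⟨k, hk, hask, hq, v, hstop, hv⟩ := hgood
    have h1 := cl_eq hk hask hq hstop
    have h2 : cl (join A (KB A MV pV m)) M x τ q [] =
        cl (join (patch A₀ N u) (KB (patch A₀ N u) MV pV m)) M x τ q [] := by
      refine cl_congr (N := τ) (fun a t ha hMt => ?_) τ q [] (by simp)
      have h3 := hquery a ha
      rw [hMt] at h3
      match t, h3 with
      | [], _ => rfl
      | false :: t, h3 =>
        simp only [List.length_cons] at h3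
        exact hA t (by omega)
      | true :: t, h3 =>
        simp only [List.length_cons] at h3
        simp only [join, KB]
        rw [gapO_congr (b := N + 1 + s + sv) hA]
        intro z a' hz ha'
        have h4 := hsV z a'
        have h5 : m.eval t.length ≤ m.eval s := eval_mono m (by omega)
        have h6 : pV.eval t.length ≤ pV.eval s := eval_mono pV (by omega)
        have h7 : sV.eval (z.length + a'.length) ≤ sv := by
          rw [hsv]
          exact eval_mono sV (by omega)
        omega
    have h3 : MaxOdd A N ↔ MaxOdd (patch A₀ N u) N := maxOdd_congr fun w hw => hA w (by omega)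
    rw [maxOdd_patch] at h3
    rw [← h2, h1] at hu
    tauto

end ORD
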