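import Pool.Agent.Work.MP_609cce_lc.OrcLimit
import Pool.Agent.Work.MP_a81742_lc_or.Arith
import Pool.Agent.Work.MP_a81742_lc_or.Limit
import Pool.Agent.Work.MP_a81742_lc_or.Stage

/-!
# The separation: the language of the maximum is not in `P^{PP^A[f]}`
-/

namespace ORD

open ORDist O2PP PTime

/-- `l` grows faster than `f n * log n` -/
def Dominates (l f : ℕ → ℕ) : Prop :=
  ∀ c : ℕ, ∃ n₀ : ℕ, ∀ n ≥ n₀, c * (f n + 1) * (Nat.log 2 n + 1) ≤ l n

theorem good_mono {A : Str → Bool} {M MV : OProc} {pM pV m : Polynomial ℕ} {n N q q' : ℕ}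
    (hq : q ≤ q') (h : Good A M MV pM pV m n N q) : Good A M MV pM pV m n N q' := by
  obtain ⟨k, hk, h1, h2, h3⟩ := h
  exact ⟨k, hk, h1, h2.trans hq, h3⟩

theorem stage_growth {M MV : OProc} (hM : PT M) (hMV : PT MV) (pM pV m : Polynomial ℕ) :
    ∃ c : ℕ, ∀ (l : ℕ → ℕ), Dominates l (fun _ => 0) → ∀ (j : ℕ) (A₀ : Str → Bool) (b : ℕ),
      (∀ w, b ≤ w.length → A₀ w = false) →
      ∃ (A₁ : Str → Bool) (b₁ : ℕ), b ≤ b₁ ∧ (∀ w, w.length < b → A₁ w = A₀ w) ∧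
        (∀ w, b₁ ≤ w.length → A₁ w = false) ∧
        ∀ A : Str → Bool, (∀ w, w.length < b₁ → A w = A₁ w) → ∃ n ≥ j, ∀ q : ℕ,
          c * (q + 1) * (Nat.log 2 n + 1) ≤ l n → ¬ Good A M MV pM pV m n (l n) q := by
  obtain ⟨D, W, hDW⟩ := stage hM hMV pM pV m
  obtain ⟨c, n₀, hc⟩ := need_le D W pM
  refine ⟨c + 1, fun l hl j A₀ b hA₀ => ?_⟩
  obtain ⟨n₁, hn₁⟩ := hl (c + 1)
  obtain ⟨n₂, hn₂⟩ := hl b
  set n : ℕ := n₀ + n₁ + n₂ + j with hn
  have h1 := hn₁ n (by omega)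
  have h2 := hn₂ n (by omega)
  simp only [zero_add, mul_one] at h1 h2
  have hbN : b ≤ l n := (Nat.le_mul_of_pos_right b (Nat.succ_pos _)).trans h2
  set Q : ℕ := (c + 1) * (Nat.log 2 n + 1) with hQ
  have hQ0 : 0 < Q := by positivity
  set F : ℕ := l n / Q - 1 with hF
  have hF1 : 1 ≤ l n / Q := (Nat.one_le_div_iff hQ0).2 h1
  have hFQ : (F + 1) * Q ≤ l n := by
    have h3 : F + 1 = l n / Q := by omega
    rw [h3]
    exact Nat.div_mul_le_self _ _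
  have hneed : need (D.eval n) (W.eval n) (pM.eval n) F ≤ 2 ^ l n := by
    refine hc n (by omega) F (l n) (le_trans ?_ hFQ)
    rw [hQ]
    calc c * (F + 1) * (Nat.log 2 n + 1) ≤ (c + 1) * (F + 1) * (Nat.log 2 n + 1) := by gcongr; omega
      _ = (F + 1) * ((c + 1) * (Nat.log 2 n + 1)) := by ring
  obtain ⟨A₁, b₁, h3, h4, h5, h6⟩ := hDW A₀ b n (l n) F hA₀ hbN hneed
  refine ⟨A₁, b₁, h3, h4, h5, fun A hA => ⟨n, by omega, fun q hq hgood => h6 A hA ?_⟩⟩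
  refine good_mono ?_ hgood
  have h7 : q + 1 ≤ l n / Q := by
    rw [Nat.le_div_iff_mul_le hQ0, hQ]
    calc (q + 1) * ((c + 1) * (Nat.log 2 n + 1)) = (c + 1) * (q + 1) * (Nat.log 2 n + 1) := by ring
      _ ≤ l n := hq
  omega

/-- **Separation.** One oracle for a countable family of certificate lengths and for all (even
uncountably many) bounds for the number of the PP queries -/
theorem exists_oracle_maxLang {𝓛 : Set (ℕ → ℕ)} (h𝓛 : 𝓛.Countable) :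
    ∃ A : Str → Bool, ∀ l ∈ 𝓛, ∀ f : ℕ → ℕ, Dominates l f → ¬ InPPPO A f (maxLang A l) := by
  have hstage := fun (M MV : {M : OProc // PT M}) (pM pV m : Polynomial ℕ) =>
    stage_growth M.2 MV.2 pM pV m
  choose c hc using hstage
  have hcM : Countable {M : OProc // PT M} :=
    (countable_PT (α := Str × Str) (β := Bool × Str)).to_subtype
  have hcp := countable_poly
  have hcl : Countable 𝓛 := h𝓛.to_subtype
  obtain ⟨A, hA⟩ := exists_oracle
    (ι := {M : OProc // PT M} × {M : OProc // PT M} × Polynomial ℕ × Polynomial ℕ × Polynomial ℕ ×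
      𝓛 × ℕ)
    (fun e A => Dominates e.2.2.2.2.2.1.1 (fun _ => 0) → ∃ n ≥ e.2.2.2.2.2.2, ∀ q : ℕ,
      c e.1 e.2.1 e.2.2.1 e.2.2.2.1 e.2.2.2.2.1 * (q + 1) * (Nat.log 2 n + 1) ≤
        e.2.2.2.2.2.1.1 n →
        ¬ Good A e.1.1 e.2.1.1 e.2.2.1 e.2.2.2.1 e.2.2.2.2.1 n (e.2.2.2.2.2.1.1 n) q)
    (by
      rintro ⟨M, MV, pM, pV, m, l, j⟩ A₀ b hA₀
      by_cases hl : Dominates l.1 (fun _ => 0)
      · obtain ⟨A₁, b₁, h1, h2, h3, h4⟩ := hc M MV pM pV m l.1 hl j A₀ b hA₀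
        exact ⟨A₁, b₁, h1, h2, h3, fun A hA _ => h4 A hA⟩
      · exact ⟨A₀, b, le_rfl, fun _ _ => rfl, hA₀, fun A _ h => absurd h hl⟩)
  refine ⟨A, fun l hl f hlf hin => ?_⟩
  obtain ⟨K, M, p, hK, hM, hrun⟩ := hin
  obtain ⟨MV, pV, m, hMV, hKgap⟩ := exists_gap_of_inPPO hK
  have hKB : K = KB A MV pV m := by
    funext w
    have h1 := hKgap w
    unfold KB
    by_cases h2 : 0 < gapO A MV (pV.eval w.length) (m.eval w.length) w
    · rw [decide_eq_true h2]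
      exact h1.2 h2
    · rw [decide_eq_false h2]
      by_contra h3
      rw [Bool.not_eq_false] at h3
      exact h2 (h1.1 h3)
  have hl0 : Dominates l (fun _ => 0) := by
    intro c
    obtain ⟨n₀, hn₀⟩ := hlf c
    refine ⟨n₀, fun n hn => le_trans ?_ (hn₀ n hn)⟩
    exact Nat.mul_le_mul_right _ (Nat.mul_le_mul_left _ (Nat.succ_le_succ (Nat.zero_le _)))
  obtain ⟨nf, hnf⟩ := hlf (c ⟨M, pt_of_polyTime hM⟩ ⟨MV, pt_of_polyTime hMV⟩ p pV m)
  obtain ⟨n, hn, hbad⟩ := hA (⟨M, pt_of_polyTime hM⟩, ⟨MV, pt_of_polyTime hMV⟩, p, pV, m,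
    ⟨l, hl⟩, nf) hl0
  refine hbad (f n) (hnf n hn) ?_
  obtain ⟨k, hk, h1, h2, v, h3, h4⟩ := hrun (List.replicate n false)
  rw [hKB] at h1 h2 h3
  simp only [List.length_replicate] at hk h2
  refine ⟨k, hk, h1, h2, v, h3, ?_⟩
  rw [← h4]
  constructor
  · intro h
    exact ⟨fun b hb => List.eq_of_mem_replicate hb, by rw [List.length_replicate]; exact h⟩
  · rintro ⟨_, h⟩
    rwa [List.length_replicate] at h

end ORD
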