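import Pool.Agent.Work.MP_609cce_lc.ODefs

/-!
# Functions computed in polynomial time in unary
-/

namespace ORD

open ORDist

/-- the function `l` is computed in polynomial time, numbers being coded in unary -/
def UnaryPT (l : ℕ → ℕ) : Prop :=
  PolyTime (fun n : ℕ => List.replicate n true) (fun n : ℕ => List.replicate n true) l

end ORD
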