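import Pool.Agent.Work.MP_a81742_lc_or.MemberONP
import Pool.Agent.Work.MP_a81742_lc_or.Sep
import Pool.Agent.Work.MP_a81742_lc_or.UDefs

/-!
# Certificate lengths computed in polynomial time in unary; deterministic use of one query to PP
-/

open Turing

namespace ORD

open ORDist O2PP PTime

theorem UnaryPT.pt {l : ℕ → ℕ} (h : UnaryPT l) : PT l := by
  obtain ⟨h⟩ := h
  have h1 : PT (fun n : ℕ => List.replicate (l n) true) := PT.ofTM2 h (pt_replB PT.id true)
  exact h1.length.congr fun n => List.length_replicate

theorem unaryPT_of_pt {l : ℕ → ℕ} (h : PT l) : UnaryPT l := by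
  have h1 : PT (fun s : Str => List.replicate (l s.length) true) :=
    pt_replB (h.comp PT.id.length) true
  obtain ⟨c⟩ := PT.polyTime_raw (ea := fun n : ℕ => List.replicate n true)
    (F := fun n => List.replicate (l n) true) h1 (fun n => by rw [List.length_replicate])
  exact ⟨⟨c.toTM2ComputableAux, c.time, c.outputsFun⟩⟩

theorem countable_unaryPT : Set.Countable {l : ℕ → ℕ | UnaryPT l} :=
  (countable_PT (α := ℕ) (β := ℕ)).mono fun _ hl => UnaryPT.pt hl

theorem pt_poly (p : Polynomial ℕ) : PT (fun n : ℕ => p.eval n) := by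
  induction p using Polynomial.induction_on' with
  | add p q hp hq =>
    exact (hp.add hq).congr fun n => (Polynomial.eval_add).symm
  | monomial m a =>
    have h : PT (fun n : ℕ => n ^ m) := by
      induction m with
      | zero => exact (PT.const 1).congr fun n => (pow_zero n).symm
      | succ m ih => exact (ih.mul PT.id).congr fun n => (pow_succ n m).symm
    exact ((PT.const a).mul h).congr fun n => (Polynomial.eval_monomial).symm

/-- polynomials are computed in polynomial time -/
theorem unaryPT_poly (p : Polynomial ℕ) : UnaryPT (fun n => p.eval n) := unaryPT_of_pt (pt_poly p)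

/-- the square of the binary length is computed in polynomial time -/
theorem unaryPT_size_sq : UnaryPT (fun n => Nat.size n ^ 2) := by
  have h : PT (fun n : ℕ => Nat.size n) :=
    (PT.bits PT.id).length.congr fun n => (Nat.size_eq_bits_len n)
  exact unaryPT_of_pt ((h.mul h).congr fun n => (sq _).symm)

/-- lengths computed in polynomial time are polynomially bounded -/
theorem UnaryPT.bound {l : ℕ → ℕ} (h : UnaryPT l) : ∃ m : Polynomial ℕ, ∀ n, l n ≤ m.eval n := by
  obtain ⟨q, hq⟩ := h.pt.size
  refine ⟨q.comp (2 * Polynomial.X + 1), fun n => ?_⟩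
  have h1 := hq n
  rw [sz_nat, sz_nat] at h1
  simp only [Polynomial.eval_add, Polynomial.eval_mul, Polynomial.eval_X,
    Polynomial.eval_ofNat, Polynomial.eval_comp, Polynomial.eval_one]
  omega

/-- a language in `PP^A` is decided with one query to a language in `PP^A` -/
theorem inPPPO_of_inPPO {A K : Str → Bool} (h : InPPO A K) :
    InPPPO A (fun _ => 1) {x | K x = true} := by
  refine ⟨K, fun z => bif z.2.isEmpty then (true, true :: z.1) else (false, [z.2.headD false]), 1,
    h, polyTime_of_pt ?_, fun x => ⟨1, by simp, ?_, ?_, K x, ?_, Iff.rfl⟩⟩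
  · exact PT.cond PT.snd.isEmpty ((PT.const true).pair ((PT.const true).cons PT.fst))
      ((PT.const false).pair ((PT.snd.headD (PT.const false)).cons (PT.const [])))
  · intro j hj
    have : j = 0 := by omega
    subst this
    simp [answers]
  · refine (List.countP_le_length).trans ?_
    simp
  · simp [answers, join]

theorem inPPPO_mono {A : Str → Bool} {f g : ℕ → ℕ} {L : Set Str} (hfg : ∀ n, f n ≤ g n)
    (h : InPPPO A f L) : InPPPO A g L := by
  obtain ⟨K, M, p, hK, hM, hrun⟩ := h
  refine ⟨K, M, p, hK, hM, fun x => ?_⟩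
  obtain ⟨k, hk, h1, h2, h3⟩ := hrun x
  exact ⟨k, hk, h1, h2.trans (hfg _), h3⟩

/-- polynomial certificate lengths beat every fixed polynomial number of queries -/
theorem dominates_poly (q : Polynomial ℕ) :
    Dominates (fun n => (Polynomial.X ^ 2 * (q + 1) : Polynomial ℕ).eval n) (fun n => q.eval n) := by
  intro c
  refine ⟨c + 2, fun n hn => ?_⟩
  simp only [Polynomial.eval_mul, Polynomial.eval_pow, Polynomial.eval_X, Polynomial.eval_add,
    Polynomial.eval_one]
  have h1 : Nat.log 2 n + 1 ≤ n := by
    have := Nat.log_lt_self 2 (x := n) (by omega)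
    omega
  calc c * (q.eval n + 1) * (Nat.log 2 n + 1) ≤ n * (q.eval n + 1) * n := by
        gcongr
        omega
    _ = n ^ 2 * (q.eval n + 1) := by ring

theorem dominates_size_sq : Dominates (fun n => Nat.size n ^ 2) (fun _ => 1) := by
  intro c
  refine ⟨2 ^ (2 * c), fun n hn => ?_⟩
  have h0 : 0 < n := lt_of_lt_of_le (by positivity) hn
  have h1 : Nat.log 2 n + 1 ≤ Nat.size n := by
    rw [Nat.succ_le_iff]
    have h2 : 2 ^ Nat.log 2 n ≤ n := Nat.pow_log_le_self 2 (by omega)
    exact Nat.lt_size.2 h2
  have h3 : 2 * c ≤ Nat.size n := (Nat.lt_size.2 hn).le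
  calc c * (1 + 1) * (Nat.log 2 n + 1) ≤ Nat.size n * Nat.size n := by
        refine Nat.mul_le_mul ?_ h1
        omega
    _ = Nat.size n ^ 2 := (sq _).symm

end ORD
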