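import Pool.Agent.Work.MP_609cce_lc.OrcEnum
import Pool.Agent.Work.MP_a81742_lc_or.Bridge
import Pool.Agent.Work.MP_a81742_lc_or.Gap
import Pool.Agent.Work.MP_a81742_lc_or.Mach2Tree
import Pool.Agent.Work.MP_a81742_lc_or.Stage
import Pool.Agent.Work.MP_a81742_lc_or.AdvFam

/-!
# One requirement, over a finite oracle, for a family of inputs
-/

namespace ORD

open ORDist O2PP PTime

theorem needF_mono {d w τ q m K K' : ℕ} (h : K ≤ K') : needF d w τ q m K ≤ needF d w τ q m K' := by
  unfold needF cost dMaj wMaj
  gcongr

/-- the machine `M` on the input `x`, with the oracle `A`, at most `P` queries and at most `q`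
queries to the PP machine, stops with the output `v` -/
def Outputs (A : Str → Bool) (M MV : OProc) (pV m : Polynomial ℕ) (x : Str) (P q : ℕ)
    (v : Bool) : Prop :=
  ∃ k ≤ P, (∀ j < k, (M (x, answers (join A (KB A MV pV m)) M x j)).1 = true) ∧
    nTrue (join A (KB A MV pV m)) M x k ≤ q ∧
    M (x, answers (join A (KB A MV pV m)) M x k) = (false, [v])

theorem outputs_mono {A : Str → Bool} {M MV : OProc} {pV m : Polynomial ℕ} {x : Str}
    {P P' q q' : ℕ} {v : Bool} (hP : P ≤ P') (hq : q ≤ q') (h : Outputs A M MV pV m x P q v) :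
    Outputs A M MV pV m x P' q' v := by
  obtain ⟨k, hk, h1, h2, h3⟩ := h
  exact ⟨k, hk.trans hP, h1, h2.trans hq, h3⟩

/-- the machine can be made wrong over every finite oracle, for all `a` at once, provided that the
blocks of positions are long enough -/
theorem stageF {M MV : OProc} (hM : PT M) (hMV : PT MV) (pV m : Polynomial ℕ) :
    ∃ D W : Polynomial ℕ, ∀ {ι : Type} [Fintype ι] (A₀ : Str → Bool) (b N q P lam K K' H : ℕ)
      (inp : ι → ℕ → Str),
      (∀ w, b ≤ w.length → A₀ w = false) → b ≤ N → (∀ a, ∀ i < K, (inp a i).length ≤ lam) →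
      Fintype.card ι < 2 ^ K → Fintype.card ι ≤ K' →
      needF (D.eval (lam + P)) (W.eval (lam + P)) P q K K' ≤ H →
      ∃ (u : ℕ → Bool) (b₁ : ℕ), N < b₁ ∧
        (∀ w, w.length < b → patch A₀ N u w = A₀ w) ∧
        (∀ w, b₁ ≤ w.length → patch A₀ N u w = false) ∧
        ∀ A : Str → Bool, (∀ w, w.length < b₁ → A w = patch A₀ N u w) → ∀ a, ∃ i < K, ∀ v : Bool,
          Outputs A M MV pV m (inp a i) P q v → ¬ (OddMaxAt H i u ↔ v = true) := by
  obtain ⟨sM, hsM⟩ := exists_act_bound hM
  obtain ⟨sV, hsV⟩ := exists_act_bound hMV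
  refine ⟨pV.comp sM, m.comp sM + 2,
    fun {ι} _ A₀ b N q P lam K K' H inp hA₀ hbN hlam hcard hcard' hneed => ?_⟩
  set s : ℕ := sM.eval (lam + P) with hs
  have hquery : ∀ a : ι, ∀ i < K, ∀ t : Str, t.length < P → (M (inp a i, t)).2.length + 1 ≤ s := by
    intro a i hi t ht
    refine (hsM _ t).trans ?_
    rw [hs]
    have := hlam a i hi
    exact eval_mono sM (by omega)
  have hBBbit : ∀ t : Str, t.headD false = false →
      (∃ b, ∀ u : ℕ → Bool, join (patch A₀ N u) (KB (patch A₀ N u) MV pV m) t = b) ∨
        ∃ i, ∀ u : ℕ → Bool, join (patch A₀ N u) (KB (patch A₀ N u) MV pV m) t = u i := by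
    intro t ht
    match t, ht with
    | [], _ => exact Or.inl ⟨false, fun u => rfl⟩
    | false :: t, _ => exact patch_cases A₀ N t
    | true :: t, ht => exact absurd ht (by simp)
  have hK : ∀ a : ι, ∀ i < K, ∀ r t : Str, r.length < P → M (inp a i, r) = (true, t) →
      t.headD false = true → Thr ((pV.comp sM).eval (lam + P)) ((m.comp sM + 2).eval (lam + P))
        fun u => join (patch A₀ N u) (KB (patch A₀ N u) MV pV m) t = true := by
    intro a i hi r t hr hMt ht
    have h1 := hquery a i hi r hr
    rw [hMt] at h1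
    match t, ht, h1 with
    | [], ht, _ => exact absurd ht (by simp)
    | false :: t, ht, _ => exact absurd ht (by simp)
    | true :: t, _, h1 =>
      simp only [List.length_cons] at h1
      have h2 : pV.eval t.length ≤ (pV.comp sM).eval (lam + P) := by
        rw [Polynomial.eval_comp]
        exact eval_mono pV (by omega)
      have h3 : m.eval t.length + 2 ≤ (m.comp sM + 2).eval (lam + P) := by
        rw [Polynomial.eval_add, Polynomial.eval_comp, Polynomial.eval_ofNat]
        exact Nat.add_le_add_right (eval_mono m (by omega)) 2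
      refine thr_mono h2 h3 ?_
      have h4 := thr_gapO (AA := patch A₀ N) (patch_cases A₀ N) MV (pV.eval t.length)
        (m.eval t.length) t
      refine (congrArg (Thr _ _) ?_).mp h4
      funext u
      simp only [join, KB, decide_eq_true_eq]
  have hfits : ∀ a : ι, ∀ i < K, Fits ((pV.comp sM).eval (lam + P))
      ((m.comp sM + 2).eval (lam + P)) P q
      (mtree (fun u => join (patch A₀ N u) (KB (patch A₀ N u) MV pV m)) M (inp a i) P q []) :=
    fun a i hi => mtree_fits (fun u => join (patch A₀ N u) (KB (patch A₀ N u) MV pV m)) M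
      (inp a i) P (fun r t hr hMt ht => hK a i hi r t hr hMt ht) P q [] (by simp)
  obtain ⟨u, _, hu⟩ := adversary_fam hcard hfits
    (le_trans (needF_mono hcard') hneed) (fun _ => false) (fun _ _ _ _ => rfl)
  -- the bound for all queries
  set sv : ℕ := sV.eval (2 * s + 1 + m.eval s + pV.eval s) with hsv
  refine ⟨u, N + 1 + s + sv, by omega, fun w hw => patch_of_ne (by omega),
    fun w hw => ?_, fun A hA a => ?_⟩
  · rw [patch_of_ne (by omega)]
    exact hA₀ w (by omega)
  · obtain ⟨i, hi, hui⟩ := hu a
    rw [mtree_eval hBBbit] at hui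
    refine ⟨i, hi, fun v hout hiff => ?_⟩
    obtain ⟨k, hk, hask, hq, hstop⟩ := hout
    have h1 := cl_eq hk hask hq hstop
    have h2 : cl (join A (KB A MV pV m)) M (inp a i) P q [] =
        cl (join (patch A₀ N u) (KB (patch A₀ N u) MV pV m)) M (inp a i) P q [] := by
      refine cl_congr (N := P) (fun r t hr hMt => ?_) P q [] (by simp)
      have h3 := hquery a i hi r hr
      rw [hMt] at h3
      match t, h3 with
      | [], _ => rfl
      | false :: t, h3 =>
        simp only [List.length_cons] at h3
        exact hA t (by omega)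
      | true :: t, h3 =>
        simp only [List.length_cons] at h3
        simp only [join, KB]
        rw [gapO_congr (b := N + 1 + s + sv) hA]
        intro z a' hz ha'
        have h4 := hsV z a'
        have h5 : m.eval t.length ≤ m.eval s := eval_mono m (by omega)
        have h6 : pV.eval t.length ≤ pV.eval s := eval_mono pV (by omega)
        have h7 : sV.eval (z.length + a'.length) ≤ sv := by
          rw [hsv]
          exact eval_mono sV (by omega)
        omega
    rw [← h2, h1] at hui
    tauto

end ORD
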