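import Pool.Agent.Work.MP_a81742_lc_or.GTame
import Pool.Agent.Work.MP_a81742_lc_or.AdvFam

/-!
# The growth inequality for the adversary with advice
-/

namespace O2PP

theorem Tm.evalComp (p : Polynomial ℕ) {f : ℕ → ℕ → ℕ → ℕ} (hf : Tm f) :
    Tm fun n g q => p.eval (f n g q) := by
  induction p using Polynomial.induction_on' with
  | add p q hp hq =>
    simp only [Polynomial.eval_add]
    exact hp.add hq
  | monomial k c =>
    simp only [Polynomial.eval_monomial]
    exact (Tm.const c).mul (hf.pow k)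

theorem Tm.fst : Tm fun n _ _ => n := by
  simpa using Tm.eval Polynomial.X

theorem Tm.snd : Tm fun _ g _ => g := Tm.lin _ 1 fun n g q => by nlinarith [Nat.zero_le (g * q)]

/-- the length which is needed is at most `2 ^ L` as soon as `L` is at least
`c (g + 1) ((g + 1) (q + 1) + log n + 1)` -/
theorem needF_le (D W T : Polynomial ℕ) : ∃ c : ℕ, ∀ n g q L : ℕ,
    c * (g + 1) * ((g + 1) * (q + 1) + Nat.log 2 n + 1) ≤ L →
      needF (D.eval (n + g)) (W.eval (n + g)) (T.eval (n + g)) q (g + 1) (2 ^ (g + 1)) ≤ 2 ^ L := by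
  have hng : Tm fun n g _ => n + g := Tm.fst.add Tm.snd
  have hD : Tm fun n g _ => D.eval (n + g) := Tm.evalComp D hng
  have hW : Tm fun n g _ => W.eval (n + g) := Tm.evalComp W hng
  have hT : Tm fun n g _ => T.eval (n + g) := Tm.evalComp T hng
  have hK : Tm fun _ g _ => 2 ^ (g + 1) := Tm.two_pow (fun _ g _ => g + 1) 1 fun n g q => by
    nlinarith [Nat.zero_le (g * q)]
  have hK1 : Tm fun _ g _ => g + 1 := Tm.snd.add (Tm.const 1)
  have hQ : Tm fun _ g q => 2 ^ ((g + 1) * q) := Tm.two_pow (fun _ g q => (g + 1) * q) 1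
    fun n g q => by nlinarith
  have hq : Tm fun _ _ q => 2 ^ q := Tm.two_pow (fun _ _ q => q) 1 fun n g q => by
    nlinarith [Nat.zero_le (g * q)]
  have hQ1 : Tm fun _ g q => (g + 1) * q := Tm.lin (fun _ g q => (g + 1) * q) 1
    fun n g q => by nlinarith
  have hd : Tm fun n g q => dMaj (D.eval (n + g)) (W.eval (n + g)) ((g + 1) * q) (2 ^ (g + 1)) := by
    unfold dMaj
    exact (hK.mul hQ).mul ((((Tm.const 2).mul ((hK.mul hQ1).add (Tm.const 1))).mul
      (((Tm.const 2).mul hW).add (Tm.const 1))).mul hD)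
  have hw : Tm fun n g q => wMaj (W.eval (n + g)) ((g + 1) * q) (2 ^ (g + 1)) := by
    unfold wMaj
    exact (hK.add (Tm.const 3)).add ((hK.mul hQ).mul
      (((((Tm.const 2).mul ((hK.mul hQ1).add (Tm.const 1)))).mul
        ((((Tm.const 2).mul hW).add (Tm.const 1)).mul (hW.add (Tm.const 1)))).add (Tm.const 1)))
  have hc : Tm fun n g q => cost (D.eval (n + g)) (W.eval (n + g)) (T.eval (n + g)) q (g + 1)
      (2 ^ (g + 1)) := by
    unfold cost
    exact (((Tm.const 16).mul (hd.pow 2)).add (Tm.const 1)).mul (hw.add (Tm.const 1))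
  have hpre : Tm fun n g q => (2 ^ (g + 1) * (g + 1) * (2 ^ q * T.eval (n + g)) + 1) * 2 :=
    (((hK.mul hK1).mul (hq.mul hT)).add (Tm.const 1)).mul (Tm.const 2)
  obtain ⟨c, hcc⟩ := Tm.pow_mul_le hc hpre 1
  refine ⟨c, fun n g q L hL => ?_⟩
  have h := hcc n g q (g + 1) L (by omega) hL
  refine le_trans (le_of_eq ?_) h
  unfold needF
  ring

theorem dMaj_mono {d w Q K K' : ℕ} (h : K ≤ K') : dMaj d w Q K ≤ dMaj d w Q K' := by
  unfold dMaj
  gcongr

theorem wMaj_mono {w Q K K' : ℕ} (h : K ≤ K') : wMaj w Q K ≤ wMaj w Q K' := by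
  unfold wMaj
  gcongr

theorem needF_mono {d w τ q m K K' : ℕ} (h : K ≤ K') :
    needF d w τ q m K ≤ needF d w τ q m K' := by
  unfold needF cost
  have h1 := dMaj_mono (d := d) (w := w) (Q := m * q) h
  have h2 := wMaj_mono (w := w) (Q := m * q) h
  gcongr

end O2PP
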