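import Pool.Agent.Work.MP_609cce_lc.OrcLimit
import Pool.Agent.Work.MP_a81742_lc_or.GArith
import Pool.Agent.Work.MP_a81742_lc_or.Limit
import Pool.Agent.Work.MP_a81742_lc_or.FStage
import Pool.Agent.Work.MP_a81742_lc_or.Arith

/-!
# The requirements for the language of the maximum and for the language of the blocks
-/

namespace ORD

open ORDist O2PP PTime

/-- `l` grows faster than `(g + 1) ((g + 1) (f + 1) + log n)`; for `g = 0` this says that
`f n + log n = o(l n)` -/
def Dom (l g f : ℕ → ℕ) : Prop :=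
  ∀ c : ℕ, ∃ n₀ : ℕ, ∀ n ≥ n₀,
    c * (g n + 1) * ((g n + 1) * (f n + 1) + Nat.log 2 n + 1) ≤ l n

theorem val_append (x w : Str) : val (x ++ w) = val x * 2 ^ w.length + val w := by
  induction x with
  | nil => simp [val]
  | cons b x ih =>
    rw [List.cons_append, val, val, ih, List.length_append, pow_add]
    cases b
    · simp
    · simp only [cond_true]
      ring

theorem maxOdd_block (A₀ : Str → Bool) {n i : ℕ} (l : ℕ) (u : ℕ → Bool) (hi : i < 2 ^ n) :
    MaxOdd (fun w => patch A₀ (n + l) u (bstr n i ++ w)) l ↔ OddMaxAt (2 ^ l) i u := by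
  have h1 : MaxOdd (fun w => patch A₀ (n + l) u (bstr n i ++ w)) l ↔
      MaxOdd (patch A₀ l (fun c => u (i * 2 ^ l + c))) l := by
    refine maxOdd_congr fun w hw => ?_
    rw [patch_of_length (by rw [List.length_append, bstr_length, hw]), patch_of_length hw,
      val_append, val_bstr hi, hw]
  rw [h1, maxOdd_patch]
  rfl

theorem val_true_inj {a b : Str} (h : val (true :: a) = val (true :: b)) : a = b := by
  rw [val, val, cond_true, cond_true] at h
  have ha := val_lt a
  have hb := val_lt b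
  have hl : a.length = b.length := by
    rcases lt_trichotomy a.length b.length with h1 | h1 | h1
    · have : 2 ^ (a.length + 1) ≤ 2 ^ b.length := Nat.pow_le_pow_right (by norm_num) h1
      rw [pow_succ] at this
      omega
    · exact h1
    · have : 2 ^ (b.length + 1) ≤ 2 ^ a.length := Nat.pow_le_pow_right (by norm_num) h1
      rw [pow_succ] at this
      omega
  refine val_inj hl ?_
  rw [hl] at h
  omega

/-- the strings of length at most `g` are numbered by the numbers below `2 ^ (g + 1) - 1` -/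
theorem exists_dec (g : ℕ) : ∃ dec : Fin (2 ^ (g + 1) - 1) → Str, (∀ k, (dec k).length ≤ g) ∧
    ∀ a : Str, a.length ≤ g → ∃ k, dec k = a := by
  classical
  refine ⟨fun k => if h : ∃ a : Str, a.length ≤ g ∧ val (true :: a) = k.1 + 1 then h.choose else [],
    fun k => ?_, fun a ha => ?_⟩
  · by_cases h : ∃ a : Str, a.length ≤ g ∧ val (true :: a) = k.1 + 1
    · simp only [dif_pos h]
      exact h.choose_spec.1
    · simp only [dif_neg h]
      exact Nat.zero_le _
  · have h1 : val (true :: a) < 2 ^ (g + 1) := by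
      refine (val_lt (true :: a)).trans_le (Nat.pow_le_pow_right (by norm_num) ?_)
      rw [List.length_cons]
      omega
    have h2 : 1 ≤ val (true :: a) := by
      rw [val, cond_true]
      have : 0 < 2 ^ a.length := by positivity
      omega
    refine ⟨⟨val (true :: a) - 1, by omega⟩, ?_⟩
    have h : ∃ b : Str, b.length ≤ g ∧ val (true :: b) = (val (true :: a) - 1) + 1 :=
      ⟨a, ha, by omega⟩
    simp only [dif_pos h]
    have h3 := h.choose_spec.2
    exact val_true_inj (by omega)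

/-- the requirement for the language of the maximum -/
theorem stage_max {M MV : OProc} (hM : PT M) (hMV : PT MV) (pM pV m : Polynomial ℕ) :
    ∃ c : ℕ, ∀ (l : ℕ → ℕ), Dom l (fun _ => 0) (fun _ => 0) → ∀ (j : ℕ) (A₀ : Str → Bool) (b : ℕ),
      (∀ w, b ≤ w.length → A₀ w = false) →
      ∃ (A₁ : Str → Bool) (b₁ : ℕ), b ≤ b₁ ∧ (∀ w, w.length < b → A₁ w = A₀ w) ∧
        (∀ w, b₁ ≤ w.length → A₁ w = false) ∧
        ∀ A : Str → Bool, (∀ w, w.length < b₁ → A w = A₁ w) → ∃ n ≥ j, ∀ q : ℕ,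
          c * (0 + 1) * ((0 + 1) * (q + 1) + Nat.log 2 n + 1) ≤ l n → ∀ v : Bool,
          Outputs A M MV pV m (List.replicate n false) (pM.eval n) q v →
            ¬ (MaxOdd A (l n) ↔ v = true) := by
  obtain ⟨D, W, hDW⟩ := stageF hM hMV pV m
  obtain ⟨c, hc⟩ := needF_le (D.comp (Polynomial.X + pM)) (W.comp (Polynomial.X + pM)) pM
  refine ⟨c + 1, fun l hl j A₀ b hA₀ => ?_⟩
  obtain ⟨n₁, hn₁⟩ := hl (c + 1)
  obtain ⟨n₂, hn₂⟩ := hl b
  set n : ℕ := n₁ + n₂ + j with hn
  have h1 := hn₁ n (by omega)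
  have h2 := hn₂ n (by omega)
  have hbN : b ≤ l n := by
    refine le_trans ?_ h2
    rw [zero_add, mul_one]
    exact Nat.le_mul_of_pos_right b (Nat.succ_pos _)
  classical
  let Q : ℕ → Prop := fun q => (c + 1) * (0 + 1) * ((0 + 1) * (q + 1) + Nat.log 2 n + 1) ≤ l n
  set F : ℕ := Nat.findGreatest Q (l n) with hF
  have hQF : Q F := Nat.findGreatest_spec (P := Q) (Nat.zero_le _) h1
  have hFmax : ∀ q, Q q → q ≤ F := by
    intro q hq
    refine Nat.le_findGreatest ?_ hq
    refine le_trans ?_ hq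
    calc q ≤ (0 + 1) * (q + 1) + Nat.log 2 n + 1 := by omega
      _ ≤ (c + 1) * (0 + 1) * ((0 + 1) * (q + 1) + Nat.log 2 n + 1) :=
        Nat.le_mul_of_pos_left _ (by positivity)
  have hneed : needF (D.eval (n + pM.eval n)) (W.eval (n + pM.eval n)) (pM.eval n) F 1
      (2 ^ (0 + 1)) ≤ 2 ^ l n := by
    have h3 := hc n 0 F (l n) (le_trans (by gcongr; omega) hQF)
    simpa only [Polynomial.eval_comp, Polynomial.eval_add, Polynomial.eval_X, add_zero,
      zero_add] using h3
  obtain ⟨u, b₁, h3, h4, h5, h6⟩ := hDW (ι := Unit) A₀ b (l n) F (pM.eval n) n 1 (2 ^ (0 + 1))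
    (2 ^ l n) (fun _ _ => List.replicate n false) hA₀ hbN
    (fun _ _ _ => by rw [List.length_replicate]) (by simp) (by simp) hneed
  refine ⟨patch A₀ (l n) u, b₁, by omega, h4, h5, fun A hA => ⟨n, by omega, fun q hq v hout => ?_⟩⟩
  obtain ⟨i, hi, h7⟩ := h6 A hA ()
  have hi0 : i = 0 := by omega
  subst hi0
  have h8 : MaxOdd A (l n) ↔ OddMaxAt (2 ^ l n) 0 u := by
    rw [maxOdd_congr (A' := patch A₀ (l n) u) (fun w hw => hA w (by omega)), maxOdd_patch]
    unfold OddMaxAt
    simp only [zero_mul, zero_add]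
  rw [h8]
  exact h7 v (outputs_mono le_rfl (hFmax q hq) hout)

/-- the requirement for the language of the blocks -/
theorem stage_block {M MV : OProc} (hM : PT M) (hMV : PT MV) (pM pV m : Polynomial ℕ) :
    ∃ c : ℕ, ∀ (l g : ℕ → ℕ), Dom l g (fun _ => 0) → (∃ n₁, ∀ n ≥ n₁, g n + 1 ≤ 2 ^ n) →
      ∀ (j : ℕ) (A₀ : Str → Bool) (b : ℕ), (∀ w, b ≤ w.length → A₀ w = false) →
      ∃ (A₁ : Str → Bool) (b₁ : ℕ), b ≤ b₁ ∧ (∀ w, w.length < b → A₁ w = A₀ w) ∧
        (∀ w, b₁ ≤ w.length → A₁ w = false) ∧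
        ∀ A : Str → Bool, (∀ w, w.length < b₁ → A w = A₁ w) → ∃ n ≥ j, g n + 1 ≤ 2 ^ n ∧
          ∀ q : ℕ, c * (g n + 1) * ((g n + 1) * (q + 1) + Nat.log 2 n + 1) ≤ l n →
          ∀ a : Str, a.length ≤ g n → ∃ i < g n + 1, ∀ v : Bool,
          Outputs A M MV pV m (pairStr (bstr n i, a)) (pM.eval (2 * (n + g n) + 1)) q v →
            ¬ (MaxOdd (fun w => A (bstr n i ++ w)) (l n) ↔ v = true) := by
  obtain ⟨D, W, hDW⟩ := stageF hM hMV pV m
  set R : Polynomial ℕ := 2 * Polynomial.X + 1 + pM.comp (2 * Polynomial.X + 1) with hR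
  obtain ⟨c, hc⟩ := needF_le (D.comp R) (W.comp R) (pM.comp (2 * Polynomial.X + 1))
  refine ⟨c + 1, fun l g hl hg j A₀ b hA₀ => ?_⟩
  obtain ⟨n₁, hn₁⟩ := hl (c + 1)
  obtain ⟨n₂, hn₂⟩ := hl b
  obtain ⟨n₃, hn₃⟩ := hg
  set n : ℕ := n₁ + n₂ + n₃ + j with hn
  have h1 := hn₁ n (by omega)
  have h2 := hn₂ n (by omega)
  have hg2 := hn₃ n (by omega)
  have hbN : b ≤ n + l n := by
    refine le_trans (le_trans ?_ h2) (Nat.le_add_left _ _)
    rw [mul_assoc]
    exact Nat.le_mul_of_pos_right b (by positivity)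
  classical
  let Q : ℕ → Prop := fun q =>
    (c + 1) * (g n + 1) * ((g n + 1) * (q + 1) + Nat.log 2 n + 1) ≤ l n
  set F : ℕ := Nat.findGreatest Q (l n) with hF
  have hQF : Q F := Nat.findGreatest_spec (P := Q) (Nat.zero_le _) h1
  have hFmax : ∀ q, Q q → q ≤ F := by
    intro q hq
    refine Nat.le_findGreatest ?_ hq
    refine le_trans ?_ hq
    calc q ≤ 1 * (q + 1) := by omega
      _ ≤ (g n + 1) * (q + 1) := Nat.mul_le_mul_right _ (by omega)
      _ ≤ (g n + 1) * (q + 1) + Nat.log 2 n + 1 := by omega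
      _ ≤ (c + 1) * (g n + 1) * ((g n + 1) * (q + 1) + Nat.log 2 n + 1) :=
        Nat.le_mul_of_pos_left _ (by positivity)
  set P : ℕ := pM.eval (2 * (n + g n) + 1) with hP
  have hneed : needF (D.eval (2 * (n + g n) + 1 + P)) (W.eval (2 * (n + g n) + 1 + P)) P F
      (g n + 1) (2 ^ (g n + 1)) ≤ 2 ^ l n := by
    have h3 := hc n (g n) F (l n) (le_trans (by gcongr; omega) hQF)
    simpa only [hR, hP, Polynomial.eval_comp, Polynomial.eval_add, Polynomial.eval_mul,
      Polynomial.eval_ofNat, Polynomial.eval_one, Polynomial.eval_X] using h3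
  obtain ⟨dec, hdec1, hdec2⟩ := exists_dec (g n)
  have hpow : 0 < 2 ^ (g n + 1) := by positivity
  obtain ⟨u, b₁, h3, h4, h5, h6⟩ := hDW (ι := Fin (2 ^ (g n + 1) - 1)) A₀ b (n + l n) F P
    (2 * (n + g n) + 1) (g n + 1) (2 ^ (g n + 1)) (2 ^ l n)
    (fun k i => pairStr (bstr n i, dec k)) hA₀ hbN
    (fun k i _ => by
      have h7 := hdec1 k
      simp only [pairStr, List.length_append, List.length_flatMap, List.length_cons,
        List.length_nil, List.map_const', List.sum_replicate, smul_eq_mul, bstr_length]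
      omega)
    (by rw [Fintype.card_fin]; omega) (by rw [Fintype.card_fin]; omega) hneed
  refine ⟨patch A₀ (n + l n) u, b₁, by omega, h4, h5,
    fun A hA => ⟨n, by omega, hg2, fun q hq a ha => ?_⟩⟩
  obtain ⟨k, rfl⟩ := hdec2 a ha
  obtain ⟨i, hi, h7⟩ := h6 A hA k
  refine ⟨i, hi, fun v hout => ?_⟩
  have h8 : MaxOdd (fun w => A (bstr n i ++ w)) (l n) ↔ OddMaxAt (2 ^ l n) i u := by
    rw [← maxOdd_block A₀ (l n) u (lt_of_lt_of_le hi hg2)]
    refine maxOdd_congr fun w hw => hA _ ?_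
    rw [List.length_append, bstr_length, hw]
    exact h3
  rw [h8]
  exact h7 v (outputs_mono le_rfl (hFmax q hq) hout)

end ORD
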