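import Pool.Agent.Work.MP_a81742_lc_or.AdvMember
import Pool.Agent.Work.MP_a81742_lc_or.Enum
import Pool.Agent.Work.MP_a81742_lc_or.FSep

/-!
# One oracle for all requirements
-/

namespace ORD

open ORDist O2PP PTime

theorem kb_of_gap {A K : Str → Bool} {MV : OProc} {pV m : Polynomial ℕ}
    (h : ∀ x : Str, K x = true ↔ 0 < gapO A MV (pV.eval x.length) (m.eval x.length) x) :
    K = KB A MV pV m := by
  funext w
  have h1 := h w
  unfold KB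
  by_cases h2 : 0 < gapO A MV (pV.eval w.length) (m.eval w.length) w
  · rw [decide_eq_true h2]
    exact h1.2 h2
  · rw [decide_eq_false h2]
    by_contra h3
    rw [Bool.not_eq_false] at h3
    exact h2 (h1.1 h3)

theorem Dom.zero {l g f : ℕ → ℕ} (h : Dom l g f) : Dom l g (fun _ => 0) := by
  intro c
  obtain ⟨n₀, hn₀⟩ := h c
  refine ⟨n₀, fun n hn => le_trans ?_ (hn₀ n hn)⟩
  exact Nat.mul_le_mul_left _ (Nat.add_le_add_right (Nat.add_le_add_right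
    (Nat.mul_le_mul_left _ (Nat.succ_le_succ (Nat.zero_le _))) _) _)

theorem pairStr_len (x a : Str) : (pairStr (x, a)).length = 2 * x.length + 1 + a.length := by
  simp only [pairStr, List.length_append, List.length_flatMap, List.length_cons,
    List.length_nil, List.map_const', List.sum_replicate, smul_eq_mul]
  omega

/-- **Separation.** One oracle for a countable family of certificate lengths and advice lengths, and
for all (even uncountably many) bounds for the number of the PP queries -/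
theorem exists_oracle_sep {𝓛 : Set (ℕ → ℕ)} (h𝓛 : 𝓛.Countable) :
    ∃ A : Str → Bool,
      (∀ l ∈ 𝓛, ∀ f : ℕ → ℕ, Dom l (fun _ => 0) f → ¬ InPPPO A f (maxLang A l)) ∧
      ∀ l ∈ 𝓛, ∀ g ∈ 𝓛, (∃ n₁, ∀ n ≥ n₁, g n + 1 ≤ 2 ^ n) → ∀ f : ℕ → ℕ, Dom l g f →
        ¬ InPPPOAdv A f g (blockLang A (fun n => g n + 1) l) := by
  have hs1 := fun (M MV : {M : OProc // PT M}) (pM pV m : Polynomial ℕ) =>
    stage_max M.2 MV.2 pM pV m
  choose c hc using hs1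
  have hs2 := fun (M MV : {M : OProc // PT M}) (pM pV m : Polynomial ℕ) =>
    stage_block M.2 MV.2 pM pV m
  choose d hd using hs2
  have hcM : Countable {M : OProc // PT M} :=
    (countable_PT (α := Str × Str) (β := Bool × Str)).to_subtype
  have hcp := countable_poly
  have hcl : Countable 𝓛 := h𝓛.to_subtype
  -- the two kinds of requirements
  let R1 : ({M : OProc // PT M} × {M : OProc // PT M} × Polynomial ℕ × Polynomial ℕ ×
      Polynomial ℕ × 𝓛 × ℕ) → (Str → Bool) → Prop := fun e A =>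
    Dom e.2.2.2.2.2.1.1 (fun _ => 0) (fun _ => 0) → ∃ n ≥ e.2.2.2.2.2.2, ∀ q : ℕ,
      c e.1 e.2.1 e.2.2.1 e.2.2.2.1 e.2.2.2.2.1 * (0 + 1) * ((0 + 1) * (q + 1) + Nat.log 2 n + 1) ≤
        e.2.2.2.2.2.1.1 n → ∀ v : Bool,
        Outputs A e.1.1 e.2.1.1 e.2.2.2.1 e.2.2.2.2.1 (List.replicate n false) (e.2.2.1.eval n) q v →
          ¬ (MaxOdd A (e.2.2.2.2.2.1.1 n) ↔ v = true)
  let R2 : ({M : OProc // PT M} × {M : OProc // PT M} × Polynomial ℕ × Polynomial ℕ ×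
      Polynomial ℕ × 𝓛 × 𝓛 × ℕ) → (Str → Bool) → Prop := fun e A =>
    Dom e.2.2.2.2.2.1.1 e.2.2.2.2.2.2.1.1 (fun _ => 0) →
      (∃ n₁, ∀ n ≥ n₁, e.2.2.2.2.2.2.1.1 n + 1 ≤ 2 ^ n) →
      ∃ n ≥ e.2.2.2.2.2.2.2, e.2.2.2.2.2.2.1.1 n + 1 ≤ 2 ^ n ∧ ∀ q : ℕ,
      d e.1 e.2.1 e.2.2.1 e.2.2.2.1 e.2.2.2.2.1 * (e.2.2.2.2.2.2.1.1 n + 1) *
        ((e.2.2.2.2.2.2.1.1 n + 1) * (q + 1) + Nat.log 2 n + 1) ≤ e.2.2.2.2.2.1.1 n →
      ∀ a : Str, a.length ≤ e.2.2.2.2.2.2.1.1 n → ∃ i < e.2.2.2.2.2.2.1.1 n + 1, ∀ v : Bool,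
        Outputs A e.1.1 e.2.1.1 e.2.2.2.1 e.2.2.2.2.1 (pairStr (bstr n i, a))
          (e.2.2.1.eval (2 * (n + e.2.2.2.2.2.2.1.1 n) + 1)) q v →
          ¬ (MaxOdd (fun w => A (bstr n i ++ w)) (e.2.2.2.2.2.1.1 n) ↔ v = true)
  obtain ⟨A, hA⟩ := exists_oracle (fun e : _ ⊕ _ => Sum.elim R1 R2 e) (by
    rintro (⟨M, MV, pM, pV, m, l, j⟩ | ⟨M, MV, pM, pV, m, l, g, j⟩) A₀ b hA₀
    · by_cases hl : Dom l.1 (fun _ => 0) (fun _ => 0)
      · obtain ⟨A₁, b₁, h1, h2, h3, h4⟩ := hc M MV pM pV m l.1 hl j A₀ b hA₀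
        exact ⟨A₁, b₁, h1, h2, h3, fun A hA _ => h4 A hA⟩
      · exact ⟨A₀, b, le_rfl, fun _ _ => rfl, hA₀, fun A _ h => absurd h hl⟩
    · by_cases hl : Dom l.1 g.1 (fun _ => 0)
      · by_cases hg : ∃ n₁, ∀ n ≥ n₁, g.1 n + 1 ≤ 2 ^ n
        · obtain ⟨A₁, b₁, h1, h2, h3, h4⟩ := hd M MV pM pV m l.1 g.1 hl hg j A₀ b hA₀
          exact ⟨A₁, b₁, h1, h2, h3, fun A hA _ _ => h4 A hA⟩
        · exact ⟨A₀, b, le_rfl, fun _ _ => rfl, hA₀, fun A _ _ h => absurd h hg⟩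
      · exact ⟨A₀, b, le_rfl, fun _ _ => rfl, hA₀, fun A _ h => absurd h hl⟩)
  refine ⟨A, fun l hl f hlf hin => ?_, fun l hl g hg hgn f hlf hin => ?_⟩
  · obtain ⟨K, M, p, hK, hM, hrun⟩ := hin
    obtain ⟨MV, pV, m, hMV, hKgap⟩ := exists_gap_of_inPPO hK
    have hKB := kb_of_gap hKgap
    obtain ⟨nf, hnf⟩ := hlf (c ⟨M, pt_of_polyTime hM⟩ ⟨MV, pt_of_polyTime hMV⟩ p pV m)
    obtain ⟨n, hn, hbad⟩ := hA (Sum.inl (⟨M, pt_of_polyTime hM⟩, ⟨MV, pt_of_polyTime hMV⟩, p,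
      pV, m, ⟨l, hl⟩, nf)) hlf.zero
    obtain ⟨k, hk, h1, h2, v, h3, h4⟩ := hrun (List.replicate n false)
    rw [hKB] at h1 h2 h3
    simp only [List.length_replicate] at hk h2
    refine hbad (f n) (hnf n hn) v ⟨k, hk, h1, h2, h3⟩ ?_
    rw [← h4]
    constructor
    · intro h
      exact ⟨fun b hb => List.eq_of_mem_replicate hb, by rw [List.length_replicate]; exact h⟩
    · rintro ⟨_, h⟩
      rwa [List.length_replicate] at h
  · obtain ⟨K, M, p, adv, hK, hM, hadv, hrun⟩ := hin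
    obtain ⟨MV, pV, m, hMV, hKgap⟩ := exists_gap_of_inPPO hK
    have hKB := kb_of_gap hKgap
    obtain ⟨nf, hnf⟩ := hlf (d ⟨M, pt_of_polyTime hM⟩ ⟨MV, pt_of_polyTime hMV⟩ p pV m)
    obtain ⟨n, hn, hgn2, hbad⟩ := hA (Sum.inr (⟨M, pt_of_polyTime hM⟩, ⟨MV, pt_of_polyTime hMV⟩,
      p, pV, m, ⟨l, hl⟩, ⟨g, hg⟩, nf)) hlf.zero hgn
    obtain ⟨i, hi, h0⟩ := hbad (f n) (hnf n hn) (adv n) (hadv n)
    obtain ⟨k, hk, h1, h2, v, h3, h4⟩ := hrun (bstr n i)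
    rw [bstr_length] at hk h1 h2 h3
    rw [hKB] at h1 h2 h3
    have h5 : k ≤ p.eval (2 * (n + g n) + 1) := by
      refine hk.trans (eval_mono p ?_)
      rw [pairStr_len, bstr_length]
      have := hadv n
      omega
    refine h0 v ⟨k, h5, h1, h2, h3⟩ ?_
    rw [← h4]
    have h6 : val (bstr n i) = i := val_bstr (lt_of_lt_of_le hi hgn2)
    constructor
    · intro h
      refine ⟨?_, ?_⟩
      · rw [bstr_length, h6]
        exact hi
      · rw [bstr_length]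
        exact h
    · rintro ⟨_, h⟩
      rw [bstr_length] at h
      exact h

end ORD
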