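import Pool.Agent.Work.MP_a81742_lc_or.Bridge
import Pool.Agent.Work.MP_a81742_lc_or.FMain

/-!
# Valid oracles, limits of valid oracles, definition of an oracle by recursion on the length
-/

namespace ORD

open ORDist O2PP PTime

/-- the functional `F` is local: `F B M y` depends only on the strings of length less than `M` -/
def Loc (F : (Str → Bool) → ℕ → Str → Bool) : Prop :=
  ∀ (B B' : Str → Bool) (M : ℕ) (y : Str), (∀ s : Str, s.length < M → B s = B' s) →
    F B M y = F B' M y

/-- valid oracles: at every length `M` there is a maximal active key `w`, and its table is given by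
the functional `F`; the string `false :: w` says whether the key `w` is active, the string
`true :: pairStr (w, y)` is the entry `y` of the table of `w` -/
def ValidF (F : (Str → Bool) → ℕ → Str → Bool) (A : Str → Bool) : Prop :=
  ∀ M : ℕ, ∃ w : Str, w.length = M ∧ A (false :: w) = true ∧
    (∀ w' : Str, w'.length = M → A (false :: w') = true → val w' ≤ val w) ∧
    ∀ y : Str, A (true :: pairStr (w, y)) = F A M y

/-- definition of an oracle by recursion on the length of the strings -/
noncomputable def fixO (step : (Str → Bool) → Str → Bool) (s : Str) : Bool :=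
  step (fun t => if _h : t.length < s.length then fixO step t else false) s
termination_by s.length

theorem fixO_eq {step : (Str → Bool) → Str → Bool}
    (hstep : ∀ (B B' : Str → Bool) (s : Str), (∀ t : Str, t.length < s.length → B t = B' t) →
      step B s = step B' s) (s : Str) : fixO step s = step (fixO step) s := by
  rw [fixO]
  refine hstep _ _ s fun t ht => ?_
  rw [dif_pos ht]

/-- valid oracles are a closed set -/
theorem validF_closed {F : (Str → Bool) → ℕ → Str → Bool} (hF : Loc F) (A : Str → Bool)
    (h : ∀ b : ℕ, ∃ A' : Str → Bool, ValidF F A' ∧ ∀ w : Str, w.length < b → A w = A' w) :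
    ValidF F A := by
  intro M
  obtain ⟨A', hA', hag⟩ := h (M + 2)
  obtain ⟨w, hw, hact, hmax, _⟩ := hA' M
  have hact' : A (false :: w) = true := by
    rw [hag _ (by rw [List.length_cons, hw]; omega)]
    exact hact
  have hmax' : ∀ w' : Str, w'.length = M → A (false :: w') = true → val w' ≤ val w := by
    intro w' hw' h1
    refine hmax w' hw' ?_
    rw [← hag _ (by rw [List.length_cons, hw']; omega)]
    exact h1
  refine ⟨w, hw, hact', hmax', fun y => ?_⟩
  obtain ⟨A2, hA2, hag2⟩ := h (M + 2 + (true :: pairStr (w, y)).length + 1)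
  obtain ⟨w2, hw2, hact2, hmax2, htab⟩ := hA2 M
  have h1 : w2 = w := by
    refine val_inj (hw2.trans hw.symm) (le_antisymm (hmax' w2 hw2 ?_) (hmax2 w hw ?_))
    · rw [hag2 _ (by rw [List.length_cons, hw2]; omega)]
      exact hact2
    · rw [← hag2 _ (by rw [List.length_cons, hw]; omega)]
      exact hact'
  subst h1
  rw [hag2 _ (by omega), htab y]
  exact hF _ _ _ _ fun s hs => (hag2 s (by omega)).symm

/-- there is a valid oracle -/
theorem exists_validF {F : (Str → Bool) → ℕ → Str → Bool} (hF : Loc F) :
    ∃ A : Str → Bool, ValidF F A := by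
  classical
  let step : (Str → Bool) → Str → Bool := fun B s =>
    match s with
    | [] => false
    | false :: w => decide (w = List.replicate w.length true)
    | true :: z => F B (unpairS z).1.length (unpairS z).2 && decide ((unpairS z).1.length < s.length)
  have hstep : ∀ (B B' : Str → Bool) (s : Str), (∀ t : Str, t.length < s.length → B t = B' t) →
      step B s = step B' s := by
    intro B B' s h
    match s with
    | [] => rfl
    | false :: w => rfl
    | true :: z =>
      by_cases h1 : (unpairS z).1.length < (true :: z).length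
      · simp only [step]
        rw [hF B B' _ _ fun t ht => h t (by omega)]
      · simp only [step]
        rw [decide_eq_false h1, Bool.and_false, Bool.and_false]
  refine ⟨fixO step, fun M => ⟨List.replicate M true, List.length_replicate, ?_, ?_, fun y => ?_⟩⟩
  · rw [fixO_eq hstep]
    simp [step]
  · intro w' hw' h1
    rw [fixO_eq hstep] at h1
    simp only [step, decide_eq_true_eq] at h1
    rw [h1, hw']
  · rw [fixO_eq hstep]
    simp only [step, unpairS_pairStr, List.length_replicate]
    rw [decide_eq_true, Bool.and_true]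
    rw [List.length_cons, pairStr_len, List.length_replicate]
    omega

/-- if each of countably many requirements can be forced over every condition (a valid oracle and a
length), then one valid oracle meets all of them -/
theorem exists_oracle_closed {ι : Type} [Countable ι] (Valid : (Str → Bool) → Prop)
    (h0 : ∃ A, Valid A)
    (hcl : ∀ A : Str → Bool, (∀ b : ℕ, ∃ A' : Str → Bool, Valid A' ∧
      ∀ w : Str, w.length < b → A w = A' w) → Valid A)
    (R : ι → (Str → Bool) → Prop)
    (h : ∀ (e : ι) (A₀ : Str → Bool) (b : ℕ), Valid A₀ →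
      ∃ (A₁ : Str → Bool) (b₁ : ℕ), Valid A₁ ∧ b ≤ b₁ ∧
        (∀ w : Str, w.length < b → A₁ w = A₀ w) ∧
        ∀ A : Str → Bool, Valid A → (∀ w : Str, w.length < b₁ → A w = A₁ w) → R e A) :
    ∃ A : Str → Bool, Valid A ∧ ∀ e, R e A := by
  classical
  obtain ⟨A00, hA00⟩ := h0
  rcases isEmpty_or_nonempty ι with hι | hι
  · exact ⟨A00, hA00, fun e => (hι.false e).elim⟩
  obtain ⟨g, hg⟩ := exists_surjective_nat ι
  let C : Type := {c : (Str → Bool) × ℕ // Valid c.1}
  have step : ∀ (e : ι) (c : C), ∃ c' : C, c.1.2 + 1 ≤ c'.1.2 ∧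
      (∀ w : Str, w.length < c.1.2 → c'.1.1 w = c.1.1 w) ∧
      ∀ A : Str → Bool, Valid A → (∀ w : Str, w.length < c'.1.2 → A w = c'.1.1 w) → R e A := by
    intro e c
    obtain ⟨A₁, b₁, h1, h2, h3, h4⟩ := h e c.1.1 (c.1.2 + 1) c.2
    exact ⟨⟨(A₁, b₁), h1⟩, h2, fun w hw => h3 w (by omega), h4⟩
  choose next hn1 hn2 hn3 using step
  let c₀ : C := ⟨(A00, 0), hA00⟩
  let seq : ℕ → C := fun k => Nat.rec c₀ (fun i c => next (g i) c) k
  have hseq : ∀ k, seq (k + 1) = next (g k) (seq k) := fun _ => rfl
  have hmono : ∀ k m, k ≤ m → (seq k).1.2 ≤ (seq m).1.2 ∧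
      ∀ w : Str, w.length < (seq k).1.2 → (seq m).1.1 w = (seq k).1.1 w := by
    intro k m hkm
    induction m, hkm using Nat.le_induction with
    | base => exact ⟨le_rfl, fun _ _ => rfl⟩
    | succ m _ ih =>
      rw [hseq]
      have h1 := hn1 (g m) (seq m)
      refine ⟨by omega, fun w hw => ?_⟩
      rw [hn2 (g m) (seq m) w (hw.trans_le ih.1)]
      exact ih.2 w hw
  have hge : ∀ k, k ≤ (seq k).1.2 := by
    intro k
    induction k with
    | zero => exact Nat.zero_le _
    | succ k ih =>
      have h1 := hn1 (g k) (seq k)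
      rw [hseq]
      omega
  let A : Str → Bool := fun w => (seq (w.length + 1)).1.1 w
  have hA : ∀ k (w : Str), w.length < (seq k).1.2 → A w = (seq k).1.1 w := by
    intro k w hw
    have hlw : w.length < (seq (w.length + 1)).1.2 := lt_of_lt_of_le (Nat.lt_succ_self _) (hge _)
    rcases le_total k (w.length + 1) with h1 | h1
    · exact (hmono _ _ h1).2 w hw
    · exact ((hmono _ _ h1).2 w hlw).symm
  have hval : Valid A := hcl A fun b => ⟨(seq b).1.1, (seq b).2, fun w hw =>
    hA b w (lt_of_lt_of_le hw (hge b))⟩
  refine ⟨A, hval, fun e => ?_⟩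
  obtain ⟨k, rfl⟩ := hg e
  refine hn3 (g k) (seq k) A hval fun w hw => ?_
  have h1 := hA (k + 1) w (by rw [hseq]; exact hw)
  rw [h1, hseq]

end ORD
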