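import Pool.Agent.Work.MP_a81742_lc_or.AdvDefs
import Pool.Agent.Work.MP_609cce_lc.OrcEnum

/-!
# Translation of the queries

If the oracle `A₀` is `A` after a polynomial time translation of the queries, then computations with
`A₀` are computations with `A`.
-/

namespace ORDist

open PTime

/-- the procedure `M` with the queries translated by `τ` -/
def transP (τ : Str → Str) (M : OProc) : OProc := fun z =>
  bif (M z).1 then (true, τ (M z).2) else (false, (M z).2)

theorem transP_fst (τ : Str → Str) (M : OProc) (z : Str × Str) :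
    (transP τ M z).1 = (M z).1 := by
  unfold transP
  cases h : (M z).1 <;> rfl

theorem transP_of_true {τ : Str → Str} {M : OProc} {z : Str × Str} (h : (M z).1 = true) :
    transP τ M z = (true, τ (M z).2) := by
  unfold transP
  rw [h, cond_true]

theorem transP_of_false {τ : Str → Str} {M : OProc} {z : Str × Str} (h : (M z).1 = false) :
    transP τ M z = M z := by
  unfold transP
  rw [h, cond_false, ← h]

theorem pt_transP {τ : Str → Str} {M : OProc} (hτ : PT τ) (hM : PT M) : PT (transP τ M) :=
  PT.cond hM.fst' ((PT.const true).pair (hτ.comp hM.snd')) ((PT.const false).pair hM.snd')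

theorem answers_transP {A A₀ : Str → Bool} {τ : Str → Str} (hA : ∀ q, A₀ q = A (τ q))
    {M : OProc} {x : Str} {k : ℕ} (hk : ∀ j < k, (M (x, answers A₀ M x j)).1 = true) :
    ∀ j ≤ k, answers A (transP τ M) x j = answers A₀ M x j := by
  intro j
  induction j with
  | zero => intro _; rfl
  | succ j ih =>
    intro hj
    rw [answers, answers, ih (by omega), transP_of_true (hk j (by omega)), hA]

/-- computations with translated queries -/
theorem PolyTimeO.trans {A A₀ : Str → Bool} {τ : Str → Str} (hτ : PT τ)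
    (hA : ∀ q, A₀ q = A (τ q)) {α : Type} {ea : α → Str} {f : α → Str}
    (h : PolyTimeO A₀ ea f) : PolyTimeO A ea f := by
  obtain ⟨M, hM, p, hp⟩ := h
  refine ⟨transP τ M, polyTime_of_pt (pt_transP hτ (pt_of_polyTime hM)), p, fun a => ?_⟩
  obtain ⟨k, hk, h1, h2⟩ := hp a
  refine ⟨k, hk, fun j hj => ?_, ?_⟩
  · rw [answers_transP hA h1 j hj.le, transP_fst]
    exact h1 j hj
  · rw [answers_transP hA h1 k le_rfl, transP_of_false (by rw [h2]), h2]

/-- `P` with translated queries -/
theorem InPO.trans {A A₀ : Str → Bool} {τ : Str → Str} (hτ : PT τ)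
    (hA : ∀ q, A₀ q = A (τ q)) {L : Set Str} (h : InPO A₀ L) : InPO A L := by
  obtain ⟨V, hV, hL⟩ := h
  exact ⟨V, hV.trans hτ hA, hL⟩

/-- `O_2^p` with translated queries -/
theorem InO2O.trans {A A₀ : Str → Bool} {τ : Str → Str} (hτ : PT τ)
    (hA : ∀ q, A₀ q = A (τ q)) {l : ℕ → ℕ} {L : Set Str} (h : InO2O A₀ l L) : InO2O A l L := by
  obtain ⟨hl, V, hV, hL⟩ := h
  exact ⟨hl, V, hV.trans hτ hA, hL⟩

/-- oblivious NP with translated queries -/
theorem InONPO.trans {A A₀ : Str → Bool} {τ : Str → Str} (hτ : PT τ)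
    (hA : ∀ q, A₀ q = A (τ q)) {K : Str → Bool} (h : InONPO A₀ K) : InONPO A K := by
  obtain ⟨V, m, hV, hK⟩ := h
  exact ⟨V, m, hV.trans hτ hA, hK⟩

/-- translation of the queries to a join -/
def joinT (τ : Str → Str) (q : Str) : Str :=
  bif q.isEmpty then [] else bif q.headD true then q else false :: τ q.tail

theorem pt_joinT {τ : Str → Str} (hτ : PT τ) : PT (joinT τ) :=
  PT.cond PT.id.isEmpty (PT.const []) (PT.cond (PT.id.headD (PT.const true)) PT.id
    ((PT.const false).cons (hτ.comp PT.id.tail)))

theorem join_joinT {A A₀ : Str → Bool} {τ : Str → Str} (hA : ∀ q, A₀ q = A (τ q))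
    (K : Str → Bool) : ∀ q, join A₀ K q = join A K (joinT τ q)
  | [] => rfl
  | false :: q => hA q
  | true :: _ => rfl

/-- `P^{ONP}` with translated queries -/
theorem InPONPO.trans {A A₀ : Str → Bool} {τ : Str → Str} (hτ : PT τ)
    (hA : ∀ q, A₀ q = A (τ q)) {L : Set Str} (h : InPONPO A₀ L) : InPONPO A L := by
  obtain ⟨K, hK, hL⟩ := h
  exact ⟨K, hK.trans hτ hA, hL.trans (pt_joinT hτ) (join_joinT hA K)⟩

/-- the activation part of an oracle -/
def actP (A : Str → Bool) (w : Str) : Bool := A (false :: w)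

theorem pt_consFalse : PT (fun w : Str => false :: w) := (PT.const false).cons PT.id

theorem InO2O.of_actP {A : Str → Bool} {l : ℕ → ℕ} {L : Set Str} (h : InO2O (actP A) l L) :
    InO2O A l L := h.trans (τ := fun w => false :: w) pt_consFalse fun _ => rfl

theorem InPONPO.of_actP {A : Str → Bool} {L : Set Str} (h : InPONPO (actP A) L) :
    InPONPO A L := h.trans (τ := fun w => false :: w) pt_consFalse fun _ => rfl

end ORDist
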