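import Pool.Agent.Work.MP_a81742_lc_or.Enum
import Pool.Agent.Work.MP_a81742_lc_or.LevDefs
import Pool.Agent.Work.MP_a81742_lc_or.MemberONP
import Pool.Agent.Work.MP_a81742_lc_or.Transf

/-!
# Over a valid oracle, table languages are in `O_2^p` and in `P^{ONP}`
-/

namespace ORD

open ORDist O2PP PTime

/-- the verifier: the larger one of the active keys `u`, `w` decides, with its table -/
def VT (A : Str → Bool) (y : Str → Str) (z : Str × Str × Str) : Bool :=
  bif A (false :: z.2.2) && (!A (false :: z.2.1) || !leS z.2.2 z.2.1) then
    A (true :: pairStr (z.2.2, y z.1)) else A (true :: pairStr (z.2.1, y z.1))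

theorem polyTimeO_VT (A : Str → Bool) {y : Str → Str} (hy : PT y) :
    PolyTimeO A tripStr (fun z => [VT A y z]) := by
  have hx : PT (fun s : Str => (unpairS s).1) := (PT.unpairS PT.id).fst'
  have hp : PT (fun s : Str => unpairS (unpairS s).2) := PT.unpairS (PT.unpairS PT.id).snd'
  have hpair : ∀ {f g : Str → Str}, PT f → PT g → PT fun s => true :: pairStr (f s, g s) :=
    fun hf hg => (PT.const true).cons (pt_pairStr_comp hf hg)
  have hp' : PT (fun t : Str × Str => unpairS (unpairS t.1).2) := hp.comp PT.fst
  refine polyTimeO_list (qs := fun s => [false :: (unpairS (unpairS s).2).1,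
      false :: (unpairS (unpairS s).2).2,
      true :: pairStr ((unpairS (unpairS s).2).1, y (unpairS s).1),
      true :: pairStr ((unpairS (unpairS s).2).2, y (unpairS s).1)])
    (out := fun t => [bif t.2.getD 1 false && (!t.2.getD 0 false ||
      !leS (unpairS (unpairS t.1).2).2 (unpairS (unpairS t.1).2).1) then t.2.getD 3 false
      else t.2.getD 2 false]) ?_ ?_ ?_
  · exact ((PT.const false).cons hp.fst').cons (((PT.const false).cons hp.snd').cons
      ((hpair hp.fst' (hy.comp hx)).cons ((hpair hp.snd' (hy.comp hx)).cons (PT.const []))))
  · exact (PT.cond ((PT.snd.getD (PT.const 1) (PT.const false)).and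
      ((PT.snd.getD (PT.const 0) (PT.const false)).not.or (pt_leS hp'.snd' hp'.fst').not))
      (PT.snd.getD (PT.const 3) (PT.const false))
      (PT.snd.getD (PT.const 2) (PT.const false))).cons (PT.const [])
  · rintro ⟨x, u, w⟩
    simp only [tripStr, unpairS_pairStr, List.map_cons, List.map_nil, VT]
    rfl

theorem valid_inO2O {F : (Str → Bool) → ℕ → Str → Bool} {A : Str → Bool} (hA : ValidF F A)
    {t : Polynomial ℕ} {y : Str → Str} (hy : PT y) {L : Set Str}
    (hL : ∀ x, x ∈ L ↔ F A (t.eval x.length) (y x) = true) :
    InO2O A (fun n => t.eval n) L := by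
  refine ⟨⟨t, fun n => le_rfl⟩, VT A y, polyTimeO_VT A hy, fun n => ?_⟩
  obtain ⟨w, hw, hact, hmax, htab⟩ := hA (t.eval n)
  refine ⟨w, w, hw, hw, fun x hx => ⟨fun hxL z' hz' => ?_, fun hxL y' hy' => ?_⟩⟩
  · have h1 : A (true :: pairStr (w, y x)) = true := by
      rw [htab, ← hx]
      exact (hL x).1 hxL
    unfold VT
    simp only
    by_cases h2 : A (false :: z') = true
    · have h3 : leS z' w = true := (leS_iff (hz'.trans hw.symm)).2 (hmax z' hz' h2)
      rw [h2, hact, h3]
      simpa using h1
    · rw [Bool.not_eq_true] at h2
      rw [h2]
      simpa using h1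
  · have h1 : A (true :: pairStr (w, y x)) = false := by
      rw [htab, ← hx, ← Bool.not_eq_true]
      exact fun h => hxL ((hL x).2 h)
    unfold VT
    simp only
    rw [hact, Bool.true_and]
    by_cases h2 : A (false :: y') = true
    · by_cases h3 : leS w y' = true
      · have h4 : y' = w := val_inj (hy'.trans hw.symm)
          (le_antisymm (hmax y' hy' h2) ((leS_iff (hw.trans hy'.symm)).1 h3))
        subst h4
        simpa using h1
      · rw [Bool.not_eq_true] at h3
        rw [h3]
        simpa using h1
    · rw [Bool.not_eq_true] at h2
      rw [h2]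
      simpa using h1

/-! ### `P^{ONP}` -/

/-- binary search for the maximal active key, then one query to its table -/
def MT (t : ℕ → ℕ) (y : Str → Str) : OProc := fun z =>
  bif decide (z.2.length ≤ t z.1.length) then (true, true :: probe (t z.1.length) z.2)
  else bif decide (z.2.length ≤ t z.1.length + 1) then
    (true, false :: true :: pairStr (z.2.tail, y z.1))
  else (false, [z.2.getLastD false])

theorem pt_MT {t : ℕ → ℕ} (ht : PT t) {y : Str → Str} (hy : PT y) : PT (MT t y) := by
  have hN : PT (fun z : Str × Str => t z.1.length) := ht.comp PT.fst.length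
  have hp : PT (fun z : Str × Str => probe (t z.1.length) z.2) :=
    PT.cond PT.snd.isEmpty (pt_replB hN false)
      (PT.snd.tail.append ((PT.const true).cons (pt_replB (hN.sub PT.snd.length) false)))
  exact PT.cond (PT.le PT.snd.length hN) ((PT.const true).pair ((PT.const true).cons hp))
    (PT.cond (PT.le PT.snd.length hN.succ) ((PT.const true).pair ((PT.const false).cons
      ((PT.const true).cons (pt_pairStr_comp PT.snd.tail (hy.comp PT.fst)))))
      ((PT.const false).pair ((pt_last PT.snd).cons (PT.const []))))

theorem answers_MT {A : Str → Bool} {t : ℕ → ℕ} {y : Str → Str} {x w : Str}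
    (hw : w.length = t x.length) (hA : A (false :: w) = true)
    (hmax : ∀ w' : Str, w'.length = t x.length → A (false :: w') = true → val w' ≤ val w) :
    ∀ j ≤ t x.length, answers (join A (geLang (actP A))) (MT t y) x (j + 1) =
      true :: w.take j := by
  have hstep : ∀ j ≤ t x.length, answers (join A (geLang (actP A))) (MT t y) x (j + 1) =
      answers (join A (geLang (actP A))) (MT t y) x j ++
      [geLang (actP A) (probe (t x.length) (answers (join A (geLang (actP A))) (MT t y) x j))] := by
    intro j hj
    rw [answers]
    congr 2
    have h : (MT t y (x, answers (join A (geLang (actP A))) (MT t y) x j)).2 =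
        true :: probe (t x.length) (answers (join A (geLang (actP A))) (MT t y) x j) := by
      unfold MT
      simp only [length_answers]
      rw [decide_eq_true hj, cond_true]
    rw [h]
    rfl
  have hge : ∀ u : Str, u.length = t x.length → (geLang (actP A) u = true ↔ val u ≤ val w) := by
    intro u hu
    rw [geLang_iff]
    constructor
    · rintro ⟨w', h1, h2, h3⟩
      exact h3.trans (hmax w' (h1.trans hu) h2)
    · intro h
      exact ⟨w, hw.trans hu.symm, hA, h⟩
  intro j
  induction j with
  | zero =>
    intro _
    rw [hstep 0 (Nat.zero_le _), answers, List.nil_append, List.take_zero]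
    congr 1
    unfold probe
    rw [List.isEmpty_nil, cond_true, hge _ List.length_replicate, val_zero]
    exact Nat.zero_le _
  | succ j ih =>
    intro hj
    rw [hstep _ (by omega), ih (by omega)]
    have h1 : probe (t x.length) (true :: w.take j) =
        w.take j ++ true :: List.replicate (w.length - (j + 1)) false := by
      unfold probe
      rw [List.isEmpty_cons, cond_false, List.tail_cons, List.length_cons, List.length_take,
        Nat.min_eq_left (by omega), hw]
    have h2 : (w.take j ++ true :: List.replicate (w.length - (j + 1)) false).length =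
        t x.length := by
      rw [List.length_append, List.length_cons, List.length_replicate, List.length_take]
      omega
    have h3 := hge _ h2
    rw [probe_le w j (by omega)] at h3
    have h4 : geLang (actP A) (w.take j ++ true :: List.replicate (w.length - (j + 1)) false) =
        w.getD j false := Bool.eq_iff_iff.2 h3
    rw [h1, h4, List.cons_append, List.getD_eq_getElem _ _ (by omega), List.take_append_getElem]

theorem valid_inPONPO {F : (Str → Bool) → ℕ → Str → Bool} {A : Str → Bool} (hA : ValidF F A)
    {t : Polynomial ℕ} {y : Str → Str} (hy : PT y) {L : Set Str}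
    (hL : ∀ x, x ∈ L ↔ F A (t.eval x.length) (y x) = true) : InPONPO A L := by
  classical
  have hK : InONPO A (geLang (actP A)) :=
    (geLang_inONPO (actP A)).trans (τ := fun w => false :: w) pt_consFalse fun _ => rfl
  have ht : PT (fun n : ℕ => t.eval n) := (unaryPT_poly t).pt
  refine ⟨geLang (actP A), hK, fun x => decide (x ∈ L),
    ⟨MT (fun n => t.eval n) y, polyTime_of_pt (pt_MT ht hy), t + 2, fun x =>
      ⟨t.eval x.length + 2, by simp, ?_, ?_⟩⟩, fun x => by simp⟩
  · intro j hj
    unfold MT
    simp only [length_answers]
    by_cases h1 : j ≤ t.eval x.length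
    · rw [decide_eq_true h1, cond_true]
    · rw [decide_eq_false h1, cond_false, decide_eq_true (by omega), cond_true]
  · obtain ⟨w, hw, hact, hmax, htab⟩ := hA (t.eval x.length)
    have h1 := answers_MT (t := fun n => t.eval n) (y := y) (x := x) hw hact hmax _ le_rfl
    have h2 : answers (join A (geLang (actP A))) (MT (fun n => t.eval n) y) x
        (t.eval x.length + 2) = (true :: w) ++ [A (true :: pairStr (w, y x))] := by
      rw [answers, h1, ← hw, List.take_length]
      congr 2
      have h3 : (MT (fun n => t.eval n) y (x, true :: w)).2 =
          false :: true :: pairStr (w, y x) := by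
        unfold MT
        simp only [List.length_cons, hw]
        rw [decide_eq_false (by omega), cond_false, decide_eq_true le_rfl, cond_true,
          List.tail_cons]
      rw [h3]
      rfl
    rw [h2]
    unfold MT
    simp only [List.length_append, List.length_cons, List.length_nil, hw]
    rw [decide_eq_false (by omega), cond_false, decide_eq_false (by omega), cond_false]
    congr 2
    have h4 : ((true :: w) ++ [A (true :: pairStr (w, y x))]).getLastD false =
        A (true :: pairStr (w, y x)) := by
      rw [List.getLastD_eq_getLast?, List.getLast?_concat, Option.getD_some]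
    rw [h4, htab, Bool.eq_iff_iff, decide_eq_true_eq]
    exact (hL x).symm

end ORD
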