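import Pool.Agent.Work.MP_a81742_lc_or.LevDefs
import Pool.Agent.Work.MP_a81742_lc_or.TwoMain

/-!
# Over a valid oracle, table languages are in `P / poly`
-/

namespace ORD

open ORDist O2PP PTime

theorem valid_inPPolyO {F : (Str → Bool) → ℕ → Str → Bool} {A : Str → Bool} (hA : ValidF F A)
    {t : Polynomial ℕ} {y : Str → Str} (hy : PT y) {L : Set Str}
    (hL : ∀ x, x ∈ L ↔ F A (t.eval x.length) (y x) = true) : InPPolyO A L := by
  choose w hw _ _ htab using hA
  have hg : PT (fun z : Str × Str => true) := PT.const true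
  have hf : PT (fun z : Str × Str => true :: pairStr (z.2, y z.1)) :=
    (PT.const true).cons (pt_pairStr_comp PT.snd (hy.comp PT.fst))
  refine ⟨fun z => true && A (true :: pairStr (z.2, y z.1)), fun n => w (t.eval n), t,
    polyTimeO_one hg hf, fun n => (hw _).le, fun x => ?_⟩
  rw [hL x, ← htab (t.eval x.length) (y x)]
  simp

end ORD
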