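import Pool.Agent.Work.MP_a81742_lc_or.FFinal
import Pool.Agent.Work.MP_a81742_lc_or.LevStage
import Pool.Agent.Work.MP_a81742_lc_or.Psp
import Pool.Agent.Work.MP_a81742_lc_or.ValidO2
import Pool.Agent.Work.MP_a81742_lc_or.ValidPoly

/-!
# One valid oracle for all requirements
-/

namespace ORD

open ORDist O2PP PTime

theorem UnaryPT.lt_two_pow_strict {g : ℕ → ℕ} (hg : UnaryPT g) :
    ∃ n₁, ∀ n ≥ n₁, g n + 1 < 2 ^ n := by
  obtain ⟨n₁, h⟩ := (unaryPT_of_pt hg.pt.succ).lt_two_pow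
  exact ⟨n₁, fun n hn => by have := h n hn; omega⟩

/-- the languages, for all unary polynomial time bounds -/
theorem exists_valid_unary {F : (Str → Bool) → ℕ → Str → Bool} (hF : Loc F) :
    ∃ A : Str → Bool, ValidF F A ∧
    ∀ l g : ℕ → ℕ, UnaryPT l → UnaryPT g → ∃ L : Set Str,
      InO2O A (fun n => (g n + 1) * l n) L ∧ InPONPO A L ∧
      ((∀ n, g n = 0) → ∀ x ∈ L, ∀ b ∈ x, b = false) ∧
      ∀ f : ℕ → ℕ, Dom l g f → ¬ InPPPOAdv A f g L := by
  obtain ⟨A, hval, hA⟩ := exists_valid_sep hF countable_unaryPT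
  refine ⟨A, hval, ?_⟩
  intro l g hl hg
  have hk : PT (fun n : ℕ => g n + 1) := hg.pt.succ
  refine ⟨blockLang (actP A) (fun n => g n + 1) l, (blockLang_inO2O _ hk hl.pt).of_actP,
    (blockLang_inPONPO _ hk hl.pt).of_actP, fun hg0 x hx => ?_,
    fun f hf => hA l hl g hg hg.lt_two_pow_strict f hf⟩
  have h1 : val x < g x.length + 1 := hx.1
  rw [hg0] at h1
  have h2 : val x = val (List.replicate x.length false) := by rw [val_zero]; omega
  have h3 : x = List.replicate x.length false := val_inj (by rw [List.length_replicate]) h2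
  intro b hb
  rw [h3] at hb
  exact List.eq_of_mem_replicate hb

/-- the polynomial form and the exact form -/
theorem exists_valid_final {F : (Str → Bool) → ℕ → Str → Bool} (hF : Loc F) :
    ∃ A : Str → Bool, ValidF F A ∧
    (∀ q : Polynomial ℕ, ∃ (m : Polynomial ℕ) (L : Set Str), InO2O A (fun n => m.eval n) L ∧
      InPONPO A L ∧ ¬ InPPPOAdv A (fun n => q.eval n) (fun n => q.eval n) L ∧
      ∀ K : Str → Bool, InPPO A K → L ≠ {x | K x = true}) ∧
    ∀ l g : ℕ → ℕ, UnaryPT l → UnaryPT g → ∃ L : Set Str,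
      InO2O A (fun n => (g n + 1) * l n) L ∧ InPONPO A L ∧
      ((∀ n, g n = 0) → ∀ x ∈ L, ∀ b ∈ x, b = false) ∧
      ∀ f : ℕ → ℕ, (∀ c : ℕ, ∃ n₀ : ℕ, ∀ n ≥ n₀,
          c * (g n + 1) * ((g n + 1) * (f n + 1) + Nat.log 2 n + 1) ≤ l n) →
        ¬ InPPPOAdv A f g L := by
  obtain ⟨A, hval, key⟩ := exists_valid_unary hF
  refine ⟨A, hval, fun q => ?_, key⟩
  set q' : Polynomial ℕ := q + 1 with hq'
  obtain ⟨L, h1, h2, _, h4⟩ := key _ _ (unaryPT_poly (Polynomial.X * (q' + 1) *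
    ((q' + 1) * (q' + 1) + Polynomial.X + 1))) (unaryPT_poly q')
  have h5 := h4 _ (dom_poly q')
  refine ⟨(q' + 1) * (Polynomial.X * (q' + 1) * ((q' + 1) * (q' + 1) + Polynomial.X + 1)), L,
    ?_, h2, fun h => h5 (inPPPOAdv_mono ?_ ?_ h), ?_⟩
  · simpa only [Polynomial.eval_mul, Polynomial.eval_add, Polynomial.eval_one] using h1
  · intro n
    simp [hq']
  · intro n
    simp [hq']
  · rintro K hK rfl
    exact h5 (inPPPOAdv_mono (fun n => by simp [hq']) (fun n => le_rfl) (inPPPOAdv_of_inPPO hK _))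

/-- languages reducible to a local functional: over one valid oracle they are all in `O_2^p`,
and the oracle separates -/
theorem exists_alpha {F : (Str → Bool) → ℕ → Str → Bool} (hF : Loc F)
    {C : (Str → Bool) → Set Str → Prop}
    (hC : ∀ A L, C A L → ∃ (t : Polynomial ℕ) (y : Str → Str), PT y ∧
      ∀ x, x ∈ L ↔ F A (t.eval x.length) (y x) = true) :
    ∃ A : Str → Bool,
    (∀ L : Set Str, C A L → (∃ m : Polynomial ℕ, InO2O A (fun n => m.eval n) L) ∧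
      InPONPO A L ∧ InPPolyO A L) ∧
    (∀ q : Polynomial ℕ, ∃ (m : Polynomial ℕ) (L : Set Str), InO2O A (fun n => m.eval n) L ∧
      InPONPO A L ∧ ¬ InPPPOAdv A (fun n => q.eval n) (fun n => q.eval n) L ∧
      ∀ K : Str → Bool, InPPO A K → L ≠ {x | K x = true}) ∧
    ∀ l g : ℕ → ℕ, UnaryPT l → UnaryPT g → ∃ L : Set Str,
      InO2O A (fun n => (g n + 1) * l n) L ∧ InPONPO A L ∧
      ((∀ n, g n = 0) → ∀ x ∈ L, ∀ b ∈ x, b = false) ∧
      ∀ f : ℕ → ℕ, (∀ c : ℕ, ∃ n₀ : ℕ, ∀ n ≥ n₀,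
          c * (g n + 1) * ((g n + 1) * (f n + 1) + Nat.log 2 n + 1) ≤ l n) →
        ¬ InPPPOAdv A f g L := by
  obtain ⟨A, hval, h1, h2⟩ := exists_valid_final hF
  refine ⟨A, fun L hL => ?_, h1, h2⟩
  obtain ⟨t, y, hy, hLy⟩ := hC A L hL
  exact ⟨⟨t, valid_inO2O hval hy hLy⟩, valid_inPONPO hval hy hLy, valid_inPPolyO hval hy hLy⟩

/-- **Main theorem.** An oracle relative to which `PSPACE ⊆ O_2^p ∩ P^{ONP} ∩ P/poly`, while
`O_2^p` is not contained in `P^{PP[q]}/q`, for every polynomial `q` -/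
theorem exists_oracle_pspace : ∃ A : Str → Bool,
    (∀ L : Set Str, InPSPACEO A L → (∃ m : Polynomial ℕ, InO2O A (fun n => m.eval n) L) ∧
      InPONPO A L ∧ InPPolyO A L) ∧
    (∀ q : Polynomial ℕ, ∃ (m : Polynomial ℕ) (L : Set Str), InO2O A (fun n => m.eval n) L ∧
      InPONPO A L ∧ ¬ InPPPOAdv A (fun n => q.eval n) (fun n => q.eval n) L ∧
      ∀ K : Str → Bool, InPPO A K → L ≠ {x | K x = true}) ∧
    ∀ l g : ℕ → ℕ, UnaryPT l → UnaryPT g → ∃ L : Set Str,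
      InO2O A (fun n => (g n + 1) * l n) L ∧ InPONPO A L ∧
      ((∀ n, g n = 0) → ∀ x ∈ L, ∀ b ∈ x, b = false) ∧
      ∀ f : ℕ → ℕ, (∀ c : ℕ, ∃ n₀ : ℕ, ∀ n ≥ n₀,
          c * (g n + 1) * ((g n + 1) * (f n + 1) + Nat.log 2 n + 1) ≤ l n) →
        ¬ InPPPOAdv A f g L := by
  obtain ⟨Mach, hMach⟩ := exists_enum
  exact exists_alpha (loc_FP Mach) (C := InPSPACEO) fun A L hL => pspace_red hMach hL

end ORD
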