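import Pool.Agent.Work.MP_a81742_lc_or.FFinal
import Pool.Agent.Work.MP_a81742_lc_or.LevDefs
import Pool.Agent.Work.MP_a81742_lc_or.Transf

/-!
# One valid oracle for all requirements
-/

namespace ORD

open ORDist O2PP PTime

/-- the statement of one stage over a valid oracle -/
def StageLev (F : (Str → Bool) → ℕ → Str → Bool) : Prop :=
  ∀ M MV : OProc, PT M → PT MV → ∀ pM pV m : Polynomial ℕ,
    ∃ c : ℕ, ∀ (l g : ℕ → ℕ), Dom l g (fun _ => 0) → (∃ n₁, ∀ n ≥ n₁, g n + 1 ≤ 2 ^ n) →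
      ∀ (j : ℕ) (A₀ : Str → Bool) (b : ℕ), ValidF F A₀ →
      ∃ (A₁ : Str → Bool) (b₁ : ℕ), ValidF F A₁ ∧ b ≤ b₁ ∧ (∀ w, w.length < b → A₁ w = A₀ w) ∧
        ∀ A : Str → Bool, ValidF F A → (∀ w, w.length < b₁ → A w = A₁ w) →
          ∃ n ≥ j, g n + 1 ≤ 2 ^ n ∧
          ∀ q : ℕ, c * (g n + 1) * ((g n + 1) * (q + 1) + Nat.log 2 n + 1) ≤ l n →
          ∀ a : Str, a.length ≤ g n → ∃ i < g n + 1, ∀ v : Bool,
          Outputs A M MV pV m (pairStr (bstr n i, a)) (pM.eval (2 * (n + g n) + 1)) q v →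
            ¬ (MaxOdd (fun w => A (false :: (bstr n i ++ w))) (l n) ↔ v = true)

/-- **Separation over valid oracles.** -/
theorem exists_oracle_lev {F : (Str → Bool) → ℕ → Str → Bool} (hF : Loc F) (hS : StageLev F)
    {𝓛 : Set (ℕ → ℕ)} (h𝓛 : 𝓛.Countable) :
    ∃ A : Str → Bool, ValidF F A ∧
      ∀ l ∈ 𝓛, ∀ g ∈ 𝓛, (∃ n₁, ∀ n ≥ n₁, g n + 1 ≤ 2 ^ n) → ∀ f : ℕ → ℕ, Dom l g f →
        ¬ InPPPOAdv A f g (blockLang (actP A) (fun n => g n + 1) l) := by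
  have hs2 := fun (M MV : {M : OProc // PT M}) (pM pV m : Polynomial ℕ) =>
    hS M.1 MV.1 M.2 MV.2 pM pV m
  choose d hd using hs2
  have hcM : Countable {M : OProc // PT M} :=
    (countable_PT (α := Str × Str) (β := Bool × Str)).to_subtype
  have hcp := countable_poly
  have hcl : Countable 𝓛 := h𝓛.to_subtype
  let R : ({M : OProc // PT M} × {M : OProc // PT M} × Polynomial ℕ × Polynomial ℕ ×
      Polynomial ℕ × 𝓛 × 𝓛 × ℕ) → (Str → Bool) → Prop := fun e A =>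
    Dom e.2.2.2.2.2.1.1 e.2.2.2.2.2.2.1.1 (fun _ => 0) →
      (∃ n₁, ∀ n ≥ n₁, e.2.2.2.2.2.2.1.1 n + 1 ≤ 2 ^ n) →
      ∃ n ≥ e.2.2.2.2.2.2.2, e.2.2.2.2.2.2.1.1 n + 1 ≤ 2 ^ n ∧ ∀ q : ℕ,
      d e.1 e.2.1 e.2.2.1 e.2.2.2.1 e.2.2.2.2.1 * (e.2.2.2.2.2.2.1.1 n + 1) *
        ((e.2.2.2.2.2.2.1.1 n + 1) * (q + 1) + Nat.log 2 n + 1) ≤ e.2.2.2.2.2.1.1 n →
      ∀ a : Str, a.length ≤ e.2.2.2.2.2.2.1.1 n → ∃ i < e.2.2.2.2.2.2.1.1 n + 1, ∀ v : Bool,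
        Outputs A e.1.1 e.2.1.1 e.2.2.2.1 e.2.2.2.2.1 (pairStr (bstr n i, a))
          (e.2.2.1.eval (2 * (n + e.2.2.2.2.2.2.1.1 n) + 1)) q v →
          ¬ (MaxOdd (fun w => A (false :: (bstr n i ++ w))) (e.2.2.2.2.2.1.1 n) ↔ v = true)
  obtain ⟨A, hval, hA⟩ := exists_oracle_closed (ValidF F) (exists_validF hF) (validF_closed hF)
    R (by
    rintro ⟨M, MV, pM, pV, m, l, g, j⟩ A₀ b hA₀
    by_cases hl : Dom l.1 g.1 (fun _ => 0)
    · by_cases hg : ∃ n₁, ∀ n ≥ n₁, g.1 n + 1 ≤ 2 ^ n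
      · obtain ⟨A₁, b₁, h1, h2, h3, h4⟩ := hd M MV pM pV m l.1 g.1 hl hg j A₀ b hA₀
        exact ⟨A₁, b₁, h1, h2, h3, fun A hA hag _ _ => h4 A hA hag⟩
      · exact ⟨A₀, b, hA₀, le_rfl, fun _ _ => rfl, fun A _ _ _ h => absurd h hg⟩
    · exact ⟨A₀, b, hA₀, le_rfl, fun _ _ => rfl, fun A _ _ h => absurd h hl⟩)
  refine ⟨A, hval, fun l hl g hg hgn f hlf hin => ?_⟩
  obtain ⟨K, M, p, adv, hK, hM, hadv, hrun⟩ := hin
  obtain ⟨MV, pV, m, hMV, hKgap⟩ := exists_gap_of_inPPO hK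
  have hKB := kb_of_gap hKgap
  obtain ⟨nf, hnf⟩ := hlf (d ⟨M, pt_of_polyTime hM⟩ ⟨MV, pt_of_polyTime hMV⟩ p pV m)
  obtain ⟨n, hn, hgn2, hbad⟩ := hA (⟨M, pt_of_polyTime hM⟩, ⟨MV, pt_of_polyTime hMV⟩,
    p, pV, m, ⟨l, hl⟩, ⟨g, hg⟩, nf) hlf.zero hgn
  obtain ⟨i, hi, h0⟩ := hbad (f n) (hnf n hn) (adv n) (hadv n)
  obtain ⟨k, hk, h1, h2, v, h3, h4⟩ := hrun (bstr n i)
  rw [bstr_length] at hk h1 h2 h3
  rw [hKB] at h1 h2 h3
  have h5 : k ≤ p.eval (2 * (n + g n) + 1) := by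
    refine hk.trans (eval_mono p ?_)
    rw [pairStr_len, bstr_length]
    have := hadv n
    omega
  refine h0 v ⟨k, h5, h1, h2, h3⟩ ?_
  rw [← h4]
  have h6 : val (bstr n i) = i := val_bstr (lt_of_lt_of_le hi hgn2)
  constructor
  · intro h
    refine ⟨?_, ?_⟩
    · rw [bstr_length, h6]
      exact hi
    · rw [bstr_length]
      exact h
  · rintro ⟨_, h⟩
    rw [bstr_length] at h
    exact h

/-- the languages, for all unary polynomial time bounds -/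
theorem exists_oracle_lev_unary {F : (Str → Bool) → ℕ → Str → Bool} (hF : Loc F)
    (hS : StageLev F) : ∃ A : Str → Bool, ValidF F A ∧
    ∀ l g : ℕ → ℕ, UnaryPT l → UnaryPT g → ∃ L : Set Str,
      InO2O A (fun n => (g n + 1) * l n) L ∧ InPONPO A L ∧
      ((∀ n, g n = 0) → ∀ x ∈ L, ∀ b ∈ x, b = false) ∧
      ∀ f : ℕ → ℕ, Dom l g f → ¬ InPPPOAdv A f g L := by
  obtain ⟨A, hval, hA⟩ := exists_oracle_lev hF hS countable_unaryPT
  refine ⟨A, hval, ?_⟩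
  intro l g hl hg
  have hk : PT (fun n : ℕ => g n + 1) := hg.pt.succ
  refine ⟨blockLang (actP A) (fun n => g n + 1) l, (blockLang_inO2O _ hk hl.pt).of_actP,
    (blockLang_inPONPO _ hk hl.pt).of_actP, fun hg0 x hx => ?_,
    fun f hf => hA l hl g hg hg.lt_two_pow f hf⟩
  have h1 : val x < g x.length + 1 := hx.1
  rw [hg0] at h1
  have h2 : val x = val (List.replicate x.length false) := by rw [val_zero]; omega
  have h3 : x = List.replicate x.length false := val_inj (by rw [List.length_replicate]) h2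
  intro b hb
  rw [h3] at hb
  exact List.eq_of_mem_replicate hb

/-- the polynomial form and the exact form -/
theorem exists_oracle_lev_final {F : (Str → Bool) → ℕ → Str → Bool} (hF : Loc F)
    (hS : StageLev F) : ∃ A : Str → Bool, ValidF F A ∧
    (∀ q : Polynomial ℕ, ∃ (m : Polynomial ℕ) (L : Set Str), InO2O A (fun n => m.eval n) L ∧
      InPONPO A L ∧ ¬ InPPPOAdv A (fun n => q.eval n) (fun n => q.eval n) L ∧
      ∀ K : Str → Bool, InPPO A K → L ≠ {x | K x = true}) ∧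
    ∀ l g : ℕ → ℕ, UnaryPT l → UnaryPT g → ∃ L : Set Str,
      InO2O A (fun n => (g n + 1) * l n) L ∧ InPONPO A L ∧
      ((∀ n, g n = 0) → ∀ x ∈ L, ∀ b ∈ x, b = false) ∧
      ∀ f : ℕ → ℕ, (∀ c : ℕ, ∃ n₀ : ℕ, ∀ n ≥ n₀,
          c * (g n + 1) * ((g n + 1) * (f n + 1) + Nat.log 2 n + 1) ≤ l n) →
        ¬ InPPPOAdv A f g L := by
  obtain ⟨A, hval, key⟩ := exists_oracle_lev_unary hF hS
  refine ⟨A, hval, fun q => ?_, key⟩
  set q' : Polynomial ℕ := q + 1 with hq'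
  obtain ⟨L, h1, h2, _, h4⟩ := key _ _ (unaryPT_poly (Polynomial.X * (q' + 1) *
    ((q' + 1) * (q' + 1) + Polynomial.X + 1))) (unaryPT_poly q')
  have h5 := h4 _ (dom_poly q')
  refine ⟨(q' + 1) * (Polynomial.X * (q' + 1) * ((q' + 1) * (q' + 1) + Polynomial.X + 1)), L,
    ?_, h2, fun h => h5 (inPPPOAdv_mono ?_ ?_ h), ?_⟩
  · simpa only [Polynomial.eval_mul, Polynomial.eval_add, Polynomial.eval_one] using h1
  · intro n
    simp [hq']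
  · intro n
    simp [hq']
  · rintro K hK rfl
    exact h5 (inPPPOAdv_mono (fun n => by simp [hq']) (fun n => le_rfl) (inPPPOAdv_of_inPPO hK _))

end ORD
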