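import Pool.Agent.Work.MP_a81742_lc_or.BlkONP
import Pool.Agent.Work.MP_a81742_lc_or.FMain

/-!
# The separation in its final form
-/

namespace ORD

open ORDist O2PP PTime

/-- a language in `PP^A` is decided with one query to a language in `PP^A`, without advice -/
theorem inPPPOAdv_of_inPPO {A K : Str → Bool} (h : InPPO A K) (g : ℕ → ℕ) :
    InPPPOAdv A (fun _ => 1) g {x | K x = true} := by
  refine ⟨K, fun z => bif z.2.isEmpty then (true, true :: (unpairS z.1).1)
    else (false, [z.2.headD false]), 1, fun _ => [], h, polyTime_of_pt ?_,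
    fun n => Nat.zero_le _, fun x => ⟨1, by simp, ?_, ?_, K x, ?_, Iff.rfl⟩⟩
  · exact PT.cond PT.snd.isEmpty ((PT.const true).pair ((PT.const true).cons
      (PT.unpairS PT.fst).fst')) ((PT.const false).pair ((PT.snd.headD (PT.const false)).cons
        (PT.const [])))
  · intro j hj
    have : j = 0 := by omega
    subst this
    simp [answers]
  · refine (List.countP_le_length).trans ?_
    simp
  · simp [answers, join, unpairS_pairStr]

theorem inPPPOAdv_mono {A : Str → Bool} {f f' g g' : ℕ → ℕ} {L : Set Str} (hf : ∀ n, f n ≤ f' n)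
    (hg : ∀ n, g n ≤ g' n) (h : InPPPOAdv A f g L) : InPPPOAdv A f' g' L := by
  obtain ⟨K, M, p, adv, hK, hM, hadv, hrun⟩ := h
  refine ⟨K, M, p, adv, hK, hM, fun n => (hadv n).trans (hg n), fun x => ?_⟩
  obtain ⟨k, hk, h1, h2, h3⟩ := hrun x
  exact ⟨k, hk, h1, h2.trans (hf _), h3⟩

theorem UnaryPT.lt_two_pow {g : ℕ → ℕ} (hg : UnaryPT g) : ∃ n₁, ∀ n ≥ n₁, g n + 1 ≤ 2 ^ n := by
  obtain ⟨m, hm⟩ := hg.bound
  obtain ⟨c, hc⟩ := eval_le_two_pow m
  refine ⟨2 ^ (4 * c + 8), fun n hn => ?_⟩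
  have h1 : 4 * c + 8 ≤ Nat.log 2 n := Nat.le_log_of_pow_le (by norm_num) hn
  have hn0 : n ≠ 0 := by
    have : 0 < 2 ^ (4 * c + 8) := by positivity
    omega
  have h2 : 2 ^ Nat.log 2 n ≤ n := Nat.pow_log_le_self 2 hn0
  have h3 : c * (Nat.log 2 n + 1) + 1 ≤ 2 ^ Nat.log 2 n := by
    generalize Nat.log 2 n = k at h1
    obtain ⟨k, rfl⟩ : ∃ k', k = 4 * c + 8 + k' := ⟨k - (4 * c + 8), by omega⟩
    clear h1
    induction k with
    | zero =>
      have h4 : ∀ c : ℕ, c * (4 * c + 8 + 0 + 1) + 1 ≤ 2 ^ (4 * c + 8 + 0) := by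
        intro c
        induction c with
        | zero => norm_num
        | succ c ih =>
          have h5 : 2 ^ (4 * (c + 1) + 8 + 0) = 16 * 2 ^ (4 * c + 8 + 0) := by
            rw [show 4 * (c + 1) + 8 + 0 = (4 * c + 8 + 0) + 4 by ring, pow_add]
            ring
          rw [h5]
          nlinarith
      exact h4 c
    | succ k ih =>
      have h5 : 2 ^ (4 * c + 8 + (k + 1)) = 2 * 2 ^ (4 * c + 8 + k) := by
        rw [← add_assoc, pow_succ]
        ring
      have h6 : c ≤ 2 ^ (4 * c + 8 + k) :=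
        (Nat.lt_two_pow_self (n := c)).le.trans (Nat.pow_le_pow_right (by norm_num) (by omega))
      rw [h5]
      nlinarith
  calc g n + 1 ≤ 2 ^ (c * (Nat.log 2 n + 1)) + 1 := Nat.add_le_add_right ((hm n).trans (hc n)) 1
    _ ≤ 2 ^ (c * (Nat.log 2 n + 1)) + 2 ^ (c * (Nat.log 2 n + 1)) :=
      Nat.add_le_add_left Nat.one_le_two_pow _
    _ = 2 ^ (c * (Nat.log 2 n + 1) + 1) := by rw [pow_succ]; ring
    _ ≤ 2 ^ n := Nat.pow_le_pow_right (by norm_num) (h3.trans h2)

/-- polynomials: `l = n (q + 1) ((q + 1) (q + 1) + n)` is large enough for `f = g = q` -/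
theorem dom_poly (q : Polynomial ℕ) :
    Dom (fun n => (Polynomial.X * (q + 1) * ((q + 1) * (q + 1) + Polynomial.X + 1) :
      Polynomial ℕ).eval n) (fun n => q.eval n) (fun n => q.eval n) := by
  intro c
  refine ⟨c + 1, fun n hn => ?_⟩
  simp only [Polynomial.eval_mul, Polynomial.eval_X, Polynomial.eval_add, Polynomial.eval_one]
  have h1 : Nat.log 2 n ≤ n := Nat.log_le_self 2 n
  exact Nat.mul_le_mul (Nat.mul_le_mul_right _ (by omega)) (by omega)

/-- **Main theorem.** -/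
theorem exists_oracle_final : ∃ A : Str → Bool,
    (∀ q : Polynomial ℕ, ∃ (m : Polynomial ℕ) (L : Set Str), InO2O A (fun n => m.eval n) L ∧
      InPONPO A L ∧ ¬ InPPPOAdv A (fun n => q.eval n) (fun n => q.eval n) L ∧
      ∀ K : Str → Bool, InPPO A K → L ≠ {x | K x = true}) ∧
    ∀ l g : ℕ → ℕ, UnaryPT l → UnaryPT g → ∃ L : Set Str,
      InO2O A (fun n => (g n + 1) * l n) L ∧ InPONPO A L ∧
      ((∀ n, g n = 0) → ∀ x ∈ L, ∀ b ∈ x, b = false) ∧
      ∀ f : ℕ → ℕ, (∀ c : ℕ, ∃ n₀ : ℕ, ∀ n ≥ n₀,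
          c * (g n + 1) * ((g n + 1) * (f n + 1) + Nat.log 2 n + 1) ≤ l n) →
        ¬ InPPPOAdv A f g L := by
  obtain ⟨A, _, hA⟩ := exists_oracle_sep countable_unaryPT
  have key : ∀ l g : ℕ → ℕ, UnaryPT l → UnaryPT g → ∃ L : Set Str,
      InO2O A (fun n => (g n + 1) * l n) L ∧ InPONPO A L ∧
      ((∀ n, g n = 0) → ∀ x ∈ L, ∀ b ∈ x, b = false) ∧
      ∀ f : ℕ → ℕ, Dom l g f → ¬ InPPPOAdv A f g L := by
    intro l g hl hg
    have hk : PT (fun n : ℕ => g n + 1) := hg.pt.succ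
    refine ⟨blockLang A (fun n => g n + 1) l, blockLang_inO2O A hk hl.pt,
      blockLang_inPONPO A hk hl.pt, fun hg0 x hx => ?_, fun f hf => hA l hl g hg hg.lt_two_pow f hf⟩
    have h1 : val x < g x.length + 1 := hx.1
    rw [hg0] at h1
    have h2 : val x = val (List.replicate x.length false) := by rw [val_zero]; omega
    have h3 : x = List.replicate x.length false := val_inj (by rw [List.length_replicate]) h2
    intro b hb
    rw [h3] at hb
    exact List.eq_of_mem_replicate hb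
  refine ⟨A, fun q => ?_, key⟩
  set q' : Polynomial ℕ := q + 1 with hq'
  obtain ⟨L, h1, h2, _, h4⟩ := key _ _ (unaryPT_poly (Polynomial.X * (q' + 1) *
    ((q' + 1) * (q' + 1) + Polynomial.X + 1))) (unaryPT_poly q')
  have h5 := h4 _ (dom_poly q')
  refine ⟨(q' + 1) * (Polynomial.X * (q' + 1) * ((q' + 1) * (q' + 1) + Polynomial.X + 1)), L,
    ?_, h2, fun h => h5 (inPPPOAdv_mono ?_ ?_ h), ?_⟩
  · simpa only [Polynomial.eval_mul, Polynomial.eval_add, Polynomial.eval_one] using h1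
  · intro n
    simp [hq']
  · intro n
    simp [hq']
  · rintro K hK rfl
    exact h5 (inPPPOAdv_mono (fun n => by simp [hq']) (fun n => le_rfl) (inPPPOAdv_of_inPPO hK _))

end ORD
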