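import Mathlib

/-!
# Growth: functions bounded by `2 ^ (c S)`, `S = (g + 1) (q + 1) + log n + 1`
-/

namespace O2PP

/-- the basic exponent -/
def gS (n g q : ℕ) : ℕ := (g + 1) * (q + 1) + Nat.log 2 n + 1

/-- `f ≤ 2 ^ (c S)` -/
def Tm (f : ℕ → ℕ → ℕ → ℕ) : Prop := ∃ c : ℕ, ∀ n g q, f n g q ≤ 2 ^ (c * gS n g q)

theorem gS_pos (n g q : ℕ) : 1 ≤ gS n g q := Nat.succ_pos _

namespace Tm

theorem le {f h : ℕ → ℕ → ℕ → ℕ} (hh : Tm h) (hle : ∀ n g q, f n g q ≤ h n g q) : Tm f := by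
  obtain ⟨c, hc⟩ := hh
  exact ⟨c, fun n g q => (hle n g q).trans (hc n g q)⟩

theorem const (k : ℕ) : Tm fun _ _ _ => k := by
  refine ⟨k, fun n g q => ?_⟩
  calc k ≤ 2 ^ k := Nat.lt_two_pow_self.le
    _ ≤ 2 ^ (k * gS n g q) :=
      Nat.pow_le_pow_right (by norm_num) (Nat.le_mul_of_pos_right _ (gS_pos n g q))

theorem mul {f h : ℕ → ℕ → ℕ → ℕ} (hf : Tm f) (hh : Tm h) :
    Tm fun n g q => f n g q * h n g q := by
  obtain ⟨c, hc⟩ := hf
  obtain ⟨c', hc'⟩ := hh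
  refine ⟨c + c', fun n g q => ?_⟩
  rw [add_mul, pow_add]
  exact Nat.mul_le_mul (hc n g q) (hc' n g q)

theorem add {f h : ℕ → ℕ → ℕ → ℕ} (hf : Tm f) (hh : Tm h) :
    Tm fun n g q => f n g q + h n g q := by
  obtain ⟨c, hc⟩ := hf
  obtain ⟨c', hc'⟩ := hh
  refine ⟨c + c' + 1, fun n g q => ?_⟩
  have h2 : 2 ^ (c * gS n g q) ≤ 2 ^ ((c + c') * gS n g q) :=
    Nat.pow_le_pow_right (by norm_num) (Nat.mul_le_mul_right _ (by omega))
  have h3 : 2 ^ (c' * gS n g q) ≤ 2 ^ ((c + c') * gS n g q) :=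
    Nat.pow_le_pow_right (by norm_num) (Nat.mul_le_mul_right _ (by omega))
  have h4 : 2 ^ ((c + c') * gS n g q) * 2 ≤ 2 ^ ((c + c' + 1) * gS n g q) := by
    rw [← pow_succ]
    refine Nat.pow_le_pow_right (by norm_num) ?_
    have h5 : (c + c' + 1) * gS n g q = (c + c') * gS n g q + gS n g q := by ring
    have := gS_pos n g q
    omega
  have h5 := hc n g q
  have h6 := hc' n g q
  show f n g q + h n g q ≤ _
  omega

theorem pow {f : ℕ → ℕ → ℕ → ℕ} (hf : Tm f) (k : ℕ) : Tm fun n g q => f n g q ^ k := by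
  induction k with
  | zero => simpa using const 1
  | succ k ih =>
    simp only [pow_succ]
    exact ih.mul hf

theorem eval (p : Polynomial ℕ) : Tm fun n _ _ => p.eval n := by
  induction p using Polynomial.induction_on' with
  | add p q hp hq =>
    simp only [Polynomial.eval_add]
    exact hp.add hq
  | monomial k c =>
    simp only [Polynomial.eval_monomial]
    refine (const c).mul ⟨k, fun n g q => ?_⟩
    have h1 : n ≤ 2 ^ (Nat.log 2 n + 1) := (Nat.lt_pow_succ_log_self (by norm_num) n).le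
    calc n ^ k ≤ (2 ^ (Nat.log 2 n + 1)) ^ k := Nat.pow_le_pow_left h1 k
      _ = 2 ^ (k * (Nat.log 2 n + 1)) := by rw [← pow_mul, mul_comm]
      _ ≤ 2 ^ (k * gS n g q) := by
        refine Nat.pow_le_pow_right (by norm_num) (Nat.mul_le_mul_left _ ?_)
        unfold gS
        omega

/-- exponents which are at most `k (g + 1) (q + 1)` -/
theorem two_pow (e : ℕ → ℕ → ℕ → ℕ) (k : ℕ) (he : ∀ n g q, e n g q ≤ k * ((g + 1) * (q + 1))) :
    Tm fun n g q => 2 ^ e n g q := by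
  refine ⟨k, fun n g q => Nat.pow_le_pow_right (by norm_num) ((he n g q).trans ?_)⟩
  refine Nat.mul_le_mul_left _ ?_
  unfold gS
  omega

theorem lin (e : ℕ → ℕ → ℕ → ℕ) (k : ℕ) (he : ∀ n g q, e n g q ≤ k * ((g + 1) * (q + 1))) :
    Tm e :=
  (two_pow e k he).le fun _ _ _ => Nat.lt_two_pow_self.le

/-- a tame function raised to a power of size `O(g + 1)`, multiplied by another tame function -/
theorem pow_mul_le {f h : ℕ → ℕ → ℕ → ℕ} (hf : Tm f) (hh : Tm h) (k : ℕ) :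
    ∃ c : ℕ, ∀ n g q m L : ℕ, m ≤ k * (g + 1) → c * (g + 1) * gS n g q ≤ L →
      h n g q * (f n g q) ^ m ≤ 2 ^ L := by
  obtain ⟨c, hc⟩ := hf
  obtain ⟨c', hc'⟩ := hh
  refine ⟨c * k + c', fun n g q m L hm hL => ?_⟩
  calc h n g q * f n g q ^ m
      ≤ 2 ^ (c' * gS n g q) * (2 ^ (c * gS n g q)) ^ m :=
        Nat.mul_le_mul (hc' n g q) (Nat.pow_le_pow_left (hc n g q) m)
    _ = 2 ^ (c' * gS n g q + c * gS n g q * m) := by rw [← pow_mul, ← pow_add]
    _ ≤ 2 ^ L := by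
      refine Nat.pow_le_pow_right (by norm_num) (le_trans ?_ hL)
      have h1 : c * gS n g q * m ≤ c * gS n g q * (k * (g + 1)) := Nat.mul_le_mul_left _ hm
      have h2 : c' * gS n g q ≤ c' * gS n g q * (g + 1) := Nat.le_mul_of_pos_right _ (by omega)
      calc c' * gS n g q + c * gS n g q * m
          ≤ c' * gS n g q * (g + 1) + c * gS n g q * (k * (g + 1)) := Nat.add_le_add h2 h1
        _ = (c * k + c') * (g + 1) * gS n g q := by ring

end Tm

end O2PP
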