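import Pool.Agent.Work.MP_a81742_lc.Adv

/-!
# Sums of threshold trees are threshold predicates

Trees whose nodes ask for the signs of integer functions of low degree; the sign of a sum of such
trees is again the sign of one integer function of low degree (Newman's rational approximation of
the sign, Beigel-Reingold-Spielman).
-/

namespace O2PP

open Finset

/-- trees whose nodes ask for the signs of integer functions, with integer leaves -/
inductive ITree : Type
  | leaf (c : ℤ) : ITree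
  | node (p : (ℕ → Bool) → ℤ) (t0 t1 : ITree) : ITree

/-- the value of a tree -/
noncomputable def ITree.eval : ITree → (ℕ → Bool) → ℤ
  | .leaf c, _ => c
  | .node p t0 t1, x => if 0 < p x then t1.eval x else t0.eval x

/-- depth at most `Q`, nodes nonvanishing of degree at most `d` and weight at most `2 ^ w`, leaves in
`{-1, 0, 1}` -/
inductive IGood (d w : ℕ) : ℕ → ITree → Prop
  | leaf {Q : ℕ} (c : ℤ) (hc : |c| ≤ 1) : IGood d w Q (.leaf c)
  | node {Q : ℕ} {p : (ℕ → Bool) → ℤ} {t0 t1 : ITree} (hp : MDeg d p) (hne : ∀ x, p x ≠ 0)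
      (hw : ∀ x, |p x| ≤ 2 ^ w) (h0 : IGood d w Q t0) (h1 : IGood d w Q t1) :
      IGood d w (Q + 1) (.node p t0 t1)

theorem IGood.mono {d w : ℕ} {Q : ℕ} {t : ITree} (h : IGood d w Q t) :
    ∀ {Q' : ℕ}, Q ≤ Q' → IGood d w Q' t := by
  induction h with
  | leaf c hc => intro Q' _; exact .leaf c hc
  | node hp hne hw _ _ ih0 ih1 =>
    intro Q' hQ
    obtain ⟨Q'', rfl⟩ : ∃ Q'', Q' = Q'' + 1 := ⟨Q' - 1, by omega⟩
    exact .node hp hne hw (ih0 (by omega)) (ih1 (by omega))

theorem IGood.abs_eval {d w : ℕ} {Q : ℕ} {t : ITree} (h : IGood d w Q t) (x : ℕ → Bool) :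
    |t.eval x| ≤ 1 := by
  induction h with
  | leaf c hc => exact hc
  | node hp hne hw _ _ ih0 ih1 =>
    rw [ITree.eval]
    split_ifs
    · exact ih1
    · exact ih0

/-! ### Newman's functions -/

/-- Newman's function: large at positive arguments -/
def nA (w : ℕ) (x : ℤ) : ℤ := (x + 1) * ∏ i ∈ range w, (x + 2 ^ (i + 1)) ^ 2

/-- Newman's function: small at positive arguments -/
def nB (w : ℕ) (x : ℤ) : ℤ := (x - 1) * ∏ i ∈ range w, (x - 2 ^ (i + 1)) ^ 2

theorem nA_neg (w : ℕ) (x : ℤ) : nA w (-x) = -nB w x := by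
  unfold nA nB
  have h : ∏ i ∈ range w, (-x + 2 ^ (i + 1)) ^ 2 = ∏ i ∈ range w, (x - 2 ^ (i + 1)) ^ 2 :=
    prod_congr rfl fun i _ => by ring
  rw [h]
  ring

theorem nB_neg (w : ℕ) (x : ℤ) : nB w (-x) = -nA w x := by
  have := nA_neg w (-x)
  rw [neg_neg] at this
  rw [this, neg_neg]

theorem nB_nonneg {w : ℕ} {x : ℤ} (hx : 1 ≤ x) : 0 ≤ nB w x :=
  mul_nonneg (by linarith) (prod_nonneg fun i _ => sq_nonneg _)

theorem nA_pos {w : ℕ} {x : ℤ} (hx : 1 ≤ x) : 1 ≤ nA w x := by
  have h : (1 : ℤ) ≤ ∏ i ∈ range w, (x + 2 ^ (i + 1)) ^ 2 := by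
    have : ∏ _i ∈ range w, (1 : ℤ) ≤ ∏ i ∈ range w, (x + 2 ^ (i + 1)) ^ 2 := by
      refine prod_le_prod (fun i _ => zero_le_one) fun i _ => ?_
      have : (0 : ℤ) < 2 ^ (i + 1) := by positivity
      nlinarith
    simpa using this
  unfold nA
  nlinarith

/-- the main property of Newman's functions -/
theorem nine_nB_le {w : ℕ} {x : ℤ} (hx : 1 ≤ x) (hxw : x ≤ 2 ^ w) : 9 * nB w x ≤ nA w x := by
  have hfac : ∀ i, (x - 2 ^ (i + 1)) ^ 2 ≤ (x + 2 ^ (i + 1)) ^ 2 := by
    intro i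
    have : (0 : ℤ) < 2 ^ (i + 1) := by positivity
    nlinarith
  rcases eq_or_lt_of_le hx with h1 | h1
  · rw [← h1]
    have : nB w 1 = 0 := by unfold nB; ring
    rw [this]
    have := nA_pos (w := w) le_rfl
    linarith
  · -- the dyadic interval of `x`
    have hex : ∃ i ∈ range w, (2 : ℤ) ^ (i + 1) ≤ x ∧ x ≤ 2 ^ (i + 2) := by
      have hP : ∃ k : ℕ, x ≤ 2 ^ k := ⟨w, hxw⟩
      classical
      set k := Nat.find hP with hk
      have hk1 : x ≤ 2 ^ k := Nat.find_spec hP
      have hk2 : k ≤ w := Nat.find_min' hP hxw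
      have hk0 : k ≠ 0 := by
        intro h
        rw [h, pow_zero] at hk1
        linarith
      obtain ⟨j, hj⟩ : ∃ j, k = j + 1 := ⟨k - 1, by omega⟩
      have hj1 : ¬ x ≤ 2 ^ j := Nat.find_min hP (by omega)
      push Not at hj1
      by_cases hj0 : j = 0
      · subst hj0
        rw [hj, zero_add, pow_one] at hk1
        have hx2 : x = 2 := by linarith
        refine ⟨0, mem_range.2 (by omega), ?_, ?_⟩ <;> rw [hx2] <;> norm_num
      · obtain ⟨i, rfl⟩ : ∃ i, j = i + 1 := ⟨j - 1, by omega⟩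
        exact ⟨i, mem_range.2 (by omega), hj1.le, by rw [hj] at hk1; exact hk1⟩
    obtain ⟨i, hi, hi1, hi2⟩ := hex
    unfold nA nB
    rw [← mul_prod_erase _ _ hi, ← mul_prod_erase (range w) (fun i => (x + 2 ^ (i + 1)) ^ 2) hi]
    set R := ∏ j ∈ (range w).erase i, (x - 2 ^ (j + 1)) ^ 2 with hR
    set R' := ∏ j ∈ (range w).erase i, (x + 2 ^ (j + 1)) ^ 2 with hR'
    have hR0 : 0 ≤ R := prod_nonneg fun j _ => sq_nonneg _
    have hRR : R ≤ R' := prod_le_prod (fun j _ => sq_nonneg _) fun j _ => hfac j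
    have h2 : (2 : ℤ) ^ (i + 2) = 2 * 2 ^ (i + 1) := by ring
    rw [h2] at hi2
    set y : ℤ := 2 ^ (i + 1) with hy
    have h9 : 9 * (x - y) ^ 2 ≤ (x + y) ^ 2 := by nlinarith
    have h10 : 0 ≤ (x - y) ^ 2 := sq_nonneg _
    have h11 : (x - 1) * ((9 * (x - y) ^ 2) * R) ≤ (x + 1) * ((x + y) ^ 2 * R') := by
      refine mul_le_mul (by linarith) ?_ (by positivity) (by linarith)
      exact mul_le_mul h9 hRR hR0 (by positivity)
    calc 9 * ((x - 1) * ((x - y) ^ 2 * R)) = (x - 1) * ((9 * (x - y) ^ 2) * R) := by ring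
      _ ≤ _ := h11

theorem abs_nA_le {w : ℕ} {x : ℤ} (hx : |x| ≤ 2 ^ w) : |nA w x| ≤ 2 ^ ((w + 1) * (2 * w + 1)) := by
  obtain ⟨hx1, hx2⟩ := abs_le.1 hx
  have h1 : (1 : ℤ) ≤ 2 ^ w := one_le_pow₀ (by norm_num)
  have h2 : (2 : ℤ) ^ (w + 1) = 2 * 2 ^ w := by ring
  unfold nA
  rw [abs_mul, show (w + 1) * (2 * w + 1) = (w + 1) + (w + 1) * (2 * w) by ring, pow_add]
  refine mul_le_mul ?_ ?_ (abs_nonneg _) (by positivity)
  · rw [h2, abs_le]
    constructor <;> linarith
  · rw [abs_of_nonneg (prod_nonneg fun i _ => sq_nonneg _)]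
    have : ∏ i ∈ range w, (x + 2 ^ (i + 1)) ^ 2 ≤ ∏ _i ∈ range w, ((2 : ℤ) ^ (w + 1)) ^ 2 := by
      refine prod_le_prod (fun i _ => sq_nonneg _) fun i hi => ?_
      have h3 : (2 : ℤ) ^ (i + 1) ≤ 2 ^ w := pow_le_pow_right₀ (by norm_num) (mem_range.1 hi)
      have h4 : (0 : ℤ) < 2 ^ (i + 1) := by positivity
      rw [← sq_abs (x + 2 ^ (i + 1))]
      refine pow_le_pow_left₀ (abs_nonneg _) ?_ 2
      rw [h2, abs_le]
      constructor <;> linarith
    refine this.trans (le_of_eq ?_)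
    rw [prod_const, card_range, ← pow_mul, ← pow_mul]

theorem abs_nB_le {w : ℕ} {x : ℤ} (hx : |x| ≤ 2 ^ w) : |nB w x| ≤ 2 ^ ((w + 1) * (2 * w + 1)) := by
  have h := nA_neg w x
  have h2 : |nA w (-x)| = |nB w x| := by rw [h, abs_neg]
  rw [← h2]
  exact abs_nA_le (by rwa [abs_neg])

/-! ### degrees -/

theorem MDeg.pow' {σ : Type*} {a : ℕ} {f : (σ → Bool) → ℤ} (hf : MDeg a f) (n : ℕ) :
    MDeg (n * a) (fun x => f x ^ n) := by
  induction n with
  | zero => simpa using MDeg.const (σ := σ) (d := 0 * a) 1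
  | succ n ih =>
    have := ih.mul hf
    rw [show (n + 1) * a = n * a + a by ring]
    simpa only [pow_succ] using this

theorem MDeg.prod' {σ : Type*} {ι : Type*} {a : ℕ} (s : Finset ι) {f : ι → (σ → Bool) → ℤ}
    (hf : ∀ i ∈ s, MDeg a (f i)) : MDeg (s.card * a) (fun x => ∏ i ∈ s, f i x) := by
  classical
  induction s using Finset.induction_on with
  | empty => simpa using MDeg.const (σ := σ) (d := 0 * a) 1
  | insert i s hi ih =>
    have h1 := (hf i (mem_insert_self i s)).mul (ih fun j hj => hf j (mem_insert_of_mem hj))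
    rw [card_insert_of_notMem hi, show (s.card + 1) * a = a + s.card * a by ring]
    simpa only [prod_insert hi] using h1

theorem mdeg_nA {w d : ℕ} {p : (ℕ → Bool) → ℤ} (hp : MDeg d p) :
    MDeg ((2 * w + 1) * d) (fun x => nA w (p x)) := by
  have h1 : MDeg d (fun x => p x + 1) := hp.add (MDeg.const 1)
  have h2 : MDeg ((range w).card * (2 * d))
      (fun x => ∏ i ∈ range w, (p x + 2 ^ (i + 1)) ^ 2) :=
    MDeg.prod' (range w) fun i _ => (hp.add (MDeg.const (2 ^ (i + 1)))).pow' 2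
  have h3 := h1.mul h2
  rw [card_range, show d + w * (2 * d) = (2 * w + 1) * d by ring] at h3
  exact h3

theorem mdeg_nB {w d : ℕ} {p : (ℕ → Bool) → ℤ} (hp : MDeg d p) :
    MDeg ((2 * w + 1) * d) (fun x => nB w (p x)) := by
  have h1 := (mdeg_nA (w := w) hp.neg).neg
  refine (congrArg (MDeg _) ?_).mp h1
  funext x
  rw [nA_neg, neg_neg]

/-! ### numerators and denominators -/

/-- the degree of the weights -/
def dE (d w t : ℕ) : ℕ := 2 * t * ((2 * w + 1) * d)

/-- the size of the weights -/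
def wE (w t : ℕ) : ℕ := 2 * t * ((w + 1) * (2 * w + 1)) + 1

/-- the weight of the positive branch -/
def wtE (w t : ℕ) (x : ℤ) : ℤ := nA w x ^ (2 * t)

/-- the weight of the negative branch -/
def wtF (w t : ℕ) (x : ℤ) : ℤ := nB w x ^ (2 * t)

theorem wtE_nonneg (w t : ℕ) (x : ℤ) : 0 ≤ wtE w t x := (even_two_mul t).pow_nonneg _

theorem wtF_nonneg (w t : ℕ) (x : ℤ) : 0 ≤ wtF w t x := (even_two_mul t).pow_nonneg _

theorem wtE_neg (w t : ℕ) (x : ℤ) : wtE w t (-x) = wtF w t x := by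
  unfold wtE wtF
  rw [nA_neg, (even_two_mul t).neg_pow]

theorem wtF_neg (w t : ℕ) (x : ℤ) : wtF w t (-x) = wtE w t x := by
  unfold wtE wtF
  rw [nB_neg, (even_two_mul t).neg_pow]

theorem wt_pos {w t : ℕ} {x : ℤ} (hx : 1 ≤ x) (hxw : x ≤ 2 ^ w) :
    1 ≤ wtE w t x ∧ 81 ^ t * wtF w t x ≤ wtE w t x := by
  constructor
  · exact one_le_pow₀ (nA_pos hx)
  · unfold wtE wtF
    have h1 : (81 : ℤ) ^ t = 9 ^ (2 * t) := by
      rw [pow_mul]; norm_num
    rw [h1, ← mul_pow]
    exact pow_le_pow_left₀ (mul_nonneg (by norm_num) (nB_nonneg hx)) (nine_nB_le hx hxw) _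

theorem wt_all {w t : ℕ} {x : ℤ} (hx : x ≠ 0) (hxw : |x| ≤ 2 ^ w) :
    1 ≤ wtE w t x + wtF w t x ∧ wtE w t x + wtF w t x ≤ 2 ^ wE w t ∧
      (0 < x → 81 ^ t * wtF w t x ≤ wtE w t x) ∧ (¬ 0 < x → 81 ^ t * wtE w t x ≤ wtF w t x) := by
  have hE := wtE_nonneg w t x
  have hF := wtF_nonneg w t x
  obtain ⟨hx1, hx2⟩ := abs_le.1 hxw
  refine ⟨?_, ?_, ?_, ?_⟩
  · rcases lt_or_gt_of_ne hx with h | h
    · have := (wt_pos (w := w) (t := t) (x := -x) (by omega) (by linarith)).1
      rw [wtE_neg] at this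
      linarith
    · have := (wt_pos (w := w) (t := t) (x := x) (by omega) hx2).1
      linarith
  · have h1 : wtE w t x ≤ 2 ^ (2 * t * ((w + 1) * (2 * w + 1))) := by
      unfold wtE
      rw [← (even_two_mul t).pow_abs]
      refine (pow_le_pow_left₀ (abs_nonneg _) (abs_nA_le hxw) _).trans (le_of_eq ?_)
      rw [← pow_mul]
      congr 1
      ring
    have h2 : wtF w t x ≤ 2 ^ (2 * t * ((w + 1) * (2 * w + 1))) := by
      unfold wtF
      rw [← (even_two_mul t).pow_abs]
      refine (pow_le_pow_left₀ (abs_nonneg _) (abs_nB_le hxw) _).trans (le_of_eq ?_)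
      rw [← pow_mul]
      congr 1
      ring
    unfold wE
    rw [pow_succ]
    linarith
  · intro h
    exact (wt_pos (by omega) hx2).2
  · intro h
    have h1 : x < 0 := lt_of_le_of_ne (not_lt.1 h) hx
    have := (wt_pos (w := w) (t := t) (x := -x) (by omega) (by linarith)).2
    rwa [wtE_neg, wtF_neg] at this

theorem mdeg_wtE {d w t : ℕ} {p : (ℕ → Bool) → ℤ} (hp : MDeg d p) :
    MDeg (dE d w t) (fun x => wtE w t (p x)) := (mdeg_nA hp).pow' (2 * t)

theorem mdeg_wtF {d w t : ℕ} {p : (ℕ → Bool) → ℤ} (hp : MDeg d p) :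
    MDeg (dE d w t) (fun x => wtF w t (p x)) := (mdeg_nB hp).pow' (2 * t)

/-- numerator and denominator of a tree -/
def frac (w t : ℕ) : ITree → ((ℕ → Bool) → ℤ) × ((ℕ → Bool) → ℤ)
  | .leaf c => (fun _ => c, fun _ => 1)
  | .node p t0 t1 =>
    (fun x => wtE w t (p x) * ((frac w t t1).1 x * (frac w t t0).2 x) +
      wtF w t (p x) * ((frac w t t0).1 x * (frac w t t1).2 x),
     fun x => (wtE w t (p x) + wtF w t (p x)) * ((frac w t t0).2 x * (frac w t t1).2 x))

theorem frac_spec {d w : ℕ} (t : ℕ) {Q : ℕ} {T : ITree} (hT : IGood d w Q T) :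
    MDeg ((2 ^ Q - 1) * dE d w t) (frac w t T).1 ∧ MDeg ((2 ^ Q - 1) * dE d w t) (frac w t T).2 ∧
      ∀ x, 1 ≤ (frac w t T).2 x ∧ (frac w t T).2 x ≤ 2 ^ ((2 ^ Q - 1) * wE w t) ∧
        |(frac w t T).1 x| ≤ (frac w t T).2 x ∧
        81 ^ t * |(frac w t T).1 x - T.eval x * (frac w t T).2 x| ≤ 2 * Q * (frac w t T).2 x := by
  induction hT with
  | @leaf Q c hc =>
    refine ⟨MDeg.const c, MDeg.const 1, fun x => ⟨le_rfl, ?_, hc, ?_⟩⟩
    · exact one_le_pow₀ (by norm_num)
    · simp only [frac, ITree.eval, mul_one, sub_self, abs_zero, mul_zero]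
      positivity
  | @node Q p t0 t1 hp hne hw h0 h1 ih0 ih1 =>
    obtain ⟨a1, a2, a3⟩ := ih0
    obtain ⟨b1, b2, b3⟩ := ih1
    have hQ : 2 ^ (Q + 1) - 1 = 1 + ((2 ^ Q - 1) + (2 ^ Q - 1)) := by
      have : 1 ≤ 2 ^ Q := Nat.one_le_two_pow
      rw [pow_succ]
      omega
    have hdeg : (2 ^ (Q + 1) - 1) * dE d w t =
        dE d w t + ((2 ^ Q - 1) * dE d w t + (2 ^ Q - 1) * dE d w t) := by
      rw [hQ]; ring
    rw [hdeg]
    refine ⟨((mdeg_wtE hp).mul (b1.mul a2)).add ((mdeg_wtF hp).mul (a1.mul b2)),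
      ((mdeg_wtE hp).add (mdeg_wtF hp)).mul (a2.mul b2), fun x => ?_⟩
    obtain ⟨c1, c2, c3, c4⟩ := a3 x
    obtain ⟨e1, e2, e3, e4⟩ := b3 x
    obtain ⟨g1, g2, g3, g4⟩ := wt_all (t := t) (hne x) (hw x)
    have hE := wtE_nonneg w t (p x)
    have hF := wtF_nonneg w t (p x)
    have v0 := h0.abs_eval x
    have v1 := h1.abs_eval x
    simp only [frac, ITree.eval]
    set E := wtE w t (p x)
    set F := wtF w t (p x)
    set N0 := (frac w t t0).1 x
    set D0 := (frac w t t0).2 x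
    set N1 := (frac w t t1).1 x
    set D1 := (frac w t t1).2 x
    set T0 := t0.eval x
    set T1 := t1.eval x
    have hD0 : 0 ≤ D0 := by linarith
    have hD1 : 0 ≤ D1 := by linarith
    have hDD : 1 ≤ D0 * D1 := by nlinarith
    have hDD0 : 0 ≤ D0 * D1 := by linarith
    have h81 : (0 : ℤ) < 81 ^ t := by positivity
    refine ⟨by nlinarith, ?_, ?_, ?_⟩
    · have : (2 : ℤ) ^ ((2 ^ (Q + 1) - 1) * wE w t) =
          2 ^ wE w t * (2 ^ ((2 ^ Q - 1) * wE w t) * 2 ^ ((2 ^ Q - 1) * wE w t)) := by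
        rw [← pow_add, ← pow_add, hQ]
        congr 1
        ring
      rw [this]
      exact mul_le_mul g2 (mul_le_mul c2 e2 hD1 (by positivity)) hDD0 (by positivity)
    · calc |E * (N1 * D0) + F * (N0 * D1)| ≤ |E * (N1 * D0)| + |F * (N0 * D1)| := abs_add_le _ _
        _ = E * (|N1| * D0) + F * (|N0| * D1) := by
          rw [abs_mul, abs_mul, abs_mul, abs_mul, abs_of_nonneg hE, abs_of_nonneg hF,
            abs_of_nonneg hD0, abs_of_nonneg hD1]
        _ ≤ E * (D1 * D0) + F * (D0 * D1) := by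
          refine add_le_add (mul_le_mul_of_nonneg_left ?_ hE) (mul_le_mul_of_nonneg_left ?_ hF)
          · exact mul_le_mul_of_nonneg_right e3 hD0
          · exact mul_le_mul_of_nonneg_right c3 hD1
        _ = (E + F) * (D0 * D1) := by ring
    · -- the two cases have the same form
      have main : ∀ (E F N0 D0 N1 D1 T1 : ℤ), 0 ≤ E → 0 ≤ F → 0 ≤ D0 → 0 ≤ D1 → |N0| ≤ D0 →
          |T1| ≤ 1 → 81 ^ t * |N1 - T1 * D1| ≤ 2 * Q * D1 → 81 ^ t * F ≤ E →
          81 ^ t * |E * (N1 * D0) + F * (N0 * D1) - T1 * ((E + F) * (D0 * D1))| ≤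
            2 * ((Q + 1 : ℕ) : ℤ) * ((E + F) * (D0 * D1)) := by
        intro E F N0 D0 N1 D1 T1 hE hF hD0 hD1 hN0 hT1 herr hEF
        have h1 : E * (N1 * D0) + F * (N0 * D1) - T1 * ((E + F) * (D0 * D1)) =
            E * D0 * (N1 - T1 * D1) + F * D1 * (N0 - T1 * D0) := by ring
        have h2 : |N0 - T1 * D0| ≤ 2 * D0 := by
          have : |T1 * D0| ≤ D0 := by
            rw [abs_mul, abs_of_nonneg hD0]
            nlinarith
          calc |N0 - T1 * D0| ≤ |N0| + |T1 * D0| := abs_sub _ _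
            _ ≤ 2 * D0 := by linarith
        have h3 : |E * (N1 * D0) + F * (N0 * D1) - T1 * ((E + F) * (D0 * D1))| ≤
            E * D0 * |N1 - T1 * D1| + F * D1 * (2 * D0) := by
          rw [h1]
          refine (abs_add_le _ _).trans (add_le_add ?_ ?_)
          · rw [abs_mul, abs_of_nonneg (mul_nonneg hE hD0)]
          · rw [abs_mul, abs_of_nonneg (mul_nonneg hF hD1)]
            exact mul_le_mul_of_nonneg_left h2 (mul_nonneg hF hD1)
        have h81' : (0 : ℤ) ≤ 81 ^ t := by positivity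
        have hDD : 0 ≤ D0 * D1 := mul_nonneg hD0 hD1
        calc 81 ^ t * |E * (N1 * D0) + F * (N0 * D1) - T1 * ((E + F) * (D0 * D1))|
            ≤ 81 ^ t * (E * D0 * |N1 - T1 * D1| + F * D1 * (2 * D0)) :=
              mul_le_mul_of_nonneg_left h3 h81'
          _ = E * D0 * (81 ^ t * |N1 - T1 * D1|) + 2 * ((81 ^ t * F) * (D0 * D1)) := by ring
          _ ≤ E * D0 * (2 * Q * D1) + 2 * (E * (D0 * D1)) := by
              refine add_le_add (mul_le_mul_of_nonneg_left herr (mul_nonneg hE hD0)) ?_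
              exact mul_le_mul_of_nonneg_left (mul_le_mul_of_nonneg_right hEF hDD) (by norm_num)
          _ = 2 * ((Q + 1 : ℕ) : ℤ) * (E * (D0 * D1)) := by push_cast; ring
          _ ≤ 2 * ((Q + 1 : ℕ) : ℤ) * ((E + F) * (D0 * D1)) := by
              refine mul_le_mul_of_nonneg_left ?_ (by positivity)
              exact mul_le_mul_of_nonneg_right (by linarith) hDD
      by_cases hpos : 0 < p x
      · rw [if_pos hpos]
        exact main E F N0 D0 N1 D1 T1 hE hF hD0 hD1 c3 v1 e4 (g3 hpos)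
      · rw [if_neg hpos]
        have := main F E N1 D1 N0 D0 T0 hF hE hD1 hD0 e3 v0 c4 (g4 hpos)
        have e5 : F * (N0 * D1) + E * (N1 * D0) - T0 * ((F + E) * (D1 * D0)) =
            E * (N1 * D0) + F * (N0 * D1) - T0 * ((E + F) * (D0 * D1)) := by ring
        have e6 : (F + E) * (D1 * D0) = (E + F) * (D0 * D1) := by ring
        rw [e5, e6] at this
        exact this

/-- the degree of the sign of a sum of `K` trees -/
def dMaj (d w Q K : ℕ) : ℕ := K * 2 ^ Q * (2 * (K * Q + 1) * (2 * w + 1) * d)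

/-- the weight of the sign of a sum of `K` trees -/
def wMaj (w Q K : ℕ) : ℕ := K + 3 + K * 2 ^ Q * (2 * (K * Q + 1) * ((2 * w + 1) * (w + 1)) + 1)

theorem two_mul_add_one_le (K : ℕ) : 2 * K + 1 ≤ 2 ^ (K + 1) := by
  induction K with
  | zero => norm_num
  | succ K ih =>
    rw [pow_succ]
    omega

/-- **the sign of a sum of threshold trees is a threshold predicate** -/
theorem thr_sum {ι : Type} [Fintype ι] {d w Q : ℕ} (T : ι → ITree) (hT : ∀ a, IGood d w Q (T a)) :
    Thr (dMaj d w Q (Fintype.card ι)) (wMaj w Q (Fintype.card ι))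
      (fun x => 0 ≤ ∑ a, (T a).eval x) := by
  classical
  set K := Fintype.card ι with hK
  set t := K * Q + 1 with ht
  have spec := fun a => frac_spec t (hT a)
  set N : ι → (ℕ → Bool) → ℤ := fun a => (frac w t (T a)).1 with hN
  set D : ι → (ℕ → Bool) → ℤ := fun a => (frac w t (T a)).2 with hD
  set e := (2 ^ Q - 1) * dE d w t with he
  set P : (ℕ → Bool) → ℤ := fun x => ∏ a, D a x with hP
  set X : (ℕ → Bool) → ℤ := fun x => ∑ a, N a x * ∏ b ∈ univ.erase a, D b x with hX
  have hD1 : ∀ a x, 1 ≤ D a x := fun a x => ((spec a).2.2 x).1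
  have hNa : ∀ a x, |N a x| ≤ D a x := fun a x => ((spec a).2.2 x).2.2.1
  have hR0 : ∀ a x, 0 ≤ ∏ b ∈ univ.erase a, D b x := fun a x =>
    prod_nonneg fun b _ => by have := hD1 b x; linarith
  have hPa : ∀ a x, D a x * ∏ b ∈ univ.erase a, D b x = P x := fun a x =>
    mul_prod_erase univ (fun b => D b x) (mem_univ a)
  have hP1 : ∀ x, 1 ≤ P x := fun x => by
    have : ∏ _a : ι, (1 : ℤ) ≤ ∏ a, D a x :=
      prod_le_prod (fun a _ => zero_le_one) fun a _ => hD1 a x
    simpa using this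
  have hle : e * K ≤ dMaj d w Q K := by
    rw [he]
    unfold dMaj dE
    calc (2 ^ Q - 1) * (2 * t * ((2 * w + 1) * d)) * K
        ≤ 2 ^ Q * (2 * t * ((2 * w + 1) * d)) * K :=
          Nat.mul_le_mul_right _ (Nat.mul_le_mul_right _ (Nat.sub_le _ _))
      _ = K * 2 ^ Q * (2 * (K * Q + 1) * (2 * w + 1) * d) := by rw [ht]; ring
  have hPdeg : MDeg (K * e) P := by
    have := MDeg.prod' (σ := ℕ) (univ : Finset ι) fun a _ => (spec a).2.1
    rwa [card_univ] at this
  have hXdeg : MDeg (K * e) X := by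
    refine MDeg.sum univ fun a _ => ?_
    have h1 : MDeg (((univ : Finset ι).erase a).card * e)
        (fun x => ∏ b ∈ univ.erase a, D b x) := MDeg.prod' _ fun b _ => (spec b).2.1
    have h2 := (spec a).1.mul h1
    rw [card_erase_of_mem (mem_univ a), card_univ, ← hK] at h2
    have hKpos : 1 ≤ K := by
      rw [hK]
      exact Fintype.card_pos_iff.2 ⟨a⟩
    have h3 : e + (K - 1) * e = K * e := by
      obtain ⟨K', hK'⟩ : ∃ K', K = K' + 1 := ⟨K - 1, by omega⟩
      rw [hK', Nat.add_sub_cancel]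
      ring
    rw [h3] at h2
    exact h2
  have habsX : ∀ x, |X x| ≤ K * P x := by
    intro x
    calc |X x| ≤ ∑ a, |N a x * ∏ b ∈ univ.erase a, D b x| := abs_sum_le_sum_abs _ _
      _ ≤ ∑ _a : ι, P x := by
        refine sum_le_sum fun a _ => ?_
        rw [abs_mul, abs_of_nonneg (hR0 a x), ← hPa a x]
        exact mul_le_mul_of_nonneg_right (hNa a x) (hR0 a x)
      _ = K * P x := by rw [sum_const, card_univ, nsmul_eq_mul]
  have herr : ∀ x, 4 * |X x - (∑ a, (T a).eval x) * P x| ≤ P x := by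
    intro x
    have h1 : X x - (∑ a, (T a).eval x) * P x =
        ∑ a, (N a x - (T a).eval x * D a x) * ∏ b ∈ univ.erase a, D b x := by
      rw [hX, sum_mul, ← sum_sub_distrib]
      refine sum_congr rfl fun a _ => ?_
      rw [← hPa a x]
      ring
    have h2 : 81 ^ t * |X x - (∑ a, (T a).eval x) * P x| ≤ K * (2 * Q * P x) := by
      rw [h1]
      calc 81 ^ t * |∑ a, (N a x - (T a).eval x * D a x) * ∏ b ∈ univ.erase a, D b x|
          ≤ 81 ^ t * ∑ a, |(N a x - (T a).eval x * D a x) * ∏ b ∈ univ.erase a, D b x| :=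
            mul_le_mul_of_nonneg_left (abs_sum_le_sum_abs _ _) (by positivity)
        _ = ∑ a, 81 ^ t * |N a x - (T a).eval x * D a x| * ∏ b ∈ univ.erase a, D b x := by
            rw [mul_sum]
            refine sum_congr rfl fun a _ => ?_
            rw [abs_mul, abs_of_nonneg (hR0 a x)]
            ring
        _ ≤ ∑ _a : ι, 2 * Q * P x := by
            refine sum_le_sum fun a _ => ?_
            have := ((spec a).2.2 x).2.2.2
            calc 81 ^ t * |N a x - (T a).eval x * D a x| * ∏ b ∈ univ.erase a, D b x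
                ≤ 2 * Q * D a x * ∏ b ∈ univ.erase a, D b x :=
                  mul_le_mul_of_nonneg_right this (hR0 a x)
              _ = 2 * Q * P x := by rw [← hPa a x]; ring
        _ = K * (2 * Q * P x) := by rw [sum_const, card_univ, nsmul_eq_mul]
    have h3 : (8 : ℤ) * (K * Q) ≤ 81 ^ t := by
      have h4 : ∀ s : ℕ, 81 * s ≤ 81 ^ s := by
        intro s
        induction s with
        | zero => norm_num
        | succ s ih =>
          rcases Nat.eq_zero_or_pos s with h | h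
          · subst h; norm_num
          · rw [pow_succ]
            nlinarith
      have h5 := h4 t
      have h6 : 8 * (K * Q) ≤ 81 ^ t := by
        rw [ht] at h5 ⊢
        omega
      exact_mod_cast h6
    have h81 : (0 : ℤ) < 81 ^ t := by positivity
    have hPx := hP1 x
    have h7 : 81 ^ t * (4 * |X x - (∑ a, (T a).eval x) * P x|) ≤ 81 ^ t * P x := by
      calc 81 ^ t * (4 * |X x - (∑ a, (T a).eval x) * P x|)
          = 4 * (81 ^ t * |X x - (∑ a, (T a).eval x) * P x|) := by ring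
        _ ≤ 4 * (K * (2 * Q * P x)) := by linarith
        _ = 8 * (K * Q) * P x := by ring
        _ ≤ 81 ^ t * P x := mul_le_mul_of_nonneg_right h3 (by linarith)
    exact le_of_mul_le_mul_left h7 h81
  have hsgn : ∀ x, (0 ≤ ∑ a, (T a).eval x → 0 < 2 * X x + P x) ∧
      (¬ 0 ≤ ∑ a, (T a).eval x → 2 * X x + P x < 0) := by
    intro x
    have h1 := herr x
    have h2 := hP1 x
    set S := ∑ a, (T a).eval x with hS
    have h3 := le_abs_self (X x - S * P x)
    have h4 := neg_abs_le (X x - S * P x)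
    constructor
    · intro h
      have : 0 ≤ S * P x := mul_nonneg h (by linarith)
      linarith
    · intro h
      have h5 : S ≤ -1 := by omega
      have : S * P x ≤ -1 * P x := mul_le_mul_of_nonneg_right h5 (by linarith)
      linarith
  refine ⟨fun x => 2 * X x + P x, ?_, fun x => ?_, fun x => ?_, fun x => ?_⟩
  · refine MDeg.mono_le ?_ ((hXdeg.smul 2).add hPdeg)
    rw [mul_comm]
    exact hle
  · by_cases h : 0 ≤ ∑ a, (T a).eval x
    · exact ((hsgn x).1 h).ne'
    · exact ((hsgn x).2 h).ne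
  · have h1 := habsX x
    have h2 := hP1 x
    have h3 : |2 * X x + P x| ≤ (2 * K + 1) * P x := by
      calc |2 * X x + P x| ≤ |2 * X x| + |P x| := abs_add_le _ _
        _ = 2 * |X x| + P x := by
          rw [abs_mul, abs_of_pos (show (0 : ℤ) < 2 by norm_num),
            abs_of_pos (show 0 < P x by linarith)]
        _ ≤ (2 * K + 1) * P x := by linarith
    refine h3.trans ?_
    have h4 : P x ≤ 2 ^ (K * ((2 ^ Q - 1) * wE w t)) := by
      have : P x ≤ ∏ _a : ι, (2 : ℤ) ^ ((2 ^ Q - 1) * wE w t) :=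
        prod_le_prod (fun a _ => by have := hD1 a x; linarith) fun a _ => ((spec a).2.2 x).2.1
      refine this.trans (le_of_eq ?_)
      rw [prod_const, card_univ, ← pow_mul, ← hK]
      congr 1
      ring
    have h5 : (2 * K + 1 : ℤ) ≤ 2 ^ (K + 1) := by exact_mod_cast two_mul_add_one_le K
    calc (2 * K + 1) * P x ≤ 2 ^ (K + 1) * 2 ^ (K * ((2 ^ Q - 1) * wE w t)) :=
          mul_le_mul h5 h4 (by linarith) (by positivity)
      _ = 2 ^ (K + 1 + K * ((2 ^ Q - 1) * wE w t)) := by rw [← pow_add]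
      _ ≤ 2 ^ wMaj w Q K := by
          refine pow_le_pow_right₀ (by norm_num) ?_
          unfold wMaj wE
          have : K * ((2 ^ Q - 1) * (2 * t * ((w + 1) * (2 * w + 1)) + 1)) ≤
              K * 2 ^ Q * (2 * (K * Q + 1) * ((2 * w + 1) * (w + 1)) + 1) := by
            calc K * ((2 ^ Q - 1) * (2 * t * ((w + 1) * (2 * w + 1)) + 1))
                ≤ K * (2 ^ Q * (2 * t * ((w + 1) * (2 * w + 1)) + 1)) :=
                  Nat.mul_le_mul_left _ (Nat.mul_le_mul_right _ (Nat.sub_le _ _))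
              _ = K * 2 ^ Q * (2 * (K * Q + 1) * ((2 * w + 1) * (w + 1)) + 1) := by
                  rw [ht]; ring
          omega
  · constructor
    · exact (hsgn x).1
    · intro h
      by_contra h'
      have := (hsgn x).2 h'
      linarith

end O2PP
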