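import Pool.Agent.Work.MP_a81742_lc_or.LevDefs
import Pool.Agent.Work.MP_a81742_lc_or.Adv2

/-!
# Columns of keys on all levels, the new oracle
-/

namespace ORD

open ORDist O2PP PTime

open Classical in
/-- the key of a string, if there is one -/
noncomputable def keyOf : Str → Option Str
  | [] => none
  | false :: w => some w
  | true :: z => if z = pairStr (unpairS z) then some (unpairS z).1 else none

theorem keyOf_false (w : Str) : keyOf (false :: w) = some w := rfl

theorem keyOf_true (w y : Str) : keyOf (true :: pairStr (w, y)) = some w := by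
  simp [keyOf, unpairS_pairStr]

theorem keyOf_cases {s w : Str} (h : keyOf s = some w) :
    s = false :: w ∨ ∃ y, s = true :: pairStr (w, y) := by
  match s, h with
  | [], h => exact absurd h (by simp [keyOf])
  | false :: w', h =>
    left
    simp only [keyOf, Option.some.injEq] at h
    rw [h]
  | true :: z, h =>
    right
    simp only [keyOf] at h
    split_ifs at h with h1
    · refine ⟨(unpairS z).2, ?_⟩
      have h2 : (unpairS z).1 = w := by simpa using h
      rw [← h2]
      exact congrArg _ h1

theorem keyOf_length {s w : Str} (h : keyOf s = some w) : w.length < s.length := by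
  rcases keyOf_cases h with rfl | ⟨y, rfl⟩
  · simp
  · rw [List.length_cons, pairStr_len]
    omega

/-- the column of a key -/
def colK (n l : ℕ) (w : Str) : ℕ := val ((w.drop n).take l)

theorem colK_lt (n l : ℕ) (w : Str) : colK n l w < 2 ^ l := by
  refine (val_lt _).trans_le (Nat.pow_le_pow_right (by norm_num) ?_)
  rw [List.length_take]
  omega

/-- the position of a string with the key `w` -/
def posn (n l : ℕ) (s w : Str) : ℕ := val (true :: s) * 2 ^ l + colK n l w

theorem posn_mod (n l : ℕ) (s w : Str) : posn n l s w % 2 ^ l = colK n l w := by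
  unfold posn
  rw [Nat.mul_comm, Nat.mul_add_mod, Nat.mod_eq_of_lt (colK_lt n l w)]

theorem posn_inj {n l : ℕ} {s w s' w' : Str} (h : posn n l s w = posn n l s' w') : s = s' := by
  have h1 : val (true :: s) = val (true :: s') := by
    have e : ∀ s w : Str, posn n l s w / 2 ^ l = val (true :: s) := by
      intro s w
      unfold posn
      rw [Nat.mul_comm, Nat.mul_add_div (by positivity), Nat.div_eq_of_lt (colK_lt n l w),
        add_zero]
    rw [← e s w, h, e]
  exact val_true_inj h1

/-- the oracle `A₀` with free bits at all strings whose keys have length at least `n + l` -/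
noncomputable def fam (A₀ : Str → Bool) (n l : ℕ) (u : ℕ → Bool) (s : Str) : Bool :=
  match keyOf s with
  | none => A₀ s
  | some w => if n + l ≤ w.length then u (posn n l s w) else A₀ s

theorem fam_cases (A₀ : Str → Bool) (n l : ℕ) (s : Str) :
    (∃ b, ∀ u, fam A₀ n l u s = b) ∨ (∃ i, ∀ u, fam A₀ n l u s = u i) := by
  unfold fam
  cases h : keyOf s with
  | none => exact Or.inl ⟨A₀ s, fun u => rfl⟩
  | some w =>
    by_cases h1 : n + l ≤ w.length
    · exact Or.inr ⟨posn n l s w, fun u => by simp only [if_pos h1]⟩
    · exact Or.inl ⟨A₀ s, fun u => by simp only [if_neg h1]⟩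

/-- the column of the maximum in the row `i` -/
def colf (lo : ℕ) (f : ℕ → Bool) (i : ℕ) : ℕ :=
  if (decide (lo % 2 = 1)) = f i then lo else lo + 1

theorem colf_spec (lo : ℕ) (f : ℕ → Bool) (i : ℕ) :
    (colf lo f i = lo ∨ colf lo f i = lo + 1) ∧ (colf lo f i % 2 = 1 ↔ f i = true) := by
  rcases Nat.mod_two_eq_zero_or_one lo with h | h
  · cases hf : f i
    · have : colf lo f i = lo := by simp [colf, h, hf]
      rw [this]
      exact ⟨Or.inl rfl, by simp [h]⟩
    · have : colf lo f i = lo + 1 := by simp [colf, h, hf]
      rw [this]
      exact ⟨Or.inr rfl, by simp; omega⟩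
  · cases hf : f i
    · have : colf lo f i = lo + 1 := by simp [colf, h, hf]
      rw [this]
      exact ⟨Or.inr rfl, by simp; omega⟩
    · have : colf lo f i = lo := by simp [colf, h, hf]
      rw [this]
      exact ⟨Or.inl rfl, by simp [h]⟩

/-- the maximal key of the level `M` -/
def kap (n l lo M : ℕ) : Str :=
  List.replicate n true ++ (bstr l (lo + 1) ++ List.replicate (M - (n + l)) true)

theorem kap_length {n l lo M : ℕ} (h : n + l ≤ M) : (kap n l lo M).length = M := by
  unfold kap
  rw [List.length_append, List.length_append, List.length_replicate, List.length_replicate,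
    bstr_length]
  omega

theorem colK_kap {n l lo : ℕ} (M : ℕ) (hlo : lo + 2 ≤ 2 ^ l) : colK n l (kap n l lo M) = lo + 1 := by
  unfold colK kap
  rw [List.drop_left' List.length_replicate, List.take_left' (bstr_length _ _),
    val_bstr (by omega)]

open Classical in
/-- which keys of the two free columns are active -/
noncomputable def actK (n l m lo : ℕ) (f : ℕ → Bool) (w : Str) : Bool :=
  decide (w = kap n l lo w.length ∨ ∃ i < m, w = bstr n i ++ bstr l (colf lo f i))

open Classical in
/-- the new oracle at the string `s`, if `B` is the new oracle at the shorter strings -/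
noncomputable def stepO (F : (Str → Bool) → ℕ → Str → Bool) (A₀ : Str → Bool) (n l m lo : ℕ)
    (f x : ℕ → Bool) (B : Str → Bool) (s : Str) : Bool :=
  match keyOf s with
  | none => A₀ s
  | some w =>
    if n + l ≤ w.length then
      if colK n l w = lo ∨ colK n l w = lo + 1 then
        if s = false :: w then actK n l m lo f w
        else decide (w = kap n l lo w.length) && F B w.length (unpairS s.tail).2
      else x (posn n l s w)
    else A₀ s

theorem stepO_local {F : (Str → Bool) → ℕ → Str → Bool} (hF : Loc F) (A₀ : Str → Bool)
    (n l m lo : ℕ) (f x : ℕ → Bool) (B B' : Str → Bool) (s : Str)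
    (h : ∀ t : Str, t.length < s.length → B t = B' t) :
    stepO F A₀ n l m lo f x B s = stepO F A₀ n l m lo f x B' s := by
  unfold stepO
  cases hk : keyOf s with
  | none => rfl
  | some w =>
    have h1 := keyOf_length hk
    simp only
    rw [hF B B' w.length _ fun t ht => h t (by omega)]

/-- the new oracle -/
noncomputable def newO (F : (Str → Bool) → ℕ → Str → Bool) (A₀ : Str → Bool) (n l m lo : ℕ)
    (f x : ℕ → Bool) : Str → Bool := fixO (stepO F A₀ n l m lo f x)

section

variable {F : (Str → Bool) → ℕ → Str → Bool} (hF : Loc F) {A₀ : Str → Bool} {n l m lo : ℕ}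
  {f x : ℕ → Bool}

include hF

theorem newO_low {s : Str} (h : ∀ w, keyOf s = some w → w.length < n + l) :
    newO F A₀ n l m lo f x s = A₀ s := by
  unfold newO
  rw [fixO_eq (stepO_local hF A₀ n l m lo f x)]
  unfold stepO
  cases hk : keyOf s with
  | none => rfl
  | some w =>
    have h1 := h w hk
    simp only
    rw [if_neg (by omega)]

theorem newO_out {s w : Str} (hk : keyOf s = some w) (hw : n + l ≤ w.length)
    (hc : ¬ (colK n l w = lo ∨ colK n l w = lo + 1)) :
    newO F A₀ n l m lo f x s = x (posn n l s w) := by
  unfold newO
  rw [fixO_eq (stepO_local hF A₀ n l m lo f x)]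
  unfold stepO
  rw [hk]
  simp only
  rw [if_pos hw, if_neg hc]

theorem newO_act {w : Str} (hw : n + l ≤ w.length)
    (hc : colK n l w = lo ∨ colK n l w = lo + 1) :
    newO F A₀ n l m lo f x (false :: w) = actK n l m lo f w := by
  unfold newO
  rw [fixO_eq (stepO_local hF A₀ n l m lo f x)]
  unfold stepO
  rw [keyOf_false]
  simp only
  rw [if_pos hw, if_pos hc, if_true]

theorem newO_tab {M : ℕ} (hM : n + l ≤ M) (hlo : lo + 2 ≤ 2 ^ l) (y : Str) :
    newO F A₀ n l m lo f x (true :: pairStr (kap n l lo M, y)) =
      F (newO F A₀ n l m lo f x) M y := by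
  have h1 : newO F A₀ n l m lo f x (true :: pairStr (kap n l lo M, y)) =
      stepO F A₀ n l m lo f x (newO F A₀ n l m lo f x) (true :: pairStr (kap n l lo M, y)) := by
    unfold newO
    exact fixO_eq (stepO_local hF A₀ n l m lo f x) _
  rw [h1]
  unfold stepO
  rw [keyOf_true]
  simp only [kap_length hM, colK_kap M hlo, or_true, if_true, List.tail_cons, unpairS_pairStr]
  rw [if_pos hM, if_neg (by simp)]
  simp

/-- active keys of high levels are in the columns up to `lo + 1` -/
theorem col_le_of_act (hx : ∀ p, lo ≤ p % 2 ^ l → x p = false) {w : Str} (hw : n + l ≤ w.length)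
    (h : newO F A₀ n l m lo f x (false :: w) = true) : colK n l w ≤ lo + 1 := by
  by_contra hc
  rw [newO_out hF (keyOf_false w) hw (by omega), hx _ (by rw [posn_mod]; omega)] at h
  exact absurd h (by simp)

omit hF in
theorem val_replicate_true : ∀ k : ℕ, val (List.replicate k true) + 1 = 2 ^ k
  | 0 => rfl
  | k + 1 => by
    have h := val_replicate_true k
    rw [List.replicate_succ, val, cond_true, List.length_replicate, pow_succ]
    omega

omit hF in
theorem val_split {w : Str} (hw : n + l ≤ w.length) :
    val w = (val (w.take n) * 2 ^ l + colK n l w) * 2 ^ (w.length - (n + l)) +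
      val (w.drop (n + l)) := by
  have h1 : val w = val (w.take n) * 2 ^ (w.drop n).length + val (w.drop n) := by
    rw [← val_append, List.take_append_drop]
  have h2 : val (w.drop n) = val ((w.drop n).take l) * 2 ^ ((w.drop n).drop l).length +
      val ((w.drop n).drop l) := by
    rw [← val_append, List.take_append_drop]
  have h3 : ((w.drop n).drop l).length = w.length - (n + l) := by
    rw [List.length_drop, List.length_drop]
    omega
  have h4 : (w.drop n).length = l + (w.length - (n + l)) := by
    rw [List.length_drop]
    omega
  rw [h1, h2, h3, h4, List.drop_drop, pow_add]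
  unfold colK
  ring

omit hF in
theorem val_le_kap {w : Str} (hw : n + l ≤ w.length) (hlo : lo + 2 ≤ 2 ^ l)
    (hc : colK n l w ≤ lo + 1) : val w ≤ val (kap n l lo w.length) := by
  have hk : n + l ≤ (kap n l lo w.length).length := by rw [kap_length hw]; exact hw
  rw [val_split hw, val_split hk, kap_length hw, colK_kap _ hlo]
  have h1 : (kap n l lo w.length).take n = List.replicate n true := by
    unfold kap
    rw [List.take_left' List.length_replicate]
  have h2 : (kap n l lo w.length).drop (n + l) = List.replicate (w.length - (n + l)) true := by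
    unfold kap
    rw [← List.append_assoc, List.drop_left']
    rw [List.length_append, List.length_replicate, bstr_length]
  rw [h1, h2]
  have h3 := val_replicate_true n
  have h4 := val_replicate_true (w.length - (n + l))
  have h5 : val (w.take n) ≤ val (List.replicate n true) := by
    have h6 := val_lt (w.take n)
    have h7 : (w.take n).length = n := by rw [List.length_take]; omega
    rw [h7] at h6
    omega
  have h6 : val (w.drop (n + l)) ≤ val (List.replicate (w.length - (n + l)) true) := by
    have h7 := val_lt (w.drop (n + l))
    rw [List.length_drop] at h7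
    omega
  exact Nat.add_le_add (Nat.mul_le_mul_right _ (Nat.add_le_add (Nat.mul_le_mul_right _ h5) hc)) h6

/-- the new oracle is valid -/
theorem newO_valid (hA₀ : ValidF F A₀) (hlo : lo + 2 ≤ 2 ^ l)
    (hx : ∀ p, lo ≤ p % 2 ^ l → x p = false) : ValidF F (newO F A₀ n l m lo f x) := by
  intro M
  by_cases hM : n + l ≤ M
  · refine ⟨kap n l lo M, kap_length hM, ?_, fun w' hw' h => ?_, newO_tab hF hM hlo⟩
    · rw [newO_act hF (by rw [kap_length hM]; exact hM) (Or.inr (colK_kap M hlo))]
      unfold actK
      rw [kap_length hM]
      simp
    · subst hw'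
      exact val_le_kap hM hlo (col_le_of_act hF hx hM h)
  · obtain ⟨w, hw, hact, hmax, htab⟩ := hA₀ M
    have hlow : ∀ w' : Str, w'.length = M → newO F A₀ n l m lo f x (false :: w') =
        A₀ (false :: w') := by
      intro w' hw'
      refine newO_low hF fun v hv => ?_
      rw [keyOf_false, Option.some.injEq] at hv
      rw [← hv]
      omega
    refine ⟨w, hw, by rw [hlow w hw, hact], fun w' hw' h => hmax w' hw' (by rw [← hlow w' hw', h]),
      fun y => ?_⟩
    have h1 : newO F A₀ n l m lo f x (true :: pairStr (w, y)) = A₀ (true :: pairStr (w, y)) := by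
      refine newO_low hF fun v hv => ?_
      rw [keyOf_true, Option.some.injEq] at hv
      rw [← hv]
      omega
    rw [h1, htab y]
    refine hF _ _ _ _ fun s hs => (newO_low hF fun v hv => ?_).symm
    have := keyOf_length hv
    omega

/-- the new oracle agrees with the old one at the short strings -/
theorem newO_short {s : Str} (hs : s.length ≤ n + l) : newO F A₀ n l m lo f x s = A₀ s :=
  newO_low hF fun w hw => by
    have := keyOf_length hw
    omega

/-- the new oracle belongs to the family, with bits changed only in the two free columns -/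
theorem newO_fam : ∃ x' : ℕ → Bool,
    (∀ p, p % 2 ^ l ≠ lo → p % 2 ^ l ≠ lo + 1 → x' p = x p) ∧
    fam A₀ n l x' = newO F A₀ n l m lo f x := by
  classical
  let x' : ℕ → Bool := fun p =>
    if h : ∃ s w, keyOf s = some w ∧ n + l ≤ w.length ∧ posn n l s w = p then
      newO F A₀ n l m lo f x h.choose else x p
  have hx' : ∀ s w, keyOf s = some w → n + l ≤ w.length →
      x' (posn n l s w) = newO F A₀ n l m lo f x s := by
    intro s w h1 h2
    have h : ∃ s' w', keyOf s' = some w' ∧ n + l ≤ w'.length ∧ posn n l s' w' = posn n l s w :=
      ⟨s, w, h1, h2, rfl⟩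
    simp only [x', dif_pos h]
    obtain ⟨w', _, _, h3⟩ := h.choose_spec
    rw [posn_inj h3]
  refine ⟨x', fun p h1 h2 => ?_, ?_⟩
  · by_cases h : ∃ s w, keyOf s = some w ∧ n + l ≤ w.length ∧ posn n l s w = p
    · obtain ⟨s, w, h3, h4, rfl⟩ := h
      rw [posn_mod] at h1 h2
      rw [hx' s w h3 h4, newO_out hF h3 h4 (by tauto)]
    · simp only [x', dif_neg h]
  · funext s
    unfold fam
    cases hk : keyOf s with
    | none =>
      simp only
      exact (newO_low hF fun w hw => by rw [hk] at hw; exact absurd hw (by simp)).symm
    | some w =>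
      simp only
      by_cases h1 : n + l ≤ w.length
      · rw [if_pos h1, hx' s w hk h1]
      · rw [if_neg h1]
        refine (newO_low hF fun v hv => ?_).symm
        rw [hk, Option.some.injEq] at hv
        rw [← hv]
        omega

/-- the parities of the maxima in the rows `i < m` -/
theorem newO_maxOdd (hm : m < 2 ^ n) (hlo : lo + 2 ≤ 2 ^ l)
    (hx : ∀ p, lo ≤ p % 2 ^ l → x p = false) {i : ℕ} (hi : i < m) :
    MaxOdd (fun w => newO F A₀ n l m lo f x (false :: (bstr n i ++ w))) l ↔ f i = true := by
  have hcol : ∀ w : Str, w.length = l → colK n l (bstr n i ++ w) = val w := by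
    intro w hw
    unfold colK
    rw [List.drop_left' (bstr_length n i), List.take_of_length_le (by omega)]
  have hlen : ∀ w : Str, w.length = l → n + l ≤ (bstr n i ++ w).length := by
    intro w hw
    rw [List.length_append, bstr_length, hw]
  obtain ⟨hc1, hc2⟩ := colf_spec lo f i
  have hcl : colf lo f i < 2 ^ l := by omega
  have hactive : ∀ w : Str, w.length = l → (val w = lo ∨ val w = lo + 1) →
      (newO F A₀ n l m lo f x (false :: (bstr n i ++ w)) = true ↔ w = bstr l (colf lo f i)) := by
    intro w hw hv
    rw [newO_act hF (hlen w hw) (by rw [hcol w hw]; exact hv)]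
    unfold actK
    rw [decide_eq_true_eq]
    constructor
    · rintro (h1 | ⟨i', hi', h1⟩)
      · exfalso
        unfold kap at h1
        have h2 := List.append_inj_left h1 (by rw [bstr_length, List.length_replicate])
        have h3 := congrArg val h2
        rw [val_bstr (by omega)] at h3
        have h4 := val_replicate_true n
        omega
      · have h2 := List.append_inj_left h1 (by rw [bstr_length, bstr_length])
        have h3 := List.append_inj_right h1 (by rw [bstr_length, bstr_length])
        have h4 := congrArg val h2
        rw [val_bstr (by omega), val_bstr (by omega)] at h4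
        rw [h3, h4]
    · intro h1
      exact Or.inr ⟨i, hi, by rw [h1]⟩
  have hmx : MaxOdd (fun w => newO F A₀ n l m lo f x (false :: (bstr n i ++ w))) l ↔
      (bstr l (colf lo f i)).getLastD false = true := by
    refine maxOdd_iff (bstr_length _ _) ?_ fun w hw h => ?_
    · exact (hactive _ (bstr_length _ _) (by rw [val_bstr hcl]; exact hc1)).2 rfl
    · by_cases hv : val w = lo ∨ val w = lo + 1
      · rw [(hactive w hw hv).1 h]
      · rw [val_bstr hcl]
        rw [newO_out hF (keyOf_false _) (hlen w hw) (by rw [hcol w hw]; exact hv)] at h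
        by_contra h1
        rw [hx _ (by rw [posn_mod, hcol w hw]; omega)] at h
        exact absurd h (by simp)
  rw [hmx, getLastD_eq, val_bstr hcl, decide_eq_true_eq, hc2]

end

end ORD
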