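import Pool.Agent.Work.MP_a81742_lc_or.Defs
import Pool.Agent.Work.MP_609cce_lc.OrcLoc

/-!
# An oracle with a tally part which lists good certificates

`B = A0 join T`, where the tally set `T` lists the bits of a pair of certificates which is good for
the verifier `e` at the length `n`.
-/

namespace ORTwo

open ORDist

/-- the language (indicator) of the tally set `T` -/
def tal (T : ℕ → Bool) (r : Str) : Bool :=
  decide (r = List.replicate r.length true) && T r.length

/-- the oracle `A0 join T` -/
def bld (A0 : Str → Bool) (T : ℕ → Bool) : Str → Bool := join A0 (tal T)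

theorem tal_replicate (T : ℕ → Bool) (j : ℕ) : tal T (List.replicate j true) = T j := by
  simp [tal]

/-- a pair of certificates of length `m` is good at the length `n` (for the verifier `M` with the
budget `t`) -/
def Good (B : Str → Bool) (M : OProc) (m t n : ℕ) (p : Str × Str) : Prop :=
  p.1.length = m ∧ p.2.length = m ∧ ∀ x y z : Str, x.length = n → y.length = m → z.length = m →
    sim B M (tripStr (x, p.1, z)) t [] = true ∨ sim B M (tripStr (x, y, p.2)) t [] = false

open Classical in
/-- a pair with the property `P`, if there is one -/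
noncomputable def pick (P : Str × Str → Prop) : Str × Str :=
  if h : ∃ p, P p then h.choose else ([], [])

theorem pick_spec {P : Str × Str → Prop} (h : ∃ p, P p) : P (pick P) := by
  unfold pick
  rw [dif_pos h]
  exact h.choose_spec

/-- the bits of the chosen good pair -/
noncomputable def bitsG (B : Str → Bool) (M : OProc) (m t n : ℕ) : Str :=
  (pick (Good B M m t n)).1 ++ (pick (Good B M m t n)).2

theorem good_congr {B B' : Str → Bool} {M : OProc} {m t n : ℕ}
    (h : ∀ q : Str, q.length < t → B q = B' q) : Good B M m t n = Good B' M m t n := by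
  funext p
  unfold Good
  have e : ∀ inp : Str, sim B M inp t [] = sim B' M inp t [] := fun inp => sim_congr M inp t [] h
  simp only [e]

theorem bitsG_congr {B B' : Str → Bool} {M : OProc} {m t n : ℕ}
    (h : ∀ q : Str, q.length < t → B q = B' q) : bitsG B M m t n = bitsG B' M m t n := by
  unfold bitsG
  rw [good_congr h]

/-- coding of the parameters (verifier, certificate length, budget, input length, position) -/
def cod (e m t n i : ℕ) : ℕ := Nat.pair e (Nat.pair m (Nat.pair t (Nat.pair n i)))

/-- the bit of the code `j` -/
noncomputable def bitJ (Mach : ℕ → OProc) (B : Str → Bool) (j : ℕ) : Bool :=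
  (bitsG B (Mach j.unpair.1) j.unpair.2.unpair.1 j.unpair.2.unpair.2.unpair.1
    j.unpair.2.unpair.2.unpair.2.unpair.1).getD j.unpair.2.unpair.2.unpair.2.unpair.2 false

theorem bitJ_cod (Mach : ℕ → OProc) (B : Str → Bool) (e m t n i : ℕ) :
    bitJ Mach B (cod e m t n i) = (bitsG B (Mach e) m t n).getD i false := by
  simp [bitJ, cod]

theorem bitJ_congr {Mach : ℕ → OProc} {B B' : Str → Bool} {j : ℕ}
    (h : ∀ q : Str, q.length < j → B q = B' q) : bitJ Mach B j = bitJ Mach B' j := by
  unfold bitJ
  rw [bitsG_congr]
  intro q hq
  refine h q (lt_of_lt_of_le hq ?_)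
  exact (Nat.unpair_left_le _).trans ((Nat.unpair_right_le _).trans (Nat.unpair_right_le _))

/-- the tally set -/
noncomputable def tT (Mach : ℕ → OProc) (A0 : Str → Bool) (j : ℕ) : Bool :=
  bitJ Mach (bld A0 fun k => if _h : k < j then tT Mach A0 k else false) j
termination_by j

/-- the oracle -/
noncomputable def orB (Mach : ℕ → OProc) (A0 : Str → Bool) : Str → Bool := bld A0 (tT Mach A0)

theorem bld_congr {A0 : Str → Bool} {T T' : ℕ → Bool} {j : ℕ} (h : ∀ k < j, T k = T' k)
    (q : Str) (hq : q.length ≤ j) : bld A0 T q = bld A0 T' q := by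
  match q with
  | [] => rfl
  | false :: q => rfl
  | true :: q =>
    show tal T q = tal T' q
    unfold tal
    rw [h _ (by rw [List.length_cons] at hq; omega)]

theorem tT_eq (Mach : ℕ → OProc) (A0 : Str → Bool) (j : ℕ) :
    tT Mach A0 j = bitJ Mach (orB Mach A0) j := by
  rw [tT.eq_def]
  refine bitJ_congr fun q hq => bld_congr (j := j) (fun k hk => ?_) q hq.le
  rw [dif_pos hk]

/-- the oracle lists the bits of the chosen good pair -/
theorem orB_cod (Mach : ℕ → OProc) (A0 : Str → Bool) (e m t n i : ℕ) :
    orB Mach A0 (true :: List.replicate (cod e m t n i) true) =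
      (bitsG (orB Mach A0) (Mach e) m t n).getD i false := by
  show tal (tT Mach A0) (List.replicate (cod e m t n i) true) = _
  rw [tal_replicate, tT_eq, bitJ_cod]

end ORTwo
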